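import Pool.Agent.Lib.MP_1024aa_co.Rows458
import Pool.Agent.Lib.MP_1024aa_co.HybWin4

/-! A table of nodes of the first stage. -/

set_option autoImplicit false
set_option maxRecDepth 100000
set_option exponentiation.threshold 100000

namespace Pool.Agent.Lib.MP_1024aa_co.Hyb4

def tab (_ _ : ℕ) : List Stat.Grp := Rows.t4n9m0

theorem tab_ok (m md : ℕ) : Glue.TabOK 4 (tab m md) := Rows.t4n9m0_ok

def blocks : List ℕ := [
  0x20000000023104000000000000031001000000000002310000010000400043100000104004000022000000000000100230000010000c0002220000000000c008013]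

def hb (j : ℕ) : ℕ := (getL (j / 64) blocks >>> (68 * (j % 64))) % 295147905179352825856

noncomputable def X : Ctx :=
  ⟨sh2, 9, Win4.tb, 1, hb, 8, Glue.swB tab 4 9 9 729,
    Glue.cmB tab 4 9 9 729⟩

def h0 : List ℕ := [
  0xb04600036000000000018600024000000000b2c100014,
  0xb0460004400000000012c600074000000000b04600044,
  0x3811810005600000002c118100044,
  0xe0460005400000000012c600074000000000118b00064000000000e04600054,
  0x4600008000000000118b00008000000000004600008,
  0x4600008000000000118b00008000000000010900008,
  0x118b00008000000000424e00008,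
  0x118b00008000000000118b00008]

theorem ok0 : fromH X 4 0 h0 = true := by decide +kernel

theorem len0 : h0.length = 8 := by decide +kernel

theorem all_ok : ∀ j < X.M, ∃ H, nodeH X 4 (X.hb j) H = true := by
  intro j (hj : j < 8)
  exact fromH_sound _ _ ok0 j (by omega) (by rw [len0]; omega)

theorem start : chkH X 1 0 4 (mvsZ (7 :: List.replicate 8 0)) 0x618100004 = true := by
  decide +kernel

theorem strat (n : ℕ) (h1 : 7 ≤ n) (h2 : n ≤ 9) (E : Finset (Sym2 (Fin n)))
    (hE : ∀ e, e ∈ E ↔ ¬ e.IsDiag) : Strat E Win (∅, ∅) :=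
  strat_of_table (Glue.ctx_ok (V := Fin n) (N := 9) (L := 729) X tab_ok (by omega)
    (by simpa using h2) (by decide +kernel) sh2_ok Win4.win rfl rfl) all_ok (by omega) (by omega)
    (by simpa using h1) start E hE

end Pool.Agent.Lib.MP_1024aa_co.Hyb4
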