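import Pool.Agent.Lib.MP_1024aa_co.Rows458
import Pool.Agent.Lib.MP_1024aa_co.HybWin5a

/-! A table of nodes of the first stage. -/

set_option autoImplicit false
set_option maxRecDepth 100000
set_option exponentiation.threshold 100000

namespace Pool.Agent.Lib.MP_1024aa_co.Hyb5a

def tab (_ md : ℕ) : List Stat.Grp := cond (Nat.beq md 0) Rows.t5n12m0 Rows.t5n12m2

theorem tab_ok (m md : ℕ) : Glue.TabOK 5 (tab m md) := by
  unfold tab
  cases Nat.beq md 0
  exacts [Rows.t5n12m2_ok, Rows.t5n12m0_ok]

def blocks : List ℕ := [
  0x200000000a7104000000000000a71000003000000048620000000000810446300000000000010a63040000000000008610000000000c00845300000500000000652000000000000108530000020000000c4530010000000000c65300000000008104653040000000000004510000020000c0044430000000000c00844300000300000104243001001000001042430000020000000c6430010000000000c443000004000080044330000020000c004433000004000000082330010020000000823300100400000004023000006000000042230000040000c00022300100600000000013]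

def hb (j : ℕ) : ℕ := (getL (j / 64) blocks >>> (68 * (j % 64))) % 295147905179352825856

noncomputable def X : Ctx :=
  ⟨sh2, 9, Win5a.tb, 3, hb, 27, Glue.swB tab 5 12 9 59049,
    Glue.cmB tab 5 12 9 59049⟩

def h0 : List ℕ := [
  0x2cb00014000000000018b00034000000000018b0002400000000212cb00014,
  0x2c60006400000000001860005400000000002c600064,
  0x18b0005400000000002cb00074,
  0x600054000000000018b00044000000000018b00054000000000018b00044,
  0x18b000a6000000000000600094000000000018b00084000000000018b00094000000000018b00084,
  0x18b000b6000000000018b00094000000000018b00094,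
  0x2c6000c4000000000018600094000000000018600094,
  0xb000d400000000002cb000d4000000000018600094,
  0x462c1000e6000000000000600124000000000018b00124000000000000000104,
  0x2cb000f6000000000018b00124000000000018b00124,
  0x18b0010500000000462c1000e400000000462c1000e400000000002cb000f400000000462c1000e4,
  0x18b0011500000000002cb000f400000000002cb000f4,
  0x6000f6000000000018600124000000000018600124,
  0x2c60014400000000001860011400000000012cb00134,
  0x118b00008000000000424e00008,
  0x1860016500000000462c10015400000000462c100154,
  0x462c100156000000000000600164000000000018b00164000000000080900164,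
  0x2cb00176000000000018b00164000000000018b00164,
  0x118100156000000000000000164,
  0x18b00184000000000018b00184,
  0x600176000000000018600164000000000018600164,
  0x118b00008000000000424e00008,
  0x118100196000000000000000010,
  0x1860001900000000462c10019400000000462c100194,
  0x12cb001a400000000012cb001a4,
  0x118b00008000000000424e00008,
  0x118b00008000000000118b00008]

theorem ok0 : fromH X 5 0 h0 = true := by decide +kernel

theorem len0 : h0.length = 27 := by decide +kernel

theorem all_ok : ∀ j < X.M, ∃ H, nodeH X 5 (X.hb j) H = true := by
  intro j (hj : j < 27)
  exact fromH_sound _ _ ok0 j (by omega) (by rw [len0]; omega)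

theorem start : chkH X 1 0 5 (mvsZ (10 :: List.replicate 8 0)) 0x38118100006 = true := by
  decide +kernel

theorem strat (n : ℕ) (h1 : 10 ≤ n) (h2 : n ≤ 12) (E : Finset (Sym2 (Fin n)))
    (hE : ∀ e, e ∈ E ↔ ¬ e.IsDiag) : Strat E Win (∅, ∅) :=
  strat_of_table (Glue.ctx_ok (V := Fin n) (N := 12) (L := 59049) X tab_ok (by omega)
    (by simpa using h2) (by decide +kernel) sh2_ok Win5a.win rfl rfl) all_ok (by omega) (by omega)
    (by simpa using h1) start E hE

end Pool.Agent.Lib.MP_1024aa_co.Hyb5a
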