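import Pool.Agent.Lib.MP_1024aa_co.Zone5

/-! A table of winning states of the building game. -/

set_option autoImplicit false
set_option maxRecDepth 100000
set_option exponentiation.threshold 100000

namespace Pool.Agent.Lib.MP_1024aa_co.Win5b

def blocks : List ℕ := [
  0x0]

def tb (j : ℕ) : ℕ := (getL (j / 64) blocks >>> (66 * (j % 64))) % 73786976294838206464

def h0 : List ℕ := [
  0x0]

theorem ok0 : chkFrom sh2 9 tb 1 0 h0 = true := by decide +kernel

theorem len0 : h0.length = 1 := by decide +kernel

theorem all_ok : ∀ j < 1, ∃ H, chkEntry sh2 9 tb 1 j H = true := by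
  intro j hj
  exact chkFrom_sound _ _ ok0 j (by omega) (by rw [len0]; omega)

theorem win (j : ℕ) (hj : j < 1) : WinB (recT (tb j)) (recR (tb j), toM (recL 9 (tb j))) :=
  table_sound sh2_ok all_ok _ j hj le_rfl

end Pool.Agent.Lib.MP_1024aa_co.Win5b
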