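import Pool.Agent.Lib.MP_1024aa_co.Rows458
import Pool.Agent.Lib.MP_1024aa_co.HybWin5b

/-! A table of nodes of the first stage. -/

set_option autoImplicit false
set_option maxRecDepth 100000
set_option exponentiation.threshold 100000

namespace Pool.Agent.Lib.MP_1024aa_co.Hyb5b

def tab (_ _ : ℕ) : List Stat.Grp := Rows.t5n16m0

theorem tab_ok (m md : ℕ) : Glue.TabOK 5 (tab m md) := Rows.t5n16m0_ok

def blocks : List ℕ := [
  0x200000000c71040000000000006710010000000000067100000000000010663040000000000006610000020000000086100000300000004a62000001040040006620400010000000446200100004000000462000000000081044530000000000001065300000300000004852000000040081004530000000000c0086530400010000000465204000300000000252041001000000002520000000000c0084430000020000000c4430000050000000064204000300000000242000000000180004430000000000401824400000208000004043000002040000084430000020000c0044330000000000c10c0340000020400c00023300000000014108024000000000100102240000000001c008014]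

def hb (j : ℕ) : ℕ := (getL (j / 64) blocks >>> (68 * (j % 64))) % 295147905179352825856

noncomputable def X : Ctx :=
  ⟨sh2, 9, Win5b.tb, 1, hb, 32, Glue.swB tab 5 16 9 59049,
    Glue.cmB tab 5 16 9 59049⟩

def h0 : List ℕ := [
  0x18600026000000000018600014000000000018600014,
  0xb2c100036000000000b18100054000000000b18100054,
  0x18600044000000000018600044000000000b2c100034000000000b2c100034,
  0x12c6000a400000000002cb00094000000000018600064000000000018600064,
  0x1860008500000000062c100076000000000618100064000000000618100064,
  0x2c6000d40000000000186000c400000000012cb000b4,
  0x2cb00126000000000604b0010400000000002cb00114000000000604b00104,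
  0x12c8000e400000000012cb000f400000000012c8000e4,
  0x4b181000f6000000000618100114000000000618100114,
  0x18600114000000000018600114,
  0x18b00134000000000018b00104000000000018b00104,
  0x18b00134000000000018b00134,
  0x2cb00156000000000018b00144000000000018b00144,
  0x600156000000000018600144000000000018600144,
  0x34b00184000000000000600174000000000038d00164000000000018b00174000000000038d00164,
  0x18b00194000000000018b00174000000000018b00174,
  0x12cb001a4000000000134e001b4000000000138b001a4,
  0xb046001860000000000186001c4000000000018100194,
  0xb04600184000000000e04600164000000000320600184,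
  0x12cb001a4000000000000000194,
  0x1181001b60000000001181001a4,
  0x186001c500000000462c1001b400000000002c100184,
  0xe046001d4000000000118b001e40000000001346001e40000000004248001d4,
  0x12cb001f4000000000134e001e4000000000134e001e4,
  0xe046001d400000000012c6001f4000000000118b001e400000000032c8001f4,
  0x12cb001f400000000012cb001f4,
  0x118b000080000000000000001f4,
  0x118b00008000000000424e00008,
  0x381181001d60000000001181001f4,
  0x4600008000000000118b00008000000000010900008,
  0x118b00008000000000424e00008,
  0x118b00008000000000118b00008]

theorem ok0 : fromH X 5 0 h0 = true := by decide +kernel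

theorem len0 : h0.length = 32 := by decide +kernel

theorem all_ok : ∀ j < X.M, ∃ H, nodeH X 5 (X.hb j) H = true := by
  intro j (hj : j < 32)
  exact fromH_sound _ _ ok0 j (by omega) (by rw [len0]; omega)

theorem start : chkH X 1 0 5 (mvsZ (11 :: List.replicate 8 0)) 0x618100004 = true := by
  decide +kernel

theorem strat (n : ℕ) (h1 : 11 ≤ n) (h2 : n ≤ 16) (E : Finset (Sym2 (Fin n)))
    (hE : ∀ e, e ∈ E ↔ ¬ e.IsDiag) : Strat E Win (∅, ∅) :=
  strat_of_table (Glue.ctx_ok (V := Fin n) (N := 16) (L := 59049) X tab_ok (by omega)
    (by simpa using h2) (by decide +kernel) sh2_ok Win5b.win rfl rfl) all_ok (by omega) (by omega)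
    (by simpa using h1) start E hE

end Pool.Agent.Lib.MP_1024aa_co.Hyb5b
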