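import Pool.Agent.Lib.MP_1024aa_co.Rows458
import Pool.Agent.Lib.MP_1024aa_co.HybWin8

/-! A table of nodes of the first stage. -/

set_option autoImplicit false
set_option maxRecDepth 100000
set_option exponentiation.threshold 100000

namespace Pool.Agent.Lib.MP_1024aa_co.Hyb8

def tab (_ md : ℕ) : List Stat.Grp := cond (Nat.beq md 0) Rows.t8n50m0 Rows.t8n50m2

theorem tab_ok (m md : ℕ) : Glue.TabOK 8 (tab m md) := by
  unfold tab
  cases Nat.beq md 0
  exacts [Rows.t8n50m2_ok, Rows.t8n50m0_ok]

def blocks : List ℕ := [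
  0x1e0000000422600101c0000000422600101e00000000016]

def hb (j : ℕ) : ℕ := (getL (j / 64) blocks >>> (68 * (j % 64))) % 295147905179352825856

noncomputable def X : Ctx :=
  ⟨sh2, 9, Win8.tb, 576, hb, 3, Glue.swB tab 8 50 9 22876792454961,
    Glue.cmB tab 8 50 9 22876792454961⟩

def h0 : List ℕ := [
  0x600024000000000018b00014000000000018b00024000000000018b00014,
  0x2cb00018000000000018b00038000000000018b0002800000000212cb00018,
  0x18b00028000000000018b00028]

theorem ok0 : fromH X 8 0 h0 = true := by decide +kernel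

theorem len0 : h0.length = 3 := by decide +kernel

theorem all_ok : ∀ j < X.M, ∃ H, nodeH X 8 (X.hb j) H = true := by
  intro j (hj : j < 3)
  exact fromH_sound _ _ ok0 j (by omega) (by rw [len0]; omega)

theorem start : chkH X 1 0 8 (mvsZ (34 :: List.replicate 8 0)) 0x38118100006 = true := by
  decide +kernel

theorem strat (n : ℕ) (h1 : 34 ≤ n) (h2 : n ≤ 50) (E : Finset (Sym2 (Fin n)))
    (hE : ∀ e, e ∈ E ↔ ¬ e.IsDiag) : Strat E Win (∅, ∅) :=
  strat_of_table (Glue.ctx_ok (V := Fin n) (N := 50) (L := 22876792454961) X tab_ok (by omega)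
    (by simpa using h2) (by decide +kernel) sh2_ok Win8.win rfl rfl) all_ok (by omega) (by omega)
    (by simpa using h1) start E hE

end Pool.Agent.Lib.MP_1024aa_co.Hyb8
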