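import Mathlib

/-!
A combined potential for the biased game in which the first player claims one element and the
second player two elements per turn.
-/

set_option autoImplicit false

open Finset

namespace Pool.Agent.Lib.MP_1024aa_co

variable {α ι : Type*} [DecidableEq α]

/-- The weight of one test set. -/
noncomputable def wt (A : Finset α) (c d : ℝ) (R B : Finset α) : ℝ :=
  c * (1 + 2 * d) ^ (R ∩ A).card * (1 - d) ^ (B ∩ A).card

theorem wt_nonneg (A : Finset α) {c d : ℝ} (hc : 0 ≤ c) (hd : 0 ≤ d) (hd1 : d ≤ 1)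
    (R B : Finset α) : 0 ≤ wt A c d R B := by
  unfold wt
  have : 0 ≤ 1 - d := by linarith
  positivity

theorem card_insert_inter (A R : Finset α) (e : α) (he : e ∉ R) :
    (insert e R ∩ A).card = (R ∩ A).card + if e ∈ A then 1 else 0 := by
  split_ifs with h
  · rw [insert_inter_of_mem h, card_insert_of_notMem]
    simp [he]
  · rw [insert_inter_of_notMem h, add_zero]

theorem wt_red (A : Finset α) (c d : ℝ) (R B : Finset α) (e : α) (he : e ∉ R) :
    wt A c d (insert e R) B = wt A c d R B + 2 * (if e ∈ A then d * wt A c d R B else 0) := by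
  unfold wt
  rw [card_insert_inter A R e he]
  split_ifs
  · ring
  · ring

theorem wt_blue (A : Finset α) (c d : ℝ) (R B : Finset α) (e : α) (he : e ∉ B) :
    wt A c d R (insert e B) = wt A c d R B - (if e ∈ A then d * wt A c d R B else 0) := by
  unfold wt
  rw [card_insert_inter A B e he]
  split_ifs
  · ring
  · ring

/-- The data of a family of tests. -/
structure Tests (α ι : Type*) where
  I : Finset ι
  A : ι → Finset α
  c : ι → ℝ
  d : ι → ℝ
  hc : ∀ i, 0 ≤ c i
  hd : ∀ i, 0 ≤ d i
  hd1 : ∀ i, d i ≤ 1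

/-- The potential. -/
noncomputable def Tests.Phi (t : Tests α ι) (R B : Finset α) : ℝ :=
  ∑ i ∈ t.I, wt (t.A i) (t.c i) (t.d i) R B

/-- The danger of an element. -/
noncomputable def Tests.D (t : Tests α ι) (R B : Finset α) (e : α) : ℝ :=
  ∑ i ∈ t.I, if e ∈ t.A i then t.d i * wt (t.A i) (t.c i) (t.d i) R B else 0

theorem Tests.D_nonneg (t : Tests α ι) (R B : Finset α) (e : α) : 0 ≤ t.D R B e := by
  apply sum_nonneg
  intro i _
  split_ifs
  · exact mul_nonneg (t.hd i) (wt_nonneg _ (t.hc i) (t.hd i) (t.hd1 i) _ _)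
  · exact le_rfl

theorem Tests.Phi_red (t : Tests α ι) (R B : Finset α) (e : α) (he : e ∉ R) :
    t.Phi (insert e R) B = t.Phi R B + 2 * t.D R B e := by
  unfold Tests.Phi Tests.D
  rw [mul_sum, ← sum_add_distrib]
  exact sum_congr rfl fun i _ => wt_red _ _ _ _ _ _ he

theorem Tests.Phi_blue (t : Tests α ι) (R B : Finset α) (e : α) (he : e ∉ B) :
    t.Phi R (insert e B) = t.Phi R B - t.D R B e := by
  unfold Tests.Phi Tests.D
  rw [← sum_sub_distrib]
  exact sum_congr rfl fun i _ => wt_blue _ _ _ _ _ _ he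

theorem Tests.D_blue (t : Tests α ι) (R B : Finset α) (e f : α) (he : e ∉ B) :
    t.D R (insert e B) f ≤ t.D R B f := by
  unfold Tests.D
  apply sum_le_sum
  intro i _
  split_ifs
  · apply mul_le_mul_of_nonneg_left _ (t.hd i)
    rw [wt_blue _ _ _ _ _ _ he]
    have := mul_nonneg (t.hd i) (wt_nonneg (t.A i) (t.hc i) (t.hd i) (t.hd1 i) R B)
    split_ifs
    · linarith
    · linarith
  · exact le_rfl

theorem Tests.wt_le_Phi (t : Tests α ι) (R B : Finset α) (i : ι) (hi : i ∈ t.I) :
    wt (t.A i) (t.c i) (t.d i) R B ≤ t.Phi R B :=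
  single_le_sum (f := fun i => wt (t.A i) (t.c i) (t.d i) R B)
    (fun j _ => wt_nonneg _ (t.hc j) (t.hd j) (t.hd1 j) _ _) hi

theorem Tests.init (t : Tests α ι) (h : 3 * ∑ i ∈ t.I, t.c i < 1) :
    t.Phi ∅ ∅ < 1 ∧ ∀ e : α, t.Phi (insert e ∅) ∅ < 1 := by
  have h0 : 0 ≤ ∑ i ∈ t.I, t.c i := sum_nonneg fun i _ => t.hc i
  have h1 : t.Phi ∅ ∅ = ∑ i ∈ t.I, t.c i := by
    unfold Tests.Phi wt
    simp
  refine ⟨by linarith, fun e => ?_⟩
  rw [t.Phi_red _ _ _ (notMem_empty e), h1]
  have h2 : t.D ∅ ∅ e ≤ ∑ i ∈ t.I, t.c i := by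
    unfold Tests.D wt
    apply sum_le_sum
    intro i _
    have := t.hc i
    have := t.hd1 i
    have := t.hd i
    split_ifs
    · simp only [empty_inter, card_empty, pow_zero, mul_one]
      nlinarith
    · assumption
  linarith

/-- The second player keeps the potential below one. -/
theorem Tests.strategy (t : Tests α ι) (h : 3 * ∑ i ∈ t.I, t.c i < 1) (E : Finset α)
    (Win : Finset α → Finset α → Prop)
    (hW : ∀ R B : Finset α, Disjoint R B → R ∪ B = E → t.Phi R B < 1 → Win R B) :
    ∃ S : Set (Finset α × Finset α), ((∅ : Finset α), (∅ : Finset α)) ∈ S ∧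
      ∀ p ∈ S, (p.1 ∪ p.2 = E → Win p.1 p.2) ∧
        (∀ e ∈ E, e ∉ p.1 → e ∉ p.2 →
          (insert e p.1 ∪ p.2 = E → Win (insert e p.1) p.2) ∧
          (insert e p.1 ∪ p.2 ≠ E →
            ∃ T : Finset α, T ⊆ E ∧ Disjoint T (insert e p.1 ∪ p.2) ∧
              T.card = min 2 (E.card - (insert e p.1 ∪ p.2).card) ∧
              (insert e p.1, p.2 ∪ T) ∈ S)) := by
  refine ⟨{p | p.1 ⊆ E ∧ p.2 ⊆ E ∧ Disjoint p.1 p.2 ∧ t.Phi p.1 p.2 < 1 ∧
    ∀ f ∈ E, f ∉ p.1 → f ∉ p.2 → t.Phi (insert f p.1) p.2 < 1}, ?_, ?_⟩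
  · exact ⟨empty_subset _, empty_subset _, disjoint_empty_left _, (t.init h).1,
      fun f _ _ _ => (t.init h).2 f⟩
  rintro ⟨R, B⟩ ⟨hR, hB, hRB, hP, hF⟩
  dsimp only at hR hB hRB hP hF ⊢
  refine ⟨fun hE => hW R B hRB hE hP, fun e he heR heB => ?_⟩
  have hd' : Disjoint (insert e R) B := by
    rw [disjoint_insert_left]
    exact ⟨heB, hRB⟩
  have hR' : insert e R ⊆ E := insert_subset he hR
  have hP' := hF e he heR heB
  refine ⟨fun hE => hW _ B hd' hE hP', fun hE => ?_⟩
  set R' := insert e R with hR'def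
  have hsub : R' ∪ B ⊆ E := union_subset hR' hB
  set F := E \ (R' ∪ B) with hFdef
  have hFcard : F.card = E.card - (R' ∪ B).card := card_sdiff_of_subset hsub
  have hFne : F.Nonempty := by
    rw [hFdef, sdiff_nonempty]
    intro hc
    exact hE (Subset.antisymm hsub hc)
  obtain ⟨e1, he1, hmax1⟩ := exists_max_image F (t.D R' B) hFne
  have he1' := mem_sdiff.1 he1
  have he1B : e1 ∉ B := fun hc => he1'.2 (mem_union_right _ hc)
  have he1R : e1 ∉ R' := fun hc => he1'.2 (mem_union_left _ hc)
  by_cases hF2 : (F.erase e1).Nonempty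
  · obtain ⟨e2, he2, hmax2⟩ := exists_max_image (F.erase e1) (t.D R' (insert e1 B)) hF2
    have hne : e2 ≠ e1 := (mem_erase.1 he2).1
    have he2F : e2 ∈ F := (mem_erase.1 he2).2
    have he2' := mem_sdiff.1 he2F
    have he2B : e2 ∉ insert e1 B := by
      rw [mem_insert, not_or]
      exact ⟨hne, fun hc => he2'.2 (mem_union_right _ hc)⟩
    have he2R : e2 ∉ R' := fun hc => he2'.2 (mem_union_left _ hc)
    have hU : B ∪ {e1, e2} = insert e2 (insert e1 B) := by
      ext x
      simp only [mem_union, mem_insert, mem_singleton]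
      tauto
    have hPhi : t.Phi R' (insert e2 (insert e1 B)) =
        t.Phi R' B - t.D R' B e1 - t.D R' (insert e1 B) e2 := by
      rw [t.Phi_blue _ _ _ he2B, t.Phi_blue _ _ _ he1B]
    refine ⟨{e1, e2}, ?_, ?_, ?_, ?_⟩
    · intro x hx
      rcases mem_insert.1 hx with rfl | hx
      · exact he1'.1
      · rw [mem_singleton.1 hx]
        exact he2'.1
    · rw [disjoint_insert_left, disjoint_singleton_left]
      exact ⟨he1'.2, he2'.2⟩
    · rw [card_pair hne.symm, ← hFcard]
      have : 2 ≤ F.card := by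
        have h1 := card_erase_of_mem he1
        have h2 := hF2.card_pos
        omega
      omega
    · rw [hU]
      refine ⟨hR', insert_subset he2'.1 (insert_subset he1'.1 hB), ?_, ?_, ?_⟩
      · dsimp only
        rw [disjoint_insert_right, disjoint_insert_right]
        exact ⟨he2R, he1R, hd'⟩
      · dsimp only
        have := t.D_nonneg R' B e1
        have := t.D_nonneg R' (insert e1 B) e2
        linarith
      · intro f hf hfR hfB
        dsimp only at hfR hfB ⊢
        rw [t.Phi_red _ _ _ hfR, hPhi]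
        have hfB' : f ≠ e2 ∧ f ≠ e1 ∧ f ∉ B := by
          simpa only [mem_insert, not_or] using hfB
        have hfF : f ∈ F := by
          rw [hFdef, mem_sdiff, mem_union, not_or]
          exact ⟨hf, hfR, hfB'.2.2⟩
        have h1 := t.D_blue R' (insert e1 B) e2 f he2B
        have h2 := t.D_blue R' B e1 f he1B
        have h3 := hmax1 f hfF
        have h4 := hmax2 f (mem_erase.2 ⟨hfB'.2.1, hfF⟩)
        linarith
  · have hFe : F = {e1} := by
      rw [not_nonempty_iff_eq_empty] at hF2
      rw [← insert_erase he1, hF2]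
      rfl
    have hU : B ∪ {e1} = insert e1 B := by
      ext x
      simp only [mem_union, mem_insert, mem_singleton]
      tauto
    refine ⟨{e1}, singleton_subset_iff.2 he1'.1, disjoint_singleton_left.2 he1'.2, ?_, ?_⟩
    · rw [← hFcard, hFe]
      simp
    · rw [hU]
      refine ⟨hR', insert_subset he1'.1 hB, ?_, ?_, ?_⟩
      · dsimp only
        rw [disjoint_insert_right]
        exact ⟨he1R, hd'⟩
      · dsimp only
        rw [t.Phi_blue _ _ _ he1B]
        have := t.D_nonneg R' B e1
        linarith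
      · intro f hf hfR hfB
        dsimp only at hfR hfB
        exfalso
        have hfB' : f ≠ e1 ∧ f ∉ B := by
          simpa only [mem_insert, not_or] using hfB
        have hfF : f ∈ F := by
          rw [hFdef, mem_sdiff, mem_union, not_or]
          exact ⟨hf, hfR, hfB'.2⟩
        rw [hFe, mem_singleton] at hfF
        exact hfB'.1 hfF

end Pool.Agent.Lib.MP_1024aa_co
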