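import Mathlib
import Pool.Agent.Lib.MP_1024aa_co.Potential

/-!
The tests for the clique game, and the greedy clique.
-/

set_option autoImplicit false

open Finset

namespace Pool.Agent.Lib.MP_1024aa_co

variable {V : Type*} [DecidableEq V]

/-- The edges inside a vertex set. -/
def inner (T : Finset V) : Finset (Sym2 V) := T.offDiag.image Sym2.mk.uncurry

theorem card_inner (T : Finset V) : (inner T).card = T.card.choose 2 :=
  Sym2.card_image_offDiag T

theorem mem_inner {T : Finset V} {e : Sym2 V} :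
    e ∈ inner T ↔ ∃ u ∈ T, ∃ v ∈ T, u ≠ v ∧ s(u, v) = e := by
  unfold inner
  simp only [mem_image, mem_offDiag, Prod.exists, Function.uncurry_apply_pair]
  constructor
  · rintro ⟨u, v, ⟨hu, hv, huv⟩, rfl⟩
    exact ⟨u, hu, v, hv, huv, rfl⟩
  · rintro ⟨u, hu, v, hv, huv, rfl⟩
    exact ⟨u, v, ⟨hu, hv, huv⟩, rfl⟩

theorem exists_vertex (B : Finset (Sym2 V)) (T : Finset V)
    (h : 3 * T.card.choose 2 < 5 * (B ∩ inner T).card) :
    ∃ v ∈ T, 3 * (T.card + 1) ≤ 5 * ((T.filter fun u => u ≠ v ∧ s(v, u) ∈ B).card + 1) := by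
  classical
  by_contra hcon
  push Not at hcon
  have key := card_mul_le_card_mul (s := B ∩ inner T) (t := T) (fun e v => v ∈ e)
    (m := 2) (n := (3 * T.card - 3) / 5) (by
      intro e he
      obtain ⟨u, hu, v, hv, huv, rfl⟩ := mem_inner.1 (mem_inter.1 he).2
      rw [← card_pair huv]
      apply card_le_card
      intro x hx
      rw [mem_bipartiteAbove]
      rcases mem_insert.1 hx with rfl | hx
      · exact ⟨hu, Sym2.mem_mk_left _ _⟩
      · rw [mem_singleton.1 hx]
        exact ⟨hv, Sym2.mem_mk_right _ _⟩) (by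
      intro v hv
      have h1 := hcon v hv
      have h2 : ((B ∩ inner T).bipartiteBelow (fun e v => v ∈ e) v).card ≤
          (T.filter fun u => u ≠ v ∧ s(v, u) ∈ B).card := by
        refine le_trans (card_le_card ?_) (card_image_le (f := fun u => s(v, u)))
        intro e he
        rw [mem_bipartiteBelow] at he
        obtain ⟨he1, he2⟩ := he
        obtain ⟨heB, heT⟩ := mem_inter.1 he1
        obtain ⟨a, ha, b, hb, hab, rfl⟩ := mem_inner.1 heT
        rw [mem_image]
        rcases Sym2.mem_iff.1 he2 with rfl | rfl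
        · exact ⟨b, mem_filter.2 ⟨hb, hab.symm, heB⟩, rfl⟩
        · refine ⟨a, mem_filter.2 ⟨ha, hab, ?_⟩, Sym2.eq_swap⟩
          rw [Sym2.eq_swap]
          exact heB
      omega)
  have h3 : 2 * T.card.choose 2 = T.card * (T.card - 1) := by
    rw [Nat.choose_two_right]
    exact Nat.mul_div_cancel' (Nat.even_mul_pred_self _).two_dvd
  have h4 : 5 * ((3 * T.card - 3) / 5) ≤ 3 * (T.card - 1) := by omega
  nlinarith

theorem greedy (B : Finset (Sym2 V)) (s : ℕ) (hs : 1 ≤ s)
    (h : ∀ T : Finset V, s ≤ T.card → 3 * T.card.choose 2 < 5 * (B ∩ inner T).card) (j : ℕ) :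
    ∀ T : Finset V, (s + 1) * 5 ^ j ≤ (T.card + 1) * 3 ^ j →
      ∃ K : Finset V, K ⊆ T ∧ K.card = j + 1 ∧ ∀ u ∈ K, ∀ v ∈ K, u ≠ v → s(u, v) ∈ B := by
  induction j with
  | zero =>
    intro T hT
    have : 0 < T.card := by simp only [pow_zero, mul_one] at hT; omega
    obtain ⟨v, hv⟩ := card_pos.1 this
    refine ⟨{v}, singleton_subset_iff.2 hv, rfl, ?_⟩
    intro u hu w hw huw
    rw [mem_singleton] at hu hw
    exact absurd (hu.trans hw.symm) huw
  | succ j ih =>
    intro T hT
    have hsT : s ≤ T.card := by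
      have h1 : 3 ^ (j + 1) ≤ 5 ^ (j + 1) := Nat.pow_le_pow_left (by norm_num) _
      have h2 : (s + 1) * 3 ^ (j + 1) ≤ (T.card + 1) * 3 ^ (j + 1) :=
        le_trans (Nat.mul_le_mul_left _ h1) hT
      have h3 := Nat.le_of_mul_le_mul_right h2 (by positivity)
      omega
    obtain ⟨v, hv, hdeg⟩ := exists_vertex B T (h T hsT)
    obtain ⟨K, hK, hKc, hKB⟩ := ih (T.filter fun u => u ≠ v ∧ s(v, u) ∈ B) (by
      have h1 : 3 * (T.card + 1) * 3 ^ j ≤
          5 * ((T.filter fun u => u ≠ v ∧ s(v, u) ∈ B).card + 1) * 3 ^ j :=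
        Nat.mul_le_mul_right _ hdeg
      rw [pow_succ, pow_succ] at hT
      nlinarith)
    have hvK : v ∉ K := fun hc => (mem_filter.1 (hK hc)).2.1 rfl
    refine ⟨insert v K, insert_subset hv (hK.trans (filter_subset _ _)), ?_, ?_⟩
    · rw [card_insert_of_notMem hvK, hKc]
    · intro a ha b hb hab
      rcases mem_insert.1 ha with rfl | ha'
      · rcases mem_insert.1 hb with rfl | hb'
        · exact absurd rfl hab
        · exact (mem_filter.1 (hK hb')).2.2
      · rcases mem_insert.1 hb with rfl | hb'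
        · rw [Sym2.eq_swap]
          exact (mem_filter.1 (hK ha')).2.2
        · exact hKB a ha' b hb' hab

/-- The tests: cliques of size `k`, and the density inside all sets of size at least `s`. -/
noncomputable def tests (V : Type*) [DecidableEq V] [Fintype V] (k s : ℕ) :
    Tests (Sym2 V) (Bool × Finset V) where
  I := univ
  A := fun i => inner i.2
  c := fun i => if i.1 then (if i.2.card = k then (1 / 3 : ℝ) ^ (k.choose 2) else 0)
    else (if s ≤ i.2.card then (1000 / 1009 : ℝ) ^ (i.2.card.choose 2) else 0)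
  d := fun i => if i.1 then 1 else 1 / 10
  hc := by
    intro i
    split_ifs <;> positivity
  hd := by
    intro i
    split_ifs <;> norm_num
  hd1 := by
    intro i
    split_ifs <;> norm_num

theorem density_aux (r b : ℕ) (h : 2 * b ≤ 3 * r) :
    1 ≤ (1000 / 1009 : ℝ) ^ (r + b) * (1 + 2 * (1 / 10)) ^ r * (1 - 1 / 10) ^ b := by
  have e : (1000 / 1009 : ℝ) ^ (r + b) * (1 + 2 * (1 / 10)) ^ r * (1 - 1 / 10) ^ b =
      (1200 / 1009 : ℝ) ^ r * (900 / 1009 : ℝ) ^ b := by
    rw [pow_add, show (1200 / 1009 : ℝ) = 1000 / 1009 * (1 + 2 * (1 / 10)) by norm_num,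
      show (900 / 1009 : ℝ) = 1000 / 1009 * (1 - 1 / 10) by norm_num, mul_pow, mul_pow]
    ring
  rw [e]
  by_contra hc
  push Not at hc
  have h1 : ((1200 / 1009 : ℝ) ^ r * (900 / 1009 : ℝ) ^ b) ^ 3 < 1 :=
    pow_lt_one₀ (by positivity) hc (by norm_num)
  have h2 : (1200 / 1009 : ℝ) ^ (2 * b) ≤ (1200 / 1009 : ℝ) ^ (3 * r) :=
    pow_le_pow_right₀ (by norm_num) h
  have h3 : 1 ≤ ((1200 / 1009 : ℝ) ^ 2 * (900 / 1009 : ℝ) ^ 3) ^ b :=
    one_le_pow₀ (by norm_num)
  have h4 : ((1200 / 1009 : ℝ) ^ r * (900 / 1009 : ℝ) ^ b) ^ 3 =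
      (1200 / 1009 : ℝ) ^ (3 * r) * (900 / 1009 : ℝ) ^ (3 * b) := by
    rw [mul_pow, ← pow_mul, ← pow_mul, mul_comm r, mul_comm b]
  have h5 : ((1200 / 1009 : ℝ) ^ 2 * (900 / 1009 : ℝ) ^ 3) ^ b =
      (1200 / 1009 : ℝ) ^ (2 * b) * (900 / 1009 : ℝ) ^ (3 * b) := by
    rw [mul_pow, ← pow_mul, ← pow_mul]
  have h6 : (1200 / 1009 : ℝ) ^ (2 * b) * (900 / 1009 : ℝ) ^ (3 * b) ≤
      (1200 / 1009 : ℝ) ^ (3 * r) * (900 / 1009 : ℝ) ^ (3 * b) :=
    mul_le_mul_of_nonneg_right h2 (by positivity)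
  linarith

theorem sum_c_le [Fintype V] (h σ : ℕ) (hh : 2 ≤ h) (h1 : 2 * Fintype.card V ≤ 3 ^ h)
    (h2 : (Fintype.card V : ℝ) * (1000 / 1009 : ℝ) ^ σ ≤ 1 / 10) :
    3 * ∑ i ∈ (tests V (2 * h + 1) (2 * σ + 1)).I, (tests V (2 * h + 1) (2 * σ + 1)).c i < 1 := by
  change 3 * ∑ i : Bool × Finset V, (tests V (2 * h + 1) (2 * σ + 1)).c i < 1
  rw [Fintype.sum_prod_type, Fintype.sum_bool]
  simp only [tests, if_true, Bool.false_eq_true, if_false]
  set n := Fintype.card V with hn
  have hA : ∑ T : Finset V, (if T.card = 2 * h + 1 then (1 / 3 : ℝ) ^ ((2 * h + 1).choose 2)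
      else 0) ≤ 1 / 16 := by
    rw [← sum_filter, sum_const, nsmul_eq_mul]
    have e1 : (univ.filter fun T : Finset V => T.card = 2 * h + 1).card = n.choose (2 * h + 1) := by
      rw [hn, ← card_univ, ← card_powersetCard]
      congr 1
      ext T
      simp [mem_powersetCard]
    have e2 : (2 * h + 1).choose 2 = h * (2 * h + 1) := by
      rw [Nat.choose_two_right]
      simp only [Nat.add_sub_cancel]
      rw [show (2 * h + 1) * (2 * h) = 2 * (h * (2 * h + 1)) by ring]
      simp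
    rw [e1, e2, pow_mul]
    have h3 : (n.choose (2 * h + 1) : ℝ) ≤ (n : ℝ) ^ (2 * h + 1) := by
      exact_mod_cast Nat.choose_le_pow n (2 * h + 1)
    have h4 : (n : ℝ) * (1 / 3 : ℝ) ^ h ≤ 1 / 2 := by
      have h5 : (2 * n : ℝ) ≤ 3 ^ h := by exact_mod_cast h1
      rw [one_div_pow, mul_one_div, div_le_iff₀ (by positivity)]
      linarith
    calc (n.choose (2 * h + 1) : ℝ) * ((1 / 3 : ℝ) ^ h) ^ (2 * h + 1)
        ≤ (n : ℝ) ^ (2 * h + 1) * ((1 / 3 : ℝ) ^ h) ^ (2 * h + 1) :=
          mul_le_mul_of_nonneg_right h3 (by positivity)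
      _ = ((n : ℝ) * (1 / 3 : ℝ) ^ h) ^ (2 * h + 1) := by rw [mul_pow]
      _ ≤ (1 / 2 : ℝ) ^ (2 * h + 1) := pow_le_pow_left₀ (by positivity) h4 _
      _ ≤ (1 / 2 : ℝ) ^ 4 := pow_le_pow_of_le_one (by norm_num) (by norm_num) (by omega)
      _ = 1 / 16 := by norm_num
  set x : ℝ := (1000 / 1009 : ℝ) ^ σ with hx
  have hx0 : 0 ≤ x := by positivity
  have hx1 : x ≤ 1 := pow_le_one₀ (by norm_num) (by norm_num)
  have hB : ∑ T : Finset V, (if 2 * σ + 1 ≤ T.card then (1000 / 1009 : ℝ) ^ (T.card.choose 2)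
      else 0) ≤ 1 / 9 := by
    have e1 : ∑ T : Finset V, x ^ T.card = (1 + x) ^ n := by
      have := prod_one_add (f := fun _ : V => x) univ
      simp only [prod_const, card_univ, powerset_univ] at this
      rw [this]
    have e2 : ∑ T : Finset V, (if T = ∅ then (1 : ℝ) else 0) = 1 := by simp
    have h3 : ∑ T : Finset V, (if 2 * σ + 1 ≤ T.card then (1000 / 1009 : ℝ) ^ (T.card.choose 2)
        else 0) ≤ ∑ T : Finset V, (x ^ T.card - if T = ∅ then (1 : ℝ) else 0) := by
      apply sum_le_sum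
      intro T _
      by_cases hT : T = ∅
      · subst hT
        simp
      · rw [if_neg hT, sub_zero]
        split_ifs with hs
        · rw [hx, ← pow_mul]
          apply pow_le_pow_of_le_one (by norm_num) (by norm_num)
          rw [Nat.choose_two_right, Nat.le_div_iff_mul_le (by norm_num)]
          have : 2 * σ ≤ T.card - 1 := by omega
          nlinarith
        · positivity
    rw [sum_sub_distrib, e1, e2] at h3
    have h4 : 1 + (n : ℝ) * (-x) ≤ (1 + (-x)) ^ n := one_add_mul_le_pow (by linarith) n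
    have h5 : (1 + x) ^ n * (1 + (-x)) ^ n ≤ 1 := by
      rw [← mul_pow]
      apply pow_le_one₀
      · exact mul_nonneg (by linarith) (by linarith)
      · nlinarith
    have h6 : 0 ≤ (1 + x) ^ n := by positivity
    have h7 : (1 + x) ^ n * (9 / 10) ≤ 1 := by nlinarith
    linarith
  linarith

theorem win [Fintype V] (k s : ℕ) (R B : Finset (Sym2 V)) (hRB : Disjoint R B)
    (hE : ∀ e : Sym2 V, ¬ e.IsDiag → e ∈ R ∪ B) (hP : (tests V k s).Phi R B < 1) :
    (SimpleGraph.fromEdgeSet (R : Set (Sym2 V))).CliqueFree k ∧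
      ∀ T : Finset V, s ≤ T.card → 3 * T.card.choose 2 < 5 * (B ∩ inner T).card := by
  constructor
  · intro T hT
    have h1 := lt_of_le_of_lt ((tests V k s).wt_le_Phi R B (true, T) (mem_univ _)) hP
    have hsub : inner T ⊆ R := by
      intro e he
      obtain ⟨u, hu, v, hv, huv, rfl⟩ := mem_inner.1 he
      have := hT.isClique hu hv huv
      rw [SimpleGraph.fromEdgeSet_adj] at this
      exact this.1
    have e1 : R ∩ inner T = inner T := inter_eq_right.2 hsub
    have e2 : B ∩ inner T = ∅ := by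
      rw [← disjoint_iff_inter_eq_empty]
      exact (Disjoint.mono_left hsub hRB).symm
    simp only [tests, wt, if_true, hT.card_eq, e1, e2, card_inner, card_empty, pow_zero] at h1
    rw [← mul_pow] at h1
    norm_num at h1
  · intro T hT
    have h1 := lt_of_le_of_lt ((tests V k s).wt_le_Phi R B (false, T) (mem_univ _)) hP
    have e1 : (R ∩ inner T).card + (B ∩ inner T).card = T.card.choose 2 := by
      rw [← card_union_of_disjoint (hRB.mono inter_subset_left inter_subset_left),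
        ← union_inter_distrib_right, ← card_inner]
      congr 1
      apply inter_eq_right.2
      intro e he
      obtain ⟨u, hu, v, hv, huv, rfl⟩ := mem_inner.1 he
      exact hE _ (by simpa using huv)
    simp only [tests, wt, Bool.false_eq_true, if_false, if_pos hT] at h1
    by_contra hc
    have h2 := density_aux (R ∩ inner T).card (B ∩ inner T).card (by omega)
    rw [e1] at h2
    linarith

theorem growth (h : ℕ) (hh : 171 ≤ h) : 6 * (246 * h + 494) * 25 ^ h ≤ 27 ^ h := by
  induction h, hh using Nat.le_induction with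
  | base => norm_num
  | succ m hm ih =>
    rw [pow_succ, pow_succ]
    have : 0 < 25 ^ m := by positivity
    nlinarith

end Pool.Agent.Lib.MP_1024aa_co
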