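import Mathlib
import Pool.Agent.Lib.MP_1024aa_co.Cliques

/-!
Density tests depending on the size of the vertex set, and chains of sizes.
-/

set_option autoImplicit false

open Finset

namespace Pool.Agent.Lib.MP_1024aa_co

variable {V : Type*} [DecidableEq V]

/-- The density test for sets of size `t` yields a vertex of degree at least `s`. -/
def Good (N t s : ℕ) : Prop :=
  1 ≤ s ∧ s ≤ t ∧ ∃ δ : ℝ, 0 ≤ δ ∧ δ ≤ 1 ∧
    9 * (N : ℝ) ^ 2 ≤ (t : ℝ) ^ 2 * ((1 + 2 * δ) ^ (t - s) * (1 - δ) ^ (s - 1))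

/-- A chain of `j` greedy steps which starts at size `t` and ends at size at least `k`. -/
def Chain (N k : ℕ) : ℕ → ℕ → Prop
  | 0, t => k ≤ t
  | j + 1, t => 80 ≤ t ∧ ∃ s, Good N t s ∧ Chain N k j s

theorem exists_delta (N : ℕ) : ∃ δ : ℕ → ℝ, (∀ t, 0 ≤ δ t) ∧ (∀ t, δ t ≤ 1) ∧
    ∀ t s, Good N t s → ∃ u, s ≤ u ∧ u ≤ t ∧
      9 * (N : ℝ) ^ 2 ≤ (t : ℝ) ^ 2 * ((1 + 2 * δ t) ^ (t - u) * (1 - δ t) ^ (u - 1)) := by
  classical
  have key : ∀ t, ∃ δ : ℝ, 0 ≤ δ ∧ δ ≤ 1 ∧ ∀ s, Good N t s → ∃ u, s ≤ u ∧ u ≤ t ∧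
      9 * (N : ℝ) ^ 2 ≤ (t : ℝ) ^ 2 * ((1 + 2 * δ) ^ (t - u) * (1 - δ) ^ (u - 1)) := by
    intro t
    by_cases h : ∃ s, Good N t s
    · obtain ⟨s0, hs0⟩ := h
      obtain ⟨-, h2, δ, h3, h4, h5⟩ := Nat.findGreatest_spec (P := Good N t) hs0.2.1 hs0
      exact ⟨δ, h3, h4, fun s hs => ⟨_, Nat.le_findGreatest hs.2.1 hs, h2, h5⟩⟩
    · exact ⟨0, le_rfl, zero_le_one, fun s hs => (h ⟨s, hs⟩).elim⟩
  choose δ h1 h2 h3 using key
  exact ⟨δ, h1, h2, h3⟩

theorem deg_bound (B : Finset (Sym2 V)) (T : Finset V) (m : ℕ)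
    (h : ∀ v ∈ T, (T.filter fun u => u ≠ v ∧ s(v, u) ∈ B).card ≤ m) :
    2 * (B ∩ inner T).card ≤ T.card * m := by
  classical
  have key := card_mul_le_card_mul (s := B ∩ inner T) (t := T) (fun e v => v ∈ e)
    (m := 2) (n := m) (by
      intro e he
      obtain ⟨u, hu, v, hv, huv, rfl⟩ := mem_inner.1 (mem_inter.1 he).2
      rw [← card_pair huv]
      apply card_le_card
      intro x hx
      rw [mem_bipartiteAbove]
      rcases mem_insert.1 hx with rfl | hx
      · exact ⟨hu, Sym2.mem_mk_left _ _⟩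
      · rw [mem_singleton.1 hx]
        exact ⟨hv, Sym2.mem_mk_right _ _⟩) (by
      intro v hv
      refine le_trans ?_ (h v hv)
      refine le_trans (card_le_card ?_) (card_image_le (f := fun u => s(v, u)))
      intro e he
      rw [mem_bipartiteBelow] at he
      obtain ⟨he1, he2⟩ := he
      obtain ⟨heB, heT⟩ := mem_inter.1 he1
      obtain ⟨a, ha, b, hb, hab, rfl⟩ := mem_inner.1 heT
      rw [mem_image]
      rcases Sym2.mem_iff.1 he2 with rfl | rfl
      · exact ⟨b, mem_filter.2 ⟨hb, hab.symm, heB⟩, rfl⟩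
      · refine ⟨a, mem_filter.2 ⟨ha, hab, ?_⟩, Sym2.eq_swap⟩
        rw [Sym2.eq_swap]
        exact heB)
  omega

/-- The tests: cliques of size `k`, and the density inside all sets of size at least `80`. -/
noncomputable def tests2 (V : Type*) [DecidableEq V] [Fintype V] (k N : ℕ) (δ : ℕ → ℝ)
    (h0 : ∀ t, 0 ≤ δ t) (h1 : ∀ t, δ t ≤ 1) : Tests (Sym2 V) (Bool × Finset V) where
  I := univ
  A := fun i => inner i.2
  c := fun i => if i.1 then (if i.2.card = k then (1 / 3 : ℝ) ^ (k.choose 2) else 0)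
    else (if 80 ≤ i.2.card then ((i.2.card : ℝ) / (3 * N)) ^ i.2.card else 0)
  d := fun i => if i.1 then 1 else δ i.2.card
  hc := by
    intro i
    split_ifs <;> positivity
  hd := by
    intro i
    split_ifs
    · norm_num
    · exact h0 _
  hd1 := by
    intro i
    split_ifs
    · exact le_rfl
    · exact h1 _

theorem mass_le (n N t : ℕ) (hn : n ≤ N) (hN : 0 < N) :
    (n.choose t : ℝ) * ((t : ℝ) / (3 * N)) ^ t ≤ (9061 / 10000 : ℝ) ^ t := by
  have h1 : (n.choose t : ℝ) ≤ (N : ℝ) ^ t / t.factorial :=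
    le_trans (Nat.choose_le_pow_div t n) (by
      gcongr)
  have h2 : (t : ℝ) ^ t / t.factorial ≤ Real.exp t :=
    Real.pow_div_factorial_le_exp t (by positivity) t
  have h3 : Real.exp t = Real.exp 1 ^ t := by rw [← Real.exp_nat_mul, mul_one]
  have h4 : Real.exp 1 / 3 ≤ 9061 / 10000 := by
    have := Real.exp_one_lt_d9
    linarith
  have hN' : (0 : ℝ) < N := by exact_mod_cast hN
  calc (n.choose t : ℝ) * ((t : ℝ) / (3 * N)) ^ t
      ≤ (N : ℝ) ^ t / t.factorial * ((t : ℝ) / (3 * N)) ^ t := by gcongr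
    _ = (t : ℝ) ^ t / t.factorial / 3 ^ t := by
      rw [div_pow, mul_pow]
      field_simp
    _ ≤ Real.exp 1 ^ t / 3 ^ t := by rw [← h3]; gcongr
    _ = (Real.exp 1 / 3) ^ t := by rw [div_pow]
    _ ≤ (9061 / 10000 : ℝ) ^ t := by gcongr

theorem sum_c_le2 [Fintype V] (k N : ℕ) (δ : ℕ → ℝ) (h0 : ∀ t, 0 ≤ δ t) (h1 : ∀ t, δ t ≤ 1)
    (hn : Fintype.card V ≤ N) (hN : 0 < N)
    (hk : 1000 * N ^ k ≤ 329 * k.factorial * 3 ^ k.choose 2) :
    3 * ∑ i ∈ (tests2 V k N δ h0 h1).I, (tests2 V k N δ h0 h1).c i < 1 := by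
  change 3 * ∑ i : Bool × Finset V, (tests2 V k N δ h0 h1).c i < 1
  rw [Fintype.sum_prod_type, Fintype.sum_bool]
  simp only [tests2, if_true, Bool.false_eq_true, if_false]
  set n := Fintype.card V with hn'
  have hS : ∀ f : ℕ → ℝ, ∑ T : Finset V, f T.card = ∑ t ∈ range (n + 1), (n.choose t : ℝ) * f t := by
    intro f
    rw [← powerset_univ, sum_powerset_apply_card, card_univ]
    simp only [nsmul_eq_mul]
    rfl
  have hA : ∑ T : Finset V, (if T.card = k then (1 / 3 : ℝ) ^ (k.choose 2) else 0) ≤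
      329 / 1000 := by
    rw [hS fun t => if t = k then (1 / 3 : ℝ) ^ (k.choose 2) else 0]
    simp only [mul_ite, mul_zero, sum_ite_eq']
    split_ifs
    · have h2 : (n.choose k : ℝ) ≤ (N : ℝ) ^ k / k.factorial :=
        le_trans (Nat.choose_le_pow_div k n) (by gcongr)
      have h3 : (1000 : ℝ) * (N : ℝ) ^ k ≤ 329 * k.factorial * 3 ^ k.choose 2 := by
        exact_mod_cast hk
      have h4 : (0 : ℝ) < k.factorial := by exact_mod_cast k.factorial_pos
      rw [le_div_iff₀ h4] at h2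
      rw [one_div_pow, mul_one_div, div_le_iff₀ (by positivity)]
      refine le_of_mul_le_mul_right ?_ h4
      linarith
    · norm_num
  have hB : ∑ T : Finset V, (if 80 ≤ T.card then ((T.card : ℝ) / (3 * N)) ^ T.card else 0) ≤
      41 / 10000 := by
    rw [hS fun t => if 80 ≤ t then ((t : ℝ) / (3 * N)) ^ t else 0]
    have h2 : ∑ t ∈ range (n + 1), (n.choose t : ℝ) * (if 80 ≤ t then ((t : ℝ) / (3 * N)) ^ t
        else 0) ≤ ∑ t ∈ Ico 80 (n + 1), (9061 / 10000 : ℝ) ^ t := by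
      simp only [mul_ite, mul_zero]
      rw [← sum_filter]
      have e : (range (n + 1)).filter (fun t => 80 ≤ t) = Ico 80 (n + 1) := by
        ext t
        simp [and_comm]
      rw [e]
      exact sum_le_sum fun t _ => mass_le n N t hn hN
    refine h2.trans ((geom_sum_Ico_le_of_lt_one (by norm_num) (by norm_num)).trans ?_)
    norm_num
  linarith

theorem win2 [Fintype V] (k N : ℕ) (δ : ℕ → ℝ) (h0 : ∀ t, 0 ≤ δ t) (h1 : ∀ t, δ t ≤ 1)
    (hN : 0 < N) (R B : Finset (Sym2 V)) (hRB : Disjoint R B)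
    (hE : ∀ e : Sym2 V, ¬ e.IsDiag → e ∈ R ∪ B) (hP : (tests2 V k N δ h0 h1).Phi R B < 1) :
    (SimpleGraph.fromEdgeSet (R : Set (Sym2 V))).CliqueFree k ∧
      ∀ T : Finset V, 80 ≤ T.card → ∀ u, 1 ≤ u → u ≤ T.card →
        9 * (N : ℝ) ^ 2 ≤ (T.card : ℝ) ^ 2 * ((1 + 2 * δ T.card) ^ (T.card - u) *
          (1 - δ T.card) ^ (u - 1)) →
        ∃ v ∈ T, u ≤ (T.filter fun w => w ≠ v ∧ s(v, w) ∈ B).card := by
  constructor
  · intro T hT
    have h2 := lt_of_le_of_lt ((tests2 V k N δ h0 h1).wt_le_Phi R B (true, T) (mem_univ _)) hP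
    have hsub : inner T ⊆ R := by
      intro e he
      obtain ⟨u, hu, v, hv, huv, rfl⟩ := mem_inner.1 he
      have := hT.isClique hu hv huv
      rw [SimpleGraph.fromEdgeSet_adj] at this
      exact this.1
    have e1 : R ∩ inner T = inner T := inter_eq_right.2 hsub
    have e2 : B ∩ inner T = ∅ := by
      rw [← disjoint_iff_inter_eq_empty]
      exact (Disjoint.mono_left hsub hRB).symm
    simp only [tests2, wt, if_true, hT.card_eq, e1, e2, card_inner, card_empty, pow_zero] at h2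
    rw [← mul_pow] at h2
    norm_num at h2
  · intro T hT u hu1 hu hg
    have h2 := lt_of_le_of_lt ((tests2 V k N δ h0 h1).wt_le_Phi R B (false, T) (mem_univ _)) hP
    have e1 : (R ∩ inner T).card + (B ∩ inner T).card = T.card.choose 2 := by
      rw [← card_union_of_disjoint (hRB.mono inter_subset_left inter_subset_left),
        ← union_inter_distrib_right, ← card_inner]
      congr 1
      apply inter_eq_right.2
      intro e he
      obtain ⟨u, hu, v, hv, huv, rfl⟩ := mem_inner.1 he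
      exact hE _ (by simpa using huv)
    simp only [tests2, wt, Bool.false_eq_true, if_false, if_pos hT] at h2
    by_contra hc
    push Not at hc
    have h3 := deg_bound B T (u - 1) fun v hv => by have := hc v hv; omega
    have h4 : 2 * T.card.choose 2 = T.card * (T.card - 1) := by
      rw [Nat.choose_two_right]
      exact Nat.mul_div_cancel' (Nat.even_mul_pred_self _).two_dvd
    set t := T.card with ht
    set r := (R ∩ inner T).card
    set b := (B ∩ inner T).card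
    have h5 : t * (t - u) ≤ 2 * r := by
      have : t * (t - 1) = t * (t - u) + t * (u - 1) := by
        rw [← mul_add]
        congr 1
        omega
      omega
    have d0 := h0 t
    have d1 : 0 ≤ 1 - δ t := sub_nonneg.2 (h1 t)
    have hN' : (0 : ℝ) < N := by exact_mod_cast hN
    have h6 : (((t : ℝ) / (3 * N)) ^ t * (1 + 2 * δ t) ^ r * (1 - δ t) ^ b) ^ 2 < 1 :=
      pow_lt_one₀ (by positivity) h2 (by norm_num)
    have h7 : (1 + 2 * δ t) ^ (t * (t - u)) ≤ (1 + 2 * δ t) ^ (2 * r) :=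
      pow_le_pow_right₀ (by linarith) h5
    have h8 : (1 - δ t) ^ (t * (u - 1)) ≤ (1 - δ t) ^ (2 * b) :=
      pow_le_pow_of_le_one d1 (by linarith) h3
    have h9 : 1 ≤ ((t : ℝ) / (3 * N)) ^ 2 * ((1 + 2 * δ t) ^ (t - u) * (1 - δ t) ^ (u - 1)) := by
      rw [div_pow, div_mul_eq_mul_div, le_div_iff₀ (by positivity)]
      linarith
    have h10 : 1 ≤ (((t : ℝ) / (3 * N)) ^ 2 *
        ((1 + 2 * δ t) ^ (t - u) * (1 - δ t) ^ (u - 1))) ^ t := one_le_pow₀ h9
    have e2 : (((t : ℝ) / (3 * N)) ^ 2 * ((1 + 2 * δ t) ^ (t - u) * (1 - δ t) ^ (u - 1))) ^ t =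
        ((t : ℝ) / (3 * N)) ^ (2 * t) *
          ((1 + 2 * δ t) ^ (t * (t - u)) * (1 - δ t) ^ (t * (u - 1))) := by
      rw [mul_pow, mul_pow, ← pow_mul, ← pow_mul, ← pow_mul, mul_comm (t - u), mul_comm (u - 1)]
    have e3 : (((t : ℝ) / (3 * N)) ^ t * (1 + 2 * δ t) ^ r * (1 - δ t) ^ b) ^ 2 =
        ((t : ℝ) / (3 * N)) ^ (2 * t) * ((1 + 2 * δ t) ^ (2 * r) * (1 - δ t) ^ (2 * b)) := by
      rw [mul_pow, mul_pow, ← pow_mul, ← pow_mul, ← pow_mul, mul_comm t 2, mul_comm r 2,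
        mul_comm b 2, mul_assoc]
    have h11 : ((t : ℝ) / (3 * N)) ^ (2 * t) *
          ((1 + 2 * δ t) ^ (t * (t - u)) * (1 - δ t) ^ (t * (u - 1))) ≤
        ((t : ℝ) / (3 * N)) ^ (2 * t) * ((1 + 2 * δ t) ^ (2 * r) * (1 - δ t) ^ (2 * b)) := by
      gcongr
    rw [e2] at h10
    rw [e3] at h6
    linarith

theorem greedy2 (B : Finset (Sym2 V)) (N k : ℕ)
    (hb : ∀ T : Finset V, T.card = k → ∃ u ∈ T, ∃ v ∈ T, u ≠ v ∧ s(u, v) ∈ B)
    (h : ∀ T : Finset V, 80 ≤ T.card → ∀ s, Good N T.card s →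
      ∃ v ∈ T, s ≤ (T.filter fun w => w ≠ v ∧ s(v, w) ∈ B).card) (j : ℕ) :
    ∀ (t : ℕ) (T : Finset V), Chain N k j t → t ≤ T.card →
      ∃ K : Finset V, K ⊆ T ∧ K.card = j + 2 ∧ ∀ u ∈ K, ∀ v ∈ K, u ≠ v → s(u, v) ∈ B := by
  induction j with
  | zero =>
    intro t T hc hT
    obtain ⟨T', h1, h2⟩ := exists_subset_card_eq (le_trans hc hT)
    obtain ⟨u, hu, v, hv, huv, hB⟩ := hb T' h2
    refine ⟨{u, v}, ?_, card_pair huv, ?_⟩
    · rw [insert_subset_iff, singleton_subset_iff]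
      exact ⟨h1 hu, h1 hv⟩
    · intro a ha b hb' hab
      simp only [mem_insert, mem_singleton] at ha hb'
      rcases ha with rfl | rfl <;> rcases hb' with rfl | rfl
      · exact absurd rfl hab
      · exact hB
      · rw [Sym2.eq_swap]
        exact hB
      · exact absurd rfl hab
  | succ j ih =>
    intro t T hc hT
    obtain ⟨h80, s, hs, hc'⟩ := hc
    obtain ⟨T', h1, h2⟩ := exists_subset_card_eq hT
    obtain ⟨v, hv, hdeg⟩ := h T' (by omega) s (by rwa [h2])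
    obtain ⟨K, hK, hKc, hKB⟩ := ih s _ hc' hdeg
    have hvK : v ∉ K := fun hc => (mem_filter.1 (hK hc)).2.1 rfl
    refine ⟨insert v K, insert_subset (h1 hv) (hK.trans ((filter_subset _ _).trans h1)), ?_, ?_⟩
    · rw [card_insert_of_notMem hvK, hKc]
    · intro a ha b hb hab
      rcases mem_insert.1 ha with rfl | ha'
      · rcases mem_insert.1 hb with rfl | hb'
        · exact absurd rfl hab
        · exact (mem_filter.1 (hK hb')).2.2
      · rcases mem_insert.1 hb with rfl | hb'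
        · rw [Sym2.eq_swap]
          exact (mem_filter.1 (hK ha')).2.2
        · exact hKB a ha' b hb' hab

theorem mid (n N lo j : ℕ) (h1 : lo ≤ n) (h2 : n ≤ N) (hN : 0 < N)
    (hk : 1000 * N ^ (j + 2) ≤ 329 * (j + 2).factorial * 3 ^ (j + 2).choose 2)
    (hc : Chain N (j + 2) j lo)
    (E : Finset (Sym2 (Fin n))) (hE : ∀ e : Sym2 (Fin n), e ∈ E ↔ ¬ e.IsDiag) :
    ∃ S : Set (Finset (Sym2 (Fin n)) × Finset (Sym2 (Fin n))),
      ((∅ : Finset (Sym2 (Fin n))), (∅ : Finset (Sym2 (Fin n)))) ∈ S ∧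
      ∀ p ∈ S,
        (p.1 ∪ p.2 = E →
          ∃ k : ℕ, ¬ (SimpleGraph.fromEdgeSet (p.2 : Set (Sym2 (Fin n)))).CliqueFree k ∧
            (SimpleGraph.fromEdgeSet (p.1 : Set (Sym2 (Fin n)))).CliqueFree k) ∧
        (∀ e ∈ E, e ∉ p.1 → e ∉ p.2 →
          (insert e p.1 ∪ p.2 = E →
            ∃ k : ℕ, ¬ (SimpleGraph.fromEdgeSet (p.2 : Set (Sym2 (Fin n)))).CliqueFree k ∧
              (SimpleGraph.fromEdgeSet ((insert e p.1 : Finset (Sym2 (Fin n))) :
                Set (Sym2 (Fin n)))).CliqueFree k) ∧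
          (insert e p.1 ∪ p.2 ≠ E →
            ∃ T : Finset (Sym2 (Fin n)), T ⊆ E ∧ Disjoint T (insert e p.1 ∪ p.2) ∧
              T.card = min 2 (E.card - (insert e p.1 ∪ p.2).card) ∧
              (insert e p.1, p.2 ∪ T) ∈ S)) := by
  obtain ⟨δ, d0, d1, hδ⟩ := exists_delta N
  have hcard : Fintype.card (Fin n) = n := Fintype.card_fin n
  have hsum := sum_c_le2 (V := Fin n) (j + 2) N δ d0 d1 (by rwa [hcard]) hN hk
  refine (tests2 (Fin n) (j + 2) N δ d0 d1).strategy hsum E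
    (fun R B => ∃ k : ℕ, ¬ (SimpleGraph.fromEdgeSet (B : Set (Sym2 (Fin n)))).CliqueFree k ∧
      (SimpleGraph.fromEdgeSet (R : Set (Sym2 (Fin n)))).CliqueFree k) ?_
  intro R B hRB hU hP
  have hall : ∀ e : Sym2 (Fin n), ¬ e.IsDiag → e ∈ R ∪ B := fun e he => by
    rw [hU]
    exact (hE e).2 he
  obtain ⟨hred, hdens⟩ := win2 _ N δ d0 d1 hN R B hRB hall hP
  refine ⟨j + 2, ?_, hred⟩
  obtain ⟨K, -, hKc, hKB⟩ := greedy2 B N (j + 2) (by
    intro T hT
    by_contra hcon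
    push Not at hcon
    refine hred T ⟨?_, hT⟩
    intro u hu v hv huv
    rw [SimpleGraph.fromEdgeSet_adj]
    refine ⟨?_, huv⟩
    have := hall s(u, v) (by simpa using huv)
    exact (mem_union.1 this).resolve_right (hcon u hu v hv huv)) (by
    intro T hT s hs
    obtain ⟨u, hu1, hu2, hu3⟩ := hδ _ s hs
    obtain ⟨v, hv, hd⟩ := hdens T hT u (hs.1.trans hu1) hu2 hu3
    exact ⟨v, hv, hu1.trans hd⟩) j lo univ hc (by rwa [card_univ, hcard])
  intro hfree
  apply hfree K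
  refine ⟨?_, hKc⟩
  intro u hu v hv huv
  rw [SimpleGraph.fromEdgeSet_adj]
  exact ⟨hKB u hu v hv huv, huv⟩

end Pool.Agent.Lib.MP_1024aa_co
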