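import Mathlib
import Pool.Agent.Lib.MP_1024aa_co.Chain

/-!
A checker for chains of sizes, and the certificate for the range from `1800000` to `3 ^ 170`.
-/

set_option autoImplicit false

namespace Pool.Agent.Lib.MP_1024aa_co

/-- The check of one table entry. -/
def entryOk (e : ℕ × ℕ × ℕ) : Bool :=
  decide (0 < e.1) && decide (e.2.1 ≤ 2 * e.1) &&
    decide (2 ^ e.2.2 * ((e.1 + e.2.1) ^ (e.1 + e.2.1) * 2 ^ e.2.1) ≤
      (3 * e.1) ^ e.1 * (3 * e.2.1) ^ e.2.1)

theorem good_of_entry {a b g N t : ℕ} (he : entryOk (a, b, g) = true) (ht : 1 ≤ t)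
    (h : a * (Nat.log2 (9 * N ^ 2 / t ^ 2) + 1) ≤ g * (t - (b * t + a) / (a + b))) :
    Good N t ((b * t + a) / (a + b)) := by
  simp only [entryOk, Bool.and_eq_true, decide_eq_true_eq] at he
  obtain ⟨⟨ha, hb⟩, hg⟩ := he
  have hs : 0 < a + b := by omega
  set s := (b * t + a) / (a + b) with hs'
  set E := Nat.log2 (9 * N ^ 2 / t ^ 2) + 1 with hE
  have s1 : 1 ≤ s := by
    rw [hs', Nat.le_div_iff_mul_le hs]
    nlinarith
  have s2 : s * (a + b) ≤ b * t + a := Nat.div_mul_le_self _ _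
  have s3 : s ≤ t := by
    refine Nat.le_of_mul_le_mul_right (s2.trans ?_) hs
    nlinarith
  have s4 : a * (s - 1) ≤ b * (t - s) := by
    obtain ⟨u, hu⟩ : ∃ u, s = u + 1 := ⟨s - 1, by omega⟩
    obtain ⟨w, hw⟩ : ∃ w, t = s + w := ⟨t - s, by omega⟩
    rw [hw, Nat.add_sub_cancel_left, hu, Nat.add_sub_cancel]
    rw [hw, hu] at s2
    nlinarith
  have hsR : (0 : ℝ) < (a : ℝ) + b := by exact_mod_cast hs
  have hbR : (b : ℝ) ≤ 2 * a := by exact_mod_cast hb
  have b0 : (0 : ℝ) ≤ b := by positivity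
  refine ⟨s1, s3, (2 * a - b) / (2 * (a + b)), div_nonneg (by linarith) (by positivity), ?_, ?_⟩
  · rw [div_le_one (by positivity)]
    linarith
  have e1 : (1 : ℝ) + 2 * ((2 * a - b) / (2 * (a + b))) = 3 * a / (a + b) := by
    field_simp
    ring
  have e2 : (1 : ℝ) - (2 * a - b) / (2 * (a + b)) = 3 * b / (2 * (a + b)) := by
    field_simp
    ring
  rw [e1, e2]
  set x : ℝ := 3 * a / (a + b) with hx
  set y : ℝ := 3 * b / (2 * (a + b)) with hy
  have x0 : 0 ≤ x := by positivity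
  have y0 : 0 ≤ y := by positivity
  have y1 : y ≤ 1 := by
    rw [hy, div_le_one (by positivity)]
    linarith
  have h1 : (2 : ℝ) ^ g ≤ x ^ a * y ^ b := by
    have h2 : (2 : ℝ) ^ g * (((a : ℝ) + b) ^ (a + b) * 2 ^ b) ≤
        (3 * (a : ℝ)) ^ a * (3 * (b : ℝ)) ^ b := by exact_mod_cast hg
    rw [hx, hy, div_pow, div_pow, div_mul_div_comm, le_div_iff₀ (by positivity)]
    refine le_trans (le_of_eq ?_) h2
    rw [mul_pow 2, pow_add]
    ring
  have h2 : ((2 : ℝ) ^ E) ^ a ≤ (x ^ (t - s) * y ^ (s - 1)) ^ a := by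
    calc ((2 : ℝ) ^ E) ^ a = 2 ^ (a * E) := by rw [← pow_mul, mul_comm]
      _ ≤ 2 ^ (g * (t - s)) := pow_le_pow_right₀ (by norm_num) h
      _ = (2 ^ g) ^ (t - s) := pow_mul _ _ _
      _ ≤ (x ^ a * y ^ b) ^ (t - s) := pow_le_pow_left₀ (by positivity) h1 _
      _ = x ^ (a * (t - s)) * y ^ (b * (t - s)) := by rw [mul_pow, ← pow_mul, ← pow_mul]
      _ ≤ x ^ (a * (t - s)) * y ^ (a * (s - 1)) :=
        mul_le_mul_of_nonneg_left (pow_le_pow_of_le_one y0 y1 s4) (by positivity)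
      _ = (x ^ (t - s) * y ^ (s - 1)) ^ a := by
        rw [mul_pow, ← pow_mul, ← pow_mul, mul_comm a, mul_comm a]
  have h3 : (2 : ℝ) ^ E ≤ x ^ (t - s) * y ^ (s - 1) :=
    le_of_pow_le_pow_left₀ ha.ne' (by positivity) h2
  have h4 : 9 * N ^ 2 ≤ t ^ 2 * 2 ^ E := by
    have h5 := Nat.lt_mul_div_succ (9 * N ^ 2) (show 0 < t ^ 2 by positivity)
    have h6 : 9 * N ^ 2 / t ^ 2 < 2 ^ E := Nat.lt_log2_self
    exact h5.le.trans (Nat.mul_le_mul_left _ h6)
  have h5 : 9 * (N : ℝ) ^ 2 ≤ (t : ℝ) ^ 2 * 2 ^ E := by exact_mod_cast h4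
  exact h5.trans (mul_le_mul_of_nonneg_left h3 (by positivity))

/-- The chain checker; the first argument is the fuel. -/
def run (N k : ℕ) : ℕ → List (ℕ × ℕ × ℕ) → ℕ → ℕ → Bool
  | 0, _, _, _ => false
  | _ + 1, _, 0, t => decide (k ≤ t)
  | _ + 1, [], _ + 1, _ => false
  | f + 1, e :: L, j + 1, t =>
    if 80 ≤ t ∧ e.1 * (Nat.log2 (9 * N ^ 2 / t ^ 2) + 1) ≤
        e.2.2 * (t - (e.2.1 * t + e.1) / (e.1 + e.2.1)) then
      run N k f (e :: L) j ((e.2.1 * t + e.1) / (e.1 + e.2.1))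
    else run N k f L (j + 1) t

theorem run_sound (N k f : ℕ) : ∀ (L : List (ℕ × ℕ × ℕ)) (j t : ℕ), L.all entryOk = true →
    run N k f L j t = true → Chain N k j t := by
  induction f with
  | zero => intro L j t _ h; simp [run] at h
  | succ f ih =>
    intro L j t hL h
    cases j with
    | zero => simpa [run, Chain] using h
    | succ j =>
      cases L with
      | nil => simp [run] at h
      | cons e L =>
        rw [run] at h
        split_ifs at h with c
        · obtain ⟨a, b, g⟩ := e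
          refine ⟨c.1, _, good_of_entry ?_ (by omega) c.2, ih _ _ _ hL h⟩
          rw [List.all_cons, Bool.and_eq_true] at hL
          exact hL.1
        · rw [List.all_cons, Bool.and_eq_true] at hL
          exact ih _ _ _ hL.2 h

/-- The checker for a list of consecutive ranges. -/
def chk (L : List (ℕ × ℕ × ℕ)) (top : ℕ) : List (ℕ × ℕ) → ℕ → Bool
  | [], lo => decide (top ≤ lo)
  | p :: M, lo => decide (0 < p.1) &&
      decide (1000 * p.1 ^ (p.2 + 2) ≤
        329 * (p.2 + 2).factorial * 3 ^ ((p.2 + 2) * (p.2 + 1) / 2)) &&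
      run p.1 (p.2 + 2) 500 L p.2 lo && chk L top M (p.1 + 1)

theorem chk_sound (L : List (ℕ × ℕ × ℕ)) (hL : L.all entryOk = true) (top n : ℕ) (hn : n < top) :
    ∀ (M : List (ℕ × ℕ)) (lo : ℕ), chk L top M lo = true → lo ≤ n →
      ∃ N l j, l ≤ n ∧ n ≤ N ∧ 0 < N ∧
        1000 * N ^ (j + 2) ≤ 329 * (j + 2).factorial * 3 ^ (j + 2).choose 2 ∧
        Chain N (j + 2) j l := by
  intro M
  induction M with
  | nil =>
    intro lo h h1
    simp only [chk, decide_eq_true_eq] at h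
    omega
  | cons p M ih =>
    intro lo h h1
    simp only [chk, Bool.and_eq_true, decide_eq_true_eq] at h
    obtain ⟨⟨⟨h2, h3⟩, h4⟩, h5⟩ := h
    by_cases c : n ≤ p.1
    · refine ⟨p.1, lo, p.2, h1, c, h2, ?_, run_sound _ _ _ _ _ _ hL h4⟩
      rwa [Nat.choose_two_right]
    · exact ih _ h5 (by omega)

/-- The table of densities. -/
def table : List (ℕ × ℕ × ℕ) :=
  [(33574, 66485, 1), (33683, 66376, 3), (33784, 66239, 6), (33896, 66110, 10), (34029, 66008, 15),
   (34154, 65876, 21), (34281, 65733, 28), (34416, 65590, 37), (28587, 54136, 40),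
   (22846, 42981, 40), (18545, 34652, 40), (15256, 28305, 40), (12692, 23375, 40),
   (10679, 19519, 40), (9057, 16424, 40), (7732, 13906, 40), (6653, 11864, 40), (5756, 10174, 40),
   (5008, 8771, 40), (4377, 7593, 40), (3850, 6614, 40), (3394, 5771, 40), (3004, 5054, 40),
   (2671, 4445, 40), (2379, 3914, 40), (2124, 3453, 40), (1907, 3063, 40), (1711, 2713, 40),
   (1543, 2415, 40), (1391, 2147, 40), (1260, 1918, 40), (1142, 1713, 40), (1037, 1532, 40),
   (961, 1396, 41), (858, 1227, 40), (797, 1119, 41), (734, 1014, 41), (668, 905, 41),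
   (613, 815, 41), (563, 734, 41), (520, 665, 41), (474, 592, 41), (437, 534, 41), (423, 505, 43),
   (391, 456, 43), (362, 412, 43), (338, 376, 43), (290, 314, 40), (274, 288, 41), (264, 271, 42),
   (233, 232, 40), (233, 225, 43), (226, 211, 45), (218, 196, 47), (197, 172, 45), (184, 155, 45),
   (164, 133, 43), (152, 118, 43), (166, 124, 50), (136, 97, 44), (145, 99, 50), (102, 63, 40),
   (125, 73, 52), (105, 58, 47), (121, 63, 58), (118, 58, 60), (91, 42, 49), (86, 37, 49),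
   (86, 34, 53)]

/-- The ranges. -/
def ranges : List (ℕ × ℕ) :=
  [(2168823, 22), (2871708, 22), (4430165, 23), (5173312, 23), (9305491, 24), (16714810, 25),
   (29984648, 26), (96150908, 28), (3 * 10 ^ 8, 30), (17 * 10 ^ 8, 33), (17 * 10 ^ 9, 37),
   (3 * 10 ^ 11, 42), (16 * 10 ^ 12, 49), (27 * 10 ^ 14, 58), (23 * 10 ^ 17, 70),
   (18 * 10 ^ 21, 86), (23 * 10 ^ 26, 107), (24 * 10 ^ 33, 136), (36 * 10 ^ 42, 174),
   (12 * 10 ^ 55, 226), (45 * 10 ^ 71, 295), (2 * 10 ^ 81, 332)]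

theorem table_ok : table.all entryOk = true := by decide +kernel

theorem ranges_ok : chk table (3 ^ 170) ranges 1800000 = true := by decide +kernel

end Pool.Agent.Lib.MP_1024aa_co
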