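import Mathlib
import Pool.Agent.Lib.MP_1024aa_co.Cliques

/-!
The biased clique game in which Player 1 claims one edge and Player 2 two edges per turn is a
Player 2 win on `K_n` for every `n ≥ 3 ^ 170`.
-/

set_option autoImplicit false

open Finset

namespace Pool.Agent.Lib.MP_1024aa_co

theorem tail :
    ∀ n : ℕ, 3 ^ 170 ≤ n →
    ∀ E : Finset (Sym2 (Fin n)), (∀ e : Sym2 (Fin n), e ∈ E ↔ ¬ e.IsDiag) →
    ∃ S : Set (Finset (Sym2 (Fin n)) × Finset (Sym2 (Fin n))),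
      ((∅ : Finset (Sym2 (Fin n))), (∅ : Finset (Sym2 (Fin n)))) ∈ S ∧
      ∀ p ∈ S,
        (p.1 ∪ p.2 = E →
          ∃ k : ℕ, ¬ (SimpleGraph.fromEdgeSet (p.2 : Set (Sym2 (Fin n)))).CliqueFree k ∧
            (SimpleGraph.fromEdgeSet (p.1 : Set (Sym2 (Fin n)))).CliqueFree k) ∧
        (∀ e ∈ E, e ∉ p.1 → e ∉ p.2 →
          (insert e p.1 ∪ p.2 = E →
            ∃ k : ℕ, ¬ (SimpleGraph.fromEdgeSet (p.2 : Set (Sym2 (Fin n)))).CliqueFree k ∧
              (SimpleGraph.fromEdgeSet ((insert e p.1 : Finset (Sym2 (Fin n))) :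
                Set (Sym2 (Fin n)))).CliqueFree k) ∧
          (insert e p.1 ∪ p.2 ≠ E →
            ∃ T : Finset (Sym2 (Fin n)), T ⊆ E ∧ Disjoint T (insert e p.1 ∪ p.2) ∧
              T.card = min 2 (E.card - (insert e p.1 ∪ p.2).card) ∧
              (insert e p.1, p.2 ∪ T) ∈ S)) := by
  intro n hn E hE
  have hn1 : 1 < 2 * n := by
    have : 1 ≤ 3 ^ 170 := Nat.one_le_pow _ _ (by norm_num)
    omega
  obtain ⟨h, hup, hlo, hh⟩ : ∃ h : ℕ, 2 * n ≤ 3 ^ h ∧ 3 ^ h < 6 * n ∧ 171 ≤ h := by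
    have h1 := Nat.le_pow_clog (b := 3) (by norm_num) (2 * n)
    have h2 := Nat.pow_pred_clog_lt_self (b := 3) (by norm_num) hn1
    have h3 : 171 ≤ Nat.clog 3 (2 * n) := by
      by_contra hc
      have h4 : 3 ^ Nat.clog 3 (2 * n) ≤ 3 ^ 170 := Nat.pow_le_pow_right (by norm_num) (by omega)
      omega
    refine ⟨_, h1, ?_, h3⟩
    obtain ⟨m, hm⟩ : ∃ m, Nat.clog 3 (2 * n) = m + 1 := ⟨Nat.clog 3 (2 * n) - 1, by omega⟩
    rw [hm] at h2 ⊢
    rw [Nat.pred_succ] at h2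
    rw [pow_succ]
    omega
  have hcard : Fintype.card (Fin n) = n := Fintype.card_fin n
  have hsum := sum_c_le (V := Fin n) h (123 * (h + 2)) (by omega) (by rw [hcard]; exact hup) (by
    rw [hcard, pow_mul]
    have h1 : (1000 / 1009 : ℝ) ^ 123 ≤ 1 / 3 := by norm_num
    have h2 : ((1000 / 1009 : ℝ) ^ 123) ^ (h + 2) ≤ (1 / 3 : ℝ) ^ (h + 2) :=
      pow_le_pow_left₀ (by positivity) h1 _
    have h3 : (2 * n : ℝ) ≤ 3 ^ h := by exact_mod_cast hup
    have h4 : (n : ℝ) * (1 / 3 : ℝ) ^ (h + 2) ≤ 1 / 10 := by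
      rw [one_div_pow, mul_one_div, div_le_iff₀ (by positivity), pow_add]
      have : (0 : ℝ) ≤ n := by positivity
      linarith
    exact le_trans (mul_le_mul_of_nonneg_left h2 (by positivity)) h4)
  refine (tests (Fin n) (2 * h + 1) (2 * (123 * (h + 2)) + 1)).strategy hsum E
    (fun R B => ∃ k : ℕ, ¬ (SimpleGraph.fromEdgeSet (B : Set (Sym2 (Fin n)))).CliqueFree k ∧
      (SimpleGraph.fromEdgeSet (R : Set (Sym2 (Fin n)))).CliqueFree k) ?_
  intro R B hRB hU hP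
  obtain ⟨hred, hdens⟩ := win _ _ R B hRB (fun e he => by rw [hU]; exact (hE e).2 he) hP
  refine ⟨2 * h + 1, ?_, hred⟩
  obtain ⟨K, -, hKc, hKB⟩ := greedy B _ (by omega) hdens (2 * h) univ (by
    rw [card_univ, hcard, pow_mul, pow_mul]
    have h1 := growth h hh
    have h2 : (27 : ℕ) ^ h = 3 ^ h * 9 ^ h := by rw [← mul_pow]; norm_num
    have h3 : 3 ^ h * 9 ^ h ≤ 6 * n * 9 ^ h := Nat.mul_le_mul_right _ hlo.le
    norm_num
    nlinarith [Nat.zero_le (9 ^ h)])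
  intro hfree
  apply hfree K
  refine ⟨?_, hKc⟩
  intro u hu v hv huv
  rw [SimpleGraph.fromEdgeSet_adj]
  exact ⟨hKB u hu v hv huv, huv⟩

end Pool.Agent.Lib.MP_1024aa_co
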