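import Pool.Agent.Lib.MP_1024aa_co.Zone4

/-! The reactive stage from the empty board. -/

set_option autoImplicit false

open Finset

namespace Pool.Agent.Lib.MP_1024aa_co

variable {V : Type*} [DecidableEq V] [Fintype V]

lemma count_le (A Z : Finset V) (k : ℕ) (w : ℕ → ℕ) :
    ∑ K ∈ univ.powersetCard k, (if A ⊆ K then w (K ∩ Z).card else 0) ≤
      ∑ i ∈ range (k - A.card + 1), (Z \ A).card.choose i *
        (Zᶜ \ A).card.choose (k - A.card - i) * w (i + (A ∩ Z).card) := by
  rw [← sum_filter]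
  have hc : ∀ K ∈ (univ.powersetCard k).filter (A ⊆ ·),
      (K ∩ Z).card = ((K ∩ Z) \ A).card + (A ∩ Z).card ∧
      ((K ∩ Z) \ A).card + ((K \ Z) \ A).card + A.card = k := by
    intro K hK
    obtain ⟨h1, h2⟩ := mem_filter.1 hK
    have h3 := (mem_powersetCard.1 h1).2
    have h4 := card_sdiff_add_card_inter (K ∩ Z) A
    have h5 : K ∩ Z ∩ A = A ∩ Z := by
      ext x
      simp only [mem_inter]
      exact ⟨fun h => ⟨h.2, h.1.2⟩, fun h => ⟨⟨h2 h.1, h.2⟩, h.1⟩⟩
    have h6 := card_sdiff_add_card_inter (K \ Z) A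
    have h7 : K \ Z ∩ A = A \ Z := by
      ext x
      simp only [mem_inter, mem_sdiff]
      exact ⟨fun h => ⟨h.2, h.1.2⟩, fun h => ⟨⟨h2 h.1, h.2⟩, h.1⟩⟩
    have h8 := card_sdiff_add_card_inter K Z
    have h9 := card_sdiff_add_card_inter A Z
    rw [h5] at h4
    rw [h7] at h6
    omega
  rw [← sum_fiberwise_of_maps_to (t := range (k - A.card + 1))
    (g := fun K => ((K ∩ Z) \ A).card) fun K hK => mem_range.2 (by have := hc K hK; omega)]
  refine sum_le_sum fun i _ => ?_
  rw [sum_congr rfl (g := fun _ => w (i + (A ∩ Z).card)) fun K hK => by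
    rw [(hc K (mem_filter.1 hK).1).1, (mem_filter.1 hK).2], sum_const, smul_eq_mul,
    ← card_powersetCard, ← card_powersetCard, ← card_product]
  refine Nat.mul_le_mul_right _ (card_le_card_of_injOn (fun K => ((K ∩ Z) \ A, (K \ Z) \ A))
    (fun K hK => ?_) fun K hK K' hK' h => ?_)
  · have h1 := mem_filter.1 (mem_coe.1 hK)
    have h2 := hc K h1.1
    refine mem_coe.2 (mem_product.2 ⟨mem_powersetCard.2 ⟨sdiff_subset_sdiff inter_subset_right
      Subset.rfl, h1.2⟩, mem_powersetCard.2 ⟨fun x hx => ?_, by dsimp only; omega⟩⟩)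
    simp only [mem_sdiff, mem_compl] at hx ⊢
    exact ⟨hx.1.2, hx.2⟩
  · have h1 := (mem_filter.1 (mem_filter.1 (mem_coe.1 hK)).1).2
    have h2 := (mem_filter.1 (mem_filter.1 (mem_coe.1 hK')).1).2
    ext x
    have h3 := Finset.ext_iff.1 (congrArg Prod.fst h) x
    have h4 := Finset.ext_iff.1 (congrArg Prod.snd h) x
    have h5 := @h1 x
    have h6 := @h2 x
    simp only [mem_sdiff, mem_inter] at h3 h4
    tauto

/-- a binomial coefficient in a form that is cheap to evaluate -/
def bin (n k : ℕ) : ℕ := n.descFactorial k / k.factorial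

/-- The weight of the `k`-sets through `a` given vertices, `j` of them in a zone of size `m`. -/
def pot (N m k a j : ℕ) : ℕ :=
  ∑ i ∈ range (k - a + 1), bin (m - j) i * bin (N - m - (a - j)) (k - a - i) * 3 ^ (2 * (i + j) - 3)

lemma count_pot (A Z : Finset V) (k : ℕ) {N : ℕ} (hN : Fintype.card V ≤ N) :
    ∑ K ∈ univ.powersetCard k, (if A ⊆ K then 3 ^ (2 * (K ∩ Z).card - 3) else 0) ≤
      pot N Z.card k A.card (A ∩ Z).card := by
  refine (count_le A Z k fun z => 3 ^ (2 * z - 3)).trans (sum_le_sum fun i _ => ?_)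
  have h1 := card_sdiff_add_card_inter Z A
  have h2 := card_sdiff_add_card_inter Zᶜ A
  have h3 := card_sdiff_add_card_inter A Z
  have h4 : Zᶜ ∩ A = A \ Z := by
    ext x
    simp [and_comm]
  have h5 := card_add_card_compl Z
  rw [inter_comm] at h1
  rw [h4] at h2
  unfold bin
  rw [← Nat.choose_eq_descFactorial_div_factorial, ← Nat.choose_eq_descFactorial_div_factorial]
  exact Nat.mul_le_mul_right _ (Nat.mul_le_mul (Nat.choose_le_choose _ (by omega))
    (Nat.choose_le_choose _ (by omega)))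

theorem pure_stage {k m N : ℕ} (hW : ∃ t, WinB t (k, Multiset.replicate m (0, none)))
    (hP : ∀ j < 3, pot N m k 0 0 + 2 * pot N m k 2 j < 3 ^ bin k 2) (h1 : m ≤ Fintype.card V)
    (h2 : Fintype.card V ≤ N) (E : Finset (Sym2 V)) (hE : ∀ e, e ∈ E ↔ ¬ e.IsDiag) :
    Strat E Win (∅, ∅) := by
  obtain ⟨t, hW⟩ := hW
  obtain ⟨Z, -, rfl⟩ := exists_subset_card_eq (s := (univ : Finset V)) h1
  rw [bin, ← Nat.choose_eq_descFactorial_div_factorial] at hP
  have hp : Pos k (∅ : Finset (Sym2 V)) ∅ Z ∅ (k, Multiset.replicate Z.card (0, none)) := by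
    simpa using Pos.init (R := ∅) (B := ∅) (Cd := Z) [] List.nodup_nil (by simp) (by simp)
      (by simp) k
  have hw : ∀ K, 3 ^ gx ∅ Z ∅ t K ≤ 3 ^ (2 * (K ∩ Z).card - 3) := fun K =>
    Nat.pow_le_pow_right (by norm_num) (by simpa using gx_le_zone ∅ Z ∅ t K)
  have a1 : Phi k (fun K => 3 ^ gx ∅ Z ∅ t K) ∅ ≤ pot N Z.card k 0 0 := by
    refine le_trans (sum_le_sum fun K _ => ?_) (count_pot ∅ Z k h2)
    simpa using hw K
  refine stage2 (k := k) E hE (empty_subset _) (empty_subset _) (disjoint_empty_left _)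
    ⟨Z, ∅, _, t, hp, hW, by have := hP 0 (by omega); omega, fun e he _ _ => ?_⟩
  induction e using Sym2.ind with
  | _ x y =>
    have hxy : x ≠ y := fun h => he (Sym2.mk_isDiag_iff.2 h)
    have a2 : PhiE k (fun K => 3 ^ gx ∅ Z ∅ t K) ∅ s(x, y) ≤
        pot N Z.card k ({x, y} : Finset V).card ({x, y} ∩ Z).card := by
      refine le_trans (sum_le_sum fun K _ => ?_) (count_pot {x, y} Z k h2)
      split_ifs with b1 b2
      · exact hw K
      · exact absurd (insert_subset (mk_mem_inner.1 b1.2).2.1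
          (singleton_subset_iff.2 (mk_mem_inner.1 b1.2).2.2)) b2
      all_goals exact Nat.zero_le _
    have a3 := card_le_card (inter_subset_left (s₁ := ({x, y} : Finset V)) (s₂ := Z))
    rw [card_pair hxy] at a2 a3
    have := hP _ (Nat.lt_succ_of_le a3)
    omega

end Pool.Agent.Lib.MP_1024aa_co
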