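import Pool.Agent.Lib.MP_1024aa_co.Zone6
import Pool.Agent.Lib.MP_1024aa_co.Zone7
import Pool.Agent.Lib.MP_1024aa_co.ZoneTab9
import Pool.Agent.Lib.MP_1024aa_co.Cert
import Pool.Agent.Lib.MP_1024aa_co.Tail

/-! The second player wins on every board with at least 51 vertices. -/

set_option autoImplicit false
set_option exponentiation.threshold 1000

namespace Pool.Agent.Lib.MP_1024aa_co

theorem strat_ge_51 (n : ℕ) (hn : 51 ≤ n) (E : Finset (Sym2 (Fin n)))
    (hE : ∀ e, e ∈ E ↔ ¬ e.IsDiag) : Strat E Win (∅, ∅) := by
  have hc : Fintype.card (Fin n) = n := Fintype.card_fin n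
  by_cases h1 : n ≤ 106
  · exact pure_stage (k := 9) (m := 51) (N := 106) Tab9.start (by decide +kernel) (by omega)
      (by omega) E hE
  by_cases h2 : n ≤ 160
  · exact pure_stage (k := 10) (m := 95) (N := 160) (winB_Th (by omega) (by decide))
      (by decide +kernel) (by omega) (by omega) E hE
  by_cases h3 : n ≤ 501
  · exact pure_stage (k := 11) (m := 143) (N := 501) (winB_Th (by omega) (by decide))
      (by decide +kernel) (by omega) (by omega) E hE
  by_cases h4 : n ≤ 5802
  · exact pure_stage (k := 14) (m := 485) (N := 5802) (winB_Th (by omega) (by decide))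
      (by decide +kernel) (by omega) (by omega) E hE
  by_cases h5 : n ≤ 277048
  · exact pure_stage (k := 20) (m := 5535) (N := 277048) (winB_Th (by omega) (by decide))
      (by decide +kernel) (by omega) (by omega) E hE
  by_cases h6 : n ≤ 1800000
  · exact pure_stage (k := 24) (m := 28027) (N := 1800000) (winB_Th (by omega) (by decide))
      (by decide +kernel) (by omega) (by omega) E hE
  by_cases h : 3 ^ 170 ≤ n
  · exact tail n h E hE
  · obtain ⟨N, l, j, a1, a2, a3, a4, a5⟩ :=
      chk_sound table table_ok (3 ^ 170) n (not_le.1 h) ranges 1800000 ranges_ok (by omega)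
    exact mid n N l j a1 a2 a3 a4 a5 E hE

end Pool.Agent.Lib.MP_1024aa_co
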