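import Pool.Agent.Lib.MP_1024aa_co.Small
import Pool.Agent.Lib.MP_1024aa_co.HybTab4
import Pool.Agent.Lib.MP_1024aa_co.HybTab5a
import Pool.Agent.Lib.MP_1024aa_co.HybTab5b
import Pool.Agent.Lib.MP_1024aa_co.HybTab6
import Pool.Agent.Lib.MP_1024aa_co.HybTab7
import Pool.Agent.Lib.MP_1024aa_co.HybTab8
import Pool.Agent.Lib.MP_1024aa_co.Zone8

/-! The second player wins on every board with at least four vertices. -/

set_option autoImplicit false

namespace Pool.Agent.Lib.MP_1024aa_co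

theorem all_n (n : ℕ) (hn : 4 ≤ n) (E : Finset (Sym2 (Fin n))) (hE : ∀ e, e ∈ E ↔ ¬ e.IsDiag) :
    Strat E Win (∅, ∅) := by
  by_cases h6 : n ≤ 6
  · exact Small.strat_le_six n hn h6 E hE
  by_cases h9 : n ≤ 9
  · exact Hyb4.strat n (by omega) h9 E hE
  by_cases h12 : n ≤ 12
  · exact Hyb5a.strat n (by omega) h12 E hE
  by_cases h16 : n ≤ 16
  · exact Hyb5b.strat n (by omega) h16 E hE
  by_cases h22 : n ≤ 22
  · exact Hyb6.strat n (by omega) h22 E hE
  by_cases h33 : n ≤ 33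
  · exact Hyb7.strat n (by omega) h33 E hE
  by_cases h50 : n ≤ 50
  · exact Hyb8.strat n (by omega) h50 E hE
  exact strat_ge_51 n (by omega) E hE

end Pool.Agent.Lib.MP_1024aa_co
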