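import Mathlib

/-! Weights on vertex sets: killing, boosting and cloning. -/

set_option autoImplicit false

open Finset

namespace Pool.Agent.Lib.MP_1024aa_co.Bias

variable {V : Type} [Fintype V] [DecidableEq V]

/-- total weight -/
def pot (W : Finset V → ℝ) : ℝ := ∑ S, W S

/-- weight of the sets containing the pair `e` -/
def dg (W : Finset V → ℝ) (e : Sym2 V) : ℝ := ∑ S, if e ∈ S.sym2 then W S else 0

/-- sets containing a pair of `T` lose their weight -/
def kill (T : Finset (Sym2 V)) (W : Finset V → ℝ) (S : Finset V) : ℝ :=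
  if Disjoint T S.sym2 then W S else 0

/-- the weight of a set grows linearly in the number of pairs of `M` it contains -/
def boost (lam : ℝ) (M : Finset (Sym2 V)) (W : Finset V → ℝ) (S : Finset V) : ℝ :=
  W S * (1 + lam * ((M ∩ S.sym2).card : ℝ))

/-- every set passes the share `eta` of its weight to its extensions by subsets of `A` -/
def clone (eta : ℝ) (A : Finset V) (W : Finset V → ℝ) (S : Finset V) : ℝ :=
  W S + eta * ∑ N ∈ A.powerset, if N ⊆ S then W (S \ N) else 0

omit [Fintype V] in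
theorem kill_nonneg {W : Finset V → ℝ} (hW : ∀ S, 0 ≤ W S) (T : Finset (Sym2 V)) (S : Finset V) :
    0 ≤ kill T W S := by
  unfold kill; split_ifs
  · exact hW S
  · exact le_rfl

omit [Fintype V] in
theorem kill_le {W : Finset V → ℝ} (hW : ∀ S, 0 ≤ W S) (T : Finset (Sym2 V)) (S : Finset V) :
    kill T W S ≤ W S := by
  unfold kill; split_ifs
  · exact le_rfl
  · exact hW S

theorem dg_mono {W W' : Finset V → ℝ} (h : ∀ S, W S ≤ W' S) (e : Sym2 V) : dg W e ≤ dg W' e := by
  refine sum_le_sum fun S _ => ?_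
  split_ifs
  · exact h S
  · exact le_rfl

theorem dg_le_pot {W : Finset V → ℝ} (hW : ∀ S, 0 ≤ W S) (e : Sym2 V) : dg W e ≤ pot W := by
  refine sum_le_sum fun S _ => ?_
  split_ifs
  · exact le_rfl
  · exact hW S

omit [DecidableEq V] in
theorem le_pot {W : Finset V → ℝ} (hW : ∀ S, 0 ≤ W S) (S : Finset V) : W S ≤ pot W :=
  single_le_sum (f := W) (fun S _ => hW S) (mem_univ S)

theorem pot_kill_single (W : Finset V → ℝ) (e : Sym2 V) :
    pot (kill {e} W) + dg W e = pot W := by
  unfold pot dg kill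
  rw [← sum_add_distrib]
  refine sum_congr rfl fun S _ => ?_
  by_cases h : e ∈ S.sym2 <;> simp [h, -mem_sym2_iff]

omit [Fintype V] in
theorem kill_insert (W : Finset V → ℝ) (e : Sym2 V) (T : Finset (Sym2 V)) :
    kill (insert e T) W = kill T (kill {e} W) := by
  funext S
  unfold kill
  by_cases h : e ∈ S.sym2 <;> by_cases h' : Disjoint T S.sym2 <;> simp [h, h', -mem_sym2_iff]

theorem greedy (a : ℕ) : ∀ (W : Finset V → ℝ) (U : Finset (Sym2 V)), (∀ S, 0 ≤ W S) →
    ∃ T ⊆ U, T.card ≤ a ∧ ∀ e ∈ U \ T, pot (kill T W) + a * dg (kill T W) e ≤ pot W := by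
  induction a with
  | zero =>
    intro W U hW
    refine ⟨∅, empty_subset _, by simp, fun e _ => ?_⟩
    have : pot (kill ∅ W) ≤ pot W := sum_le_sum fun S _ => kill_le hW _ S
    simpa using this
  | succ a ih =>
    intro W U hW
    rcases U.eq_empty_or_nonempty with rfl | hU
    · exact ⟨∅, subset_rfl, by simp, fun e he => by simp at he⟩
    obtain ⟨e₁, he₁, hmax⟩ := exists_max_image U (dg W) hU
    obtain ⟨T, hT, hc, h⟩ := ih (kill {e₁} W) U (kill_nonneg hW _)
    refine ⟨insert e₁ T, insert_subset he₁ hT, (card_insert_le _ _).trans (by omega),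
      fun e he => ?_⟩
    obtain ⟨h1, h2⟩ := mem_sdiff.1 he
    have h3 := h e (mem_sdiff.2 ⟨h1, fun hh => h2 (mem_insert_of_mem hh)⟩)
    have h4 := pot_kill_single W e₁
    have h5 : dg (kill (insert e₁ T) W) e ≤ dg W e₁ :=
      (dg_mono (kill_le hW _) e).trans (hmax e h1)
    rw [← kill_insert] at h3
    push_cast
    linarith

theorem pot_boost (lam : ℝ) (M : Finset (Sym2 V)) (W : Finset V → ℝ) :
    pot (boost lam M W) = pot W + lam * ∑ e ∈ M, dg W e := by
  unfold pot boost dg
  rw [sum_comm, mul_sum, ← sum_add_distrib]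
  refine sum_congr rfl fun S _ => ?_
  rw [← sum_filter, sum_const, filter_mem_eq_inter, nsmul_eq_mul]
  ring

theorem pot_clone {eta : ℝ} (h0 : 0 ≤ eta) (A : Finset V) {W : Finset V → ℝ}
    (hW : ∀ S, 0 ≤ W S) : pot (clone eta A W) ≤ pot W * (1 + eta * 2 ^ A.card) := by
  unfold pot clone
  rw [sum_add_distrib, ← mul_sum, sum_comm]
  have key : ∀ N : Finset V, (∑ S : Finset V, if N ⊆ S then W (S \ N) else 0) ≤ ∑ S, W S := by
    intro N
    rw [← sum_filter]
    have hinj : Set.InjOn (fun S : Finset V => S \ N)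
        (univ.filter fun S : Finset V => N ⊆ S : Finset (Finset V)) := by
      intro S hS S' hS' h
      have h1 : N ⊆ S := (mem_filter.1 (mem_coe.1 hS)).2
      have h2 : N ⊆ S' := (mem_filter.1 (mem_coe.1 hS')).2
      have h3 : S \ N = S' \ N := h
      rw [← sdiff_union_of_subset h1, ← sdiff_union_of_subset h2, h3]
    rw [← sum_image hinj]
    exact sum_le_sum_of_subset_of_nonneg (subset_univ _) fun S _ _ => hW S
  have h1 : (∑ N ∈ A.powerset, ∑ S : Finset V, if N ⊆ S then W (S \ N) else 0) ≤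
      2 ^ A.card * ∑ S, W S := by
    refine (sum_le_sum fun N _ => key N).trans ?_
    rw [sum_const, card_powerset, nsmul_eq_mul]
    push_cast
    exact le_rfl
  nlinarith [mul_le_mul_of_nonneg_left h1 h0]

omit [Fintype V] in
theorem le_boost {lam : ℝ} (h0 : 0 ≤ lam) (M : Finset (Sym2 V)) {W : Finset V → ℝ}
    (hW : ∀ S, 0 ≤ W S) (S : Finset V) : W S ≤ boost lam M W S :=
  le_mul_of_one_le_right (hW S) (le_add_of_nonneg_right (by positivity))

omit [Fintype V] in
theorem le_clone {eta : ℝ} (h0 : 0 ≤ eta) (A : Finset V) {W : Finset V → ℝ}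
    (hW : ∀ S, 0 ≤ W S) (S : Finset V) : W S ≤ clone eta A W S := by
  refine le_add_of_nonneg_right (mul_nonneg h0 (sum_nonneg fun N _ => ?_))
  split_ifs
  · exact hW _
  · exact le_rfl

omit [Fintype V] in
theorem le_clone_union {eta : ℝ} (h0 : 0 ≤ eta) {A : Finset V} {W : Finset V → ℝ}
    (hW : ∀ S, 0 ≤ W S) {S N : Finset V} (hN : N ⊆ A) (hd : Disjoint S N) :
    eta * W S ≤ clone eta A W (S ∪ N) := by
  refine le_add_of_nonneg_of_le (hW _) (mul_le_mul_of_nonneg_left ?_ h0)
  have h := single_le_sum (f := fun N' : Finset V => if N' ⊆ S ∪ N then W ((S ∪ N) \ N') else 0)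
    (s := A.powerset) (fun N' _ => by
      split_ifs
      · exact hW _
      · exact le_rfl) (mem_powerset.2 hN)
  rwa [if_pos subset_union_right, union_sdiff_cancel_right hd] at h

omit [Fintype V] in
theorem exists_verts (M : Finset (Sym2 V)) :
    ∃ A : Finset V, A.card ≤ 2 * M.card ∧ ∀ e ∈ M, ∀ v ∈ e, v ∈ A := by
  refine ⟨M.biUnion Sym2.toFinset, ?_, fun e he v hv =>
    mem_biUnion.2 ⟨e, he, Sym2.mem_toFinset.2 hv⟩⟩
  rw [mul_comm]
  refine card_biUnion_le_card_mul _ _ _ fun e _ => ?_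
  rw [Sym2.card_toFinset]
  split_ifs <;> omega

omit [DecidableEq V] in
theorem pot_init {l : ℝ} (hl : (Fintype.card V : ℝ) ≤ Real.exp l) :
    pot (fun S : Finset V => Real.exp (-l * S.card)) ≤ Real.exp 1 := by
  have h1 : pot (fun S : Finset V => Real.exp (-l * S.card)) =
      ∏ _v : V, (1 + Real.exp (-l)) := by
    rw [prod_one_add, powerset_univ]
    refine sum_congr rfl fun S _ => ?_
    rw [prod_const, ← Real.exp_nat_mul, mul_comm]
  rw [h1, prod_const, card_univ]
  have h2 : 1 + Real.exp (-l) ≤ Real.exp (Real.exp (-l)) := by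
    linarith [Real.add_one_le_exp (Real.exp (-l))]
  refine (pow_le_pow_left₀ (by positivity) h2 _).trans ?_
  rw [← Real.exp_nat_mul, Real.exp_le_exp, Real.exp_neg, ← div_eq_mul_inv,
    div_le_one (Real.exp_pos l)]
  exact hl

end Pool.Agent.Lib.MP_1024aa_co.Bias
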