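import Pool.Agent.Lib.MP_1024aa_co.BiasGame
import Pool.Agent.Lib.MP_1024aa_co.BiasPot

/-! Blue, with `a` edges per round against `p` red ones, keeps red cliques small. -/

set_option autoImplicit false

open Finset

namespace Pool.Agent.Lib.MP_1024aa_co.Bias

variable {V : Type} [DecidableEq V]

/-- pairs between `X` and `K \ X` -/
def cut (X K : Finset V) : Finset (Sym2 V) := (X ×ˢ (K \ X)).image fun y => s(y.1, y.2)

theorem mem_cut {X K : Finset V} {e : Sym2 V} :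
    e ∈ cut X K ↔ ∃ u ∈ X, ∃ v ∈ K, v ∉ X ∧ e = s(u, v) := by
  unfold cut
  constructor
  · intro h
    obtain ⟨y, hy, rfl⟩ := mem_image.1 h
    obtain ⟨h1, h2⟩ := mem_product.1 hy
    exact ⟨y.1, h1, y.2, (mem_sdiff.1 h2).1, (mem_sdiff.1 h2).2, rfl⟩
  · rintro ⟨u, hu, v, hv, hv', rfl⟩
    exact mem_image.2 ⟨(u, v), mem_product.2 ⟨hu, mem_sdiff.2 ⟨hv, hv'⟩⟩, rfl⟩

theorem card_cut {X K : Finset V} (h : X ⊆ K) : (cut X K).card = X.card * (K.card - X.card) := by
  unfold cut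
  rw [card_image_of_injOn, card_product, card_sdiff_of_subset h]
  intro y hy z hz hyz
  obtain ⟨h1, h2⟩ := mem_product.1 (mem_coe.1 hy)
  obtain ⟨h3, h4⟩ := mem_product.1 (mem_coe.1 hz)
  rcases Sym2.eq_iff.1 hyz with ⟨a, b⟩ | ⟨a, b⟩
  · exact Prod.ext a b
  · exact absurd (a ▸ h1) (mem_sdiff.1 h4).2

/-- numerical data of the blocking strategy -/
structure Par where
  p : ℕ
  g : ℕ
  x : ℕ
  lam : ℝ
  l : ℝ
  be : ℝ
  th : ℝ
  ze : ℝ

/-- lower bounds for the weights of subsets of a set `K` without blue pairs -/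
def LB (P : Par) (R : Finset (Sym2 V)) (W : Finset V → ℝ) (K : Finset V) : Prop :=
  ∃ U ⊆ K, ∃ b m : ℕ, P.x ≤ U.card ∧ P.g * b + U.card ≤ K.card ∧
    Real.exp (P.th * m - P.l * K.card) ≤ W K ∧
    ∀ X ⊆ U, (X = U ∨ P.x + 2 * P.p ≤ U.card) →
      Real.exp (P.be * ((R ∩ cut X K).card : ℝ) - P.l * X.card - P.ze * b -
        P.be * (P.g ^ 2 * m + P.p * b)) ≤ W (X ∪ (K \ U))

theorem LB.init (P : Par) {K : Finset V} (hK : P.x ≤ K.card) :
    LB P ∅ (fun S : Finset V => Real.exp (-P.l * S.card)) K := by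
  refine ⟨K, subset_rfl, 0, 0, hK, by simp, by simp, fun X _ _ => by simp⟩

theorem card_inter_union_le (R M C : Finset (Sym2 V)) :
    ((R ∪ M) ∩ C).card ≤ (R ∩ C).card + (M ∩ C).card := by
  rw [union_inter_distrib_right]
  exact card_union_le _ _

theorem LB.step (P : Par) (hbe : 0 ≤ P.be) (hlam : 0 ≤ P.lam)
    (h1 : ∀ j : ℕ, j ≤ P.p → Real.exp (P.be * j) ≤ 1 + P.lam * j)
    (h2 : Real.exp P.th ≤ 1 + P.lam) {R M : Finset (Sym2 V)} {W W' : Finset V → ℝ}
    {K A : Finset V} (hW : ∀ S, 0 ≤ W S) (hM : M.card ≤ P.p) (hA : A.card ≤ 2 * P.p)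
    (hMA : ∀ e ∈ M, ∀ v ∈ e, v ∈ A) (w1 : ∀ S ⊆ K, boost P.lam M W S ≤ W' S)
    (w2 : ∀ S N, N ⊆ A → Disjoint S N → S ∪ N ⊆ K → Real.exp (-P.ze) * W S ≤ W' (S ∪ N))
    (h : LB P R W K) : LB P (R ∪ M) W' K := by
  obtain ⟨U, hU, b, m, hx, hb, hK, hX⟩ := h
  have w0 : ∀ S ⊆ K, W S ≤ W' S := fun S hS => (le_boost hlam M hW S).trans (w1 S hS)
  have w3 : ∀ S ⊆ K, W S * Real.exp (P.be * ((M ∩ S.sym2).card : ℝ)) ≤ W' S := fun S hS =>
    (mul_le_mul_of_nonneg_left (h1 _ ((card_le_card inter_subset_left).trans hM)) (hW S)).trans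
      (w1 S hS)
  have hsub : ∀ X ⊆ U, X ∪ (K \ U) ⊆ K := fun X hXU => union_subset (hXU.trans hU) sdiff_subset
  by_cases hstop : U.card < P.x + 2 * P.p
  · refine ⟨U, hU, b, m, hx, hb, hK.trans (w0 K subset_rfl), fun X hXU hc => ?_⟩
    have hXe : X = U := hc.resolve_right (by omega)
    subst hXe
    refine le_trans ?_ (w3 _ (hsub X hXU))
    refine le_trans ?_ (mul_le_mul_of_nonneg_right (hX X hXU hc) (Real.exp_pos _).le)
    rw [← Real.exp_add, Real.exp_le_exp]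
    have c1 := card_inter_union_le R M (cut X K)
    have c2 : (M ∩ cut X K).card ≤ (M ∩ (X ∪ (K \ X)).sym2).card := by
      refine card_le_card (inter_subset_inter_left fun e he => ?_)
      obtain ⟨u, hu, v, hv, hv', rfl⟩ := mem_cut.1 he
      exact mk_mem_sym2_iff.2 ⟨mem_union_left _ hu, mem_union_right _ (mem_sdiff.2 ⟨hv, hv'⟩)⟩
    have c3 : (((R ∪ M) ∩ cut X K).card : ℝ) ≤
        (R ∩ cut X K).card + (M ∩ (X ∪ (K \ X)).sym2).card := by exact_mod_cast by omega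
    nlinarith [mul_le_mul_of_nonneg_left c3 hbe]
  have hbig : P.x + 2 * P.p ≤ U.card := not_lt.1 hstop
  by_cases hbatch : P.g ≤ (U ∩ A).card
  · have hc1 : (U \ A).card + (U ∩ A).card = U.card := card_sdiff_add_card_inter U A
    have hc2 : (U ∩ A).card ≤ 2 * P.p := (card_le_card inter_subset_right).trans hA
    refine ⟨U \ A, sdiff_subset.trans hU, b + 1, m, by omega, by nlinarith,
      hK.trans (w0 K subset_rfl), fun X hXU _ => ?_⟩
    have hXU' : X ⊆ U := hXU.trans sdiff_subset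
    have heq : X ∪ (K \ (U \ A)) = (X ∪ (K \ U)) ∪ (U ∩ A) := by
      ext v
      have := @hU v
      simp only [mem_union, mem_sdiff, mem_inter]
      tauto
    have hd : Disjoint (X ∪ (K \ U)) (U ∩ A) := by
      refine disjoint_left.2 fun v hv hv' => ?_
      rcases mem_union.1 hv with h | h
      · exact (mem_sdiff.1 (hXU h)).2 (mem_inter.1 hv').2
      · exact (mem_sdiff.1 h).2 (mem_inter.1 hv').1
    rw [heq]
    refine le_trans ?_ (w2 _ _ inter_subset_right hd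
      (union_subset (hsub X hXU') (inter_subset_left.trans hU)))
    refine le_trans ?_ (mul_le_mul_of_nonneg_left (hX X hXU' (Or.inr hbig)) (Real.exp_pos _).le)
    rw [← Real.exp_add, Real.exp_le_exp]
    have c1 := card_inter_union_le R M (cut X K)
    have c2 : (M ∩ cut X K).card ≤ P.p := (card_le_card inter_subset_left).trans hM
    have c3 : (((R ∪ M) ∩ cut X K).card : ℝ) ≤ (R ∩ cut X K).card + P.p := by
      exact_mod_cast by omega
    push_cast
    nlinarith [mul_le_mul_of_nonneg_left c3 hbe]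
  have main : ∀ X ⊆ U, ∀ m' : ℕ,
      ((M ∩ (U ∩ A).sym2).card : ℝ) + P.g ^ 2 * m ≤ P.g ^ 2 * m' →
      Real.exp (P.be * (((R ∪ M) ∩ cut X K).card : ℝ) - P.l * X.card - P.ze * b -
        P.be * (P.g ^ 2 * m' + P.p * b)) ≤ W' (X ∪ (K \ U)) := by
    intro X hXU m' hm'
    refine le_trans ?_ (w3 _ (hsub X hXU))
    refine le_trans ?_ (mul_le_mul_of_nonneg_right (hX X hXU (Or.inr hbig)) (Real.exp_pos _).le)
    rw [← Real.exp_add, Real.exp_le_exp]
    have c1 := card_inter_union_le R M (cut X K)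
    have c2 : (M ∩ cut X K).card ≤
        (M ∩ (X ∪ (K \ U)).sym2).card + (M ∩ (U ∩ A).sym2).card := by
      refine le_trans (card_le_card fun e he => ?_) (card_union_le _ _)
      obtain ⟨heM, he⟩ := mem_inter.1 he
      obtain ⟨u, hu, v, hv, hv', rfl⟩ := mem_cut.1 he
      by_cases hvU : v ∈ U
      · refine mem_union_right _ (mem_inter.2 ⟨heM, mk_mem_sym2_iff.2 ⟨?_, ?_⟩⟩)
        · exact mem_inter.2 ⟨hXU hu, hMA _ heM u (Sym2.mem_mk_left u v)⟩
        · exact mem_inter.2 ⟨hvU, hMA _ heM v (Sym2.mem_mk_right u v)⟩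
      · exact mem_union_left _ (mem_inter.2 ⟨heM, mk_mem_sym2_iff.2
          ⟨mem_union_left _ hu, mem_union_right _ (mem_sdiff.2 ⟨hv, hvU⟩)⟩⟩)
    have c3 : (((R ∪ M) ∩ cut X K).card : ℝ) ≤ (R ∩ cut X K).card +
        ((M ∩ (X ∪ (K \ U)).sym2).card + (M ∩ (U ∩ A).sym2).card) := by exact_mod_cast by omega
    nlinarith [mul_le_mul_of_nonneg_left c3 hbe, mul_le_mul_of_nonneg_left hm' hbe]
  rcases (M ∩ (U ∩ A).sym2).eq_empty_or_nonempty with h0 | h0
  · exact ⟨U, hU, b, m, hx, hb, hK.trans (w0 K subset_rfl), fun X hXU _ =>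
      main X hXU m (by rw [h0]; simp)⟩
  · refine ⟨U, hU, b, m + 1, hx, hb, ?_, fun X hXU _ => main X hXU (m + 1) ?_⟩
    · have c1 : 1 ≤ (M ∩ K.sym2).card := card_pos.2 (h0.mono
        (inter_subset_inter_left (sym2_mono (inter_subset_left.trans hU))))
      have c2 : (1 : ℝ) ≤ (M ∩ K.sym2).card := by exact_mod_cast c1
      refine le_trans ?_ (w1 K subset_rfl)
      have c3 : Real.exp P.th ≤ 1 + P.lam * ((M ∩ K.sym2).card : ℝ) := by nlinarith
      refine le_trans ?_ (mul_le_mul hK c3 (Real.exp_pos _).le (hW K))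
      rw [← Real.exp_add]
      push_cast
      exact le_of_eq (by congr 1; ring)
    · have c1 : (M ∩ (U ∩ A).sym2).card ≤ P.g ^ 2 := by
        refine (card_le_card inter_subset_right).trans ?_
        rw [card_sym2]
        refine (Nat.choose_le_pow _ _).trans (Nat.pow_le_pow_left (by omega) 2)
      have c2 : ((M ∩ (U ∩ A).sym2).card : ℝ) ≤ P.g ^ 2 := by exact_mod_cast c1
      push_cast
      linarith

theorem LB.final (P : Par) (hbe : 0 ≤ P.be) (hl : 0 ≤ P.l) (hze : 0 ≤ P.ze) (hth : 0 < P.th)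
    (hg : 0 < P.g) {R : Finset (Sym2 V)} {W : Finset V → ℝ} {K : Finset V} {c : ℝ}
    (hW : ∀ S, W S ≤ Real.exp c) (hR : ∀ u ∈ K, ∀ v ∈ K, u ≠ v → s(u, v) ∈ R)
    (hk : P.x + 2 * P.p ≤ K.card) (h : LB P R W K) :
    P.be * (P.x * (K.card - P.x - 2 * P.p)) ≤ c + P.l * (P.x + 2 * P.p) +
      (P.ze + P.be * P.p) * (K.card / P.g) + P.be * P.g ^ 2 * ((P.l * K.card + c) / P.th) := by
  obtain ⟨U, hU, b, m, hx, hb, hK, hX⟩ := h
  obtain ⟨X, hXU, hc, h1, h2⟩ : ∃ X ⊆ U, (X = U ∨ P.x + 2 * P.p ≤ U.card) ∧ P.x ≤ X.card ∧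
      X.card ≤ P.x + 2 * P.p := by
    by_cases hs : P.x + 2 * P.p ≤ U.card
    · obtain ⟨X, h1, h2⟩ := exists_subset_card_eq hx
      exact ⟨X, h1, Or.inr hs, h2.ge, by omega⟩
    · exact ⟨U, subset_rfl, Or.inl rfl, hx, by omega⟩
  have e1 := Real.exp_le_exp.1 (hK.trans (hW _))
  have e2 := Real.exp_le_exp.1 ((hX X hXU hc).trans (hW _))
  have hXK : X ⊆ K := hXU.trans hU
  have e3 : R ∩ cut X K = cut X K := by
    refine inter_eq_right.2 fun e he => ?_
    obtain ⟨u, hu, v, hv, hv', rfl⟩ := mem_cut.1 he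
    exact hR u (hXK hu) v hv fun h => hv' (h ▸ hu)
  rw [e3, card_cut hXK, Nat.cast_mul, Nat.cast_sub (card_le_card hXK)] at e2
  have r1 : (P.x : ℝ) ≤ X.card := by exact_mod_cast h1
  have r2 : (X.card : ℝ) ≤ P.x + 2 * P.p := by exact_mod_cast h2
  have r3 : (P.x : ℝ) + 2 * P.p ≤ K.card := by exact_mod_cast hk
  have r4 : (b : ℝ) ≤ K.card / P.g := by
    rw [le_div_iff₀ (by exact_mod_cast hg)]
    exact_mod_cast (by nlinarith : b * P.g ≤ K.card)
  have r5 : (m : ℝ) ≤ (P.l * K.card + c) / P.th := by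
    rw [le_div_iff₀ hth]; linarith
  have r6 : (P.x : ℝ) * (K.card - P.x - 2 * P.p) ≤ X.card * (K.card - X.card) :=
    mul_le_mul r1 (by linarith) (by linarith) (by positivity)
  have s1 := mul_le_mul_of_nonneg_left r6 hbe
  have s2 := mul_le_mul_of_nonneg_left r2 hl
  have s3 := mul_le_mul_of_nonneg_left r4 (by positivity : 0 ≤ P.ze + P.be * P.p)
  have s4 := mul_le_mul_of_nonneg_left r5 (by positivity : 0 ≤ P.be * P.g ^ 2)
  nlinarith

variable [Fintype V]

/-- the invariant of the blocking strategy -/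
def Blk (P : Par) (E : Finset (Sym2 V)) (a k : ℕ) (R B : Finset (Sym2 V)) : Prop :=
  ∃ W : Finset V → ℝ, (∀ S, 0 ≤ W S) ∧
    pot W ≤ (1 + a) * Real.exp (1 + Real.exp (-2 * P.l) * R.card) ∧
    (∀ e ∈ E \ (R ∪ B), pot W + a * dg W e ≤
      (1 + a) * Real.exp (1 + Real.exp (-2 * P.l) * R.card)) ∧
    ∀ K : Finset V, K.card = k → Disjoint B K.sym2 → LB P R W K

theorem Blk.init (P : Par) (E : Finset (Sym2 V)) (a : ℕ) {k : ℕ} (hk : P.x ≤ k)
    (hl : (Fintype.card V : ℝ) ≤ Real.exp P.l) : Blk P E a k ∅ ∅ := by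
  have h1 := pot_init hl
  have h0 : ∀ S : Finset V, 0 ≤ Real.exp (-P.l * S.card) := fun S => (Real.exp_pos _).le
  have ha : (0 : ℝ) ≤ a := Nat.cast_nonneg a
  refine ⟨_, h0, ?_, fun e _ => ?_, fun K hK _ => LB.init P (hK ▸ hk)⟩
  · simp only [card_empty, Nat.cast_zero, mul_zero, add_zero]
    nlinarith [Real.exp_pos 1]
  · simp only [card_empty, Nat.cast_zero, mul_zero, add_zero]
    nlinarith [mul_le_mul_of_nonneg_left ((dg_le_pot h0 e).trans h1) ha]

theorem Blk.guard (P : Par) (E : Finset (Sym2 V)) (a k : ℕ) (hp : 0 < P.p) (hbe : 0 ≤ P.be)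
    (hlam : P.lam * P.p = a) (hze : P.ze = 2 * P.l + 2 * P.p)
    (h1 : ∀ j : ℕ, j ≤ P.p → Real.exp (P.be * j) ≤ 1 + P.lam * j)
    (h2 : Real.exp P.th ≤ 1 + P.lam) : Guard E P.p a (Blk P E a k) := by
  intro R B M h hM hc
  obtain ⟨W, hW, b1, b2, hLB⟩ := h
  have hp' : (0 : ℝ) < P.p := by exact_mod_cast hp
  have ha : (0 : ℝ) ≤ a := Nat.cast_nonneg a
  have hl0 : 0 ≤ P.lam := by
    by_contra hh
    nlinarith [mul_neg_of_neg_of_pos (not_le.1 hh) hp']
  rcases M.eq_empty_or_nonempty with rfl | hne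
  · refine ⟨∅, empty_subset _, by simp, fun B' hB => ?_⟩
    rw [union_empty] at hB ⊢
    exact ⟨W, hW, b1, fun e he => b2 e (sdiff_subset_sdiff subset_rfl
      (union_subset_union_right hB) he), fun K hK hd => hLB K hK (hd.mono_left hB)⟩
  obtain ⟨A, hA, hMA⟩ := exists_verts M
  have hA' : A.card ≤ 2 * P.p := by omega
  set C := (1 + a) * Real.exp (1 + Real.exp (-2 * P.l) * R.card) with hC
  have hW1 : ∀ S, 0 ≤ boost P.lam M W S := fun S => (hW S).trans (le_boost hl0 M hW S)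
  have he0 : 0 ≤ Real.exp (-P.ze) := (Real.exp_pos _).le
  have hW2 : ∀ S, 0 ≤ clone (Real.exp (-P.ze)) A (boost P.lam M W) S := fun S =>
    (hW1 S).trans (le_clone he0 A hW1 S)
  have p1 : pot (boost P.lam M W) ≤ C := by
    rw [pot_boost]
    have s1 : ∑ e ∈ M, (a : ℝ) * dg W e ≤ M.card • (C - pot W) :=
      sum_le_card_nsmul _ _ _ fun e he => by linarith [b2 e (hM he)]
    rw [← mul_sum, nsmul_eq_mul] at s1
    have s2 : (M.card : ℝ) * (C - pot W) ≤ P.p * (C - pot W) :=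
      mul_le_mul_of_nonneg_right (by exact_mod_cast hc) (by linarith)
    have s3 : (P.p : ℝ) * (P.lam * ∑ e ∈ M, dg W e) ≤ P.p * (C - pot W) := by
      rw [← mul_assoc, mul_comm (P.p : ℝ) P.lam, hlam]; linarith
    linarith [le_of_mul_le_mul_left s3 hp']
  have p2 : pot (clone (Real.exp (-P.ze)) A (boost P.lam M W)) ≤
      (1 + a) * Real.exp (1 + Real.exp (-2 * P.l) * (R ∪ M).card) := by
    have s1 : (2 : ℝ) ^ A.card ≤ Real.exp (2 * P.p) := by
      have t1 : (2 : ℝ) ≤ Real.exp 1 := by linarith [Real.add_one_le_exp (1 : ℝ)]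
      refine (pow_le_pow_left₀ (by norm_num) t1 _).trans ?_
      rw [← Real.exp_nat_mul, Real.exp_le_exp, mul_one]
      exact_mod_cast hA'
    have s2 : Real.exp (-P.ze) * 2 ^ A.card ≤ Real.exp (-2 * P.l) := by
      refine (mul_le_mul_of_nonneg_left s1 he0).trans (le_of_eq ?_)
      rw [← Real.exp_add, hze]; congr 1; ring
    have s3 : 1 + Real.exp (-P.ze) * 2 ^ A.card ≤ Real.exp (Real.exp (-2 * P.l)) := by
      linarith [Real.add_one_le_exp (Real.exp (-2 * P.l))]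
    have s4 : (R.card : ℝ) + 1 ≤ (R ∪ M).card := by
      have hd : Disjoint R M := disjoint_right.2 fun e he hr =>
        (mem_sdiff.1 (hM he)).2 (mem_union_left _ hr)
      rw [card_union_of_disjoint hd]
      exact_mod_cast Nat.add_le_add_left (card_pos.2 hne) _
    refine (pot_clone he0 A hW1).trans ((mul_le_mul p1 s3 (by positivity) (by positivity)).trans ?_)
    rw [hC, mul_assoc, ← Real.exp_add]
    refine mul_le_mul_of_nonneg_left (Real.exp_le_exp.2 ?_) (by positivity)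
    nlinarith [Real.exp_pos (-2 * P.l)]
  obtain ⟨T, hT, hTc, hg⟩ := greedy a _ (E \ (R ∪ M ∪ B)) hW2
  refine ⟨T, hT, hTc, fun B' hB => ⟨kill T _, kill_nonneg hW2 T,
    (sum_le_sum fun S _ => kill_le hW2 T S).trans p2, fun e he => (hg e ?_).trans p2,
    fun K hK hd => ?_⟩⟩
  · obtain ⟨e1, e2⟩ := mem_sdiff.1 he
    refine mem_sdiff.2 ⟨mem_sdiff.2 ⟨e1, fun hh => e2 ?_⟩, fun hh =>
      e2 (mem_union_right _ (hB (mem_union_right _ hh)))⟩
    exact union_subset_union_right (subset_union_left.trans hB) hh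
  · have hk : ∀ S ⊆ K, kill T (clone (Real.exp (-P.ze)) A (boost P.lam M W)) S =
        clone (Real.exp (-P.ze)) A (boost P.lam M W) S := fun S hS =>
      if_pos (hd.mono (subset_union_right.trans hB) (sym2_mono hS))
    refine LB.step P hbe hl0 h1 h2 hW hc hA' hMA (fun S hS => ?_) (fun S N hN hSN hS => ?_)
      (hLB K hK (hd.mono_left (subset_union_left.trans hB)))
    · rw [hk S hS]; exact le_clone he0 A hW1 S
    · rw [hk _ hS]
      exact (mul_le_mul_of_nonneg_left (le_boost hl0 M hW S) he0).trans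
        (le_clone_union he0 hW1 hN hSN)

theorem Blk.final (P : Par) {E : Finset (Sym2 V)} {a k : ℕ} (hbe : 0 ≤ P.be) (hl0 : 0 ≤ P.l)
    (hze : 0 ≤ P.ze) (hth : 0 < P.th) (hg : 0 < P.g) (hk : P.x + 2 * P.p ≤ k)
    (hl : (Fintype.card V : ℝ) ≤ Real.exp P.l) {c : ℝ} (hc : (1 + a : ℝ) ≤ Real.exp (c - 2))
    {R B : Finset (Sym2 V)} (h : Blk P E a k R B) {K : Finset V} (hK : K.card = k)
    (hB : Disjoint B K.sym2) (hR : ∀ u ∈ K, ∀ v ∈ K, u ≠ v → s(u, v) ∈ R) :
    P.be * (P.x * (k - P.x - 2 * P.p)) ≤ c + P.l * (P.x + 2 * P.p) +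
      (P.ze + P.be * P.p) * (k / P.g) + P.be * P.g ^ 2 * ((P.l * k + c) / P.th) := by
  obtain ⟨W, hW, b1, -, hLB⟩ := h
  have s1 : R.card ≤ Fintype.card V * Fintype.card V := by
    refine (card_le_univ R).trans ?_
    rw [← Fintype.card_prod]
    exact Fintype.card_le_of_surjective (fun y : V × V => s(y.1, y.2)) fun e => by
      induction e using Sym2.ind with
      | _ u v => exact ⟨(u, v), rfl⟩
  have s2 : (R.card : ℝ) ≤ Real.exp P.l * Real.exp P.l :=
    le_trans (by exact_mod_cast s1) (mul_le_mul hl hl (by positivity) (by positivity))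
  have s3 : Real.exp (-2 * P.l) * R.card ≤ 1 := by
    refine (mul_le_mul_of_nonneg_left s2 (Real.exp_pos _).le).trans (le_of_eq ?_)
    rw [← Real.exp_add, ← Real.exp_add, ← Real.exp_zero]; congr 1; ring
  have s4 : ∀ S, W S ≤ Real.exp c := fun S => by
    refine (le_pot hW S).trans (b1.trans ?_)
    refine (mul_le_mul hc (Real.exp_le_exp.2 (by linarith : _ ≤ (2 : ℝ))) (by positivity)
      (by positivity)).trans (le_of_eq ?_)
    rw [← Real.exp_add]; congr 1; ring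
  have := LB.final P hbe hl0 hze hth hg s4 hR (hK ▸ hk) (hLB K hK hB)
  rwa [hK] at this

end Pool.Agent.Lib.MP_1024aa_co.Bias
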