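import Pool.Agent.Lib.MP_1024aa_co.BiasGame

/-! Blue, with `r` edges per round against `p` red ones, builds a clique on `r * L` vertices as
soon as there are `r * (64 p) ^ L` vertices. -/

set_option autoImplicit false

open Finset

namespace Pool.Agent.Lib.MP_1024aa_co.Bias

variable {V : Type} [DecidableEq V]

/-- number of `R`-edges from `x` into `Z` -/
def deg (R : Finset (Sym2 V)) (x : V) (Z : Finset V) : ℕ := (Z.filter fun z => s(x, z) ∈ R).card

/-- number of ordered pairs in `A × Z` that are `R`-edges -/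
def cnt (R : Finset (Sym2 V)) (A Z : Finset V) : ℕ := ∑ a ∈ A, deg R a Z

theorem cnt_eq (R : Finset (Sym2 V)) (A Z : Finset V) :
    cnt R A Z = ((A ×ˢ Z).filter fun x => s(x.1, x.2) ∈ R).card := by
  unfold cnt deg
  rw [card_filter, sum_product]
  exact sum_congr rfl fun a _ => by rw [card_filter]

theorem cnt_le_two (M : Finset (Sym2 V)) (A Z : Finset V) : cnt M A Z ≤ 2 * M.card := by
  rw [cnt_eq]
  refine card_le_mul_card_image_of_maps_to (f := fun x : V × V => s(x.1, x.2))
    (fun a ha => (mem_filter.1 ha).2) 2 fun b _ => ?_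
  induction b using Sym2.ind with
  | _ u v =>
    refine (card_le_card (t := {(u, v), (v, u)}) fun x hx => ?_).trans card_le_two
    have h := (mem_filter.1 hx).2
    rw [Sym2.eq_iff] at h
    rcases h with ⟨h1, h2⟩ | ⟨h1, h2⟩
    · exact mem_insert.2 (Or.inl (Prod.ext h1 h2))
    · exact mem_insert.2 (Or.inr (mem_singleton.2 (Prod.ext h1 h2)))

theorem cnt_union_le (R M : Finset (Sym2 V)) (A Z : Finset V) :
    cnt (R ∪ M) A Z ≤ cnt R A Z + 2 * M.card := by
  refine le_trans ?_ (Nat.add_le_add_left (cnt_le_two M A Z) _)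
  unfold cnt
  rw [← sum_add_distrib]
  refine sum_le_sum fun a _ => ?_
  unfold deg
  refine le_trans (card_le_card fun z hz => ?_) (card_union_le _ _)
  obtain ⟨h1, h2⟩ := mem_filter.1 hz
  rcases mem_union.1 h2 with h | h
  · exact mem_union_left _ (mem_filter.2 ⟨h1, h⟩)
  · exact mem_union_right _ (mem_filter.2 ⟨h1, h⟩)

theorem cnt_mono (R : Finset (Sym2 V)) {A A' Z Z' : Finset V} (hA : A ⊆ A') (hZ : Z ⊆ Z') :
    cnt R A Z ≤ cnt R A' Z' := by
  rw [cnt_eq, cnt_eq]
  exact card_le_card (filter_subset_filter _ (product_subset_product hA hZ))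

theorem nbr_le_cnt (R : Finset (Sym2 V)) (A Z : Finset V) :
    (Z.filter fun z => ∃ a ∈ A, s(a, z) ∈ R).card ≤ cnt R A Z := by
  refine le_trans (card_le_card (t := A.biUnion fun a => Z.filter fun z => s(a, z) ∈ R)
    fun z hz => ?_) card_biUnion_le
  obtain ⟨h1, a, ha, h2⟩ := mem_filter.1 hz
  exact mem_biUnion.2 ⟨a, ha, mem_filter.2 ⟨h1, h2⟩⟩

theorem high_le_cnt (R : Finset (Sym2 V)) (Z : Finset V) (d : ℕ) :
    (Z.filter fun x => d < deg R x Z).card * d ≤ cnt R Z Z := by
  unfold cnt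
  calc (Z.filter fun x => d < deg R x Z).card * d
      ≤ ∑ a ∈ Z.filter (fun x => d < deg R x Z), deg R a Z := by
        rw [← smul_eq_mul]
        exact card_nsmul_le_sum _ _ _ fun x hx => (mem_filter.1 hx).2.le
    _ ≤ _ := sum_le_sum_of_subset (filter_subset _ _)

theorem cnt_insert_free (R : Finset (Sym2 V)) (A : Finset V) (x : V)
    (hx : ∀ a ∈ insert x A, s(a, x) ∉ R) : cnt R (insert x A) (insert x A) ≤ cnt R A A := by
  rw [cnt_eq, cnt_eq]
  refine card_le_card fun y hy => ?_
  obtain ⟨h1, h2⟩ := mem_filter.1 hy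
  obtain ⟨h3, h4⟩ := mem_product.1 h1
  refine mem_filter.2 ⟨mem_product.2 ⟨?_, ?_⟩, h2⟩
  · rcases mem_insert.1 h3 with h | h
    · exact absurd h2 (by rw [h, Sym2.eq_swap]; exact hx _ h4)
    · exact h
  · rcases mem_insert.1 h4 with h | h
    · exact absurd h2 (by rw [h]; exact hx _ h3)
    · exact h

/-- every vertex of `A` is joined in `B` to every other vertex of `Q` -/
def Joined (B : Finset (Sym2 V)) (A Q : Finset V) : Prop :=
  ∀ x ∈ A, ∀ y ∈ Q, x ≠ y → s(x, y) ∈ B

/-- `B` contains a clique on at least `k` vertices -/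
def HasClique (k : ℕ) (B : Finset (Sym2 V)) : Prop := ∃ D : Finset V, k ≤ D.card ∧ Joined B D D

omit [DecidableEq V] in
theorem Joined.mono {B B' : Finset (Sym2 V)} {A A' Q Q' : Finset V} (h : Joined B A Q)
    (hB : B ⊆ B') (hA : A' ⊆ A) (hQ : Q' ⊆ Q) : Joined B' A' Q' :=
  fun x hx y hy hne => hB (h x (hA hx) y (hQ hy) hne)

omit [DecidableEq V] in
theorem HasClique.mono (k : ℕ) (B B' : Finset (Sym2 V)) (hB : B ⊆ B') (h : HasClique k B) :
    HasClique k B' := by
  obtain ⟨D, h1, h2⟩ := h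
  exact ⟨D, h1, h2.mono hB subset_rfl subset_rfl⟩

theorem exists_avail {R : Finset (Sym2 V)} {A Z : Finset V} {p t N' : ℕ} (hp : 1 ≤ p)
    (hZ : Z.card = 64 * p * N') (hA : A.card = t) (ht : t + 1 ≤ 2 * N')
    (h1 : cnt R Z Z ≤ 4 * p * Z.card + 2 * p * (t + 1)) (h2 : cnt R A Z ≤ 14 * p * (t + 1)) :
    ∃ x ∈ Z, x ∉ A ∧ deg R x Z ≤ 12 * p ∧ ∀ a ∈ A, s(a, x) ∉ R := by
  by_contra hc
  push Not at hc
  have hsub : Z ⊆ A ∪ (Z.filter fun x => 12 * p < deg R x Z) ∪
      (Z.filter fun z => ∃ a ∈ A, s(a, z) ∈ R) := by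
    intro x hx
    by_cases h3 : x ∈ A
    · exact mem_union_left _ (mem_union_left _ h3)
    by_cases h4 : deg R x Z ≤ 12 * p
    · exact mem_union_right _ (mem_filter.2 ⟨hx, hc x hx h3 h4⟩)
    · exact mem_union_left _ (mem_union_right _ (mem_filter.2 ⟨hx, not_le.1 h4⟩))
  have h5 := (card_le_card hsub).trans ((card_union_le _ _).trans
    (Nat.add_le_add_right (card_union_le _ _) _))
  have h6 := nbr_le_cnt R A Z
  have h7 := high_le_cnt R Z (12 * p)
  set H := (Z.filter fun x => 12 * p < deg R x Z).card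
  have h8 : H * (12 * p) ≤ (32 * p * N') * (12 * p) := by
    refine h7.trans (h1.trans ?_)
    rw [hZ]
    have : 2 * p * (t + 1) ≤ 2 * p * (2 * N') := Nat.mul_le_mul_left _ ht
    nlinarith [Nat.mul_le_mul_right (p * N') hp]
  have h9 : H ≤ 32 * p * N' := Nat.le_of_mul_le_mul_right h8 (by omega)
  have h10 : 14 * p * (t + 1) ≤ 14 * p * (2 * N') := Nat.mul_le_mul_left _ ht
  have h11 : N' ≤ p * N' := Nat.le_mul_of_pos_left _ hp
  nlinarith

/-- one level: `s` further rounds complete the core `Q` and the set of survivors -/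
theorem force_level {E : Finset (Sym2 V)} (hE : ∀ e, e ∈ E ↔ ¬ e.IsDiag) {p r N' : ℕ}
    (hp : 1 ≤ p) (hr : r ≤ N') {G : Finset (Sym2 V) → Prop} {D Z : Finset V}
    (hZ : Z.card = 64 * p * N')
    (next : ∀ (R B : Finset (Sym2 V)) (Q A : Finset V), R ⊆ E → Joined B (D ∪ Z) D → Q ⊆ A →
      A ⊆ Z → Q.card = r → A.card = r + N' → Joined B A Q → cnt R A A ≤ 2 * p * (r + N') →
      Force E p r G R B) :
    ∀ (s t : ℕ) (R B : Finset (Sym2 V)) (Q A : Finset V), t + s = r + N' → R ⊆ E →
      Joined B (D ∪ Z) D → Q ⊆ A → A ⊆ Z → Q.card = min r t → A.card = t → Joined B A Q →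
      cnt R Z Z ≤ 4 * p * Z.card + 2 * p * t → cnt R A Z ≤ 14 * p * t → cnt R A A ≤ 2 * p * t →
      Force E p r G R B := by
  intro s
  induction s with
  | zero =>
    intro t R B Q A ht hR hD hQ hA hQc hAc hJ _ _ h3
    have : t = r + N' := by omega
    subst this
    exact next R B Q A hR hD hQ hA (by rw [hQc]; omega) hAc hJ h3
  | succ s ih =>
    intro t R B Q A ht hR hD hQ hA hQc hAc hJ h1 h2 h3
    refine Force.of_step fun M hM hMc => ?_
    have hR' : R ∪ M ⊆ E := union_subset hR (hM.trans sdiff_subset)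
    have g1 := cnt_union_le R M Z Z
    have g2 := cnt_union_le R M A Z
    have g3 := cnt_union_le R M A A
    obtain ⟨x, hxZ, hxA, hxd, hxR⟩ := exists_avail (R := R ∪ M) hp hZ hAc (by omega)
      (by nlinarith) (by nlinarith)
    have hxx : s(x, x) ∉ R ∪ M := fun h => (hE _).1 (hR' h) (by simp)
    refine ⟨(Q.image fun y => s(x, y)) \ B, fun e he => ?_, ?_, fun B' hB' => ?_⟩
    · obtain ⟨h4, h5⟩ := mem_sdiff.1 he
      obtain ⟨y, hy, rfl⟩ := mem_image.1 h4
      refine mem_sdiff.2 ⟨(hE _).2 ?_, fun h => ?_⟩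
      · rw [Sym2.mk_isDiag_iff]
        rintro rfl
        exact hxA (hQ hy)
      · rcases mem_union.1 h with h | h
        · exact hxR y (hQ hy) (by rw [Sym2.eq_swap]; exact h)
        · exact h5 h
    · exact (card_le_card sdiff_subset).trans (card_image_le.trans (hQc ▸ min_le_left _ _))
    · have hBB : B ⊆ B' := subset_union_left.trans hB'
      have hxQ : ∀ y ∈ Q, s(x, y) ∈ B' := fun y hy => by
        by_cases h : s(x, y) ∈ B
        · exact hBB h
        · exact hB' (mem_union_right _ (mem_sdiff.2 ⟨mem_image_of_mem _ hy, h⟩))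
      have k2 : cnt (R ∪ M) (insert x A) Z ≤ 14 * p * (t + 1) := by
        have : cnt (R ∪ M) (insert x A) Z = deg (R ∪ M) x Z + cnt (R ∪ M) A Z := by
          unfold cnt; rw [sum_insert hxA]
        nlinarith
      have k3 : cnt (R ∪ M) (insert x A) (insert x A) ≤ 2 * p * (t + 1) := by
        refine (cnt_insert_free _ _ _ fun a ha => ?_).trans (by nlinarith)
        rcases mem_insert.1 ha with h | h
        · rw [h]; exact hxx
        · exact hxR a h
      have hAc' : (insert x A).card = t + 1 := by rw [card_insert_of_notMem hxA, hAc]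
      by_cases hlt : t < r
      · have hQA : Q = A := eq_of_subset_of_card_le hQ (by rw [hQc, hAc]; omega)
        refine ih (t + 1) (R ∪ M) B' (insert x A) (insert x A) (by omega) hR'
          (hD.mono hBB subset_rfl subset_rfl) subset_rfl (insert_subset hxZ hA)
          (by rw [hAc']; omega) hAc' ?_ (by nlinarith) k2 k3
        intro u hu v hv huv
        rcases mem_insert.1 hu with h | h
        · rcases mem_insert.1 hv with h' | h'
          · exact absurd (h.trans h'.symm) huv
          · rw [h]; exact hxQ v (hQA ▸ h')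
        · rcases mem_insert.1 hv with h' | h'
          · rw [h', Sym2.eq_swap]; exact hxQ u (hQA ▸ h)
          · exact hBB (hJ u h v (hQA ▸ h') huv)
      · refine ih (t + 1) (R ∪ M) B' Q (insert x A) (by omega) hR'
          (hD.mono hBB subset_rfl subset_rfl) (hQ.trans (subset_insert _ _))
          (insert_subset hxZ hA) (by rw [hQc]; omega) hAc' ?_ (by nlinarith) k2 k3
        intro u hu v hv huv
        rcases mem_insert.1 hu with h | h
        · rw [h]; exact hxQ v hv
        · exact hBB (hJ u h v hv huv)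

theorem force_levels {E : Finset (Sym2 V)} (hE : ∀ e, e ∈ E ↔ ¬ e.IsDiag) {p r k : ℕ}
    (hp : 1 ≤ p) : ∀ (j : ℕ) (R B : Finset (Sym2 V)) (D Z : Finset V), R ⊆ E → Disjoint D Z →
      Z.card = r * (64 * p) ^ j → Joined B (D ∪ Z) D → cnt R Z Z ≤ 4 * p * Z.card →
      k ≤ D.card + r * j → Force E p r (HasClique k) R B := by
  intro j
  induction j with
  | zero =>
    intro R B D Z _ _ _ hJ _ hk
    exact Force.goal _ _ ⟨D, by simpa using hk, hJ.mono subset_rfl subset_union_left subset_rfl⟩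
  | succ j ih =>
    intro R B D Z hR hDZ hZ hJ hc hk
    have hr : r ≤ r * (64 * p) ^ j := Nat.le_mul_of_pos_right _ (by positivity)
    refine force_level hE hp hr (D := D) (Z := Z) (by rw [hZ]; ring) ?_
      (r + r * (64 * p) ^ j) 0 R B ∅ ∅ (by simp) hR hJ subset_rfl (empty_subset _) (by simp) rfl
      (fun x hx => by simp at hx) (by simpa using hc) (by simp [cnt]) (by simp [cnt])
    intro R' B' Q A hR' hJ' hQ hA hQc hAc hAQ hcA
    have hcard : (A \ Q).card = r * (64 * p) ^ j := by
      rw [card_sdiff_of_subset hQ, hAc, hQc]; omega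
    have hDQ : Disjoint D Q := hDZ.mono_right (hQ.trans hA)
    refine ih R' B' (D ∪ Q) (A \ Q) hR' ?_ hcard ?_ ?_ ?_
    · exact disjoint_union_left.2 ⟨hDZ.mono_right (sdiff_subset.trans hA), disjoint_sdiff⟩
    · intro u hu v hv huv
      have hu' : u ∈ D ∨ u ∈ A := by
        rcases mem_union.1 hu with h | h
        · exact (mem_union.1 h).imp_right fun h => hQ h
        · exact Or.inr (mem_sdiff.1 h).1
      rcases mem_union.1 hv with h | h
      · exact hJ' u (mem_union.2 (hu'.imp_right fun h => hA h)) v h huv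
      · rcases hu' with h' | h'
        · rw [Sym2.eq_swap]
          exact hJ' v (mem_union_right _ (hA (hQ h))) u h' huv.symm
        · exact hAQ u h' v h huv
    · refine (cnt_mono _ sdiff_subset sdiff_subset).trans (hcA.trans ?_)
      rw [hcard]; nlinarith
    · rw [card_union_of_disjoint hDQ, hQc]; nlinarith

theorem force_clique [Fintype V] {E : Finset (Sym2 V)} (hE : ∀ e, e ∈ E ↔ ¬ e.IsDiag)
    {p r L : ℕ} (hp : 1 ≤ p) (hn : r * (64 * p) ^ L ≤ Fintype.card V) :
    Force E p r (HasClique (r * L)) ∅ ∅ := by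
  obtain ⟨Z, -, hZ⟩ := exists_subset_card_eq (s := (univ : Finset V)) (by simpa using hn)
  exact force_levels hE hp L ∅ ∅ ∅ Z (empty_subset _) (by simp) hZ (fun x _ y hy => by simp at hy)
    (by simp [cnt, deg]) (by simp)

end Pool.Agent.Lib.MP_1024aa_co.Bias
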