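import Mathlib

/-! Biased edge games: robust invariants, forcing, and the passage to a positional strategy. -/

set_option autoImplicit false

open Finset

namespace Pool.Agent.Lib.MP_1024aa_co.Bias

variable {α : Type} [DecidableEq α]

/-- `P` can be kept by answering any `p` new red elements with at most `a` blue ones, whatever
further blue elements are added. -/
def Guard (E : Finset α) (p a : ℕ) (P : Finset α → Finset α → Prop) : Prop :=
  ∀ R B M : Finset α, P R B → M ⊆ E \ (R ∪ B) → M.card ≤ p →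
    ∃ T : Finset α, T ⊆ E \ (R ∪ M ∪ B) ∧ T.card ≤ a ∧
      ∀ B' : Finset α, B ∪ T ⊆ B' → P (R ∪ M) B'

/-- Blue can force `G` using at most `r` elements per round against `p` red ones. -/
inductive Force (E : Finset α) (p r : ℕ) (G : Finset α → Prop) : Finset α → Finset α → Prop
  | goal (R B : Finset α) : G B → Force E p r G R B
  | step (R B : Finset α) (f : Finset α → Finset α) :
      (∀ M : Finset α, M ⊆ E \ (R ∪ B) → M.card ≤ p →
        f M ⊆ E \ (R ∪ M ∪ B) ∧ (f M).card ≤ r) →
      (∀ M : Finset α, M ⊆ E \ (R ∪ B) → M.card ≤ p → ∀ B' : Finset α, B ∪ f M ⊆ B' →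
        Force E p r G (R ∪ M) B') → Force E p r G R B

theorem Force.of_step {E : Finset α} {p r : ℕ} {G : Finset α → Prop} {R B : Finset α}
    (h : ∀ M : Finset α, M ⊆ E \ (R ∪ B) → M.card ≤ p →
      ∃ T : Finset α, T ⊆ E \ (R ∪ M ∪ B) ∧ T.card ≤ r ∧
        ∀ B' : Finset α, B ∪ T ⊆ B' → Force E p r G (R ∪ M) B') : Force E p r G R B := by
  classical
  choose! f h1 h2 h3 using h
  exact Force.step R B f (fun M a b => ⟨h1 M a b, h2 M a b⟩) h3

theorem Force.guard {E : Finset α} {p r : ℕ} {G : Finset α → Prop}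
    (hG : ∀ B B', B ⊆ B' → G B → G B') : Guard E p r (Force E p r G) := by
  intro R B M h hM hc
  cases h with
  | goal _ _ hg =>
    exact ⟨∅, empty_subset _, by simp, fun B' hB =>
      Force.goal _ _ (hG B B' (subset_union_left.trans hB) hg)⟩
  | step _ _ f h1 h2 => exact ⟨f M, (h1 M hM hc).1, (h1 M hM hc).2, h2 M hM hc⟩

theorem Force.final {E : Finset α} {p r : ℕ} {G : Finset α → Prop} {R B : Finset α}
    (h : Force E p r G R B) (hE : R ∪ B = E) : G B := by
  induction h with
  | goal _ _ hg => exact hg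
  | step R B f h1 _ ih =>
    have h0 := (h1 ∅ (empty_subset _) (by simp)).1
    rw [union_empty, hE, sdiff_self] at h0
    have hf : f ∅ = ∅ := subset_empty.1 h0
    exact ih ∅ (empty_subset _) (by simp) B (by rw [hf, union_empty]) (by rw [union_empty, hE])

theorem Guard.and {E : Finset α} {p a r : ℕ} {P Q : Finset α → Finset α → Prop}
    (hP : Guard E p a P) (hQ : Guard E p r Q) : Guard E p (a + r) (fun R B => P R B ∧ Q R B) := by
  intro R B M h hM hc
  obtain ⟨T, h1, h2, h3⟩ := hP R B M h.1 hM hc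
  obtain ⟨T', h1', h2', h3'⟩ := hQ R B M h.2 hM hc
  refine ⟨T ∪ T', union_subset h1 h1', (card_union_le _ _).trans (by omega), fun B' hB => ⟨?_, ?_⟩⟩
  · exact h3 B' ((union_subset_union_right subset_union_left).trans hB)
  · exact h3' B' ((union_subset_union_right subset_union_right).trans hB)

/-- A guarded invariant gives a positional strategy that keeps it along every play. -/
theorem Guard.play {E : Finset α} {p a q : ℕ} {P : Finset α → Finset α → Prop}
    (hP : Guard E p a P) (haq : a ≤ q) (h0 : P ∅ ∅) :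
    ∃ σ : Finset α → Finset α → Finset α,
      (∀ R B, σ R B ⊆ E \ (R ∪ B) ∧ (σ R B).card = min q (E \ (R ∪ B)).card) ∧
      ∀ (t : ℕ) (M R B : ℕ → Finset α), R 0 = ∅ → B 0 = ∅ →
        (∀ i < t, M i ⊆ E \ (R i ∪ B i) ∧ (M i).card = min p (E \ (R i ∪ B i)).card ∧
          R (i + 1) = R i ∪ M i ∧ B (i + 1) = B i ∪ σ (R (i + 1)) (B i)) →
        P (R t) (B t) ∧ Disjoint (R t) (B t) := by
  classical
  have key : ∀ R B : Finset α, ∃ T : Finset α,
      (T ⊆ E \ (R ∪ B) ∧ T.card = min q (E \ (R ∪ B)).card) ∧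
      ((∃ T' : Finset α, (T' ⊆ E \ (R ∪ B) ∧ T'.card = min q (E \ (R ∪ B)).card) ∧
        P R (B ∪ T')) → P R (B ∪ T)) := by
    intro R B
    by_cases hex : ∃ T' : Finset α, (T' ⊆ E \ (R ∪ B) ∧ T'.card = min q (E \ (R ∪ B)).card) ∧
        P R (B ∪ T')
    · obtain ⟨T, hT, hm⟩ := hex
      exact ⟨T, hT, fun _ => hm⟩
    · obtain ⟨T, hT, hc⟩ := exists_subset_card_eq (s := E \ (R ∪ B))
        (min_le_right q (E \ (R ∪ B)).card)
      exact ⟨T, ⟨hT, hc⟩, fun h => absurd h hex⟩
  choose σ hσ hσP using key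
  refine ⟨σ, hσ, fun t M R B hR hB hplay => ?_⟩
  have inv : ∀ i ≤ t, P (R i) (B i) ∧ Disjoint (R i) (B i) := by
    intro i
    induction i with
    | zero => intro _; rw [hR, hB]; exact ⟨h0, by simp⟩
    | succ i ih =>
      intro hi
      obtain ⟨hin, hd⟩ := ih (by omega)
      obtain ⟨hM, hc, hRi, hBi⟩ := hplay i (by omega)
      obtain ⟨T, h1, h2, h3⟩ := hP _ _ _ hin hM (hc ▸ min_le_left _ _)
      rw [← hRi] at h1 h3
      constructor
      · rw [hBi]
        obtain ⟨T', hT1, hT2, hT3⟩ := exists_subsuperset_card_eq h1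
          (n := min q (E \ (R (i + 1) ∪ B i)).card)
          (le_min (h2.trans haq) (card_le_card h1)) (min_le_right _ _)
        exact hσP _ _ ⟨T', ⟨hT2, hT3⟩, h3 _ (union_subset_union_right hT1)⟩
      · rw [hBi, disjoint_union_right]
        constructor
        · rw [hRi, disjoint_union_left]
          refine ⟨hd, disjoint_left.2 fun e he hb => ?_⟩
          exact (mem_sdiff.1 (hM he)).2 (mem_union_right _ hb)
        · refine disjoint_right.2 fun e he hr => ?_
          exact (mem_sdiff.1 ((hσ _ _).1 he)).2 (mem_union_left _ hr)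
  exact inv t le_rfl

end Pool.Agent.Lib.MP_1024aa_co.Bias
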