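import Pool.Agent.Lib.MP_1024aa_co.BiasBuild
import Pool.Agent.Lib.MP_1024aa_co.BiasBlock

/-! Choice of the parameters and the combined strategy. -/

set_option autoImplicit false

open Finset

namespace Pool.Agent.Lib.MP_1024aa_co.Bias

theorem quad_large {α : ℝ} (hα : 0 < α) (b c : ℝ) :
    ∃ L₀ : ℕ, ∀ L : ℕ, L₀ ≤ L → b * L + c < α * L ^ 2 := by
  obtain ⟨L₀, h⟩ := exists_nat_gt ((|b| + |c|) / α + 1)
  refine ⟨L₀, fun L hL => ?_⟩
  have h1 : (L₀ : ℝ) ≤ L := by exact_mod_cast hL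
  have h2 : 0 ≤ (|b| + |c|) / α := by positivity
  have h3 : (|b| + |c|) / α < L := by linarith
  rw [div_lt_iff₀ hα] at h3
  have h4 : (1 : ℝ) ≤ L := by linarith
  nlinarith [le_abs_self b, le_abs_self c, abs_nonneg b, abs_nonneg c,
    mul_lt_mul_of_pos_right h3 (by linarith : (0 : ℝ) < L)]

theorem log_small {c : ℝ} (hc : 0 < c) :
    ∃ y₀ : ℕ, ∀ y : ℕ, y₀ ≤ y → c * Real.log (1 + y) < y := by
  have h := Real.isLittleO_log_id_atTop.bound (c := 1 / (2 * c + 1)) (by positivity)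
  obtain ⟨t, ht⟩ := Filter.eventually_atTop.1 h
  obtain ⟨y₀, hy⟩ := exists_nat_gt (max t 1)
  refine ⟨y₀, fun y hy' => ?_⟩
  have h1 : (y₀ : ℝ) ≤ y := by exact_mod_cast hy'
  have h2 : (1 : ℝ) ≤ y := by linarith [le_max_right t 1]
  have h3 := ht (1 + y) (by linarith [le_max_left t 1])
  rw [Real.norm_eq_abs, Real.norm_eq_abs, id, abs_of_pos (by linarith : (0 : ℝ) < 1 + y),
    one_div, ← div_eq_inv_mul, le_div_iff₀ (by positivity)] at h3
  have h4 := le_abs_self (Real.log (1 + y))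
  have h5 : 0 < Real.log (1 + y) := Real.log_pos (by linarith)
  nlinarith

theorem exp_le_lin {p y j : ℕ} (hp : 0 < p) (hj : j ≤ p) :
    Real.exp (Real.log (1 + y) / p * j) ≤ 1 + (y : ℝ) / p * j := by
  have hp' : (0 : ℝ) < p := by exact_mod_cast hp
  have h1 : (j : ℝ) / p ≤ 1 := (div_le_one hp').2 (by exact_mod_cast hj)
  have h := convexOn_exp.2 (Set.mem_univ 0) (Set.mem_univ (Real.log (1 + y)))
    (by linarith : 0 ≤ 1 - (j : ℝ) / p) (by positivity : 0 ≤ (j : ℝ) / p) (by ring)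
  simp only [smul_eq_mul, mul_zero, zero_add, Real.exp_zero, mul_one] at h
  rw [Real.exp_log (by positivity)] at h
  calc _ = Real.exp (j / p * Real.log (1 + y)) := by congr 1; ring
    _ ≤ _ := h
    _ = _ := by ring

/-- the leading coefficient is positive -/
theorem lead_pos {s : ℕ} (hs : 1 ≤ s) : ∃ p₀ : ℕ, ∀ p : ℕ, p₀ ≤ p → s ≤ p ∧
    Real.log (64 * p) * (p / s : ℕ) + 2 * Real.log (64 * p) * (p + 2 * (p / s : ℕ)) / (144 * s ^ 2) +
      Real.log (1 + (p / s : ℕ)) / p * (144 * s ^ 2) ^ 2 * Real.log (64 * p) *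
        (p + 2 * (p / s : ℕ)) / (1 / (4 * s)) <
      Real.log (1 + (p / s : ℕ)) / p * (p / s : ℕ) * (p + (p / s : ℕ)) := by
  have hs' : (1 : ℝ) ≤ s := by exact_mod_cast hs
  obtain ⟨y₀, hy₀⟩ := log_small (c := 144 * s ^ 2 * (144 * s ^ 2) ^ 2) (by positivity)
  obtain ⟨y₁, hy₁⟩ := exists_nat_gt (Real.exp (6 * s * Real.log (64 * s)))
  refine ⟨(y₀ + y₁ + 1) * s, fun p hp => ?_⟩
  have hy : y₀ + y₁ + 1 ≤ p / s := (Nat.le_div_iff_mul_le (by omega)).2 hp
  have hsp : s ≤ p := le_trans (Nat.le_mul_of_pos_left _ (by omega)) hp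
  refine ⟨hsp, ?_⟩
  have a1 : p < s * (p / s + 1) := Nat.lt_mul_div_succ p (by omega)
  have a2 : p / s ≤ p := Nat.div_le_self _ _
  have a3 := hy₀ (p / s) (by omega)
  generalize p / s = y at *
  have b1 : (p : ℝ) ≤ s * (1 + y) := by exact_mod_cast (by nlinarith : p ≤ s * (1 + y))
  have b2 : (y : ℝ) ≤ p := by exact_mod_cast a2
  have b3 : (1 : ℝ) ≤ y := by exact_mod_cast (by omega : 1 ≤ y)
  have b4 : (y₁ : ℝ) ≤ y := by exact_mod_cast (by omega : y₁ ≤ y)
  have hp0 : (0 : ℝ) < p := by linarith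
  have b5 : (p : ℝ) ≤ 2 * s * y := by nlinarith
  set Λ := Real.log (1 + y) with hΛ
  set A := Real.log (64 * p) with hA
  have c0 : 0 < Λ := Real.log_pos (by linarith)
  have c1 : A ≤ Real.log (64 * s) + Λ := by
    rw [hA, hΛ, ← Real.log_mul (by positivity) (by positivity)]
    exact Real.log_le_log (by positivity) (by nlinarith)
  have c2 : 6 * s * Real.log (64 * s) ≤ Λ := by
    rw [hΛ, Real.le_log_iff_exp_le (by positivity)]; linarith
  have c3 : 0 < Real.log (64 * s) := Real.log_pos (by linarith)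
  have c4 : A ≤ 2 * Λ := by nlinarith
  have c5 : 0 < A := Real.log_pos (by linarith)
  set u := Λ * y / (6 * s) with hu
  have d1 : A * y ≤ Λ * y + u := by
    have : Real.log (64 * s) * y ≤ u := by
      rw [hu, le_div_iff₀ (by positivity)]; nlinarith
    nlinarith
  have d2 : 2 * A * (p + 2 * y) / (144 * s ^ 2) ≤ u := by
    rw [hu, div_le_div_iff₀ (by positivity) (by positivity)]
    have e1 : A * (p + 2 * y) ≤ 2 * Λ * (3 * (2 * s * y)) :=
      mul_le_mul c4 (by linarith) (by positivity) (by positivity)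
    nlinarith [mul_le_mul_of_nonneg_right e1 (by positivity : (0 : ℝ) ≤ s)]
  have d3 : Λ / p * (144 * s ^ 2) ^ 2 * A * (p + 2 * y) / (1 / (4 * s)) < u := by
    set G : ℝ := (144 * s ^ 2) ^ 2 with hG
    have hG0 : 0 < G := by positivity
    have e0 : Λ / p * G * A * (p + 2 * y) / (1 / (4 * s)) =
        4 * s * G * Λ * (A * ((p + 2 * y) / p)) := by field_simp
    have e1 : ((p : ℝ) + 2 * y) / p ≤ 3 := by rw [div_le_iff₀ hp0]; linarith
    have e2 : A * ((p + 2 * y) / p) ≤ 2 * Λ * 3 := mul_le_mul c4 e1 (by positivity) (by positivity)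
    rw [e0, hu, lt_div_iff₀ (by positivity)]
    have e3 := mul_le_mul_of_nonneg_left e2 (by positivity : (0 : ℝ) ≤ 4 * s * G * Λ * (6 * s))
    have e4 := mul_lt_mul_of_pos_left a3 c0
    nlinarith
  have d4 : Λ * y + 3 * u ≤ Λ / p * y * (p + y) := by
    have e0 : Λ / p * y * (p + y) = Λ * y + Λ * y * (y / p) := by field_simp
    have e1 : 1 / (2 * s) ≤ (y : ℝ) / p := by
      rw [div_le_div_iff₀ (by positivity) hp0]; linarith
    have e2 : 3 * u = Λ * y * (1 / (2 * s)) := by rw [hu]; field_simp; ring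
    rw [e0, e2]
    nlinarith [mul_le_mul_of_nonneg_left e1 (by positivity : 0 ≤ Λ * y)]
  linarith

/-- with `p + 3 (p / s)` edges per round Blue ends with a clique larger than every red one -/
theorem exists_guard {s : ℕ} (hs : 1 ≤ s) : ∃ p₀ : ℕ, ∀ p : ℕ, p₀ ≤ p → ∃ N : ℕ, ∀ n : ℕ, N ≤ n →
    ∀ E : Finset (Sym2 (Fin n)), (∀ e, e ∈ E ↔ ¬ e.IsDiag) →
    ∃ P : Finset (Sym2 (Fin n)) → Finset (Sym2 (Fin n)) → Prop,
      Guard E p (p + 3 * (p / s)) P ∧ P ∅ ∅ ∧ ∀ R B, P R B → Disjoint R B → R ∪ B = E →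
        ∃ k : ℕ, HasClique k B ∧ ∀ K : Finset (Fin n), K.card = k → ¬ Joined R K K := by
  obtain ⟨p₀, h₀⟩ := lead_pos hs
  refine ⟨p₀, fun p hp => ?_⟩
  obtain ⟨hsp, hα⟩ := h₀ p hp
  have a1 : p < s * (p / s + 1) := Nat.lt_mul_div_succ p (by omega)
  have a2 : p / s ≤ p := Nat.div_le_self _ _
  have a3 : 1 ≤ p / s := (Nat.le_div_iff_mul_le (by omega)).2 (by omega)
  generalize p / s = y at *
  have hp1 : 1 ≤ p := by omega
  have hs' : (1 : ℝ) ≤ s := by exact_mod_cast hs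
  have hp' : (1 : ℝ) ≤ p := by exact_mod_cast hp1
  have b5 : (p : ℝ) ≤ 2 * s * y := by exact_mod_cast (by nlinarith : p ≤ 2 * s * y)
  set Λ := Real.log (1 + y) with hΛ
  set A := Real.log (64 * p) with hA
  have c0 : 0 ≤ Λ := Real.log_nonneg (le_add_of_nonneg_right (Nat.cast_nonneg y))
  have c5 : 0 < A := Real.log_pos (by linarith)
  set g : ℝ := 144 * s ^ 2 with hg
  set θ : ℝ := 1 / (4 * s) with hθ
  obtain ⟨L₀, hL₀⟩ := quad_large (sub_pos.2 hα)
    (2 * p * (Λ / p) * y + 2 * A * y + 2 * p * A + (4 * A + 2 * p + Λ / p * p) * (p + 2 * y) / g +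
      2 * (Λ / p) * g ^ 2 * A * (p + 2 * y) / θ)
    (Λ + 2 + 4 * p * A + Λ / p * g ^ 2 * (Λ + 2) / θ)
  refine ⟨(p + 2 * y) * (64 * p) ^ (L₀ + 2), fun n hn E hE => ?_⟩
  have hr : 0 < p + 2 * y := by omega
  have hb : 1 < 64 * p := by omega
  obtain ⟨L, hL1, hL2, hL3⟩ : ∃ L : ℕ, L₀ + 2 ≤ L ∧ (p + 2 * y) * (64 * p) ^ L ≤ n ∧
      n ≤ (64 * p) ^ (L + 2) := by
    have e1 : (64 * p) ^ (L₀ + 2) ≤ n / (p + 2 * y) :=
      (Nat.le_div_iff_mul_le hr).2 (by rw [mul_comm]; exact hn)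
    have e0 : n / (p + 2 * y) ≠ 0 := (lt_of_lt_of_le (by positivity) e1).ne'
    refine ⟨Nat.log (64 * p) (n / (p + 2 * y)), Nat.le_log_of_pow_le hb e1, ?_, ?_⟩
    · rw [mul_comm]
      exact (Nat.le_div_iff_mul_le hr).1 (Nat.pow_log_le_self _ e0)
    · have e2 := Nat.lt_pow_succ_log_self hb (n / (p + 2 * y))
      have e3 : n < (p + 2 * y) * (n / (p + 2 * y) + 1) := Nat.lt_mul_div_succ n hr
      rw [pow_succ _ (_ + 1), mul_comm _ (64 * p)]
      exact e3.le.trans (Nat.mul_le_mul (by omega) e2)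
  let P : Par := ⟨p, 144 * s ^ 2, y * L, y / p, (L + 2) * A, Λ / p, θ, 2 * ((L + 2) * A) + 2 * p⟩
  have hl : (Fintype.card (Fin n) : ℝ) ≤ Real.exp P.l := by
    have e1 : Real.exp P.l = ((64 * p : ℕ) : ℝ) ^ (L + 2) := by
      change Real.exp ((L + 2) * A) = _
      rw [show ((L : ℝ) + 2) = ((L + 2 : ℕ) : ℝ) by push_cast; ring, Real.exp_nat_mul, hA,
        Real.exp_log (by positivity)]
      push_cast; rfl
    rw [e1, Fintype.card_fin]
    exact_mod_cast hL3
  have hθ0 : 0 < θ := by positivity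
  have h2 : Real.exp P.th ≤ 1 + P.lam := by
    change Real.exp θ ≤ 1 + (y : ℝ) / p
    have e1 : θ ≤ 1 / 4 := by
      rw [hθ]; exact one_div_le_one_div_of_le (by norm_num) (by linarith)
    have e2 : 2 * θ ≤ (y : ℝ) / p := by
      rw [hθ, le_div_iff₀ (by linarith), mul_one_div, div_mul_eq_mul_div,
        div_le_iff₀ (by positivity)]
      linarith
    refine (Real.exp_bound_div_one_sub_of_interval hθ0.le (by linarith)).trans ?_
    rw [div_le_iff₀ (by linarith)]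
    nlinarith
  have hbe : 0 ≤ P.be := by change 0 ≤ Λ / p; positivity
  have hk : P.x + 2 * P.p ≤ (p + 2 * y) * L := by
    change y * L + 2 * p ≤ _
    nlinarith
  have g1 := Blk.guard P E y ((p + 2 * y) * L) hp1 hbe
    (by change (y : ℝ) / p * p = y; field_simp) rfl (fun j hj => exp_le_lin hp1 hj) h2
  have g2 : Guard E p (p + 2 * y) _ :=
    Force.guard (E := E) (p := p) (r := p + 2 * y) (HasClique.mono ((p + 2 * y) * L))
  have g3 := g1.and g2
  rw [show y + (p + 2 * y) = p + 3 * y by ring] at g3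
  refine ⟨_, g3, ⟨Blk.init P E y (by omega) hl, force_clique hE hp1 (by simpa using hL2)⟩, ?_⟩
  rintro R B ⟨hB, hF⟩ hd hRB
  refine ⟨(p + 2 * y) * L, hF.final hRB, fun K hK hJ => ?_⟩
  have hBK : Disjoint B K.sym2 := by
    refine disjoint_left.2 fun e he hK => ?_
    induction e using Sym2.ind with
    | _ u v =>
      obtain ⟨hu, hv⟩ := mk_mem_sym2_iff.1 hK
      have hne : u ≠ v := fun h =>
        (hE _).1 (hRB ▸ mem_union_right R he) (Sym2.mk_isDiag_iff.2 h)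
      exact disjoint_left.1 hd (hJ u hu v hv hne) he
  have hfin := Blk.final P hbe (by change 0 ≤ ((L : ℝ) + 2) * A; positivity)
    (by change 0 ≤ 2 * (((L : ℝ) + 2) * A) + 2 * p; positivity) hθ0
    (by change 0 < 144 * s ^ 2; positivity) hk hl (c := Λ + 2)
    (by rw [add_sub_cancel_right, hΛ, Real.exp_log (by positivity)]) hB hK hBK hJ
  have hq := hL₀ L (by omega)
  simp only [P] at hfin
  push_cast at hfin
  rw [← hg] at hfin
  refine absurd hfin (not_le.2 (sub_pos.1 ?_))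
  refine lt_of_lt_of_eq (sub_pos.2 hq) ?_
  ring

end Pool.Agent.Lib.MP_1024aa_co.Bias
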