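import Pool.Agent.Lib.MP_1024aa_co.Zone4

/-! Bounds on the red edges that are not inside the zone. -/

set_option autoImplicit false

open Finset

namespace Pool.Agent.Lib.MP_1024aa_co

variable {V : Type*} [DecidableEq V]

/-- `cap a` bounds the number of red edges not inside `Z` in every `k`-set without a blue edge
that has `a` vertices outside `Z`. -/
def CapOK (k : ℕ) (cap : ℕ → ℕ) (R B : Finset (Sym2 V)) (Z : Finset V) : Prop :=
  ∀ K : Finset V, K.card = k → Disjoint (inner K) B →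
    ((R ∩ inner K) \ inner Z).card ≤ cap (K \ Z).card

variable {k : ℕ} {cap cap' : ℕ → ℕ} {R R' B B' : Finset (Sym2 V)} {Z Z1 : Finset V}

lemma CapOK.mono (h : CapOK k cap R B Z) (hB : B ⊆ B') (hc : ∀ a ≤ k, cap a ≤ cap' a) :
    CapOK k cap' R B' Z := fun K hK hd =>
  (h K hK (disjoint_of_subset_right hB hd)).trans (hc _ (hK ▸ card_le_card sdiff_subset))

lemma cap_split (hZ : Z1 ⊆ Z) (hR : R' \ inner Z ⊆ R) (K : Finset V) :
    ((R' ∩ inner K) \ inner Z1).card ≤ ((R ∩ inner K) \ inner Z).card +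
      ((R' ∩ inner (K ∩ Z)) \ inner (K ∩ Z1)).card ∧
    (K \ Z1).card = (K \ Z).card + ((K ∩ Z) \ (K ∩ Z1)).card := by
  constructor
  · refine le_trans (card_le_card fun f => ?_) (card_union_le _ _)
    have := @hR f
    simp only [mem_sdiff, mem_inter, mem_union, mem_inner_inter] at this ⊢
    tauto
  · rw [← card_union_of_disjoint (disjoint_left.2 fun x => by simp; tauto)]
    congr 1
    ext x
    have := @hZ x
    simp only [mem_sdiff, mem_inter, mem_union]
    tauto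

lemma Mat.two_mul_card_le {Y : Finset V} (h : Mat R Y) : 2 * (R ∩ inner Y).card ≤ Y.card := by
  have h1 : ((R ∩ inner Y).biUnion fun e => Y.filter (· ∈ e)).card =
      ∑ e ∈ R ∩ inner Y, (Y.filter (· ∈ e)).card := by
    refine card_biUnion fun e he f hf hef => disjoint_left.2 fun x h1 h2 => hef ?_
    obtain ⟨y, rfl⟩ := Sym2.mem_iff_exists.1 (mem_filter.1 h1).2
    obtain ⟨y', rfl⟩ := Sym2.mem_iff_exists.1 (mem_filter.1 h2).2
    simp only [coe_inter, Set.mem_inter_iff, mem_coe, mk_mem_inner] at he hf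
    rw [h x he.2.2.1 y he.2.2.2 y' hf.2.2.2 he.1 hf.1]
  have h2 : ∑ e ∈ R ∩ inner Y, (Y.filter (· ∈ e)).card = ∑ e ∈ R ∩ inner Y, 2 := by
    refine sum_congr rfl fun e he => ?_
    obtain ⟨u, hu, v, hv, huv, rfl⟩ := mem_inner.1 (mem_inter.1 he).2
    rw [← card_pair huv]
    congr 1
    ext x
    simp only [mem_filter, Sym2.mem_iff, mem_insert, mem_singleton]
    exact ⟨And.right, fun hx => ⟨hx.elim (· ▸ hu) (· ▸ hv), hx⟩⟩
  have h3 : ((R ∩ inner Y).biUnion fun e => Y.filter (· ∈ e)).card ≤ Y.card :=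
    card_le_card (biUnion_subset.2 fun _ _ => filter_subset _ _)
  rw [h1, h2, sum_const, smul_eq_mul] at h3
  omega

/-- Vertices leave the zone, and the red edges that leave are edges of the matching `R`. -/
theorem CapOK.leave (h : CapOK k cap R B Z) (hM : Mat R Z) (hZ : Z1 ⊆ Z) (hR : R' \ inner Z1 ⊆ R)
    {d l : ℕ} (hd : ((R' ∩ inner Z) \ inner Z1).card ≤ d) (hl : (Z \ Z1).card ≤ l)
    (hc : ∀ a j i, j ≤ d → j ≤ i → i ≤ l → a + 2 * j ≤ k → a + i ≤ k → cap a + j ≤ cap' (a + i)) :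
    CapOK k cap' R' B Z1 := fun K hK hB => by
  have hi : inner Z1 ⊆ inner Z := fun e he => by
    obtain ⟨u, hu, v, hv, huv, rfl⟩ := mem_inner.1 he
    exact mk_mem_inner.2 ⟨huv, hZ hu, hZ hv⟩
  obtain ⟨a1, a2⟩ := cap_split (R := R) (R' := R') hZ
    ((sdiff_subset_sdiff Subset.rfl hi).trans hR) K
  have hs : (R' ∩ inner (K ∩ Z)) \ inner (K ∩ Z1) ⊆ (R ∩ inner (K ∩ Z)) \ inner (K ∩ Z1) := by
    intro f
    have := @hR f
    simp only [mem_sdiff, mem_inter, mem_inner_inter] at this ⊢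
    tauto
  have hM' := hM.mono (inter_subset_right (s₁ := K))
  have a3 := (card_le_card hs).trans (hM'.card_le (K ∩ Z1))
  have a4 := (card_le_card (hs.trans sdiff_subset))
  have a5 := hM'.two_mul_card_le
  have a6 : ((R' ∩ inner (K ∩ Z)) \ inner (K ∩ Z1)).card ≤ d :=
    (card_le_card fun f => by
      simp only [mem_sdiff, mem_inter, mem_inner_inter]
      tauto).trans hd
  have a7 : ((K ∩ Z) \ (K ∩ Z1)).card ≤ l :=
    (card_le_card fun f => by
      simp only [mem_sdiff, mem_inter]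
      tauto).trans hl
  have a8 := card_sdiff_add_card_inter K Z
  have a9 : (K \ Z1).card ≤ K.card := card_le_card sdiff_subset
  have := hc (K \ Z).card _ _ a6 a3 a7 (by omega) (by omega)
  have := h K hK hB
  rw [a2]
  omega

/-- One vertex leaves the zone with at most `d` red edges into it. -/
theorem CapOK.leave_one (h : CapOK k cap R B Z) (hZ : Z1 ⊆ Z) (hR : R' \ inner Z ⊆ R)
    {d : ℕ} (hd : ((R' ∩ inner Z) \ inner Z1).card ≤ d) (hl : (Z \ Z1).card ≤ 1)
    (h0 : ∀ a ≤ k, cap a ≤ cap' a)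
    (h1 : ∀ a j, j ≤ d → a + 1 + j ≤ k → cap a + j ≤ cap' (a + 1)) :
    CapOK k cap' R' B Z1 := fun K hK hB => by
  obtain ⟨a1, a2⟩ := cap_split (R := R) (R' := R') hZ hR K
  have a6 : ((R' ∩ inner (K ∩ Z)) \ inner (K ∩ Z1)).card ≤ d :=
    (card_le_card fun f => by
      simp only [mem_sdiff, mem_inter, mem_inner_inter]
      tauto).trans hd
  have a7 : ((K ∩ Z) \ (K ∩ Z1)).card ≤ 1 :=
    (card_le_card fun f => by
      simp only [mem_sdiff, mem_inter]
      tauto).trans hl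
  have hs : K ∩ Z1 ⊆ K ∩ Z := inter_subset_inter_left hZ
  have a3 : ((R' ∩ inner (K ∩ Z)) \ inner (K ∩ Z1)).card + (K ∩ Z1).card.choose 2 ≤
      (K ∩ Z).card.choose 2 := by
    have hi : inner (K ∩ Z1) ⊆ inner (K ∩ Z) := fun e he => by
      obtain ⟨u, hu, v, hv, huv, rfl⟩ := mem_inner.1 he
      exact mk_mem_inner.2 ⟨huv, hs hu, hs hv⟩
    rw [← card_inner, ← card_inner, ← card_sdiff_add_card_eq_card hi]
    exact Nat.add_le_add_right (card_le_card (sdiff_subset_sdiff inter_subset_right Subset.rfl)) _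
  have a4 := card_sdiff_add_card_eq_card hs
  have a8 := card_sdiff_add_card_inter K Z
  have a9 := h K hK hB
  rw [a2]
  rcases Nat.le_one_iff_eq_zero_or_eq_one.1 a7 with b | b <;> rw [b] at a4 ⊢
  · rw [← a4, zero_add] at a3
    have := h0 (K \ Z).card (by omega)
    rw [add_zero]
    omega
  · rw [← a4, add_comm 1, Nat.choose_succ_succ', Nat.choose_one_right, one_add_one_eq_two] at a3
    have := h1 (K \ Z).card _ a6 (by omega)
    omega


lemma cap_insert (e : Sym2 V) (K : Finset V) : ((insert e R ∩ inner K) \ inner Z).card ≤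
    ((R ∩ inner K) \ inner Z).card + if e ∈ inner K then 1 else 0 := by
  split_ifs with he
  · exact (card_le_card fun f => by simp only [mem_inter, mem_insert, mem_sdiff]; tauto).trans
      (card_insert_le e ((R ∩ inner K) \ inner Z))
  · rw [insert_inter_of_notMem he, add_zero]

/-- A red edge with both ends outside the zone. -/
theorem CapOK.wildOO (h : CapOK k cap R B Z) {x y : V} (hx : x ∉ Z) (hy : y ∉ Z)
    (h0 : ∀ a ≤ k, cap a ≤ cap' a) (h1 : ∀ a, 2 ≤ a → a ≤ k → cap a + 1 ≤ cap' a) :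
    CapOK k cap' (insert s(x, y) R) B Z := fun K hK hB => by
  have a1 := cap_insert (R := R) (Z := Z) s(x, y) K
  have a2 := h K hK hB
  have a3 : (K \ Z).card ≤ k := hK ▸ card_le_card sdiff_subset
  split_ifs at a1 with he
  · obtain ⟨b1, b2, b3⟩ := mk_mem_inner.1 he
    have := h1 _ (one_lt_card.2 ⟨x, mem_sdiff.2 ⟨b2, hx⟩, y, mem_sdiff.2 ⟨b3, hy⟩, b1⟩) a3
    omega
  · have := h0 _ a3
    omega

/-- A red edge with exactly one end outside the zone. -/
theorem CapOK.wildOZ (h : CapOK k cap R B Z) {x y : V} (hx : x ∉ Z) (hy : y ∈ Z)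
    (h0 : ∀ a ≤ k, cap a ≤ cap' a) (h1 : ∀ a, 1 ≤ a → a < k → cap a + 1 ≤ cap' a) :
    CapOK k cap' (insert s(x, y) R) B Z := fun K hK hB => by
  have a1 := cap_insert (R := R) (Z := Z) s(x, y) K
  have a2 := h K hK hB
  have a3 : (K \ Z).card ≤ k := hK ▸ card_le_card sdiff_subset
  split_ifs at a1 with he
  · obtain ⟨-, b2, b3⟩ := mk_mem_inner.1 he
    have := h1 _ (card_pos.2 ⟨x, mem_sdiff.2 ⟨b2, hx⟩⟩) (hK ▸ card_lt_card
      ((ssubset_iff_of_subset sdiff_subset).2 ⟨y, b3, fun h => (mem_sdiff.1 h).2 hy⟩))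
    omega
  · have := h0 _ a3
    omega

/-- the red edges with exactly one end in `A`, the other in `Z` -/
def crossE (R : Finset (Sym2 V)) (A Z : Finset V) : Finset (Sym2 V) :=
  R.filter fun e => ∃ x ∈ A, ∃ y ∈ Z, e = s(x, y)

/-- `fo a` bounds the number of red edges between `Z` and a set of `a` vertices outside `Z`. -/
def FoOK (fo : ℕ → ℕ) (R : Finset (Sym2 V)) (Z : Finset V) : Prop :=
  ∀ A : Finset V, Disjoint A Z → (crossE R A Z).card ≤ fo A.card

lemma card_crossE_le (A Y : Finset V) : (crossE R A Y).card ≤ A.card * Y.card := by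
  rw [← card_product]
  refine le_trans (card_le_card fun e he => ?_) (card_image_le (s := A ×ˢ Y) (f := fun p => s(p.1, p.2)))
  obtain ⟨x, hx, y, hy, rfl⟩ := (mem_filter.1 he).2
  exact mem_image.2 ⟨(x, y), mem_product.2 ⟨hx, hy⟩, rfl⟩

/-- The trivial bound on the vector `cap`. -/
theorem CapOK.clip (h : CapOK k cap R B Z) {fo : ℕ → ℕ} (hf : FoOK fo R Z)
    (hc : ∀ a ≤ k, min (cap a) (a.choose 2 + min (fo a) (a * (k - a))) ≤ cap' a) :
    CapOK k cap' R B Z := fun K hK hB => by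
  have a1 : (R ∩ inner K) \ inner Z ⊆ inner (K \ Z) ∪ crossE R (K \ Z) (K ∩ Z) := by
    intro e he
    induction e using Sym2.ind with
    | _ x y =>
      simp only [mem_sdiff, mem_inter, mk_mem_inner] at he
      by_cases hx : x ∈ Z <;> by_cases hy : y ∈ Z
      · tauto
      · exact mem_union_right _ (mem_filter.2 ⟨he.1.1, y, by simp; tauto, x, by simp; tauto,
          Sym2.eq_swap⟩)
      · exact mem_union_right _ (mem_filter.2 ⟨he.1.1, x, by simp; tauto, y, by simp; tauto, rfl⟩)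
      · exact mem_union_left _ (mk_mem_inner.2 (by simp; tauto))
  have a2 := (card_le_card a1).trans (card_union_le _ _)
  have a3 := card_crossE_le (R := R) (K \ Z) (K ∩ Z)
  have a4 : (crossE R (K \ Z) (K ∩ Z)).card ≤ fo (K \ Z).card :=
    (card_le_card fun e he => by
      obtain ⟨h1, x, hx, y, hy, rfl⟩ := mem_filter.1 he
      exact mem_filter.2 ⟨h1, x, hx, y, (mem_inter.1 hy).2, rfl⟩).trans (hf _ sdiff_disjoint)
  have a5 := card_sdiff_add_card_inter K Z
  have a6 : (K ∩ Z).card = k - (K \ Z).card := by omega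
  rw [a6] at a3
  rw [card_inner] at a2
  have := h K hK hB
  have := hc (K \ Z).card (by omega)
  omega

variable {fo fo' : ℕ → ℕ}

lemma fo_split (h : FoOK fo R Z) (hZ : Z1 ⊆ Z) (hR : R' \ inner Z ⊆ R) {A : Finset V} :
    (crossE R' A Z1).card ≤ fo (A \ Z).card + (crossE R' (A ∩ Z) Z1).card := by
  refine le_trans (le_trans (card_le_card fun e he => ?_) (card_union_le (crossE R (A \ Z) Z) _))
    (Nat.add_le_add_right (h _ sdiff_disjoint) _)
  obtain ⟨h1, x, hx, y, hy, rfl⟩ := mem_filter.1 he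
  by_cases hxZ : x ∈ Z
  · exact mem_union_right _ (mem_filter.2 ⟨h1, x, mem_inter.2 ⟨hx, hxZ⟩, y, hy, rfl⟩)
  · exact mem_union_left _ (mem_filter.2 ⟨hR (mem_sdiff.2 ⟨h1, fun hi => hxZ
      (mk_mem_inner.1 hi).2.1⟩), x, mem_sdiff.2 ⟨hx, hxZ⟩, y, hZ hy, rfl⟩)

lemma crossE_sub {A : Finset V} (hA : Disjoint A Z1) :
    crossE R' (A ∩ Z) Z1 ⊆ (R' ∩ inner ((A ∩ Z) ∪ Z1)) \ inner Z1 := fun e he => by
  obtain ⟨h1, x, hx, y, hy, rfl⟩ := mem_filter.1 he
  have hx1 : x ∉ Z1 := disjoint_left.1 hA (mem_inter.1 hx).1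
  exact mem_sdiff.2 ⟨mem_inter.2 ⟨h1, mk_mem_inner.2 ⟨fun e => hx1 (e ▸ hy),
    mem_union_left _ hx, mem_union_right _ hy⟩⟩, fun hi => hx1 (mk_mem_inner.1 hi).2.1⟩

lemma inner_sub {Y Y' : Finset V} (h : Y ⊆ Y') : inner Y ⊆ inner Y' := fun e he => by
  obtain ⟨u, hu, v, hv, huv, rfl⟩ := mem_inner.1 he
  exact mk_mem_inner.2 ⟨huv, h hu, h hv⟩

theorem FoOK.leave (h : FoOK fo R Z) (hM : Mat R Z) (hZ : Z1 ⊆ Z) (hR : R' \ inner Z1 ⊆ R)
    {d l : ℕ} (hd : ((R' ∩ inner Z) \ inner Z1).card ≤ d) (hl : (Z \ Z1).card ≤ l)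
    (hc : ∀ a j i, j ≤ d → j ≤ i → i ≤ l → fo a + j ≤ fo' (a + i)) : FoOK fo' R' Z1 := by
  intro A hA
  have a1 := fo_split (A := A) h hZ ((sdiff_subset_sdiff Subset.rfl (inner_sub hZ)).trans hR)
  have hY : A ∩ Z ∪ Z1 ⊆ Z := union_subset inter_subset_right hZ
  have a2 := crossE_sub (R' := R') (Z := Z) hA
  have a3 := (card_le_card (a2.trans (sdiff_subset_sdiff
    (inter_subset_inter_left (inner_sub hY)) Subset.rfl))).trans hd
  have a4 : (crossE R' (A ∩ Z) Z1).card ≤ (A ∩ Z).card := by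
    refine (card_le_card (a2.trans fun f => ?_)).trans (((hM.mono hY).card_le Z1).trans
      (card_le_card fun x => ?_))
    · have := @hR f
      simp only [mem_sdiff, mem_inter] at this ⊢
      tauto
    · simp only [mem_sdiff, mem_inter, mem_union]
      tauto
  have a5 : (A ∩ Z).card ≤ l := (card_le_card fun x hx => mem_sdiff.2 ⟨(mem_inter.1 hx).2,
    disjoint_left.1 hA (mem_inter.1 hx).1⟩).trans hl
  have := hc (A \ Z).card _ _ a3 a4 a5
  rw [card_sdiff_add_card_inter] at this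
  omega

theorem FoOK.leave_one (h : FoOK fo R Z) (hZ : Z1 ⊆ Z) (hR : R' \ inner Z ⊆ R)
    {d : ℕ} (hd : ((R' ∩ inner Z) \ inner Z1).card ≤ d) (hl : (Z \ Z1).card ≤ 1)
    (h0 : ∀ a, fo a ≤ fo' a) (h1 : ∀ a, fo a + d ≤ fo' (a + 1)) : FoOK fo' R' Z1 := by
  intro A hA
  have a1 := fo_split (A := A) h hZ hR
  have hY : A ∩ Z ∪ Z1 ⊆ Z := union_subset inter_subset_right hZ
  have a3 := (card_le_card ((crossE_sub (R' := R') (Z := Z) hA).trans (sdiff_subset_sdiff
    (inter_subset_inter_left (inner_sub hY)) Subset.rfl))).trans hd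
  have a4 := card_crossE_le (R := R') (A ∩ Z) Z1
  have a5 : (A ∩ Z).card ≤ 1 := (card_le_card fun x hx => mem_sdiff.2 ⟨(mem_inter.1 hx).2,
    disjoint_left.1 hA (mem_inter.1 hx).1⟩).trans hl
  have a6 := card_sdiff_add_card_inter A Z
  rcases Nat.le_one_iff_eq_zero_or_eq_one.1 a5 with b | b <;> rw [b] at a4 a6 <;> rw [← a6]
  · have := h0 (A \ Z).card
    rw [add_zero]
    omega
  · have := h1 (A \ Z).card
    omega

theorem FoOK.wildOO (h : FoOK fo R Z) {x y : V} (hx : x ∉ Z) (hy : y ∉ Z) :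
    FoOK fo (insert s(x, y) R) Z := fun A hA => by
  refine (card_le_card fun e he => ?_).trans (h A hA)
  obtain ⟨h1, u, hu, v, hv, rfl⟩ := mem_filter.1 he
  refine mem_filter.2 ⟨(mem_insert.1 h1).resolve_left fun e => ?_, u, hu, v, hv, rfl⟩
  rcases Sym2.eq_iff.1 e with ⟨-, rfl⟩ | ⟨-, rfl⟩
  exacts [hy hv, hx hv]

theorem FoOK.wild (h : FoOK fo R Z) (e : Sym2 V) (h1 : ∀ a, 1 ≤ a → fo a + 1 ≤ fo' a) :
    FoOK fo' (insert e R) Z := fun A hA => by
  rcases A.eq_empty_or_nonempty with rfl | hne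
  · simp [crossE]
  have a1 : crossE (insert e R) A Z ⊆ insert e (crossE R A Z) := fun f => by
    simp only [crossE, mem_filter, mem_insert]
    tauto
  have := (card_le_card a1).trans (card_insert_le _ _)
  have := h A hA
  have := h1 _ (card_pos.2 hne)
  omega

/-- the number of pairs of an abstract state -/
def npair (s : AS) : ℕ := s.2.countP fun a => a.2 ≠ none

/-- The red edges inside the zone are the pairs. -/
theorem Pos.card_red {Cd Cs : Finset V} {s : AS} (h : Pos k R B Cd Cs s)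
    (hR : ∀ e ∈ R, ¬ e.IsDiag) (hd : Disjoint R B) :
    (R ∩ inner (Cd ∪ Cs)).card = npair s := by
  obtain ⟨C, L, h1, h2, -, h4, h5⟩ := h
  have e1 : R ∩ inner (Cd ∪ Cs) = R ∩ inner (vs L).toFinset := by
    ext e
    induction e using Sym2.ind with
    | _ x y =>
      simp only [mem_inter, mk_mem_inner, mem_union, h4, h5, Multiset.mem_toFinset]
      refine and_congr_right fun hr => and_congr_right fun hne => ⟨?_, by tauto⟩
      rintro ⟨a | a, b | b⟩
      · exact ⟨a, b⟩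
      · exact absurd (Sym2.eq_swap ▸ hr) (h1.nored x a y b)
      · exact absurd hr (h1.nored y b x a)
      · exact absurd (h1.clq x a y b hne) (disjoint_left.1 hd hr)
  rw [e1, npair, ← h2]
  clear h2 h4 e1
  induction L using Multiset.induction_on with
  | empty => simp [inner]
  | cons a L ih =>
    obtain ⟨v, i, o⟩ := a
    have h2 : ZGood R B C L := by simpa [restIt] using h1.solo.drop
    have h3 := h1.head_notMem
    have key : ∀ x y, x ∈ vs ((v, i, o) ::ₘ L) → y ∈ vs ((v, i, o) ::ₘ L) → s(x, y) ∈ R →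
        x ∈ It.vs (v, i, o) ∧ y ∈ It.vs (v, i, o) ∨ x ∈ vs L ∧ y ∈ vs L := fun x y hx hy hr => by
      obtain ⟨a, ha, b1, b2⟩ := h1.mat x hx y hy hr
      rcases Multiset.mem_cons.1 ha with rfl | ha
      · exact Or.inl ⟨b1, b2⟩
      · exact Or.inr ⟨mem_vs.2 ⟨a, ha, b1⟩, mem_vs.2 ⟨a, ha, b2⟩⟩
    rw [Multiset.map_cons, Multiset.countP_cons, ← ih h2]
    rcases o with _ | q
    · have : R ∩ inner (vs ((v, i, none) ::ₘ L)).toFinset = R ∩ inner (vs L).toFinset := by
        ext e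
        induction e using Sym2.ind with
        | _ x y =>
          have := key x y
          simp only [mem_inter, mk_mem_inner, Multiset.mem_toFinset, vs_cons, Multiset.mem_add,
            It.vs_none, Multiset.mem_singleton] at this ⊢
          grind
      rw [this]
      simp [It.abs, mkI]
    · have hq := h1.red _ (Multiset.mem_cons_self _ _) q rfl
      simp only [vs_add, Multiset.mem_add, not_or] at h3
      have hv : v ≠ q.1 := fun e => hR _ hq (Sym2.mk_isDiag_iff.2 e)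
      have : R ∩ inner (vs ((v, i, some q) ::ₘ L)).toFinset =
          insert s(v, q.1) (R ∩ inner (vs L).toFinset) := by
        ext e
        induction e using Sym2.ind with
        | _ x y =>
          have := key x y
          simp only [mem_inter, mk_mem_inner, Multiset.mem_toFinset, vs_cons, Multiset.mem_add,
            It.vs_some, Multiset.insert_eq_cons, Multiset.mem_cons, Multiset.mem_singleton,
            mem_insert] at this ⊢
          constructor
          · rintro ⟨b1, b2, b3, b4⟩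
            rcases this b3 b4 b1 with ⟨rfl | rfl, rfl | rfl⟩ | c
            · exact absurd rfl b2
            · exact Or.inl rfl
            · exact Or.inl Sym2.eq_swap
            · exact absurd rfl b2
            · exact Or.inr ⟨b1, b2, c⟩
          · rintro (c | c)
            · rw [c]
              rcases Sym2.eq_iff.1 c with ⟨rfl, rfl⟩ | ⟨rfl, rfl⟩
              · exact ⟨hq, hv, by simp, by simp⟩
              · exact ⟨hq, hv.symm, by simp, by simp⟩
            · tauto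
      rw [this, card_insert_of_notMem fun hm => h3.2
        (Multiset.mem_toFinset.1 (mk_mem_inner.1 (mem_inter.1 hm).2).2.1)]
      simp [It.abs, mkI]

theorem ZGood.hit2 {C : List V} {L : Multiset (It V)} (h : ZGood R B C L) {Nd Nk : AS → Prop} {r : ℕ}
    (hN : Cond2 Nd Nk (r, L.map It.abs)) {x y : V} (hx : x ∈ vs L) (hy : y ∈ vs L ∨ y ∈ C)
    (hxy : x ≠ y) (hr : s(x, y) ∉ R) (hb : s(x, y) ∉ B) :
    ∃ L1, ZGood (insert s(x, y) R) B C L1 ∧ (∀ u ∈ vs L1, u ∈ vs L) ∧
      (Nd (r, L1.map It.abs) ∧ (x ∉ vs L1 ∨ y ∈ vs L ∧ y ∉ vs L1) ∨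
        Nk (r, L1.map It.abs) ∧ x ∈ vs L1 ∧ y ∈ vs L1) := by
  obtain ⟨i, p, T, h1, h2, h3, -⟩ := h.find hx
  have hs : ∀ u ∈ vs (restIt p + T), u ∈ vs L := fun u hu => by
    rw [← h3, vs_head]; exact Multiset.mem_cons_of_mem hu
  rcases i with _ | i
  swap
  · exact ⟨_, h1.drop_red, hs, Or.inl ⟨by rw [Multiset.map_add, abs_rest]; exact hN.2.1 _ _ _ h2,
      Or.inl h1.head_notMem⟩⟩
  rcases hy with hy | hy
  swap
  · exact absurd (Sym2.eq_swap ▸ h1.headDef y hy) hb
  have hyT : y ∈ vs T := by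
    rw [← h3, vs_cons, Multiset.mem_add] at hy
    refine hy.resolve_left fun hy => ?_
    rcases p with _ | q
    · exact hxy (Eq.symm (by simpa using hy))
    · have : y = x ∨ y = q.1 := by simpa using hy
      rcases this with rfl | rfl
      · exact hxy rfl
      · exact hr (h1.red _ (Multiset.mem_cons_self _ _) q rfl)
  obtain ⟨j, q, U, g1, g2, g3⟩ := h1.find2 hyT
  have e1 : vs ((y, j, q) ::ₘ (x, 0, p) ::ₘ U) = vs L := by
    rw [Multiset.cons_swap, vs_cons, g3, ← h3, vs_cons]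
  have dy : ZGood (insert s(x, y) R) B C (restIt q + (x, 0, p) ::ₘ U) :=
    Sym2.eq_swap (a := y) (b := x) ▸ g1.drop_red
  have sy : ∀ u ∈ vs (restIt q + (x, 0, p) ::ₘ U), u ∈ vs L := fun u hu => by
    rw [← e1, vs_head]; exact Multiset.mem_cons_of_mem hu
  rw [g2] at h2
  rcases j with _ | j
  swap
  · refine ⟨_, dy, sy, Or.inl ⟨?_, Or.inr ⟨hy, g1.head_notMem⟩⟩⟩
    rw [Multiset.map_add, abs_rest, Multiset.map_cons]
    exact hN.2.1 _ _ _ (h2.trans (Multiset.cons_swap _ _ _))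
  rcases hN.2.2 _ _ _ h2 with c | c | c
  · refine ⟨_, h1.drop_red, hs, Or.inl ⟨?_, Or.inl h1.head_notMem⟩⟩
    rwa [Multiset.map_add, abs_rest, g2]
  · refine ⟨_, dy, sy, Or.inl ⟨?_, Or.inr ⟨hy, g1.head_notMem⟩⟩⟩
    rwa [Multiset.map_add, abs_rest, Multiset.map_cons]
  · have k1 := g1.solo
    rw [Multiset.cons_swap] at k1
    refine ⟨_, k1.solo.keep, fun u hu => ?_, Or.inr ⟨by simpa [It.abs, mkI] using c,
      by simp, by simp⟩⟩
    rw [← e1]
    rcases p with _ | p <;> rcases q with _ | q <;> simp at hu ⊢ <;> tauto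

/-- the number of candidates of an abstract state -/
def nvert (s : AS) : ℕ := (s.2.map AI.nv).sum

/-- A zone move: one end of the edge is dropped, or the edge is kept inside the zone. -/
theorem Pos.hit2 {Cd Cs : Finset V} {s : AS} (h : Pos k R B Cd Cs s) {Nd Nk : AS → Prop}
    (hN : Cond2 Nd Nk s) {e : Sym2 V} (heR : e ∉ R) (heB : e ∉ B) (he : e ∈ inner (Cd ∪ Cs)) :
    ∃ Cd1 s1, Cd1 ⊆ Cd ∧ Pos k (insert e R) B Cd1 Cs s1 ∧
      (Nd s1 ∧ e ∉ inner (Cd1 ∪ Cs) ∨ Nk s1 ∧ e ∈ inner (Cd1 ∪ Cs)) := by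
  have hdis := h.disj
  obtain ⟨C, L, h1, h2, h3, h4, h5⟩ := h
  obtain ⟨x, y, rfl, hxy, hx, hy⟩ : ∃ x y, e = s(x, y) ∧ x ≠ y ∧ x ∈ vs L ∧
      (y ∈ vs L ∨ y ∈ C) := by
    obtain ⟨u, hu, v, hv, huv, rfl⟩ := mem_inner.1 he
    have hv' := (mem_union.1 hv).imp (h4 v).1 (h5 v).1
    rcases (mem_union.1 hu).imp (h4 u).1 (h5 u).1 with a | a
    · exact ⟨u, v, rfl, huv, a, hv'⟩
    rcases hv' with b | b
    · exact ⟨v, u, Sym2.eq_swap, huv.symm, b, Or.inr a⟩
    · exact absurd (h1.clq u a v b huv) heB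
  obtain ⟨L1, a1, a2, a3⟩ := h1.hit2 (r := s.1) (by rw [h2]; exact hN) hx hy hxy heR heB
  refine ⟨(vs L1).toFinset, (s.1, L1.map It.abs), fun u hu => (h4 u).2 (a2 u (by simpa using hu)),
    ⟨C, L1, a1, rfl, h3, fun _ => Multiset.mem_toFinset, h5⟩, a3.imp (And.imp_right ?_)
      (And.imp_right fun b => mk_mem_inner.2 ⟨hxy, by simp [b.1], by simp [b.2]⟩)⟩
  intro b hi
  simp only [mk_mem_inner, mem_union, Multiset.mem_toFinset, h5] at hi
  rcases b with b | b
  · exact h1.dis x hx (hi.2.1.resolve_left b)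
  · exact h1.dis y b.1 (hi.2.2.resolve_left b.2)

section counts

variable {Cd Cs Cd' Cs' : Finset V} {s s' : AS}

lemma Pos.card_zone (h : Pos k R B Cd Cs s) : (Cd ∪ Cs).card + s.1 = nvert s + k := by
  rw [card_union_of_disjoint h.disj, h.card_Cd, add_assoc, h.card_Cs, nvert]

lemma card_red_sdiff (hZ : Z1 ⊆ Z) :
    ((R ∩ inner Z) \ inner Z1).card + (R ∩ inner Z1).card = (R ∩ inner Z).card := by
  rw [← card_sdiff_add_card_inter (R ∩ inner Z) (inner Z1), inter_assoc,
    inter_eq_right.2 (inner_sub hZ)]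

/-- the number of vertices that leave the zone -/
lemma Pos.card_leave (h : Pos k R B Cd Cs s) (h' : Pos k R' B' Cd' Cs' s')
    (hZ : Cd' ∪ Cs' ⊆ Cd ∪ Cs) :
    ((Cd ∪ Cs) \ (Cd' ∪ Cs')).card + nvert s' + s.1 = nvert s + s'.1 := by
  have := h.card_zone
  have := h'.card_zone
  have := card_sdiff_add_card_eq_card hZ
  omega

/-- the number of red edges that leave the zone in a reply -/
lemma Pos.red_reply (h : Pos k R B Cd Cs s) (h' : Pos k R B' Cd' Cs' s')
    (hZ : Cd' ∪ Cs' ⊆ Cd ∪ Cs) (hR : ∀ e ∈ R, ¬ e.IsDiag) (hd : Disjoint R B)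
    (hd' : Disjoint R B') :
    ((R ∩ inner (Cd ∪ Cs)) \ inner (Cd' ∪ Cs')).card + npair s' = npair s := by
  rw [← h.card_red hR hd, ← h'.card_red hR hd', card_red_sdiff hZ]

/-- the number of red edges that leave the zone in a zone move -/
lemma Pos.red_hit {e : Sym2 V} (h : Pos k R B Cd Cs s) (h' : Pos k (insert e R) B' Cd' Cs' s')
    (hZ : Cd' ∪ Cs' ⊆ Cd ∪ Cs) (hR : ∀ e ∈ R, ¬ e.IsDiag) (hd : Disjoint R B)
    (hd' : Disjoint (insert e R) B') (heR : e ∉ R) (he : e ∈ inner (Cd ∪ Cs)) :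
    ((insert e R ∩ inner (Cd ∪ Cs)) \ inner (Cd' ∪ Cs')).card + npair s' = npair s + 1 := by
  have hR' : ∀ f ∈ insert e R, ¬ f.IsDiag := fun f hf => by
    rcases mem_insert.1 hf with rfl | hf
    · obtain ⟨u, -, v, -, huv, rfl⟩ := mem_inner.1 he
      exact fun hg => huv (Sym2.mk_isDiag_iff.1 hg)
    · exact hR f hf
  rw [← h.card_red hR hd, ← h'.card_red hR' hd', card_red_sdiff hZ, insert_inter_of_mem he,
    card_insert_of_notMem fun hm => heR (mem_inter.1 hm).1]

/-- An edge that is not inside the zone has one or two ends outside it. -/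
lemma wild_cases {e : Sym2 V} (hd : ¬ e.IsDiag) (he : e ∉ inner Z) :
    ∃ x y, e = s(x, y) ∧ x ≠ y ∧ x ∉ Z := by
  induction e using Sym2.ind with
  | _ x y =>
    have hne : x ≠ y := fun e => hd (Sym2.mk_isDiag_iff.2 e)
    by_cases hx : x ∈ Z
    · exact ⟨y, x, Sym2.eq_swap, hne.symm, fun hy => he (mk_mem_inner.2 ⟨hne, hx, hy⟩)⟩
    · exact ⟨x, y, rfl, hne, hx⟩

end counts

end Pool.Agent.Lib.MP_1024aa_co
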