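import Mathlib
import Pool.Agent.Lib.MP_1024aa_co.Cliques

/-!
Shifting of edge sets: moving edges from a vertex `j` to a vertex `i` does not lower a sum of
convex weights of the numbers of edges inside vertex sets.
-/

set_option autoImplicit false

open Finset

namespace Pool.Agent.Lib.MP_1024aa_co.Stat

variable {V : Type*} [DecidableEq V]

/-- The number of edges of `R` inside `K`. -/
def ein (R : Finset (Sym2 V)) (K : Finset V) : ℕ := (R ∩ inner K).card

/-- The swap of two vertices, acting on edges. -/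
def tw (i j : V) (e : Sym2 V) : Sym2 V := Sym2.map (Equiv.swap i j) e

theorem tw_mk (i j x y : V) : tw i j s(x, y) = s(Equiv.swap i j x, Equiv.swap i j y) := rfl

theorem tw_tw (i j : V) (e : Sym2 V) : tw i j (tw i j e) = e := by
  induction e using Sym2.ind with
  | _ x y => simp [tw_mk]

theorem mem_tw (i j x : V) (e : Sym2 V) : x ∈ tw i j e ↔ Equiv.swap i j x ∈ e := by
  induction e using Sym2.ind with
  | _ a b =>
    rw [tw_mk, Sym2.mem_iff, Sym2.mem_iff]
    have h : ∀ c : V, x = Equiv.swap i j c ↔ Equiv.swap i j x = c := fun c => by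
      rw [Equiv.swap_apply_eq_iff]
    rw [h, h]

theorem tw_fix (i j : V) (e : Sym2 V) (h : i ∈ e ↔ j ∈ e) : tw i j e = e := by
  induction e using Sym2.ind with
  | _ a b =>
    rw [tw_mk]
    simp only [Sym2.mem_iff] at h
    simp only [Equiv.swap_apply_def, Sym2.eq_iff]
    split_ifs <;> grind

/-- The swap as a permutation of the edges. -/
def twE (i j : V) : Equiv.Perm (Sym2 V) where
  toFun := tw i j
  invFun := tw i j
  left_inv := tw_tw i j
  right_inv := tw_tw i j

theorem mem_inner' {K : Finset V} {x y : V} : s(x, y) ∈ inner K ↔ x ∈ K ∧ y ∈ K ∧ x ≠ y := by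
  rw [mem_inner]
  constructor
  · rintro ⟨u, hu, v, hv, huv, h⟩
    rcases Sym2.eq_iff.1 h with ⟨rfl, rfl⟩ | ⟨rfl, rfl⟩
    · exact ⟨hu, hv, huv⟩
    · exact ⟨hv, hu, huv.symm⟩
  · rintro ⟨hx, hy, hxy⟩
    exact ⟨x, hx, y, hy, hxy, rfl⟩

/-- The swap acting on vertex sets. -/
def tv (i j : V) (K : Finset V) : Finset V := K.map (Equiv.swap i j).toEmbedding

theorem mem_tv (i j x : V) (K : Finset V) : x ∈ tv i j K ↔ Equiv.swap i j x ∈ K := by
  unfold tv
  rw [mem_map_equiv, Equiv.symm_swap]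

theorem tv_tv (i j : V) (K : Finset V) : tv i j (tv i j K) = K := by
  ext x
  simp [mem_tv]

theorem tw_mem_inner (i j : V) (K : Finset V) (e : Sym2 V) :
    tw i j e ∈ inner (tv i j K) ↔ e ∈ inner K := by
  induction e using Sym2.ind with
  | _ a b => simp [tw_mk, mem_inner', mem_tv]

variable [Fintype V]

/-- Move every edge `jx` to `ix` when `ix` is not yet an edge. -/
def shift (i j : V) (R : Finset (Sym2 V)) : Finset (Sym2 V) :=
  univ.filter fun e => if j ∈ e ∧ i ∉ e then e ∈ R ∧ tw i j e ∈ R else e ∈ R ∨ tw i j e ∈ R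

theorem mem_shift (i j : V) (R : Finset (Sym2 V)) (e : Sym2 V) :
    e ∈ shift i j R ↔
      if j ∈ e ∧ i ∉ e then e ∈ R ∧ tw i j e ∈ R else e ∈ R ∨ tw i j e ∈ R := by
  simp [shift]

theorem shift_pair (i j : V) (R : Finset (Sym2 V)) (e : Sym2 V) :
    (if e ∈ shift i j R then 1 else 0) + (if tw i j e ∈ shift i j R then 1 else 0) =
      (if e ∈ R then 1 else 0) + (if tw i j e ∈ R then 1 else 0 : ℕ) := by
  have h1 := mem_shift i j R e
  have h2 := mem_shift i j R (tw i j e)
  simp only [tw_tw, mem_tw, Equiv.swap_apply_left, Equiv.swap_apply_right] at h2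
  have h3 := tw_fix i j e
  by_cases hi : i ∈ e <;> by_cases hj : j ∈ e
  · rw [h3 (by tauto)] at h1 ⊢
    simp [h1, hi]
  · simp only [hi, hj, false_and, not_false_eq_true, and_self, if_true, if_false] at h1 h2
    simp only [h1, h2]
    by_cases a : e ∈ R <;> by_cases b : tw i j e ∈ R <;> simp [a, b]
  · simp only [hi, hj, false_and, not_false_eq_true, and_self, if_true, if_false] at h1 h2
    simp only [h1, h2]
    by_cases a : e ∈ R <;> by_cases b : tw i j e ∈ R <;> simp [a, b]
  · rw [h3 (by tauto)] at h1 ⊢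
    simp [h1, hj]

omit [Fintype V] in
theorem card_inter_eq_sum (R A : Finset (Sym2 V)) :
    (R ∩ A).card = ∑ e ∈ A, if e ∈ R then 1 else 0 := by
  rw [← card_filter, inter_comm, filter_mem_eq_inter]

omit [Fintype V] in
theorem card_inter_tw (i j : V) (R A A' : Finset (Sym2 V)) (h : ∀ e, tw i j e ∈ A' ↔ e ∈ A) :
    (R ∩ A').card = ∑ e ∈ A, if tw i j e ∈ R then 1 else 0 := by
  rw [card_inter_eq_sum]
  symm
  exact sum_equiv (twE i j) (fun e => (h e).symm) (fun e _ => rfl)

theorem shift_two (i j : V) (R A A' : Finset (Sym2 V)) (h : ∀ e, tw i j e ∈ A' ↔ e ∈ A) :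
    (shift i j R ∩ A).card + (shift i j R ∩ A').card = (R ∩ A).card + (R ∩ A').card := by
  rw [card_inter_tw i j _ A A' h, card_inter_tw i j R A A' h, card_inter_eq_sum,
    card_inter_eq_sum, ← sum_add_distrib, ← sum_add_distrib]
  exact sum_congr rfl fun e _ => shift_pair i j R e

theorem shift_inv (i j : V) (R A : Finset (Sym2 V)) (h : ∀ e, tw i j e ∈ A ↔ e ∈ A) :
    (shift i j R ∩ A).card = (R ∩ A).card := by
  have := shift_two i j R A A h
  omega

theorem card_shift (i j : V) (R : Finset (Sym2 V)) : (shift i j R).card = R.card := by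
  have := shift_inv i j R univ (by simp)
  simpa using this

theorem convex_step (φ : ℕ → ℕ) (h : ∀ m, 2 * φ (m + 1) ≤ φ m + φ (m + 2)) (a b : ℕ)
    (hab : a ≤ b) : φ (a + 1) + φ b ≤ φ a + φ (b + 1) := by
  induction b, hab using Nat.le_induction with
  | base => omega
  | succ b _ ih =>
    have := h b
    have e : b + 1 + 1 = b + 2 := rfl
    rw [e]
    omega

theorem convex_pair (φ : ℕ → ℕ) (h : ∀ m, 2 * φ (m + 1) ≤ φ m + φ (m + 2)) (a b d : ℕ)
    (hab : a ≤ b) : φ (a + d) + φ b ≤ φ a + φ (b + d) := by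
  induction d with
  | zero => simp
  | succ d ih =>
    have := convex_step φ h (a + d) (b + d) (by omega)
    rw [← add_assoc, ← add_assoc]
    omega

theorem mono_of_incr (φ ψ : ℕ → ℕ) (h : ∀ m, ψ (m + 1) + φ m ≤ φ (m + 1) + ψ m) (a d : ℕ) :
    ψ (a + d) + φ a ≤ φ (a + d) + ψ a := by
  induction d with
  | zero => simp [add_comm]
  | succ d ih =>
    have := h (a + d)
    rw [← add_assoc]
    omega

theorem ein_shift_ge (i j : V) (R : Finset (Sym2 V)) (K : Finset V) (hj : j ∉ K) :
    ein R K ≤ ein (shift i j R) K ∧ ein R (tv i j K) ≤ ein (shift i j R) K := by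
  have hje : ∀ e ∈ inner K, j ∉ e := by
    intro e he hje
    obtain ⟨u, hu, v, hv, _, rfl⟩ := mem_inner.1 he
    rcases Sym2.mem_iff.1 hje with rfl | rfl
    · exact hj hu
    · exact hj hv
  unfold ein
  rw [card_inter_tw i j R (inner K) _ (tw_mem_inner i j K), card_inter_eq_sum, card_inter_eq_sum]
  constructor <;>
  · refine sum_le_sum fun e he => ?_
    have h1 := mem_shift i j R e
    simp only [hje e he, false_and, if_false] at h1
    simp only [h1]
    by_cases a : e ∈ R <;> by_cases b : tw i j e ∈ R <;> simp [a, b]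

/-- The condition on the weights under which the shift from `j` to `i` is allowed. -/
def Allowed (Φ : Finset V → ℕ → ℕ) (i j : V) : Prop :=
  ∀ K : Finset V, i ∈ K → j ∉ K →
    (∀ m, 2 * Φ (tv i j K) (m + 1) ≤ Φ (tv i j K) m + Φ (tv i j K) (m + 2)) ∧
    ∀ m, Φ (tv i j K) (m + 1) + Φ K m ≤ Φ K (m + 1) + Φ (tv i j K) m

theorem shift_pair_le (Φ : Finset V → ℕ → ℕ) (i j : V) (h : Allowed Φ i j) (R : Finset (Sym2 V))
    (K : Finset V) (hi : i ∈ K) (hj : j ∉ K) :
    Φ K (ein R K) + Φ (tv i j K) (ein R (tv i j K)) ≤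
      Φ K (ein (shift i j R) K) + Φ (tv i j K) (ein (shift i j R) (tv i j K)) := by
  obtain ⟨h1, h2⟩ := h K hi hj
  obtain ⟨h3, h4⟩ := ein_shift_ge i j R K hj
  have h5 : ein (shift i j R) K + ein (shift i j R) (tv i j K) = ein R K + ein R (tv i j K) :=
    shift_two i j R _ _ (tw_mem_inner i j K)
  obtain ⟨d, hd⟩ := Nat.exists_eq_add_of_le h3
  have h6 : ein R (tv i j K) = ein (shift i j R) (tv i j K) + d := by omega
  have h7 := convex_pair _ h1 (ein (shift i j R) (tv i j K)) (ein R K) d (by omega)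
  have h8 := mono_of_incr _ _ h2 (ein R K) d
  rw [hd, h6]
  omega

theorem sum_shift_ge (Φ : Finset V → ℕ → ℕ) (i j : V) (h : Allowed Φ i j) (R : Finset (Sym2 V)) :
    ∑ K : Finset V, Φ K (ein R K) ≤ ∑ K : Finset V, Φ K (ein (shift i j R) K) := by
  have key : ∀ Q : Finset (Sym2 V), 2 * ∑ K : Finset V, Φ K (ein Q K) =
      ∑ K : Finset V, (Φ K (ein Q K) + Φ (tv i j K) (ein Q (tv i j K))) := by
    intro Q
    rw [sum_add_distrib, two_mul]
    congr 1
    exact (Equiv.sum_comp (Function.Involutive.toPerm _ (tv_tv i j))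
      (fun K => Φ K (ein Q K))).symm
  refine Nat.le_of_mul_le_mul_left ?_ two_pos
  rw [key, key]
  refine sum_le_sum fun K _ => ?_
  by_cases hi : i ∈ K <;> by_cases hj : j ∈ K
  · have e : tv i j K = K := by
      ext x
      rw [mem_tv, Equiv.swap_apply_def]
      split_ifs <;> grind
    have := shift_inv i j R (inner K) (fun x => by
      conv_lhs => rw [← e]
      exact tw_mem_inner i j K x)
    rw [e, ein, ein, this]
  · exact shift_pair_le Φ i j h R K hi hj
  · have := shift_pair_le Φ i j h R (tv i j K) (by simpa [mem_tv] using hj)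
      (by simpa [mem_tv] using hi)
    rw [tv_tv] at this
    omega
  · have e : tv i j K = K := by
      ext x
      rw [mem_tv, Equiv.swap_apply_def]
      split_ifs <;> grind
    have := shift_inv i j R (inner K) (fun x => by
      conv_lhs => rw [← e]
      exact tw_mem_inner i j K x)
    rw [e, ein, ein, this]

/-- The rank of an edge. -/
def erk (r : V → ℕ) : Sym2 V → ℕ := Sym2.lift ⟨fun x y => r x + r y, fun _ _ => add_comm _ _⟩

omit [Fintype V] in
theorem erk_tw (r : V → ℕ) (i j : V) (hr : r i < r j) (e : Sym2 V) (hj : j ∈ e) (hi : i ∉ e) :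
    erk r (tw i j e) < erk r e := by
  induction e using Sym2.ind with
  | _ a b =>
    simp only [Sym2.mem_iff, not_or] at hi hj
    simp only [tw_mk, erk, Sym2.lift_mk, Equiv.swap_apply_def]
    split_ifs <;> grind

theorem rank_shift (r : V → ℕ) (i j : V) (hr : r i < r j) (R : Finset (Sym2 V))
    (e0 : Sym2 V) (hj : j ∈ e0) (hi : i ∉ e0) (h1 : e0 ∈ R) (h2 : tw i j e0 ∉ R) :
    ∑ e ∈ shift i j R, erk r e < ∑ e ∈ R, erk r e := by
  have key : ∀ Q : Finset (Sym2 V), 2 * ∑ e ∈ Q, erk r e =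
      ∑ e : Sym2 V, ((if e ∈ Q then erk r e else 0) +
        (if tw i j e ∈ Q then erk r (tw i j e) else 0)) := by
    intro Q
    have a : ∑ e ∈ Q, erk r e = ∑ e : Sym2 V, if e ∈ Q then erk r e else 0 := by
      rw [← sum_filter, filter_mem_eq_inter, univ_inter]
    rw [sum_add_distrib, two_mul, a]
    congr 1
    exact (Equiv.sum_comp (twE i j) (fun e => if e ∈ Q then erk r e else 0)).symm
  refine Nat.lt_of_mul_lt_mul_left (a := 2) ?_
  rw [key, key]
  have pt : ∀ e : Sym2 V, j ∈ e → i ∉ e → (e ∈ shift i j R ↔ e ∈ R ∧ tw i j e ∈ R) ∧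
      (tw i j e ∈ shift i j R ↔ tw i j e ∈ R ∨ e ∈ R) := by
    intro e a b
    have h1 := mem_shift i j R e
    have h2 := mem_shift i j R (tw i j e)
    simp only [tw_tw, mem_tw, Equiv.swap_apply_left, Equiv.swap_apply_right] at h2
    simp only [a, b, false_and, not_false_eq_true, and_self, if_true, if_false] at h1 h2
    exact ⟨h1, h2⟩
  refine sum_lt_sum (fun e _ => ?_) ⟨e0, mem_univ _, ?_⟩
  · by_cases a : i ∈ e <;> by_cases b : j ∈ e
    · have h1 := mem_shift i j R e
      rw [tw_fix i j e (by tauto)] at h1 ⊢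
      simp [h1, a]
    · obtain ⟨p1, p2⟩ := pt (tw i j e) (by simpa [mem_tw] using a) (by simpa [mem_tw] using b)
      have p3 := erk_tw r i j hr (tw i j e) (by simpa [mem_tw] using a)
        (by simpa [mem_tw] using b)
      rw [tw_tw] at p1 p2 p3
      simp only [p1, p2]
      by_cases c : e ∈ R <;> by_cases d : tw i j e ∈ R <;> simp [c, d]
      omega
    · obtain ⟨p1, p2⟩ := pt e b a
      have p3 := erk_tw r i j hr e b a
      simp only [p1, p2]
      by_cases c : e ∈ R <;> by_cases d : tw i j e ∈ R <;> simp [c, d]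
      omega
    · have h1 := mem_shift i j R e
      rw [tw_fix i j e (by tauto)] at h1 ⊢
      simp [h1, b]
  · obtain ⟨p1, p2⟩ := pt e0 hj hi
    have p3 := erk_tw r i j hr e0 hj hi
    simp only [p1, p2]
    simpa [h1, h2] using p3

/-- Shift as long as possible. -/
theorem exists_shifted (r : V → ℕ) (ok : V → V → Prop) (hok : ∀ i j, ok i j → r i < r j)
    (P : Finset (Sym2 V) → Prop) (hP : ∀ R i j, ok i j → P R → P (shift i j R))
    (R : Finset (Sym2 V)) (h : P R) :
    ∃ Q, P Q ∧ ∀ i j, ok i j → ∀ x, x ≠ i → s(j, x) ∈ Q → x ≠ j → s(i, x) ∈ Q := by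
  classical
  obtain ⟨Q, hQ, hmin⟩ := exists_min_image (univ.filter P) (fun Q => ∑ e ∈ Q, erk r e)
    ⟨R, by simpa using h⟩
  have hQ' : P Q := by simpa using hQ
  refine ⟨Q, hQ', fun i j hij x hxi hx hxj => ?_⟩
  by_contra hc
  have hr := hok i j hij
  have hne : i ≠ j := fun e => by rw [e] at hr; exact lt_irrefl _ hr
  have := rank_shift r i j hr Q s(j, x) (Sym2.mem_mk_left _ _) (by
    rw [Sym2.mem_iff]; grind) hx (by
    rw [tw_mk, Equiv.swap_apply_right, Equiv.swap_apply_of_ne_of_ne hxi hxj]; exact hc)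
  exact absurd (hmin _ (by simpa using hP Q i j hij hQ')) (not_le.2 this)

end Pool.Agent.Lib.MP_1024aa_co.Stat
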