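import Mathlib
import Pool.Agent.Lib.MP_1024aa_co.Shift

/-!
Shifting inside two classes of vertices, `Z` and its complement, for edge sets without an edge
inside `Z`. The multiset of the degrees into `Z` of the vertices outside `Z` is kept.
-/

set_option autoImplicit false

open Finset

namespace Pool.Agent.Lib.MP_1024aa_co.Stat

variable {V : Type*} [DecidableEq V]

/-- The number of edges of `R` from `x` into `Z`. -/
def degZ (Z : Finset V) (R : Finset (Sym2 V)) (x : V) : ℕ := (Z.filter fun l => s(x, l) ∈ R).card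

variable [Fintype V]

theorem shift_sub (i j : V) (R : Finset (Sym2 V)) (e : Sym2 V) (h : e ∈ shift i j R) :
    e ∈ R ∨ tw i j e ∈ R := by
  rw [mem_shift] at h
  split_ifs at h
  · exact Or.inl h.1
  · exact h

theorem shift_nodiag (i j : V) (R : Finset (Sym2 V)) (hd : ∀ e ∈ R, ¬ e.IsDiag) :
    ∀ e ∈ shift i j R, ¬ e.IsDiag := by
  intro e he
  rcases shift_sub i j R e he with h | h
  · exact hd e h
  · induction e using Sym2.ind with
    | _ a b =>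
      have := hd _ h
      rw [tw_mk] at this
      simpa using this

theorem shift_noZZ (Z : Finset V) (i j : V) (hij : i ∈ Z ↔ j ∈ Z) (R : Finset (Sym2 V))
    (hZ : ∀ x ∈ Z, ∀ y ∈ Z, s(x, y) ∉ R) : ∀ x ∈ Z, ∀ y ∈ Z, s(x, y) ∉ shift i j R := by
  have hs : ∀ x ∈ Z, Equiv.swap i j x ∈ Z := by
    intro x hx
    rw [Equiv.swap_apply_def]
    split_ifs <;> grind
  intro x hx y hy he
  rcases shift_sub i j R _ he with h | h
  · exact hZ x hx y hy h
  · exact hZ _ (hs x hx) _ (hs y hy) h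

theorem degZ_shift_Z (Z : Finset V) (i j : V) (hi : i ∈ Z) (hj : j ∈ Z) (R : Finset (Sym2 V))
    (x : V) (hx : x ∉ Z) : degZ Z (shift i j R) x = degZ Z R x := by
  have hxi : x ≠ i := fun e => hx (e ▸ hi)
  have hxj : x ≠ j := fun e => hx (e ▸ hj)
  have key : ∀ Q : Finset (Sym2 V), 2 * degZ Z Q x =
      ∑ l ∈ Z, ((if s(x, l) ∈ Q then 1 else 0) + (if tw i j s(x, l) ∈ Q then 1 else 0)) := by
    intro Q
    rw [sum_add_distrib, two_mul, degZ, card_filter]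
    congr 1
    refine sum_equiv (Equiv.swap i j) (fun l => ?_) (fun l _ => ?_)
    · rw [Equiv.swap_apply_def]
      split_ifs <;> grind
    · simp [tw_mk, Equiv.swap_apply_of_ne_of_ne hxi hxj]
  refine Nat.eq_of_mul_eq_mul_left two_pos ?_
  rw [key, key]
  exact sum_congr rfl fun l _ => shift_pair i j R _

theorem mem_shift_other (i j : V) (hij : i ≠ j) (R : Finset (Sym2 V)) (x l : V) (hi : l ≠ i)
    (hj : l ≠ j) : s(x, l) ∈ shift i j R ↔
      if x = j then s(j, l) ∈ R ∧ s(i, l) ∈ R else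
        if x = i then s(i, l) ∈ R ∨ s(j, l) ∈ R else s(x, l) ∈ R := by
  rw [mem_shift, tw_mk, Equiv.swap_apply_of_ne_of_ne hi hj]
  by_cases a : x = j
  · subst a
    simp [hij, hi.symm]
  · by_cases b : x = i
    · subst b
      simp [hij]
    · simp [a, b, Ne.symm a, hj.symm, Equiv.swap_apply_of_ne_of_ne b a]

theorem degZ_shift_O (Z : Finset V) (r : V → ℕ) (hr : Function.Injective r) (i j : V)
    (hi : i ∉ Z) (hj : j ∉ Z) (hij : i ≠ j) (R : Finset (Sym2 V))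
    (hs : ∀ a ∈ Z, ∀ b ∈ Z, r a < r b → ∀ x, x ∉ Z → s(x, b) ∈ R → s(x, a) ∈ R) :
    Zᶜ.val.map (degZ Z (shift i j R)) = Zᶜ.val.map (degZ Z R) := by
  have hm : ∀ x, ∀ l ∈ Z, s(x, l) ∈ shift i j R ↔
      if x = j then s(j, l) ∈ R ∧ s(i, l) ∈ R else
        if x = i then s(i, l) ∈ R ∨ s(j, l) ∈ R else s(x, l) ∈ R := fun x l hl =>
    mem_shift_other i j hij R x l (fun e => hi (e ▸ hl)) (fun e => hj (e ▸ hl))
  by_cases h : ∀ l ∈ Z, s(j, l) ∈ R → s(i, l) ∈ R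
  · refine Multiset.map_congr rfl fun x _ => ?_
    unfold degZ
    congr 1
    refine filter_congr fun l hl => ?_
    rw [hm x l hl]
    have := h l hl
    split_ifs <;> grind
  · push Not at h
    obtain ⟨l2, hl2, h2, h3⟩ := h
    have h : ∀ l ∈ Z, s(i, l) ∈ R → s(j, l) ∈ R := by
      intro l hl h4
      rcases lt_trichotomy (r l) (r l2) with a | a | a
      · exact hs l hl l2 hl2 a j hj h2
      · exact hr a ▸ h2
      · exact absurd (hs l2 hl2 l hl a i hi h4) h3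
    have e : tv i j Zᶜ = Zᶜ := by
      ext x
      rw [mem_tv, Equiv.swap_apply_def]
      split_ifs <;> simp_all
    conv_rhs => rw [← e, tv, map_val, Multiset.map_map]
    refine Multiset.map_congr rfl fun x _ => ?_
    simp only [Function.comp_apply, Equiv.toEmbedding_apply]
    unfold degZ
    congr 1
    refine filter_congr fun l hl => ?_
    rw [hm x l hl, Equiv.swap_apply_def]
    have := h l hl
    split_ifs <;> grind

theorem two_class (Z : Finset V) (r : V → ℕ) (hr : Function.Injective r)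
    (Φ : Finset V → ℕ → ℕ) (hΦ : ∀ i j, (i ∈ Z ↔ j ∈ Z) → r i < r j → Allowed Φ i j)
    (R : Finset (Sym2 V)) (hd : ∀ e ∈ R, ¬ e.IsDiag) (hZ : ∀ x ∈ Z, ∀ y ∈ Z, s(x, y) ∉ R) :
    ∃ Q : Finset (Sym2 V), Q.card = R.card ∧ (∀ e ∈ Q, ¬ e.IsDiag) ∧
      (∀ x ∈ Z, ∀ y ∈ Z, s(x, y) ∉ Q) ∧ Zᶜ.val.map (degZ Z Q) = Zᶜ.val.map (degZ Z R) ∧
      ∑ K : Finset V, Φ K (ein R K) ≤ ∑ K : Finset V, Φ K (ein Q K) ∧
      ∀ i j, (i ∈ Z ↔ j ∈ Z) → r i < r j → ∀ x, x ≠ i → s(j, x) ∈ Q → s(i, x) ∈ Q := by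
  obtain ⟨Q1, ⟨a1, a2, a3, a4, a5⟩, a6⟩ := exists_shifted r
    (fun i j => i ∈ Z ∧ j ∈ Z ∧ r i < r j) (fun i j h => h.2.2)
    (fun Q => Q.card = R.card ∧ (∀ e ∈ Q, ¬ e.IsDiag) ∧ (∀ x ∈ Z, ∀ y ∈ Z, s(x, y) ∉ Q) ∧
      (∀ x, x ∉ Z → degZ Z Q x = degZ Z R x) ∧
      ∑ K : Finset V, Φ K (ein R K) ≤ ∑ K : Finset V, Φ K (ein Q K))
    (by
      rintro Q i j ⟨hi, hj, hij⟩ ⟨b1, b2, b3, b4, b5⟩
      refine ⟨by rw [card_shift, b1], shift_nodiag i j Q b2, shift_noZZ Z i j (by tauto) Q b3,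
        fun x hx => by rw [degZ_shift_Z Z i j hi hj Q x hx, b4 x hx],
        b5.trans (sum_shift_ge Φ i j (hΦ i j (by tauto) hij) Q)⟩)
    R ⟨rfl, hd, hZ, fun _ _ => rfl, le_rfl⟩
  obtain ⟨Q2, ⟨c1, c2, c3, c4, c5, c7⟩, c6⟩ := exists_shifted r
    (fun i j => i ∉ Z ∧ j ∉ Z ∧ r i < r j) (fun i j h => h.2.2)
    (fun Q => Q.card = R.card ∧ (∀ e ∈ Q, ¬ e.IsDiag) ∧ (∀ x ∈ Z, ∀ y ∈ Z, s(x, y) ∉ Q) ∧
      Zᶜ.val.map (degZ Z Q) = Zᶜ.val.map (degZ Z R) ∧
      ∑ K : Finset V, Φ K (ein R K) ≤ ∑ K : Finset V, Φ K (ein Q K) ∧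
      ∀ a ∈ Z, ∀ b ∈ Z, r a < r b → ∀ x, x ∉ Z → s(x, b) ∈ Q → s(x, a) ∈ Q)
    (by
      rintro Q i j ⟨hi, hj, hij⟩ ⟨b1, b2, b3, b4, b5, b6⟩
      have hne : i ≠ j := fun e => by rw [e] at hij; exact lt_irrefl _ hij
      refine ⟨by rw [card_shift, b1], shift_nodiag i j Q b2, shift_noZZ Z i j (by tauto) Q b3,
        by rw [degZ_shift_O Z r hr i j hi hj hne Q b6, b4],
        b5.trans (sum_shift_ge Φ i j (hΦ i j (by tauto) hij) Q), ?_⟩
      intro a ha b hb hab x hx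
      rw [mem_shift_other i j hne Q x a (fun e => hi (e ▸ ha)) (fun e => hj (e ▸ ha)),
        mem_shift_other i j hne Q x b (fun e => hi (e ▸ hb)) (fun e => hj (e ▸ hb))]
      have d1 := b6 a ha b hb hab x hx
      have d2 := b6 a ha b hb hab i hi
      have d3 := b6 a ha b hb hab j hj
      split_ifs <;> tauto)
    Q1 ⟨a1, a2, a3, Multiset.map_congr rfl fun x hx => a4 x (by simpa using hx), a5, by
      intro a ha b hb hab x hx h
      rw [Sym2.eq_swap] at h ⊢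
      exact a6 a b ⟨ha, hb, hab⟩ x (fun e => hx (e ▸ ha)) h (fun e => hx (e ▸ hb))⟩
  refine ⟨Q2, c1, c2, c3, c4, c5, fun i j hij hr x hxi h => ?_⟩
  have hxj : x ≠ j := fun e => c2 _ h (by simp [e])
  by_cases hi : i ∈ Z
  · have hj := hij.1 hi
    have hx : x ∉ Z := fun hx => c3 j hj x hx h
    rw [Sym2.eq_swap] at h ⊢
    exact c7 i hi j hj hr x hx h
  · exact c6 i j ⟨hi, fun e => hi (hij.2 e), hr⟩ x hxi h hxj

end Pool.Agent.Lib.MP_1024aa_co.Stat
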