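import Mathlib
import Pool.Agent.Lib.MP_1024aa_co.ShiftTwo

/-!
Shifted two-class graphs are described by words in four letters. A word is read from its end:
a vertex with letter `a` or `b` is joined to the earlier vertices with letters `a` and `c`, a
vertex with letter `c` or `d` to the earlier vertices with letter `a`.
-/

set_option autoImplicit false

open Finset

namespace Pool.Agent.Lib.MP_1024aa_co.Stat

/-- The four kinds of vertices. -/
inductive Lt : Type
  | a : Lt
  | b : Lt
  | c : Lt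
  | d : Lt
  deriving DecidableEq

/-- Test functions of the numbers of `a`, `c`, outer and inner vertices, and edges. -/
abbrev TF : Type := ℕ → ℕ → ℕ → ℕ → ℕ → ℕ

/-- The effect of one more vertex, with tag `g`, on a test function. -/
def tr : Lt → ℕ → TF → TF
  | .a, g, Ψ => fun s c o z x => Ψ s c o z x + Ψ (s + 1) c (o + 1) z (x + (s + c + g))
  | .b, g, Ψ => fun s c o z x => Ψ s c o z x + Ψ s c (o + 1) z (x + (s + c + g))
  | .c, g, Ψ => fun s c o z x => Ψ s c o z x + Ψ s (c + 1) o (z + 1) (x + (s + g))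
  | .d, g, Ψ => fun s c o z x => Ψ s c o z x + Ψ s c o (z + 1) (x + (s + g))

/-- The sum of a test function over all vertex sets of the graph of a word; the tags are added
to the number of edges. -/
def ev : List (Lt × ℕ) → TF → ℕ
  | [], Ψ => Ψ 0 0 0 0 0
  | p :: w, Ψ => ev w (tr p.1 p.2 Ψ)

/-- The number of new edges at a vertex with letter `l`. -/
def cost : Lt → ℕ → ℕ → ℕ
  | .a, s, c => s + c
  | .b, s, c => s + c
  | .c, s, _ => s
  | .d, s, _ => s

/-- The number of edges of the graph of a word. -/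
def wedges : List Lt → ℕ
  | [] => 0
  | l :: w => wedges w + cost l (w.count .a) (w.count .c)

/-- The number of letters `a` with an inner neighbour. -/
def wn1 : List Lt → ℕ
  | [] => 0
  | .a :: w => wn1 w + min 1 (w.count .c)
  | .b :: w => wn1 w
  | .c :: w => w.count .a
  | .d :: w => w.count .a

/-- The sum over the outer vertices of the number of inner neighbours minus one. -/
def wex : List Lt → ℕ
  | [] => 0
  | .a :: w => wex w + (w.count .c - 1)
  | .b :: w => wex w + (w.count .c - 1)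
  | .c :: w => wex w + wn1 w
  | .d :: w => wex w + wn1 w

/-- The letters that may follow a word. -/
def mayAdd : Lt → List Lt → Prop
  | .a, w => w.head? ≠ some .c
  | .b, w => 1 ≤ w.count .a + w.count .c
  | .c, _ => True
  | .d, w => w.head? = some .a ∨ w.head? = some .d

/-- Words in normal form. -/
def valid : List Lt → Prop
  | [] => True
  | l :: w => valid w ∧ mayAdd l w

/-- Which earlier letters a letter is joined to. -/
def rule : Lt → Lt → Prop
  | .a, t => t = .a ∨ t = .c
  | .b, t => t = .a ∨ t = .c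
  | .c, t => t = .a
  | .d, t => t = .a

variable {V : Type*} [DecidableEq V]

/-- The number of vertices of `K` with letter `l`. -/
def cn (ty : V → Lt) (l : Lt) (K : Finset V) : ℕ := (K.filter fun x => ty x = l).card

theorem cn_insert (ty : V → Lt) (l : Lt) (K : Finset V) (v : V) (hv : v ∉ K) :
    cn ty l (insert v K) = cn ty l K + if ty v = l then 1 else 0 := by
  unfold cn
  rw [filter_insert]
  split_ifs
  · rw [card_insert_of_notMem fun h => hv (mem_filter.1 h).1]
  · rfl

theorem ein_insert (Q : Finset (Sym2 V)) (K : Finset V) (v : V) (hv : v ∉ K) :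
    ein Q (insert v K) = ein Q K + (K.filter fun u => s(v, u) ∈ Q).card := by
  have h : Q ∩ inner (insert v K) =
      Q ∩ inner K ∪ (K.filter fun u => s(v, u) ∈ Q).image fun u => s(v, u) := by
    ext e
    induction e using Sym2.ind with
    | _ x y =>
      simp only [mem_inter, mem_union, mem_inner', mem_insert, mem_image, mem_filter,
        Sym2.eq_iff]
      constructor
      · rintro ⟨h1, rfl | h2, rfl | h3, h4⟩
        · exact absurd rfl h4
        · exact Or.inr ⟨y, ⟨h3, h1⟩, Or.inl ⟨rfl, rfl⟩⟩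
        · exact Or.inr ⟨x, ⟨h2, Sym2.eq_swap ▸ h1⟩, Or.inr ⟨rfl, rfl⟩⟩
        · exact Or.inl ⟨h1, h2, h3, h4⟩
      · rintro (⟨h1, h2, h3, h4⟩ | ⟨u, ⟨h1, h2⟩, ⟨rfl, rfl⟩ | ⟨rfl, rfl⟩⟩)
        · exact ⟨h1, Or.inr h2, Or.inr h3, h4⟩
        · exact ⟨h2, Or.inl rfl, Or.inr h1, fun e => hv (e ▸ h1)⟩
        · exact ⟨Sym2.eq_swap ▸ h2, Or.inr h1, Or.inl rfl, fun e => hv (e ▸ h1)⟩
  unfold ein
  rw [h, card_union_of_disjoint, card_image_of_injective]
  · intro x y hxy
    exact Sym2.congr_right.1 hxy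
  · rw [disjoint_right]
    intro e he he'
    obtain ⟨u, _, rfl⟩ := mem_image.1 he
    exact hv (mem_inner'.1 (mem_inter.1 he').2).1

theorem card_rule (ty : V → Lt) (Q : Finset (Sym2 V)) (K : Finset V) (v : V)
    (h : ∀ u ∈ K, s(v, u) ∈ Q ↔ rule (ty v) (ty u)) :
    (K.filter fun u => s(v, u) ∈ Q).card = cost (ty v) (cn ty .a K) (cn ty .c K) := by
  have two : (K.filter fun u => ty u = .a ∨ ty u = .c).card = cn ty .a K + cn ty .c K := by
    rw [filter_or, card_union_of_disjoint]
    · rfl
    · rw [disjoint_filter]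
      intro x _ h1 h2
      rw [h1] at h2
      cases h2
  cases hv : ty v <;> rw [hv] at h <;> simp only [rule] at h <;> rw [filter_congr h] <;>
    first | exact two | rfl

/-- The sum of a test function over all subsets of `U`. -/
def tot (ty : V → Lt) (tg : V → ℕ) (Q : Finset (Sym2 V)) (U : Finset V) (Ψ : TF) : ℕ :=
  ∑ K ∈ U.powerset, Ψ (cn ty .a K) (cn ty .c K) (cn ty .a K + cn ty .b K)
    (cn ty .c K + cn ty .d K) (ein Q K + ∑ v ∈ K, tg v)

/-- The number of inner neighbours in `U`. -/
def dg (ty : V → Lt) (Q : Finset (Sym2 V)) (U : Finset V) (x : V) : ℕ :=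
  (U.filter fun u => (ty u = .c ∨ ty u = .d) ∧ s(u, x) ∈ Q).card

/-- The word `w` describes the graph on `U`. -/
def Desc (ty : V → Lt) (tg : V → ℕ) (Q : Finset (Sym2 V)) (U : Finset V) (w : List (Lt × ℕ)) :
    Prop :=
  (∀ l, (w.map Prod.fst).count l = cn ty l U) ∧ wedges (w.map Prod.fst) = ein Q U ∧
    (∀ Ψ, tot ty tg Q U Ψ = ev w Ψ) ∧
    (w : Multiset (Lt × ℕ)) = U.val.map (fun v => (ty v, tg v)) ∧
    wn1 (w.map Prod.fst) = (∑ x ∈ U, if ty x = .a then min 1 (dg ty Q U x) else 0) ∧
    wex (w.map Prod.fst) = ∑ x ∈ U, if ty x = .a ∨ ty x = .b then dg ty Q U x - 1 else 0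

theorem desc_nil (ty : V → Lt) (tg : V → ℕ) (Q : Finset (Sym2 V)) : Desc ty tg Q ∅ [] := by
  have : ein Q ∅ = 0 := by simp [ein, inner]
  refine ⟨fun l => by simp [cn], by simp [wedges, this], fun Ψ => by simp [tot, ev, cn, this],
    by simp, by simp [wn1], by simp [wex]⟩

theorem desc_cons (ty : V → Lt) (tg : V → ℕ) (Q : Finset (Sym2 V)) (U : Finset V) (v : V)
    (hv : v ∉ U) (h : ∀ u ∈ U, s(v, u) ∈ Q ↔ rule (ty v) (ty u)) (w : List (Lt × ℕ))
    (hw : Desc ty tg Q U w) : Desc ty tg Q (insert v U) ((ty v, tg v) :: w) := by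
  obtain ⟨h1, h2, h3, h4, h5, h6⟩ := hw
  have d1 : ∀ x, dg ty Q (insert v U) x =
      dg ty Q U x + if (ty v = .c ∨ ty v = .d) ∧ s(v, x) ∈ Q then 1 else 0 := by
    intro x
    unfold dg
    rw [filter_insert]
    split_ifs
    · rw [card_insert_of_notMem fun h => hv (mem_filter.1 h).1]
    · rfl
  have d2 : ty v = .a ∨ ty v = .b → dg ty Q U v = cn ty .c U := by
    intro e
    unfold dg cn
    congr 1
    refine filter_congr fun u hu => ?_
    rw [Sym2.eq_swap, h u hu]
    rcases e with e | e <;> rw [e] <;> cases ty u <;> simp [rule]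
  have d3 : ty v = .c ∨ ty v = .d → (∑ x ∈ U, if ty x = .a then min 1 (dg ty Q (insert v U) x)
      else 0) = cn ty .a U ∧ (∑ x ∈ U, if ty x = .a ∨ ty x = .b then dg ty Q (insert v U) x - 1
      else 0) = wex (w.map Prod.fst) + wn1 (w.map Prod.fst) := by
    intro e
    have h' : ∀ u ∈ U, s(v, u) ∈ Q ↔ ty u = .a := fun u hu => by
      rw [h u hu]
      rcases e with e | e <;> rw [e] <;> rfl
    rw [h5, h6, ← sum_add_distrib, cn, card_filter]
    constructor <;>
    · refine sum_congr rfl fun x hx => ?_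
      rw [d1]
      simp only [e, h' x hx, true_and]
      cases ty x <;> simp <;> omega
  refine ⟨fun l => ?_, ?_, fun Ψ => ?_, ?_, ?_, ?_⟩
  · rw [List.map_cons, List.count_cons, cn_insert ty l U v hv, h1]
    simp
  · rw [List.map_cons, wedges, ein_insert Q U v hv, card_rule ty Q U v h, h1, h1, h2]
  · rw [ev, ← h3, tot, tot, sum_powerset_insert hv, ← sum_add_distrib]
    refine sum_congr rfl fun K hK => ?_
    have hKU := mem_powerset.1 hK
    have hvK : v ∉ K := fun e => hv (hKU e)
    rw [ein_insert Q K v hvK, card_rule ty Q K v fun u hu => h u (hKU hu), sum_insert hvK]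
    simp only [cn_insert ty _ K v hvK]
    cases ty v <;> simp [tr, cost, add_assoc, add_comm, add_left_comm]
  · rw [insert_val_of_notMem hv, Multiset.map_cons, ← h4, Multiset.cons_coe]
  · rw [sum_insert hv, List.map_cons]
    cases e : ty v
    · simp [wn1, d1, e, d2 (Or.inl e), h1, h5, add_comm]
    · simp [wn1, d1, e, h5]
    · simp [wn1, (d3 (Or.inl e)).1, h1]
    · simp [wn1, (d3 (Or.inr e)).1, h1]
  · rw [sum_insert hv, List.map_cons]
    cases e : ty v
    · simp [wex, d1, e, d2 (Or.inl e), h1, h6, add_comm]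
    · simp [wex, d1, e, d2 (Or.inr e), h1, h6, add_comm]
    · simp [wex, (d3 (Or.inl e)).2]
    · simp [wex, (d3 (Or.inr e)).2]

theorem exists_word (ty : V → Lt) (tg : V → ℕ) (Q : Finset (Sym2 V)) (r : V → ℕ)
    (hr : Function.Injective r)
    (H1 : ∀ u v, u ≠ v → ty u = .a → ty v = .a ∨ ty v = .c → s(u, v) ∈ Q)
    (H2 : ∀ u v, ty u = .b → ty v = .b ∨ ty v = .d → s(u, v) ∉ Q)
    (H3 : ∀ u v, ty u = .c ∨ ty u = .d → ty v = .c ∨ ty v = .d → s(u, v) ∉ Q)
    (H4 : ∀ i j, ty i = ty j → ty i = .a ∨ ty i = .b → r i < r j → ∀ x, x ≠ i → s(j, x) ∈ Q →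
      s(i, x) ∈ Q) (n : ℕ) :
    ∀ U : Finset V, U.card = n → (∀ v ∈ U, ty v = .b ∨ ty v = .d → ∃ u ∈ U, s(v, u) ∈ Q) →
      ∃ w : List (Lt × ℕ), valid (w.map Prod.fst) ∧ Desc ty tg Q U w ∧
        ((∃ v ∈ U, ty v = .b ∧ ∀ u ∈ U, ty u = .a ∨ ty u = .c → s(v, u) ∈ Q) ↔
          (w.map Prod.fst).head? = some .b) ∧
        ((w.map Prod.fst).head? = some .c →
          ∃ v ∈ U, ty v = .c ∧ ∀ u ∈ U, ty u = .b → s(u, v) ∉ Q) := by
  induction n with
  | zero =>
    intro U hU _
    rw [card_eq_zero] at hU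
    subst hU
    exact ⟨[], trivial, desc_nil ty tg Q, by simp, by simp⟩
  | succ n ih =>
    intro U hU H6
    have four : ∀ x, ty x = .a ∨ ty x = .b ∨ ty x = .c ∨ ty x = .d := fun x => by
      cases ty x <;> simp
    have sw : ∀ x y : V, s(x, y) ∈ Q ↔ s(y, x) ∈ Q := fun x y => by rw [Sym2.eq_swap]
    have hc : ∀ v ∈ U, (U.erase v).card = n := fun v hv => by rw [card_erase_of_mem hv, hU]; rfl
    by_cases pB : ∃ v ∈ U, ty v = .b ∧ ∀ u ∈ U, ty u = .a ∨ ty u = .c → s(v, u) ∈ Q
    · obtain ⟨v, hv, tv, hadj⟩ := pB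
      obtain ⟨w, w1, w2, -, -⟩ := ih (U.erase v) (hc v hv) (by
        intro x hx tx
        obtain ⟨u, hu, hxu⟩ := H6 x (mem_of_mem_erase hx) tx
        refine ⟨u, mem_erase.2 ⟨?_, hu⟩, hxu⟩
        rintro rfl
        exact H2 u x tv tx ((sw _ _).1 hxu))
      have hD := desc_cons ty tg Q (U.erase v) v (notMem_erase v U) (by
        intro u hu
        rw [tv]
        refine ⟨fun h => ?_, hadj u (mem_of_mem_erase hu)⟩
        have := H2 v u tv
        have := four u
        simp only [rule]
        tauto) w w2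
      rw [insert_erase hv, tv] at hD
      refine ⟨(.b, tg v) :: w, ⟨w1, ?_⟩, hD, by simpa using ⟨v, hv, tv, hadj⟩, by simp⟩
      obtain ⟨u, hu, hvu⟩ := H6 v hv (Or.inl tv)
      have h1 := H2 v u tv
      have h2 := four u
      have hne : u ≠ v := by
        rintro rfl
        tauto
      have h3 : ∀ l, ty u = l → 1 ≤ (w.map Prod.fst).count l := fun l hl => by
        rw [w2.1]
        exact card_pos.2 ⟨u, mem_filter.2 ⟨mem_erase.2 ⟨hne, hu⟩, hl⟩⟩
      have h4 := h3 .a
      have h5 := h3 .c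
      simp only [mayAdd]
      rcases h2 with h | h | h | h
      · have := h4 h
        omega
      · tauto
      · have := h5 h
        omega
      · tauto
    by_cases pC : ∃ v ∈ U, ty v = .c ∧ ∀ u ∈ U, ty u = .b → s(u, v) ∉ Q
    · obtain ⟨v, hv, tv, hadj⟩ := pC
      obtain ⟨w, w1, w2, -, -⟩ := ih (U.erase v) (hc v hv) (by
        intro x hx tx
        obtain ⟨u, hu, hxu⟩ := H6 x (mem_of_mem_erase hx) tx
        refine ⟨u, mem_erase.2 ⟨?_, hu⟩, hxu⟩
        rintro rfl
        rcases tx with tx | tx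
        · exact hadj x (mem_of_mem_erase hx) tx hxu
        · exact H3 x u (Or.inr tx) (Or.inl tv) hxu)
      have hD := desc_cons ty tg Q (U.erase v) v (notMem_erase v U) (by
        intro u hu
        rw [tv]
        have h1 := H3 v u (Or.inl tv)
        have h2 := hadj u (mem_of_mem_erase hu)
        have h3 := H1 u v (ne_of_mem_erase hu)
        have h4 := four u
        rw [sw] at h2 h3
        simp only [rule]
        tauto) w w2
      rw [insert_erase hv, tv] at hD
      exact ⟨(.c, tg v) :: w, ⟨w1, trivial⟩, hD, by simpa using pB, fun _ => ⟨v, hv, tv, hadj⟩⟩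
    by_cases pD : ∃ v ∈ U, ty v = .d ∧ ∀ u ∈ U, ty u = .a → s(v, u) ∈ Q
    · obtain ⟨v, hv, tv, hadj⟩ := pD
      obtain ⟨w, w1, w2, w3, w4⟩ := ih (U.erase v) (hc v hv) (by
        intro x hx tx
        obtain ⟨u, hu, hxu⟩ := H6 x (mem_of_mem_erase hx) tx
        refine ⟨u, mem_erase.2 ⟨?_, hu⟩, hxu⟩
        rintro rfl
        rcases tx with tx | tx
        · exact H2 x u tx (Or.inr tv) hxu
        · exact H3 x u (Or.inr tx) (Or.inr tv) hxu)
      have hD := desc_cons ty tg Q (U.erase v) v (notMem_erase v U) (by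
        intro u hu
        rw [tv]
        refine ⟨fun h => ?_, hadj u (mem_of_mem_erase hu)⟩
        have h1 := H3 v u (Or.inr tv)
        have h2 := H2 u v
        have h4 := four u
        rw [sw] at h2
        simp only [rule]
        tauto) w w2
      rw [insert_erase hv, tv] at hD
      refine ⟨(.d, tg v) :: w, ⟨w1, ?_⟩, hD, by simpa using pB, by simp⟩
      have hb : (w.map Prod.fst).head? ≠ some .b := fun e => by
        obtain ⟨x, hx, tx, hx2⟩ := w3.2 e
        refine pB ⟨x, mem_of_mem_erase hx, tx, fun u hu tu => hx2 u (mem_erase.2 ⟨?_, hu⟩) tu⟩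
        rintro rfl
        rw [tv] at tu
        simp at tu
      have hcc : (w.map Prod.fst).head? ≠ some .c := fun e => by
        obtain ⟨x, hx, tx, hx2⟩ := w4 e
        refine pC ⟨x, mem_of_mem_erase hx, tx, fun u hu tu => hx2 u (mem_erase.2 ⟨?_, hu⟩) tu⟩
        rintro rfl
        rw [tv] at tu
        simp at tu
      obtain ⟨u, hu, hvu⟩ := H6 v hv (Or.inr tv)
      have hne : u ≠ v := by
        rintro rfl
        exact H3 u u (Or.inr tv) (Or.inr tv) hvu
      have h3 : 1 ≤ (w.map Prod.fst).count (ty u) := by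
        rw [w2.1]
        exact card_pos.2 ⟨u, mem_filter.2 ⟨mem_erase.2 ⟨hne, hu⟩, rfl⟩⟩
      simp only [mayAdd]
      generalize w.map Prod.fst = w' at h3 hb hcc
      cases w' with
      | nil => simp at h3
      | cons l w' => cases l <;> simp_all
    · have hb0 : ∀ x ∈ U, ty x = .b → (∀ u ∈ U, ty u = .a → s(x, u) ∈ Q) → False := by
        intro x hx tx hxa
        obtain ⟨b0, hb0, hmin⟩ := exists_min_image (U.filter fun y => ty y = .b) r
          ⟨x, mem_filter.2 ⟨hx, tx⟩⟩
        obtain ⟨hb1, hb2⟩ := mem_filter.1 hb0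
        have down : ∀ y ∈ U, ty y = .b → ∀ u, ty u = .a ∨ ty u = .c → s(y, u) ∈ Q →
            s(b0, u) ∈ Q := by
          intro y hy tyy u tu hyu
          rcases (hmin y (mem_filter.2 ⟨hy, tyy⟩)).eq_or_lt with e | e
          · exact hr e ▸ hyu
          · refine H4 b0 y (by rw [hb2, tyy]) (Or.inr hb2) e u ?_ hyu
            rintro rfl
            rw [hb2] at tu
            simp at tu
        refine pB ⟨b0, hb1, hb2, fun u hu tu => ?_⟩
        rcases tu with tu | tu
        · exact down x hx tx u (Or.inl tu) (hxa u hu tu)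
        · by_contra hcon
          exact pC ⟨u, hu, tu, fun y hy tyy h => hcon (down y hy tyy u (Or.inr tu) h)⟩
      have hA : (U.filter fun y => ty y = .a).Nonempty := by
        by_contra hA
        rw [not_nonempty_iff_eq_empty, filter_eq_empty_iff] at hA
        obtain ⟨x, hx⟩ : U.Nonempty := card_pos.1 (by omega)
        rcases four x with h | h | h | h
        · exact hA hx h
        · exact hb0 x hx h fun u hu tu => absurd tu (hA hu)
        · exact pC ⟨x, hx, h, fun y hy tyy _ => hb0 y hy tyy fun u hu tu => absurd tu (hA hu)⟩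
        · exact pD ⟨x, hx, h, fun u hu tu => absurd tu (hA hu)⟩
      obtain ⟨v, hv', hmax⟩ := exists_max_image _ r hA
      obtain ⟨hv, tv⟩ := mem_filter.1 hv'
      have hno : ∀ x ∈ U, ty x = .b ∨ ty x = .d → s(x, v) ∉ Q := by
        intro x hx tx hxv
        have hall : ∀ u ∈ U, ty u = .a → s(x, u) ∈ Q := by
          intro u hu tu
          rcases (hmax u (mem_filter.2 ⟨hu, tu⟩)).eq_or_lt with e | e
          · exact hr e ▸ hxv
          · rw [sw] at hxv ⊢
            refine H4 u v (by rw [tu, tv]) (Or.inl tu) e x ?_ hxv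
            rintro rfl
            rw [tu] at tx
            simp at tx
        rcases tx with tx | tx
        · exact hb0 x hx tx hall
        · exact pD ⟨x, hx, tx, hall⟩
      obtain ⟨w, w1, w2, w3, w4⟩ := ih (U.erase v) (hc v hv) (by
        intro x hx tx
        obtain ⟨u, hu, hxu⟩ := H6 x (mem_of_mem_erase hx) tx
        refine ⟨u, mem_erase.2 ⟨?_, hu⟩, hxu⟩
        rintro rfl
        exact hno x (mem_of_mem_erase hx) tx hxu)
      have hD := desc_cons ty tg Q (U.erase v) v (notMem_erase v U) (by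
        intro u hu
        rw [tv]
        refine ⟨fun h => ?_, H1 v u (ne_of_mem_erase hu).symm tv⟩
        have h1 := hno u (mem_of_mem_erase hu)
        have h4 := four u
        rw [sw] at h1
        simp only [rule]
        tauto) w w2
      rw [insert_erase hv, tv] at hD
      refine ⟨(.a, tg v) :: w, ⟨w1, fun e => ?_⟩, hD, by simpa using pB, by simp⟩
      obtain ⟨x, hx, tx, hx2⟩ := w4 e
      refine pC ⟨x, mem_of_mem_erase hx, tx, fun u hu tu => hx2 u (mem_erase.2 ⟨?_, hu⟩) tu⟩
      rintro rfl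
      rw [tv] at tu
      simp at tu

end Pool.Agent.Lib.MP_1024aa_co.Stat
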