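import Mathlib
import Pool.Agent.Lib.MP_1024aa_co.Word

/-!
The static bound: a sum of convex weights over all `k`-sets is at most the value of a word in
normal form.
-/

set_option autoImplicit false

open Finset

namespace Pool.Agent.Lib.MP_1024aa_co.Stat

/-- Weights by the number of centres, the number of centres in `Z`, the number of vertices in
`Z` and the number of edges. -/
def wsel (φ : ℕ → ℕ → ℕ) (ψ : ℕ → ℕ → ℕ → ℕ) : ℕ → ℕ → ℕ → ℕ → ℕ
  | 0, _, z, x => φ z x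
  | 1, t, z, x => ψ t z x
  | _ + 2, _, _, _ => 0

/-- The conditions on the weights. -/
structure WOk (φ : ℕ → ℕ → ℕ) (ψ : ℕ → ℕ → ℕ → ℕ) : Prop where
  cφ : ∀ z x, 2 * φ z (x + 1) ≤ φ z x + φ z (x + 2)
  cψ : ∀ t z x, 2 * ψ t z (x + 1) ≤ ψ t z x + ψ t z (x + 2)
  mψ : ∀ t z x, ψ t z x ≤ ψ t z (x + 1)
  inc : ∀ t z x, ψ t z (x + 1) + φ z x ≤ φ z (x + 1) + ψ t z x
  bas : ∀ t z, ψ t z 0 ≤ φ z 0

theorem WOk.le {φ : ℕ → ℕ → ℕ} {ψ : ℕ → ℕ → ℕ → ℕ} (h : WOk φ ψ) (t z x : ℕ) :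
    ψ t z x ≤ φ z x := by
  induction x with
  | zero => exact h.bas t z
  | succ x ih =>
    have := h.inc t z x
    omega

theorem WOk.mono {φ : ℕ → ℕ → ℕ} {ψ : ℕ → ℕ → ℕ → ℕ} (h : WOk φ ψ) (a t z : ℕ) :
    Monotone (wsel φ ψ a t z) := by
  refine monotone_nat_of_le_succ fun x => ?_
  match a with
  | 0 =>
    have := h.inc t z x
    have := h.mψ t z x
    simp only [wsel]
    omega
  | 1 => exact h.mψ t z x
  | _ + 2 => exact le_rfl

/-- One more isolated outer vertex. -/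
def isoO (Ψ : TF) : TF := fun s c o z x => Ψ s c o z x + Ψ s c (o + 1) z x

/-- One more isolated inner vertex, with tag `g`. -/
def isoZ (g : ℕ) (Ψ : TF) : TF := fun s c o z x => Ψ s c o z x + Ψ s c o (z + 1) (x + g)

/-- The test function of the weights, with `c0` centres outside `Z` and `c1` centres in `Z`. -/
def base (k c0 c1 : ℕ) (φ : ℕ → ℕ → ℕ) (ψ : ℕ → ℕ → ℕ → ℕ) : TF := fun _ _ o z x =>
  (if o + z = k then φ z x else 0) +
    if o + z + 1 = k then c0 * ψ 0 z x + c1 * ψ 1 (z + 1) x else 0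

/-- The same, with the number of marked vertices read off the last argument. -/
def baseM (k c0 c1 Kx : ℕ) (φ : ℕ → ℕ → ℕ → ℕ) (ψ : ℕ → ℕ → ℕ → ℕ → ℕ) : TF := fun s c o z x =>
  base k c0 c1 (φ (x / Kx)) (ψ (x / Kx)) s c o z (x % Kx)

/-- The conditions on weights that also depend on the number of marked vertices. -/
structure WOkM (φ : ℕ → ℕ → ℕ → ℕ) (ψ : ℕ → ℕ → ℕ → ℕ → ℕ) : Prop where
  ok : ∀ j, WOk (φ j) (ψ j)
  iφ : ∀ j z x, φ j z (x + 1) + φ (j + 1) z x ≤ φ (j + 1) z (x + 1) + φ j z x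
  iψ : ∀ j t z x, ψ j t z (x + 1) + ψ (j + 1) t z x ≤ ψ (j + 1) t z (x + 1) + ψ j t z x

theorem tr_mono (l : Lt) (g : ℕ) {Ψ Ψ' : TF} (h : Ψ ≤ Ψ') : tr l g Ψ ≤ tr l g Ψ' := by
  intro s c o z x
  cases l <;> exact add_le_add (h _ _ _ _ _) (h _ _ _ _ _)

theorem ev_mono (w : List (Lt × ℕ)) : ∀ {Ψ Ψ' : TF}, Ψ ≤ Ψ' → ev w Ψ ≤ ev w Ψ' := by
  induction w with
  | nil => exact fun h => h 0 0 0 0 0
  | cons l w ih => exact fun h => ih (tr_mono l.1 l.2 h)

theorem isoO_mono : Monotone isoO := fun _ _ h _ _ _ _ _ =>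
  add_le_add (h _ _ _ _ _) (h _ _ _ _ _)

theorem isoZ_mono (g : ℕ) : Monotone (isoZ g) := fun _ _ h _ _ _ _ _ =>
  add_le_add (h _ _ _ _ _) (h _ _ _ _ _)

theorem iso_le (g : ℕ) {Ψ Ψ' : TF} (h : Ψ ≤ Ψ') {i i' j j' l l' : ℕ} (hi : i ≤ i') (hj : j ≤ j')
    (hl : l ≤ l') : isoO^[i] ((isoZ 0)^[j] ((isoZ g)^[l] Ψ)) ≤
      isoO^[i'] ((isoZ 0)^[j'] ((isoZ g)^[l'] Ψ')) :=
  (isoO_mono.iterate i (((isoZ_mono 0).iterate j (((isoZ_mono g).iterate l h).trans
    ((isoZ_mono g).monotone_iterate_of_le_map (fun _ _ _ _ _ => Nat.le_add_right _ _) hl))).trans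
    ((isoZ_mono 0).monotone_iterate_of_le_map (fun _ _ _ _ _ => Nat.le_add_right _ _) hj))).trans
    (isoO_mono.monotone_iterate_of_le_map (fun _ _ _ _ _ => Nat.le_add_right _ _) hi)

variable {V : Type*} [DecidableEq V]

/-- The weight of a vertex set `K` with `x` edges. -/
def SPhi (k : ℕ) (Z C M : Finset V) (φ : ℕ → ℕ → ℕ → ℕ) (ψ : ℕ → ℕ → ℕ → ℕ → ℕ) (K : Finset V)
    (x : ℕ) : ℕ :=
  if K.card = k then wsel (φ (K ∩ M).card) (ψ (K ∩ M).card) (K ∩ C).card (K ∩ (C ∩ Z)).card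
    (K ∩ Z).card x else 0

theorem card_tv_inter (i j : V) (K S : Finset V) (h : i ∈ S ↔ j ∈ S) :
    (tv i j K ∩ S).card = (K ∩ S).card := by
  have : tv i j K ∩ S = tv i j (K ∩ S) := by
    ext x
    simp only [mem_inter, mem_tv, Equiv.swap_apply_def]
    split_ifs <;> grind
  rw [this, tv, card_map]

theorem card_tv_inter' (i j : V) (K S : Finset V) (h1 : i ∉ S) (h2 : j ∈ S) (h3 : i ∈ K)
    (h4 : j ∉ K) : (tv i j K ∩ S).card = (K ∩ S).card + 1 := by
  have : tv i j K ∩ S = insert j (K ∩ S) := by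
    ext x
    simp only [mem_inter, mem_tv, mem_insert, Equiv.swap_apply_def]
    split_ifs <;> grind
  rw [this, card_insert_of_notMem fun h => h4 (mem_inter.1 h).1]

theorem card_tv_inter2 (i j : V) (K S : Finset V) (h1 : i ∈ S) (h2 : j ∉ S) (h3 : i ∈ K)
    (h4 : j ∉ K) : (K ∩ S).card = (tv i j K ∩ S).card + 1 := by
  have : K ∩ S = insert i (tv i j K ∩ S) := by
    ext x
    simp only [mem_inter, mem_tv, mem_insert, Equiv.swap_apply_def]
    split_ifs <;> grind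
  rw [this, card_insert_of_notMem (by simp [mem_tv, h4])]

theorem allowed_SPhi (k : ℕ) (Z C M : Finset V) {φ : ℕ → ℕ → ℕ → ℕ} {ψ : ℕ → ℕ → ℕ → ℕ → ℕ}
    (h : WOkM φ ψ) (i j : V) (hZ : i ∈ Z ↔ j ∈ Z) (hC : i ∈ C → j ∈ C) (hM : j ∈ M → i ∈ M) :
    Allowed (SPhi k Z C M φ ψ) i j := by
  intro K hi hj
  have e1 : (tv i j K).card = K.card := by rw [tv, card_map]
  have e2 := card_tv_inter i j K Z hZ
  unfold SPhi
  rw [e1, e2]
  by_cases hk : K.card = k
  · simp only [hk, if_true]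
    constructor
    · intro m
      match (tv i j K ∩ C).card with
      | 0 => exact (h.ok _).cφ _ _
      | 1 => exact (h.ok _).cψ _ _ _
      | _ + 2 => simp [wsel]
    · intro m
      have s1 : ∀ a n t z, wsel (φ a) (ψ a) n t z (m + 1) + wsel (φ (a + 1)) (ψ (a + 1)) n t z m ≤
          wsel (φ (a + 1)) (ψ (a + 1)) n t z (m + 1) + wsel (φ a) (ψ a) n t z m := by
        intro a n t z
        match n with
        | 0 => exact h.iφ _ _ _
        | 1 => exact h.iψ _ _ _ _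
        | _ + 2 => simp [wsel]
      have s2 : ∀ a n t t' z, wsel (φ a) (ψ a) (n + 1) t' z (m + 1) + wsel (φ a) (ψ a) n t z m ≤
          wsel (φ a) (ψ a) n t z (m + 1) + wsel (φ a) (ψ a) (n + 1) t' z m := by
        intro a n t t' z
        match n with
        | 0 => exact (h.ok _).inc _ _ _
        | 1 => simpa [wsel] using (h.ok _).mψ _ _ _
        | _ + 2 => simp [wsel]
      by_cases hc : i ∈ C ↔ j ∈ C <;> by_cases hm : i ∈ M ↔ j ∈ M
      · rw [card_tv_inter i j K C hc, card_tv_inter i j K (C ∩ Z) (by simp [hc, hZ]),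
          card_tv_inter i j K M hm, add_comm, add_comm]
      · rw [card_tv_inter i j K C hc, card_tv_inter i j K (C ∩ Z) (by simp [hc, hZ]),
          card_tv_inter2 i j K M (by tauto) (by tauto) hi hj]
        exact s1 _ _ _ _
      · rw [card_tv_inter' i j K C (by tauto) (by tauto) hi hj, card_tv_inter i j K M hm]
        exact s2 _ _ _ _ _
      · rw [card_tv_inter' i j K C (by tauto) (by tauto) hi hj,
          card_tv_inter2 i j K M (by tauto) (by tauto) hi hj]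
        have a1 := s1 (tv i j K ∩ M).card (K ∩ C).card (K ∩ (C ∩ Z)).card (K ∩ Z).card
        have a2 := s2 (tv i j K ∩ M).card (K ∩ C).card (K ∩ (C ∩ Z)).card
          (tv i j K ∩ (C ∩ Z)).card (K ∩ Z).card
        omega
  · simp [hk]

theorem tot_iso (ty : V → Lt) (tg : V → ℕ) (Q : Finset (Sym2 V)) (l : Lt) (g : ℕ) (f : TF → TF)
    (hl : (l = .b ∧ g = 0 ∧ f = isoO) ∨ (l = .d ∧ f = isoZ g)) (I : Finset V) :
    ∀ U : Finset V, Disjoint I U → (∀ v ∈ I, ty v = l ∧ tg v = g ∧ ∀ u, s(v, u) ∉ Q) →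
      ∀ Ψ, tot ty tg Q (I ∪ U) Ψ = tot ty tg Q U (f^[I.card] Ψ) := by
  induction I using Finset.induction_on with
  | empty => simp
  | insert v I hv ih =>
    intro U hU hI Ψ
    rw [disjoint_insert_left] at hU
    have hvU : v ∉ I ∪ U := by simp [hv, hU.1]
    obtain ⟨h1, h3, h2⟩ := hI v (mem_insert_self _ _)
    rw [card_insert_of_notMem hv, Function.iterate_succ_apply,
      ← ih U hU.2 fun x hx => hI x (mem_insert_of_mem hx), insert_union, tot, tot,
      sum_powerset_insert hvU, ← sum_add_distrib]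
    refine sum_congr rfl fun K hK => ?_
    have hvK : v ∉ K := fun e => hvU (mem_powerset.1 hK e)
    rw [ein_insert Q K v hvK, sum_insert hvK]
    simp only [cn_insert ty _ K v hvK, h1, h3]
    rcases hl with ⟨rfl, rfl, rfl⟩ | ⟨rfl, rfl⟩ <;>
      simp [isoO, isoZ, h2, add_assoc, add_comm, add_left_comm]

end Pool.Agent.Lib.MP_1024aa_co.Stat
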