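import Mathlib
import Pool.Agent.Lib.MP_1024aa_co.Static

/-!
The static bound for a shifted graph, and then for every graph.
-/

set_option autoImplicit false

open Finset

namespace Pool.Agent.Lib.MP_1024aa_co.Stat

variable {V : Type*} [DecidableEq V]

theorem sum_one_centre (W J : Finset V) : ∀ f : Finset V → ℕ, Disjoint J W →
    (∀ K : Finset V, ∀ x ∈ J, ∀ y ∈ J, x ≠ y → x ∈ K → y ∈ K → f K = 0) →
    ∑ K ∈ (J ∪ W).powerset, f K ≤ ∑ K ∈ W.powerset, (f K + ∑ j ∈ J, f (insert j K)) := by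
  induction J using Finset.induction_on with
  | empty => simp
  | insert v J hv ih =>
    intro f hW hf
    rw [disjoint_insert_left] at hW
    have hvU : v ∉ J ∪ W := by simp [hv, hW.1]
    rw [insert_union, sum_powerset_insert hvU]
    have h1 := ih f hW.2 fun K x hx y hy =>
      hf K x (mem_insert_of_mem hx) y (mem_insert_of_mem hy)
    have h2 := ih (fun K => f (insert v K)) hW.2 fun K x hx y hy hxy h3 h4 =>
      hf _ x (mem_insert_of_mem hx) y (mem_insert_of_mem hy) hxy (mem_insert_of_mem h3)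
        (mem_insert_of_mem h4)
    refine (add_le_add h1 h2).trans (le_of_eq ?_)
    rw [← sum_add_distrib]
    refine sum_congr rfl fun K _ => ?_
    have h3 : ∑ j ∈ J, f (insert v (insert j K)) = 0 := sum_eq_zero fun j hj =>
      hf _ v (mem_insert_self _ _) j (mem_insert_of_mem hj) (fun e => hv (e ▸ hj))
        (mem_insert_self _ _) (mem_insert_of_mem (mem_insert_self _ _))
    rw [sum_insert hv, h3]
    omega

theorem SPhi_le (k : ℕ) (Z C M : Finset V) {φ : ℕ → ℕ → ℕ → ℕ} {ψ : ℕ → ℕ → ℕ → ℕ → ℕ}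
    (h : WOkM φ ψ) (K : Finset V) (x : ℕ) :
    SPhi k Z C M φ ψ K x ≤ if K.card = k then φ (K ∩ M).card (K ∩ Z).card x else 0 := by
  unfold SPhi
  split_ifs
  · match (K ∩ C).card with
    | 0 => exact le_rfl
    | 1 => exact (h.ok _).le _ _ _
    | _ + 2 => exact Nat.zero_le _
  · exact le_rfl

theorem SPhi_two (k : ℕ) (Z C M : Finset V) (φ : ℕ → ℕ → ℕ → ℕ) (ψ : ℕ → ℕ → ℕ → ℕ → ℕ)
    (K : Finset V) (x : ℕ) (h : 2 ≤ (K ∩ C).card) : SPhi k Z C M φ ψ K x = 0 := by
  obtain ⟨a, ha⟩ := Nat.exists_eq_add_of_le' h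
  unfold SPhi
  rw [ha]
  simp [wsel]

theorem SPhi_centre (k : ℕ) (Z C M : Finset V) (φ : ℕ → ℕ → ℕ → ℕ) (ψ : ℕ → ℕ → ℕ → ℕ → ℕ)
    (K : Finset V) (x : ℕ) (j : V) (hj : j ∈ C) (hM : j ∉ M) (hK : j ∉ K) :
    SPhi k Z C M φ ψ (insert j K) x ≤ if K.card + 1 = k then
      (if j ∈ Z then ψ (K ∩ M).card 1 ((K ∩ Z).card + 1) x
        else ψ (K ∩ M).card 0 (K ∩ Z).card x) else 0 := by
  have e1 : (insert j K ∩ C).card = (K ∩ C).card + 1 := by
    rw [insert_inter_of_mem hj, card_insert_of_notMem fun h => hK (mem_inter.1 h).1]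
  by_cases h0 : (K ∩ C).card = 0
  · have e2 : K ∩ (C ∩ Z) = ∅ := by rw [← inter_assoc, card_eq_zero.1 h0, empty_inter]
    unfold SPhi
    rw [e1, h0, card_insert_of_notMem hK, insert_inter_of_notMem hM]
    split_ifs with a b
    · rw [insert_inter_of_mem (mem_inter.2 ⟨hj, b⟩), insert_inter_of_mem b, e2,
        card_insert_of_notMem fun h : j ∈ K ∩ Z => hK (mem_inter.1 h).1]
      exact le_rfl
    · rw [insert_inter_of_notMem (fun h => b (mem_inter.1 h).2), insert_inter_of_notMem b, e2]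
      exact le_rfl
    · exact le_rfl
  · rw [SPhi_two k Z C M φ ψ _ x (by omega)]
    exact Nat.zero_le _

/-- Only inner letters have a tag, and it is `Kx`. -/
def tagOk (Kx : ℕ) (w : List (Lt × ℕ)) : Prop :=
  ∀ p ∈ w, p.2 = 0 ∨ (p.2 = Kx ∧ (p.1 = .c ∨ p.1 = .d))

/-- The number of letters with a tag. -/
def nmk (w : List (Lt × ℕ)) : ℕ := w.countP fun p => p.2 ≠ 0

/-- The number of outer letters. -/
def nO' (w : List (Lt × ℕ)) : ℕ := (w.map Prod.fst).count .a + (w.map Prod.fst).count .b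

/-- The number of inner letters. -/
def nZ' (w : List (Lt × ℕ)) : ℕ := (w.map Prod.fst).count .c + (w.map Prod.fst).count .d

variable [Fintype V]

theorem shifted_word (k Kx : ℕ) (Z C M : Finset V) (hMZ : M ⊆ Z) (hMC : Disjoint M C)
    {φ : ℕ → ℕ → ℕ → ℕ} {ψ : ℕ → ℕ → ℕ → ℕ → ℕ} (h : WOkM φ ψ) (r : V → ℕ) (hr : Function.Injective r)
    (hrC : ∀ i j, i ∉ C → j ∈ C → r i < r j) (Q : Finset (Sym2 V)) (hd : ∀ e ∈ Q, ¬ e.IsDiag)
    (hZ : ∀ x ∈ Z, ∀ y ∈ Z, s(x, y) ∉ Q)
    (hs : ∀ i j, (i ∈ Z ↔ j ∈ Z) → r i < r j → ∀ x, x ≠ i → s(j, x) ∈ Q → s(i, x) ∈ Q)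
    (hQ : Q.Nonempty) (hK : Q.card < Kx ∨ k.choose 2 < Kx) :
    ∃ w : List (Lt × ℕ), valid (w.map Prod.fst) ∧ (w.map Prod.fst).head? = some .b ∧
      wedges (w.map Prod.fst) = Q.card ∧ tagOk Kx w ∧ nmk w ≤ M.card ∧ nmk w ≤ nZ' w ∧
      nO' w ≤ Zᶜ.card ∧ nZ' w - nmk w ≤ (Z \ M).card ∧
      wex (w.map Prod.fst) ≤ ∑ x ∈ Zᶜ, (degZ Z Q x - 1) ∧
      ∑ K : Finset V, SPhi k Z C M φ ψ K (ein Q K) ≤
        ev w (isoO^[(Z ∪ C)ᶜ.card - nO' w] ((isoZ 0)^[(Z \ (C ∪ M)).card - (nZ' w - nmk w)]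
          ((isoZ Kx)^[M.card - nmk w] (baseM k (C \ Z).card (C ∩ Z).card Kx φ ψ)))) := by
  classical
  have sw : ∀ x y : V, s(x, y) ∈ Q ↔ s(y, x) ∈ Q := fun x y => by rw [Sym2.eq_swap]
  have ne : ∀ x y : V, s(x, y) ∈ Q → x ≠ y := fun x y e => by simpa using hd _ e
  obtain ⟨fw, hfw⟩ : ∃ fw : V → Prop, ∀ x, fw x ↔ ∃ y, y ∉ Z ∧ r x < r y ∧ s(x, y) ∈ Q :=
    ⟨_, fun _ => Iff.rfl⟩
  obtain ⟨ty, ta, tb, tc, td⟩ : ∃ ty : V → Lt, (∀ x, ty x = .a ↔ x ∉ Z ∧ fw x) ∧
      (∀ x, ty x = .b ↔ x ∉ Z ∧ ¬ fw x) ∧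
      (∀ x, ty x = .c ↔ x ∈ Z ∧ ∃ y, y ∉ Z ∧ ¬ fw y ∧ s(y, x) ∈ Q) ∧
      (∀ x, ty x = .d ↔ x ∈ Z ∧ ¬ ∃ y, y ∉ Z ∧ ¬ fw y ∧ s(y, x) ∈ Q) := by
    refine ⟨fun x => if x ∈ Z then (if ∃ y, y ∉ Z ∧ ¬ fw y ∧ s(y, x) ∈ Q then .c else .d)
      else (if fw x then .a else .b), ?_, ?_, ?_, ?_⟩ <;>
    · intro x
      dsimp only
      split_ifs <;> simp_all
  have ab : ∀ u v, u ∉ Z → fw u → v ∉ Z → ¬ fw v → r u < r v := by
    intro u v hu fu hv fv
    obtain ⟨y, hy, h1, h2⟩ := (hfw u).1 fu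
    rcases lt_trichotomy (r u) (r v) with e | e | e
    · exact e
    · exact absurd (hr e ▸ fu) fv
    · refine absurd ((hfw v).2 ⟨y, hy, e.trans h1, hs v u (by tauto) e y ?_ h2⟩) fv
      rintro rfl
      omega
  have aa : ∀ u v, u ∉ Z → v ∉ Z → fw v → r u < r v → s(u, v) ∈ Q := by
    intro u v hu hv fv e
    obtain ⟨y, hy, h1, h2⟩ := (hfw v).1 fv
    have h3 : s(u, y) ∈ Q := hs u v (by tauto) e y (by rintro rfl; omega) h2
    rw [sw] at h3 ⊢
    exact hs v y (by tauto) h1 u (by rintro rfl; omega) h3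
  set U := univ.filter fun x => ∃ u, s(x, u) ∈ Q with hU
  have mU : ∀ x, x ∈ U ↔ ∃ u, s(x, u) ∈ Q := fun x => by simp [hU]
  obtain ⟨tg, htg⟩ : ∃ tg : V → ℕ, ∀ x, tg x = if x ∈ M then Kx else 0 := ⟨_, fun _ => rfl⟩
  have K0 : 0 < Kx := by omega
  obtain ⟨w, w1, ⟨w2, w3, w4, w6, -, w7⟩, w5, -⟩ := exists_word ty tg Q r hr
    (by
      intro u v huv tu tv
      obtain ⟨hu, fu⟩ := (ta u).1 tu
      rcases tv with tv | tv
      · obtain ⟨hv, fv⟩ := (ta v).1 tv
        rcases lt_trichotomy (r u) (r v) with e | e | e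
        · exact aa u v hu hv fv e
        · exact absurd (hr e) huv
        · exact (sw _ _).1 (aa v u hv hu fu e)
      · obtain ⟨hv, y, hy, fy, e⟩ := (tc v).1 tv
        exact hs u y (by tauto) (ab u y hu fu hy fy) v huv.symm e)
    (by
      intro u v tu tv e
      obtain ⟨hu, fu⟩ := (tb u).1 tu
      rcases tv with tv | tv
      · obtain ⟨hv, fv⟩ := (tb v).1 tv
        rcases lt_trichotomy (r u) (r v) with l | l | l
        · exact fu ((hfw u).2 ⟨v, hv, l, e⟩)
        · exact ne u v e (hr l)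
        · exact fv ((hfw v).2 ⟨u, hu, l, (sw _ _).1 e⟩)
      · exact ((td v).1 tv).2 ⟨u, hu, fu, e⟩)
    (by
      intro u v tu tv
      exact hZ u (tu.elim (fun e => ((tc u).1 e).1) fun e => ((td u).1 e).1) v
        (tv.elim (fun e => ((tc v).1 e).1) fun e => ((td v).1 e).1))
    (by
      intro i j e ti
      have hi : i ∉ Z := ti.elim (fun e => ((ta i).1 e).1) fun e => ((tb i).1 e).1
      rw [e] at ti
      have hj : j ∉ Z := ti.elim (fun e => ((ta j).1 e).1) fun e => ((tb j).1 e).1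
      exact hs i j (by tauto))
    U.card U rfl (by
      intro v hv _
      obtain ⟨u, hu⟩ := (mU v).1 hv
      exact ⟨u, (mU u).2 ⟨v, (sw _ _).1 hu⟩, hu⟩)
  have cO : ∀ K : Finset V, cn ty .a K + cn ty .b K = (K \ Z).card := by
    intro K
    rw [cn, cn, ← card_union_of_disjoint (by
      rw [disjoint_filter]
      intro x _ h1 h2
      rw [h1] at h2
      cases h2), ← filter_or, sdiff_eq_filter]
    congr 1
    refine filter_congr fun x _ => ?_
    rw [ta, tb]
    tauto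
  have cZ : ∀ K : Finset V, cn ty .c K + cn ty .d K = (K ∩ Z).card := by
    intro K
    rw [cn, cn, ← card_union_of_disjoint (by
      rw [disjoint_filter]
      intro x _ h1 h2
      rw [h1] at h2
      cases h2), ← filter_or, ← filter_mem_eq_inter]
    congr 1
    refine filter_congr fun x _ => ?_
    rw [tc, td, ← and_or_left, and_iff_left (em _)]
  have n1 : nO' w = (U \ Z).card := by rw [nO', w2, w2, cO]
  have n2 : nZ' w = (U ∩ Z).card := by rw [nZ', w2, w2, cZ]
  have n3 : nmk w = (U ∩ M).card := by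
    rw [nmk, ← Multiset.coe_countP, w6, Multiset.countP_map, ← filter_val, ← card_def,
      ← filter_mem_eq_inter]
    congr 1
    refine filter_congr fun x _ => ?_
    rw [htg]
    split_ifs <;> simp_all [K0.ne']
  have n4 : nZ' w - nmk w = ((U ∩ Z) \ M).card := by
    rw [n2, n3, ← card_sdiff_add_card_inter (U ∩ Z) M, inter_assoc, inter_eq_right.2 hMZ,
      Nat.add_sub_cancel]
  refine ⟨w, w1, w5.1 ?_, ?_, ?_, ?_, ?_, ?_, ?_, ?_, ?_⟩
  · have hB : (U.filter fun x => ty x = .b).Nonempty := by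
      by_cases hA : (univ.filter fun x => x ∉ Z ∧ fw x).Nonempty
      · obtain ⟨v, hv, hmax⟩ := exists_max_image _ r hA
        obtain ⟨y, hy, h1, h2⟩ := (hfw v).1 (mem_filter.1 hv).2.2
        refine ⟨y, mem_filter.2 ⟨(mU y).2 ⟨v, (sw _ _).1 h2⟩, (tb y).2 ⟨hy, fun fy => ?_⟩⟩⟩
        exact absurd (hmax y (mem_filter.2 ⟨mem_univ _, hy, fy⟩)) (not_le.2 h1)
      · rw [not_nonempty_iff_eq_empty, filter_eq_empty_iff] at hA
        obtain ⟨e, he⟩ := hQ
        induction e using Sym2.ind with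
        | _ x y =>
          by_cases hx : x ∈ Z
          · have hy : y ∉ Z := fun hy => hZ x hx y hy he
            exact ⟨y, mem_filter.2 ⟨(mU y).2 ⟨x, (sw _ _).1 he⟩,
              (tb y).2 ⟨hy, fun fy => hA (mem_univ y) ⟨hy, fy⟩⟩⟩⟩
          · exact ⟨x, mem_filter.2 ⟨(mU x).2 ⟨y, he⟩,
              (tb x).2 ⟨hx, fun fx => hA (mem_univ x) ⟨hx, fx⟩⟩⟩⟩
    obtain ⟨b0, hb0, hmin⟩ := exists_min_image _ r hB
    obtain ⟨hb1, hb2⟩ := mem_filter.1 hb0
    obtain ⟨hb3, hb4⟩ := (tb b0).1 hb2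
    have down : ∀ y, y ∉ Z → ¬ fw y → ∀ u, u ≠ b0 → s(y, u) ∈ Q → s(b0, u) ∈ Q := by
      intro y hy fy u hu e
      rcases (hmin y (mem_filter.2 ⟨(mU y).2 ⟨u, e⟩, (tb y).2 ⟨hy, fy⟩⟩)).eq_or_lt with l | l
      · exact hr l ▸ e
      · exact hs b0 y (by tauto) l u hu e
    refine ⟨b0, hb1, hb2, fun u _ tu => ?_⟩
    rcases tu with tu | tu
    · obtain ⟨hu, fu⟩ := (ta u).1 tu
      obtain ⟨v, hv, hmax⟩ := exists_max_image (univ.filter fun x => x ∉ Z ∧ fw x) r
        ⟨u, mem_filter.2 ⟨mem_univ _, hu, fu⟩⟩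
      obtain ⟨hv1, hv2⟩ := (mem_filter.1 hv).2
      obtain ⟨y, hy, h1, h2⟩ := (hfw v).1 hv2
      have fy : ¬ fw y := fun fy =>
        absurd (hmax y (mem_filter.2 ⟨mem_univ _, hy, fy⟩)) (not_le.2 h1)
      have hub : u ≠ b0 := fun e => hb4 (e ▸ fu)
      refine down y hy fy u hub ?_
      rcases (hmax u (mem_filter.2 ⟨mem_univ _, hu, fu⟩)).eq_or_lt with l | l
      · rw [hr l, sw]
        exact h2
      · rw [sw]
        exact hs u v (by tauto) l y (fun e => fy (e ▸ fu)) h2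
    · obtain ⟨hu, y, hy, fy, e⟩ := (tc u).1 tu
      exact down y hy fy u (fun e => hb3 (e ▸ hu)) e
  · rw [w3, ein, inter_eq_left.2]
    intro e he
    induction e using Sym2.ind with
    | _ x y => exact mem_inner'.2 ⟨(mU x).2 ⟨y, he⟩, (mU y).2 ⟨x, (sw _ _).1 he⟩, ne x y he⟩
  · intro p hp
    have : p ∈ (w : Multiset (Lt × ℕ)) := hp
    rw [w6] at this
    obtain ⟨x, _, rfl⟩ := Multiset.mem_map.1 this
    dsimp only
    rw [htg, tc, td, ← and_or_left, and_iff_left (em _)]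
    split_ifs with e
    · exact Or.inr ⟨rfl, hMZ e⟩
    · exact Or.inl rfl
  · rw [n3]
    exact card_le_card inter_subset_right
  · rw [n2, n3]
    exact card_le_card (inter_subset_inter_left hMZ)
  · rw [n1]
    exact card_le_card fun x hx => mem_compl.2 (mem_sdiff.1 hx).2
  · rw [n4]
    exact card_le_card (sdiff_subset_sdiff inter_subset_right le_rfl)
  · rw [w7, ← sum_filter]
    refine le_trans (sum_le_sum fun x _ => Nat.sub_le_sub_right ?_ 1)
      (sum_le_sum_of_subset (f := fun x => degZ Z Q x - 1) fun x hx => ?_)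
    · refine card_le_card fun u hu => ?_
      obtain ⟨-, b1, b2⟩ := mem_filter.1 hu
      exact mem_filter.2 ⟨b1.elim (fun e => ((tc u).1 e).1) fun e => ((td u).1 e).1,
        (sw _ _).1 b2⟩
    · exact mem_compl.2
        ((mem_filter.1 hx).2.elim (fun e => ((ta x).1 e).1) fun e => ((tb x).1 e).1)
  · rw [n4, n1, n3]
    set J := C \ U with hJ
    set IO := (Z ∪ C)ᶜ \ U with hIO
    set IZ := (Z \ (C ∪ M)) \ U with hIZ
    set IM := M \ U with hIM
    have hcov : (univ : Finset V) = J ∪ (IM ∪ (IZ ∪ (IO ∪ U))) := by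
      ext x
      simp only [hJ, hIO, hIZ, hIM, mem_univ, mem_union, mem_sdiff, mem_compl, true_iff]
      tauto
    have hdis : Disjoint J (IM ∪ (IZ ∪ (IO ∪ U))) := by
      rw [disjoint_left]
      intro x
      have : x ∈ M → x ∉ C := fun e => disjoint_left.1 hMC e
      simp only [hJ, hIO, hIZ, hIM, mem_union, mem_sdiff, mem_compl]
      tauto
    have s1 := sum_one_centre (IM ∪ (IZ ∪ (IO ∪ U))) J (fun K => SPhi k Z C M φ ψ K (ein Q K))
      hdis (by
      intro K x hx y hy hxy h1 h2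
      refine SPhi_two k Z C M φ ψ K _ ?_
      rw [← card_pair hxy]
      refine card_le_card ?_
      rw [insert_subset_iff, singleton_subset_iff]
      exact ⟨mem_inter.2 ⟨h1, (mem_sdiff.1 hx).1⟩, mem_inter.2 ⟨h2, (mem_sdiff.1 hy).1⟩⟩)
    rw [← hcov, powerset_univ] at s1
    refine s1.trans ?_
    have s2 : ∑ K ∈ (IM ∪ (IZ ∪ (IO ∪ U))).powerset, (SPhi k Z C M φ ψ K (ein Q K) +
        ∑ j ∈ J, SPhi k Z C M φ ψ (insert j K) (ein Q (insert j K))) ≤
        tot ty tg Q (IM ∪ (IZ ∪ (IO ∪ U))) (baseM k (C \ Z).card (C ∩ Z).card Kx φ ψ) := by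
      refine sum_le_sum fun K hKK => ?_
      have p1 : ∀ j ∈ J, SPhi k Z C M φ ψ (insert j K) (ein Q (insert j K)) ≤
          if K.card + 1 = k then (if j ∈ Z then ψ (K ∩ M).card 1 ((K ∩ Z).card + 1) (ein Q K)
            else ψ (K ∩ M).card 0 (K ∩ Z).card (ein Q K)) else 0 := by
        intro j hj
        have hjK : j ∉ K := fun e => disjoint_left.1 hdis hj (mem_powerset.1 hKK e)
        have e0 : (K.filter fun u => s(j, u) ∈ Q).card = 0 := by
          rw [card_eq_zero, filter_eq_empty_iff]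
          exact fun u _ e => (mem_sdiff.1 hj).2 ((mU j).2 ⟨u, e⟩)
        rw [ein_insert Q K j hjK, e0, add_zero]
        exact SPhi_centre k Z C M φ ψ K _ j (mem_sdiff.1 hj).1
          (disjoint_right.1 hMC (mem_sdiff.1 hj).1) hjK
      refine (add_le_add (SPhi_le k Z C M h K _) (sum_le_sum p1)).trans ?_
      by_cases hk : K.card ≤ k
      · have p2 : ein Q K < Kx := by
          have b1 : ein Q K ≤ Q.card := card_le_card inter_subset_left
          have b2 : ein Q K ≤ K.card.choose 2 := by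
            rw [← card_inner]
            exact card_le_card inter_subset_right
          have b3 := Nat.choose_le_choose 2 hk
          omega
        have p3 : ∑ v ∈ K, tg v = Kx * (K ∩ M).card := by
          simp only [htg]
          rw [← sum_filter, filter_mem_eq_inter, sum_const, smul_eq_mul, mul_comm]
        rw [cO, cZ, baseM, base, card_sdiff_add_card_inter, p3, Nat.add_mul_div_left _ _ K0,
          Nat.add_mul_mod_self_left, Nat.div_eq_of_lt p2, Nat.mod_eq_of_lt p2, zero_add]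
        refine add_le_add le_rfl ?_
        split_ifs
        · refine (sum_le_sum_of_subset (sdiff_subset : C \ U ⊆ C)).trans (le_of_eq ?_)
          rw [sum_ite, sum_const, sum_const, filter_mem_eq_inter, ← sdiff_eq_filter, add_comm]
          rfl
        · simp
      · rw [if_neg (by omega)]
        simp only [if_neg (show ¬ K.card + 1 = k by omega)]
        simp
    refine s2.trans ?_
    have isoD : ∀ v, v ∈ Z → v ∉ U → ty v = .d := by
      intro v h1 h2
      refine (td v).2 ⟨h1, ?_⟩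
      rintro ⟨y, _, _, e⟩
      exact h2 ((mU v).2 ⟨y, (sw _ _).1 e⟩)
    rw [tot_iso ty tg Q .d Kx (isoZ Kx) (Or.inr ⟨rfl, rfl⟩) IM (IZ ∪ (IO ∪ U)) (by
        rw [disjoint_left]
        intro x
        have : x ∈ M → x ∈ Z := fun e => hMZ e
        simp only [hIO, hIZ, hIM, mem_union, mem_sdiff, mem_compl]
        tauto) (by
        intro v hv
        obtain ⟨h1, h2⟩ := mem_sdiff.1 hv
        exact ⟨isoD v (hMZ h1) h2, by rw [htg, if_pos h1], fun u e => h2 ((mU v).2 ⟨u, e⟩)⟩),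
      tot_iso ty tg Q .d 0 (isoZ 0) (Or.inr ⟨rfl, rfl⟩) IZ (IO ∪ U) (by
        rw [disjoint_left]
        intro x
        simp only [hIO, hIZ, mem_union, mem_sdiff, mem_compl]
        tauto) (by
        intro v hv
        obtain ⟨h1, h2⟩ := mem_sdiff.1 hv
        obtain ⟨h3, h4⟩ := mem_sdiff.1 h1
        exact ⟨isoD v h3 h2, by rw [htg, if_neg fun e => h4 (mem_union_right _ e)],
          fun u e => h2 ((mU v).2 ⟨u, e⟩)⟩),
      tot_iso ty tg Q .b 0 isoO (Or.inl ⟨rfl, rfl, rfl⟩) IO U sdiff_disjoint (by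
        intro v hv
        obtain ⟨h1, h2⟩ := mem_sdiff.1 hv
        have h3 : v ∉ Z := fun e => mem_compl.1 h1 (mem_union_left _ e)
        refine ⟨(tb v).2 ⟨h3, fun fv => ?_⟩, by rw [htg, if_neg fun e => h3 (hMZ e)],
          fun u e => h2 ((mU v).2 ⟨u, e⟩)⟩
        obtain ⟨y, _, _, e⟩ := (hfw v).1 fv
        exact h2 ((mU v).2 ⟨y, e⟩)), w4]
    have last : ∀ x, x ∉ U → x ∉ C → ∀ j ∈ U, (x ∈ Z ↔ j ∈ Z) → j ∉ C := by
      intro x hx hxC j hj hz hjC
      obtain ⟨u, e⟩ := (mU j).1 hj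
      refine hx ((mU x).2 ⟨u, hs x j hz (hrC x j hxC hjC) u ?_ e⟩)
      rintro rfl
      exact hx ((mU u).2 ⟨j, (sw _ _).1 e⟩)
    refine ev_mono w (iso_le Kx le_rfl ?_ ?_ ?_)
    · rcases IO.eq_empty_or_nonempty with e | ⟨x, hx⟩
      · simp [e]
      · obtain ⟨h1, h2⟩ := mem_sdiff.1 hx
        rw [mem_compl, mem_union, not_or] at h1
        refine Nat.le_sub_of_add_le ?_
        rw [← card_union_of_disjoint (sdiff_disjoint.mono_right sdiff_subset)]
        refine card_le_card (union_subset sdiff_subset fun j hj => ?_)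
        obtain ⟨h3, h4⟩ := mem_sdiff.1 hj
        rw [mem_compl, mem_union, not_or]
        exact ⟨h4, last x h2 h1.2 j h3 (by tauto)⟩
    · rcases IZ.eq_empty_or_nonempty with e | ⟨x, hx⟩
      · simp [e]
      · obtain ⟨h1, h2⟩ := mem_sdiff.1 hx
        rw [mem_sdiff, mem_union, not_or] at h1
        refine Nat.le_sub_of_add_le ?_
        rw [← card_union_of_disjoint
          (sdiff_disjoint.mono_right (sdiff_subset.trans inter_subset_left))]
        refine card_le_card (union_subset sdiff_subset fun j hj => ?_)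
        obtain ⟨h5, h6⟩ := mem_sdiff.1 hj
        obtain ⟨h3, h4⟩ := mem_inter.1 h5
        exact mem_sdiff.2 ⟨h4, fun e => (mem_union.1 e).elim
          (last x h2 h1.2.1 j h3 (by tauto)) h6⟩
    · rw [inter_comm, ← card_sdiff_add_card_inter M U, Nat.add_sub_cancel]

theorem padded_word (k Kx E : ℕ) (Z C M : Finset V) (hMZ : M ⊆ Z) (hMC : Disjoint M C)
    {φ : ℕ → ℕ → ℕ → ℕ} {ψ : ℕ → ℕ → ℕ → ℕ → ℕ} (h : WOkM φ ψ) (R : Finset (Sym2 V))
    (hZ : ∀ x ∈ Z, ∀ y ∈ Z, s(x, y) ∉ R) (hE : R.card ≤ E) (h1 : 1 ≤ E)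
    (h2 : E ≤ Zᶜ.card.choose 2) (hK : E < Kx ∨ k.choose 2 < Kx) :
    ∃ w : List (Lt × ℕ), valid (w.map Prod.fst) ∧ (w.map Prod.fst).head? = some .b ∧
      wedges (w.map Prod.fst) = E ∧ tagOk Kx w ∧ nmk w ≤ M.card ∧ nmk w ≤ nZ' w ∧
      nO' w ≤ Zᶜ.card ∧ nZ' w - nmk w ≤ (Z \ M).card ∧
      wex (w.map Prod.fst) ≤ ∑ x ∈ Zᶜ, (degZ Z R x - 1) ∧
      ∑ K : Finset V, SPhi k Z C M φ ψ K (ein R K) ≤
        ev w (isoO^[(Z ∪ C)ᶜ.card - nO' w] ((isoZ 0)^[(Z \ (C ∪ M)).card - (nZ' w - nmk w)]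
          ((isoZ Kx)^[M.card - nmk w] (baseM k (C \ Z).card (C ∩ Z).card Kx φ ψ)))) := by
  obtain ⟨R1, a1, a2, a3⟩ := exists_subsuperset_card_eq
    (subset_union_left : R ∩ inner univ ⊆ R ∩ inner univ ∪ inner Zᶜ)
    ((card_le_card inter_subset_left).trans hE)
    (h2.trans (by rw [← card_inner]; exact card_le_card subset_union_right))
  set r : V → ℕ := fun x => (Fintype.equivFin V x : ℕ) +
    if x ∈ C then 2 * Fintype.card V else if x ∈ M then 0 else Fintype.card V with hr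
  have r1 : Function.Injective r := by
    intro x y e
    have b1 := (Fintype.equivFin V x).2
    have b2 := (Fintype.equivFin V y).2
    refine (Fintype.equivFin V).injective (Fin.ext ?_)
    simp only [hr] at e
    split_ifs at e <;> omega
  have r2 : ∀ i j, i ∉ C → j ∈ C → r i < r j := by
    intro i j hi hj
    have b1 := (Fintype.equivFin V i).2
    simp only [hr, hi, hj, if_true, if_false]
    split_ifs <;> omega
  have r3 : ∀ i j, i ∈ M → j ∉ M → r i < r j := by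
    intro i j hi hj
    have b1 := (Fintype.equivFin V i).2
    simp only [hr, hi, hj, disjoint_left.1 hMC hi, if_true, if_false]
    split_ifs <;> omega
  obtain ⟨Q, q1, q2, q3, q4, q5, q6⟩ := two_class Z r r1 (SPhi k Z C M φ ψ)
    (fun i j hz hij => allowed_SPhi k Z C M h i j hz (fun hi => by
      by_contra hj
      exact lt_asymm hij (r2 j i hj hi)) fun hj => by
      by_contra hi
      exact lt_asymm hij (r3 j i hj hi)) R1
    (by
      intro e he
      induction e using Sym2.ind with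
      | _ x y =>
        rcases mem_union.1 (a2 he) with b | b
        · simpa using (mem_inner'.1 (mem_inter.1 b).2).2.2
        · simpa using (mem_inner'.1 b).2.2)
    (by
      intro x hx y hy he
      rcases mem_union.1 (a2 he) with b | b
      · exact hZ x hx y hy (mem_inter.1 b).1
      · exact mem_compl.1 (mem_inner'.1 b).1 hx)
  obtain ⟨w, w1, w2, w3, w4, w5, w6, w7, w8, w9, w10⟩ :=
    shifted_word k Kx Z C M hMZ hMC h r r1 r2 Q q2 q3 q6 (card_pos.1 (by omega)) (by omega)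
  refine ⟨w, w1, w2, by omega, w4, w5, w6, w7, w8, w9.trans ?_,
    le_trans (le_trans (sum_le_sum fun K _ => ?_) q5) w10⟩
  · have e : ∑ x ∈ Zᶜ, (degZ Z Q x - 1) = ∑ x ∈ Zᶜ, (degZ Z R1 x - 1) := by
      have := congrArg (fun t => (Multiset.map (fun y => y - 1) t).sum) q4
      simp only [Multiset.map_map] at this
      exact this
    rw [e]
    refine sum_le_sum fun x _ => Nat.sub_le_sub_right (card_le_card fun u hu => ?_) 1
    obtain ⟨b1, b2⟩ := mem_filter.1 hu
    refine mem_filter.2 ⟨b1, ?_⟩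
    rcases mem_union.1 (a2 b2) with b | b
    · exact (mem_inter.1 b).1
    · exact absurd b1 (mem_compl.1 (mem_inner'.1 b).2.1)
  · have : ein R K ≤ ein R1 K := by
      refine card_le_card fun e he => ?_
      obtain ⟨b1, b2⟩ := mem_inter.1 he
      refine mem_inter.2 ⟨a1 (mem_inter.2 ⟨b1, ?_⟩), b2⟩
      induction e using Sym2.ind with
      | _ x y => exact mem_inner'.2 ⟨mem_univ _, mem_univ _, (mem_inner'.1 b2).2.2⟩
    unfold SPhi
    split_ifs
    · exact (h.ok _).mono _ _ _ this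
    · exact le_rfl

theorem static_word (k Kx nO m nm c0 c1 g E : ℕ) (Z C M : Finset V) (hMZ : M ⊆ Z)
    (hMC : Disjoint M C) {φ : ℕ → ℕ → ℕ → ℕ} {ψ : ℕ → ℕ → ℕ → ℕ → ℕ} (h : WOkM φ ψ)
    (hO : (Z ∪ C)ᶜ.card ≤ nO) (hm : (Z \ (C ∪ M)).card ≤ m) (hn : M.card ≤ nm)
    (hc0 : (C \ Z).card ≤ c0) (hc1 : (C ∩ Z).card ≤ c1) (R : Finset (Sym2 V))
    (hZ : ∀ x ∈ Z, ∀ y ∈ Z, s(x, y) ∉ R) (hE : R.card ≤ E)
    (hg : ∑ x ∈ Zᶜ, (degZ Z R x - 1) ≤ g) (h1 : 1 ≤ E) (h2 : E ≤ nO.choose 2)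
    (hK : E < Kx ∨ k.choose 2 < Kx) :
    ∃ w : List (Lt × ℕ), valid (w.map Prod.fst) ∧ (w.map Prod.fst).head? = some .b ∧
      wedges (w.map Prod.fst) = E ∧ tagOk Kx w ∧ nmk w ≤ nm ∧ nmk w ≤ nZ' w ∧
      nO' w ≤ nO + c0 ∧ nZ' w - nmk w ≤ m + c1 ∧ wex (w.map Prod.fst) ≤ g ∧
      ∑ K : Finset V, SPhi k Z C M φ ψ K (ein R K) ≤
        ev w (isoO^[nO - nO' w] ((isoZ 0)^[m - (nZ' w - nmk w)]
          ((isoZ Kx)^[nm - nmk w] (baseM k c0 c1 Kx φ ψ)))) := by
  obtain ⟨t, ht⟩ := Nat.exists_eq_add_of_le hO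
  let f : V ↪ V ⊕ Fin t := Function.Embedding.inl
  have e1 : (Z.map f ∪ C.map f)ᶜ.card = nO := by
    have := card_le_univ (Z ∪ C)
    rw [card_compl] at ht
    rw [← map_union, card_compl, card_map, Fintype.card_sum, Fintype.card_fin]
    omega
  have e2 : (Z.map f \ (C.map f ∪ M.map f)).card = (Z \ (C ∪ M)).card := by
    rw [← map_union, ← Finset.map_sdiff, card_map]
  have e3 : (C.map f \ Z.map f).card = (C \ Z).card := by rw [← Finset.map_sdiff, card_map]
  have e4 : (C.map f ∩ Z.map f).card = (C ∩ Z).card := by rw [← map_inter, card_map]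
  have e5 : (Z.map f)ᶜ.card = nO + (C \ Z).card := by
    rw [← e1, ← e3, ← card_union_of_disjoint]
    · congr 1
      ext x
      simp only [mem_union, mem_compl, mem_sdiff]
      tauto
    · rw [disjoint_left]
      intro x
      simp only [mem_union, mem_compl, mem_sdiff]
      tauto
  have e6 : (Z.map f \ M.map f).card ≤ (Z \ (C ∪ M)).card + (C ∩ Z).card := by
    rw [← Finset.map_sdiff, card_map]
    refine le_trans (card_le_card fun x => ?_) (card_union_le _ _)
    simp only [mem_union, mem_sdiff, mem_inter]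
    tauto
  obtain ⟨w, w1, w2, w3, w4, w5, w6, w7, w8, w9, w10⟩ := padded_word k Kx E (Z.map f) (C.map f)
    (M.map f) (map_subset_map.2 hMZ) ((disjoint_map f).2 hMC) h (R.map f.sym2Map)
    (by
      intro x hx y hy he
      obtain ⟨u, hu, rfl⟩ := mem_map.1 hx
      obtain ⟨v, hv, rfl⟩ := mem_map.1 hy
      exact hZ u hu v hv ((mem_map' f.sym2Map (a := s(u, v))).1 he))
    (by rwa [card_map]) h1 (h2.trans (Nat.choose_le_choose 2 (by omega))) hK
  rw [e1, e2, e3, e4, card_map] at w10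
  rw [card_map] at w5
  refine ⟨w, w1, w2, w3, w4, by omega, w6, by omega, by omega, w9.trans (le_trans ?_ hg),
    le_trans (le_trans ?_ w10) (ev_mono w ?_)⟩
  · have d1 : ∀ x : V, degZ (Z.map f) (R.map f.sym2Map) (f x) = degZ Z R x := by
      intro x
      unfold degZ
      rw [filter_map, card_map]
      congr 1
      exact filter_congr fun u _ => mem_map' f.sym2Map (a := s(x, u))
    have d2 : ∀ y : Fin t, degZ (Z.map f) (R.map f.sym2Map) (Sum.inr y) = 0 := by
      intro y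
      unfold degZ
      rw [card_eq_zero, filter_eq_empty_iff]
      intro u _ he
      obtain ⟨e, _, he⟩ := mem_map.1 he
      have : Sum.inr y ∈ Sym2.map f e := by
        change Sum.inr y ∈ f.sym2Map e
        rw [he]
        exact Sym2.mem_mk_left _ _
      obtain ⟨a, _, ha⟩ := Sym2.mem_map.1 this
      cases ha
    rw [← sum_subset (s₁ := Zᶜ.map f)]
    · rw [sum_map]
      simp only [d1]
      exact le_rfl
    · intro x hx
      obtain ⟨u, hu, rfl⟩ := mem_map.1 hx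
      exact mem_compl.2 fun e => mem_compl.1 hu ((mem_map' f).1 e)
    · rintro (x | y) b1 b2
      · refine absurd ((mem_map' f).2 (mem_compl.2 fun e => ?_)) b2
        exact mem_compl.1 b1 ((mem_map' f).2 e)
      · rw [d2]
        rfl
  · have key : ∀ K : Finset V, SPhi k Z C M φ ψ K (ein R K) =
        SPhi k (Z.map f) (C.map f) (M.map f) φ ψ (K.map f)
          (ein (R.map f.sym2Map) (K.map f)) := by
      intro K
      have : R.map f.sym2Map ∩ inner (K.map f) = (R ∩ inner K).map f.sym2Map := by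
        ext e
        simp only [mem_inter, mem_map]
        constructor
        · rintro ⟨⟨e, he, rfl⟩, b⟩
          refine ⟨e, ⟨he, ?_⟩, rfl⟩
          induction e using Sym2.ind with
          | _ x y =>
            obtain ⟨b1, b2, b3⟩ := (mem_inner' (x := f x) (y := f y)).1 b
            exact mem_inner'.2 ⟨(mem_map' f).1 b1, (mem_map' f).1 b2, fun e => b3 (e ▸ rfl)⟩
        · rintro ⟨e, ⟨he, b⟩, rfl⟩
          refine ⟨⟨e, he, rfl⟩, ?_⟩
          induction e using Sym2.ind with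
          | _ x y =>
            obtain ⟨b1, b2, b3⟩ := mem_inner'.1 b
            exact (mem_inner' (x := f x) (y := f y)).2
              ⟨(mem_map' f).2 b1, (mem_map' f).2 b2, fun e => b3 (f.injective e)⟩
      unfold SPhi ein
      simp only [this, ← map_inter, card_map]
    simp only [key]
    rw [← sum_image (s := univ) (g := fun K : Finset V => K.map f)
      (f := fun K => SPhi k (Z.map f) (C.map f) (M.map f) φ ψ K (ein (R.map f.sym2Map) K))
      fun _ _ _ _ e => map_injective f e]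
    exact sum_le_sum_of_subset (subset_univ _)
  · refine iso_le Kx (fun _ _ o z x => ?_) le_rfl (Nat.sub_le_sub_right hm _)
      (Nat.sub_le_sub_right hn _)
    unfold baseM base
    split_ifs <;> gcongr

end Pool.Agent.Lib.MP_1024aa_co.Stat
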