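import Mathlib
import Pool.Agent.Lib.MP_1024aa_co.Static2

/-!
A search through all words in normal form. The numbers of vertex sets of each size, number of
inner vertices and number of edges are packed into large numbers.
-/

set_option autoImplicit false

namespace Pool.Agent.Lib.MP_1024aa_co.Stat

/-- Cut to the mask and shift. -/
noncomputable def up (mk sh v : ℕ) : ℕ := Nat.shiftLeft (Nat.land v mk) sh

noncomputable def rowB (mk sw : ℕ) (l : List ℕ) : ℕ → List ℕ :=
  List.rec (motive := fun _ => ℕ → List ℕ) (fun _ => [])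
    (fun v _ ih sh => List.cons (Nat.add v (up mk sh v)) (ih (Nat.add sh sw))) l

noncomputable def stB (mk sw : ℕ) (L : List (List ℕ)) : ℕ → List (List ℕ) :=
  List.rec (motive := fun _ => ℕ → List (List ℕ)) (fun _ => [])
    (fun r _ ih sh => List.cons (rowB mk sw r sh) (ih (Nat.add sh sw))) L

noncomputable def rowD (mk sh : ℕ) (l : List ℕ) : List ℕ :=
  List.rec (motive := fun _ => List ℕ) []
    (fun v _ ih => List.cons (Nat.add v (up mk sh v)) ih) l

noncomputable def stD (mk sw : ℕ) (L : List (List ℕ)) : ℕ → List (List ℕ) :=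
  List.rec (motive := fun _ => ℕ → List (List ℕ)) (fun _ => [])
    (fun r _ ih sh => List.cons (rowD mk sh r) (ih (Nat.add sh sw))) L

noncomputable def rowC (mk sh : ℕ) (l : List ℕ) : ℕ → List ℕ :=
  List.rec (motive := fun _ => ℕ → List ℕ)
    (fun p => cond (Nat.beq (up mk sh p) 0) [] [up mk sh p])
    (fun v _ ih p => List.cons (Nat.add v (up mk sh p)) (ih v)) l

noncomputable def stC (mk sw : ℕ) (L : List (List ℕ)) : ℕ → List (List ℕ) :=
  List.rec (motive := fun _ => ℕ → List (List ℕ)) (fun _ => [])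
    (fun r _ ih sh => List.cons (rowC mk sh r 0) (ih (Nat.add sh sw))) L

noncomputable def rowA (mk sw : ℕ) (p : List ℕ) : List ℕ → ℕ → List ℕ :=
  List.rec (motive := fun _ => List ℕ → ℕ → List ℕ) (fun r _ => r)
    (fun v _ ih r sh => List.rec (motive := fun _ => List ℕ)
      (List.cons (up mk sh v) (ih [] (Nat.add sh sw)))
      (fun y t _ => List.cons (Nat.add y (up mk sh v)) (ih t (Nat.add sh sw))) r) p

noncomputable def stA1 (mk sw : ℕ) (L : List (List ℕ)) : List ℕ → ℕ → List (List ℕ) :=
  List.rec (motive := fun _ => List ℕ → ℕ → List (List ℕ)) (fun p sh => [rowA mk sw p [] sh])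
    (fun r _ ih p sh => List.cons (rowA mk sw p r sh) (ih r (Nat.add sh sw))) L

noncomputable def stA (mk sw : ℕ) (L : List (List ℕ)) (sh : ℕ) : List (List ℕ) :=
  List.rec (motive := fun _ => List (List ℕ)) []
    (fun r T _ => List.cons r (stA1 mk sw T r sh)) L

noncomputable def sumR (l : List ℕ) (a : ℕ) : ℕ :=
  List.rec (motive := fun _ => ℕ) a (fun v _ ih => Nat.add v ih) l

noncomputable def sumL (L : List (List ℕ)) : ℕ :=
  List.rec (motive := fun _ => ℕ) 0 (fun r _ ih => sumR r ih) L

/-- Last letter, numbers of `a`, `c`, outer and inner vertices, edges, marked vertices, excess,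
letters `a` with an inner neighbour, and the packed counts. -/
abbrev Kt : Type := ℕ → ℕ → ℕ → ℕ → ℕ → ℕ → ℕ → ℕ → ℕ → List (List ℕ) → Bool

/-- Numbers of outer, inner and marked vertices, edges, excess, and the packed counts. -/
abbrev Lf : Type := ℕ → ℕ → ℕ → ℕ → ℕ → ℕ → Bool

/-- The parameters of the search. -/
structure Par : Type where
  mk' : ℕ
  sw : ℕ
  sO : ℕ
  sZ : ℕ
  Kx : ℕ
  nm : ℕ
  g : ℕ
  lim : ℕ → ℕ
  leaf : Lf

noncomputable def node (mk sw sO sZ sM nm g : ℕ) (lim : ℕ → ℕ) (leaf : Lf) (k : Kt) :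
    Kt := fun last s c uO uZ e j ex n1 L =>
  (cond (Nat.ble 1 (Nat.add s c) && (Nat.ble (Nat.add e (Nat.add s c)) (lim uZ) &&
      Nat.ble (Nat.add ex (Nat.pred c)) g))
    (leaf (Nat.succ uO) uZ j (Nat.add e (Nat.add s c)) (Nat.add ex (Nat.pred c))
        (sumL (stB mk sw L sO)) &&
      k 0 s c (Nat.succ uO) uZ (Nat.add e (Nat.add s c)) j (Nat.add ex (Nat.pred c)) n1
        (stB mk sw L sO)) true) &&
  (cond (Nat.blt (Nat.add (Nat.add e s) (Nat.add s c)) (lim (Nat.succ uZ)) &&
      Nat.ble (Nat.add (Nat.add ex n1) c) g)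
    (k 2 s (Nat.succ c) uO (Nat.succ uZ) (Nat.add e s) j (Nat.add ex n1) s (stC mk sw L sZ) &&
      cond (Nat.blt j nm) (k 2 s (Nat.succ c) uO (Nat.succ uZ) (Nat.add e s) (Nat.succ j)
        (Nat.add ex n1) s (stC mk sw L sM)) true) true) &&
  (cond (Nat.beq last 1 && (Nat.ble (Nat.add (Nat.add e s) (Nat.add s c)) (lim (Nat.succ uZ)) &&
      Nat.ble (Nat.add (Nat.add ex n1) (Nat.pred c)) g))
    (k 1 s c uO (Nat.succ uZ) (Nat.add e s) j (Nat.add ex n1) s (stD mk sw L sZ) &&
      cond (Nat.blt j nm) (k 1 s c uO (Nat.succ uZ) (Nat.add e s) (Nat.succ j)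
        (Nat.add ex n1) s (stD mk sw L sM)) true) true) &&
  (cond (Nat.ble last 1 && (Nat.blt (Nat.add (Nat.add e (Nat.add s c)) (Nat.add s c)) (lim uZ) &&
      Nat.ble (Nat.add (Nat.add ex (Nat.pred c)) (Nat.pred c)) g))
    (k 1 (Nat.succ s) c (Nat.succ uO) uZ (Nat.add e (Nat.add s c)) j (Nat.add ex (Nat.pred c))
      (cond (Nat.ble 1 c) (Nat.succ n1) n1) (stA mk sw L sO)) true)

noncomputable def run (mk sw sO sZ sM nm g : ℕ) (lim : ℕ → ℕ) (leaf : Lf) (k0 : Kt) (n : ℕ) :
    Kt :=
  Nat.rec (motive := fun _ => Kt) k0 (fun _ ih => node mk sw sO sZ sM nm g lim leaf ih) n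

/-- The packed counts of a word. -/
noncomputable def vec (mk sw sO sZ : ℕ) : List (Lt × ℕ) → List (List ℕ)
  | [] => [[1]]
  | (.a, g) :: w => stA mk sw (vec mk sw sO sZ w) (sO + sw * g)
  | (.b, g) :: w => stB mk sw (vec mk sw sO sZ w) (sO + sw * g)
  | (.c, g) :: w => stC mk sw (vec mk sw sO sZ w) (sZ + sw * g)
  | (.d, g) :: w => stD mk sw (vec mk sw sO sZ w) (sZ + sw * g)

/-- The code of the last letter. -/
def lastc : List Lt → ℕ
  | [] => 0
  | .a :: _ => 1
  | .b :: _ => 0
  | .c :: _ => 2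
  | .d :: _ => 1

/-- A lower bound for the number of edges of all complete extensions. -/
def pot (w : List Lt) : ℕ := wedges w + if w.head? = some .b then 0 else w.count .a + w.count .c

/-- A lower bound for the excess of all complete extensions. -/
def pex (w : List Lt) : ℕ := wex w + if w.head? = some .b then 0 else w.count .c - 1

theorem pot_cons (l : Lt) (w : List Lt) : pot w ≤ pot (l :: w) ∧ pex w ≤ pex (l :: w) := by
  unfold pot pex
  cases l <;> simp [wedges, cost, wex] <;> split_ifs <;> omega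

theorem pot_append (u w : List Lt) : pot w ≤ pot (u ++ w) ∧ pex w ≤ pex (u ++ w) := by
  induction u with
  | nil => exact ⟨le_rfl, le_rfl⟩
  | cons l u ih => exact ⟨ih.1.trans (pot_cons l _).1, ih.2.trans (pot_cons l _).2⟩

theorem valid_append (u w : List Lt) (h : valid (u ++ w)) : valid w := by
  induction u with
  | nil => exact h
  | cons l u ih => exact ih h.1

/-- The test applied to the state of a word. -/
noncomputable def atW (P : Par) (k : Kt) (w : List (Lt × ℕ)) : Bool :=
  k (lastc (w.map Prod.fst)) ((w.map Prod.fst).count .a) ((w.map Prod.fst).count .c) (nO' w)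
    (nZ' w) (wedges (w.map Prod.fst)) (nmk w) (wex (w.map Prod.fst)) (wn1 (w.map Prod.fst))
    (vec P.mk' P.sw P.sO P.sZ w)

/-- The final test of a word. -/
noncomputable def lfW (P : Par) (v : List (Lt × ℕ)) : Bool :=
  P.leaf (nO' v) (nZ' v) (nmk v) (wedges (v.map Prod.fst)) (wex (v.map Prod.fst))
    (sumL (vec P.mk' P.sw P.sO P.sZ v))

/-- The words that have to pass the test. -/
def Due (P : Par) (v : List (Lt × ℕ)) : Prop :=
  valid (v.map Prod.fst) ∧ (v.map Prod.fst).head? = some .b ∧ tagOk P.Kx v ∧ nmk v ≤ P.nm ∧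
    wex (v.map Prod.fst) ≤ P.g ∧ ∀ j, j ≤ nZ' v → wedges (v.map Prod.fst) ≤ P.lim j

/-- All complete proper extensions of `w` that lie in `S` pass the test. -/
def GoodW (P : Par) (S : List (Lt × ℕ) → Prop) (w : List (Lt × ℕ)) : Prop :=
  ∀ u l v, v = u ++ l :: w → Due P v → S v → lfW P v = true

theorem node_sound (P : Par) (S : List (Lt × ℕ) → Prop) (k : Kt) (w : List (Lt × ℕ))
    (hk : ∀ l, atW P k (l :: w) = true → GoodW P S (l :: w))
    (h : atW P (node P.mk' P.sw P.sO P.sZ (P.sZ + P.sw * P.Kx) P.nm P.g P.lim P.leaf k) w =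
      true) : GoodW P S w := by
  rintro u ⟨l, t⟩ v hv hD h4
  obtain ⟨h1, h2, h5, h6, h7, h3⟩ := id hD
  have hv' : v.map Prod.fst = u.map Prod.fst ++ l :: w.map Prod.fst := by simp [hv]
  have p0 := pot_append (u.map Prod.fst) (l :: w.map Prod.fst)
  rw [← hv'] at p0
  have p1 : pot (l :: w.map Prod.fst) ≤ wedges (v.map Prod.fst) := by
    have := p0.1
    rwa [pot.eq_1 (v.map Prod.fst), if_pos h2] at this
  have p5 : pex (l :: w.map Prod.fst) ≤ P.g := by
    have := p0.2
    rw [pex.eq_1 (v.map Prod.fst), if_pos h2] at this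
    exact this.trans h7
  have p2 : valid (l :: w.map Prod.fst) := valid_append _ _ (hv' ▸ h1)
  have p3 : wedges (v.map Prod.fst) ≤ P.lim (nZ' ((l, t) :: w)) := h3 _ (by
    rw [nZ', nZ', hv', List.count_append, List.count_append, List.map_cons]
    dsimp only
    omega)
  have p4 := p1.trans p3
  have p6 : nmk ((l, t) :: w) ≤ P.nm := by
    rw [hv, nmk, List.countP_append] at h6
    exact (Nat.le_add_left _ _).trans h6
  have p7 := h5 (l, t) (by simp [hv])
  have fin : atW P k ((l, t) :: w) = true → (l = .b → lfW P ((l, t) :: w) = true) →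
      lfW P v = true := by
    intro a b
    rcases List.eq_nil_or_concat' u with rfl | ⟨u', l', rfl⟩
    · subst hv
      exact b (by simpa using h2)
    · exact hk _ a u' l' v (by simpa using hv) hD h4
  simp only [atW, node, Bool.and_eq_true, Nat.add_eq, Nat.succ_eq_add_one,
    Nat.pred_eq_sub_one] at h
  obtain ⟨⟨⟨hB, hC⟩, hD⟩, hA⟩ := h
  have q := p2.2
  have nz : ∀ l t, nZ' ((l, t) :: w) = nZ' w + if l = .c ∨ l = .d then 1 else 0 := by
    intro l t
    cases l <;> simp [nZ'] <;> omega
  have no : ∀ l t, nO' ((l, t) :: w) = nO' w + if l = .a ∨ l = .b then 1 else 0 := by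
    intro l t
    cases l <;> simp [nO'] <;> omega
  have nk : ∀ l t, nmk ((l, t) :: w) = nmk w + if t = 0 then 0 else 1 := by
    intro l t
    by_cases e : t = 0 <;> simp [nmk, e]
  rw [nz] at p4
  rw [nk] at p6
  generalize hw : w.map Prod.fst = x at *
  cases l
  · obtain rfl : t = 0 := by simpa using p7
    have c1 : lastc x ≤ 1 := by
      rcases x with _ | ⟨_ | _ | _ | _, x⟩ <;> simp_all [lastc, mayAdd]
    have c2 : wedges x + (x.count .a + x.count .c) + (x.count .a + x.count .c) <
        P.lim (nZ' w) := by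
      simp [pot, wedges, cost] at p4
      omega
    have c3 : wex x + (x.count .c - 1) + (x.count .c - 1) ≤ P.g := by simpa [pex, wex] using p5
    rw [Nat.ble_eq_true_of_le c1, Nat.blt_eq.mpr c2, Nat.ble_eq_true_of_le c3] at hA
    refine fin ?_ (by simp)
    have c4 : cond (Nat.ble 1 (x.count .c)) (wn1 x + 1) (wn1 x) = wn1 x + min 1 (x.count .c) := by
      cases x.count .c <;> simp [Nat.ble]
    rw [c4] at hA
    simpa [atW, lastc, wedges, wex, wn1, cost, vec, nz, no, nk, hw] using hA
  · obtain rfl : t = 0 := by simpa using p7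
    have c2 : wedges x + (x.count .a + x.count .c) ≤ P.lim (nZ' w) := by
      simpa [pot, wedges, cost] using p4
    have c3 : wex x + (x.count .c - 1) ≤ P.g := by simpa [pex, wex] using p5
    rw [Nat.ble_eq_true_of_le q, Nat.ble_eq_true_of_le c2, Nat.ble_eq_true_of_le c3] at hB
    simp only [Bool.and_self, cond_true, Bool.and_eq_true] at hB
    refine fin ?_ fun _ => ?_
    · simpa [atW, lastc, wedges, wex, wn1, cost, vec, nz, no, nk, hw] using hB.2
    · simpa [lfW, wedges, wex, cost, vec, nz, no, nk, hw] using hB.1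
  · have c2 : wedges x + x.count .a + (x.count .a + x.count .c) < P.lim (nZ' w + 1) := by
      simp [pot, wedges, cost] at p4
      omega
    have c3 : wex x + wn1 x + x.count .c ≤ P.g := by simpa [pex, wex] using p5
    rw [Nat.blt_eq.mpr c2, Nat.ble_eq_true_of_le c3] at hC
    simp only [Bool.and_self, cond_true, Bool.and_eq_true] at hC
    refine fin ?_ (by simp)
    by_cases e : t = 0
    · simpa [atW, lastc, wedges, wex, wn1, cost, vec, nz, no, nk, hw, e] using hC.1
    · obtain rfl : t = P.Kx := by simpa [e] using p7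
      rw [if_neg e] at p6
      rw [Nat.blt_eq.mpr p6] at hC
      simpa [atW, lastc, wedges, wex, wn1, cost, vec, nz, no, nk, hw, e] using hC.2
  · have c1 : lastc x = 1 := by
      rcases x with _ | ⟨_ | _ | _ | _, x⟩ <;> simp_all [lastc, mayAdd]
    have c2 : wedges x + x.count .a + (x.count .a + x.count .c) ≤ P.lim (nZ' w + 1) := by
      simpa [pot, wedges, cost, add_assoc] using p4
    have c3 : wex x + wn1 x + (x.count .c - 1) ≤ P.g := by simpa [pex, wex] using p5
    rw [c1, Nat.ble_eq_true_of_le c2, Nat.ble_eq_true_of_le c3] at hD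
    simp only [Bool.and_self, Nat.beq_refl, cond_true, Bool.and_eq_true] at hD
    refine fin ?_ (by simp)
    by_cases e : t = 0
    · simpa [atW, lastc, wedges, wex, wn1, cost, vec, nz, no, nk, hw, e] using hD.1
    · obtain rfl : t = P.Kx := by simpa [e] using p7
      rw [if_neg e] at p6
      rw [Nat.blt_eq.mpr p6] at hD
      simpa [atW, lastc, wedges, wex, wn1, cost, vec, nz, no, nk, hw, e] using hD.2

theorem run_sound (P : Par) (S : List (Lt × ℕ) → Prop) (k0 : Kt) (D : ℕ)
    (h0 : ∀ w, w.length = D → atW P k0 w = true → GoodW P S w) (n : ℕ) :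
    ∀ w, w.length + n = D → atW P
      (run P.mk' P.sw P.sO P.sZ (P.sZ + P.sw * P.Kx) P.nm P.g P.lim P.leaf k0 n) w = true →
      GoodW P S w := by
  induction n with
  | zero => exact h0
  | succ n ih =>
    intro w hw h
    exact node_sound P S _ w (fun l => ih (l :: w) (by rw [List.length_cons]; omega)) h

/-- A choice of a part from the state at the cut. -/
abbrev Sel : Type := ℕ → ℕ → ℕ → ℕ → ℕ → ℕ → ℕ → ℕ

/-- Part `p` of the search: below depth `D` only the states with `sel = p` are visited. -/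
noncomputable def part (mk sw sO sZ sM nm g : ℕ) (lim : ℕ → ℕ) (leaf : Lf) (sel : Sel)
    (D n p : ℕ) : Bool :=
  run mk sw sO sZ sM nm g lim leaf (fun last s c uO uZ e j ex n1 L =>
    cond (Nat.beq (sel last s c uO uZ e j) p)
      (run mk sw sO sZ sM nm g lim leaf (fun _ _ _ _ _ _ _ _ _ _ => false) n
        last s c uO uZ e j ex n1 L) true) D 0 0 0 0 0 0 0 0 0 [[1]]

theorem part_sound (P : Par) (sel : Sel) (D n N : ℕ) (hN : ∀ a b c d e f g, sel a b c d e f g < N)
    (h : ∀ p, p < N →
      part P.mk' P.sw P.sO P.sZ (P.sZ + P.sw * P.Kx) P.nm P.g P.lim P.leaf sel D n p = true)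
    (v : List (Lt × ℕ)) (hv : Due P v) : lfW P v = true := by
  obtain ⟨g, hg⟩ : ∃ g : List (Lt × ℕ) → ℕ, ∀ w, g w = sel (lastc (w.map Prod.fst))
    ((w.map Prod.fst).count .a) ((w.map Prod.fst).count .c) (nO' w) (nZ' w)
    (wedges (w.map Prod.fst)) (nmk w) := ⟨_, fun _ => rfl⟩
  have key := run_sound P
    (fun x => g (x.drop (x.length - D)) = g (v.drop (v.length - D))) _ D (by
      intro w hw a
      by_cases e : g w = g (v.drop (v.length - D))
      · have b : atW P (run P.mk' P.sw P.sO P.sZ (P.sZ + P.sw * P.Kx) P.nm P.g P.lim P.leaf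
            (fun _ _ _ _ _ _ _ _ _ _ => false) n) w = true := by
          simp only [atW] at a ⊢
          rwa [← hg, e, Nat.beq_refl] at a
        exact run_sound P _ _ (D + n) (fun _ _ c => absurd c (by simp [atW])) n w (by omega) b
      · intro u l x hx _ hS
        refine absurd ?_ e
        rw [← hS, hx, show u ++ l :: w = (u ++ [l]) ++ w by simp, List.drop_left' (by simp; omega)])
    D [] (by simp) (h _ (by rw [hg]; exact hN _ _ _ _ _ _ _))
  rcases List.eq_nil_or_concat' v with rfl | ⟨u, l, rfl⟩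
  · simpa using hv.2.1
  · exact key u l _ rfl hv rfl

end Pool.Agent.Lib.MP_1024aa_co.Stat
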