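import Mathlib
import Pool.Agent.Lib.MP_1024aa_co.Enum

/-!
The packed counts of a word are correct modulo a power of two.
-/

set_option autoImplicit false

namespace Pool.Agent.Lib.MP_1024aa_co.Stat

theorem up_mod (a b sh v : ℕ) (h : b ≤ sh) :
    up (2 ^ a - 1) sh v ≡ v * 2 ^ sh [MOD 2 ^ (a + b)] := by
  have e : up (2 ^ a - 1) sh v = v % 2 ^ a * 2 ^ sh := by
    rw [← Nat.and_two_pow_sub_one_eq_mod, ← Nat.shiftLeft_eq]
    rfl
  rw [e]
  refine Nat.ModEq.of_dvd ?_ ((Nat.mod_modEq v (2 ^ a)).mul_right' (2 ^ sh))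
  rw [← pow_add]
  exact pow_dvd_pow 2 (by omega)

variable {R : Type} [CommRing R]

/-- A weighted sum of a row. -/
def dotR : (ℕ → R) → List ℕ → R
  | _, [] => 0
  | κ, v :: t => κ 0 * v + dotR (fun c => κ (c + 1)) t

/-- A weighted sum of a table. -/
def dotL : (ℕ → ℕ → R) → List (List ℕ) → R
  | _, [] => 0
  | κ, r :: T => dotR (κ 0) r + dotL (fun s => κ (s + 1)) T

theorem dotR_add (l : List ℕ) : ∀ κ κ' : ℕ → R,
    dotR (fun c => κ c + κ' c) l = dotR κ l + dotR κ' l := by
  induction l with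
  | nil => simp [dotR]
  | cons v t ih =>
    intro κ κ'
    simp only [dotR, ih]
    ring

section

variable {mk b : ℕ} (hup : ∀ sh v, b ≤ sh → (up mk sh v : R) = v * 2 ^ sh) (sw : ℕ)
include hup

theorem dot_rowB (l : List ℕ) : ∀ (κ : ℕ → R) (sh : ℕ), b ≤ sh →
    dotR κ (rowB mk sw l sh) = dotR (fun c => κ c + κ c * 2 ^ (sh + c * sw)) l := by
  induction l with
  | nil => exact fun _ _ _ => rfl
  | cons v t ih =>
    intro κ sh h
    change dotR κ ((v + up mk sh v) :: rowB mk sw t (sh + sw)) = _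
    simp only [dotR]
    rw [ih _ _ (by omega), Nat.cast_add, hup sh v h]
    congr 1
    · simp only [zero_mul, add_zero]
      ring
    · congr 1
      funext c
      congr 3
      ring

theorem dot_stB (L : List (List ℕ)) : ∀ (κ : ℕ → ℕ → R) (sh : ℕ), b ≤ sh →
    dotL κ (stB mk sw L sh) =
      dotL (fun s c => κ s c + κ s c * 2 ^ (sh + s * sw + c * sw)) L := by
  induction L with
  | nil => exact fun _ _ _ => rfl
  | cons r T ih =>
    intro κ sh h
    change dotL κ (rowB mk sw r sh :: stB mk sw T (sh + sw)) = _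
    simp only [dotL]
    rw [ih _ _ (by omega), dot_rowB hup sw r _ sh h]
    congr 1
    · simp
    · congr 1
      funext s c
      congr 3
      ring

theorem dot_rowD (sh : ℕ) (h : b ≤ sh) (l : List ℕ) : ∀ κ : ℕ → R,
    dotR κ (rowD mk sh l) = dotR (fun c => κ c + κ c * 2 ^ sh) l := by
  induction l with
  | nil => exact fun _ => rfl
  | cons v t ih =>
    intro κ
    change dotR κ ((v + up mk sh v) :: rowD mk sh t) = _
    simp only [dotR]
    rw [ih, Nat.cast_add, hup sh v h]
    ring

theorem dot_stD (L : List (List ℕ)) : ∀ (κ : ℕ → ℕ → R) (sh : ℕ), b ≤ sh →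
    dotL κ (stD mk sw L sh) = dotL (fun s c => κ s c + κ s c * 2 ^ (sh + s * sw)) L := by
  induction L with
  | nil => exact fun _ _ _ => rfl
  | cons r T ih =>
    intro κ sh h
    change dotL κ (rowD mk sh r :: stD mk sw T (sh + sw)) = _
    simp only [dotL]
    rw [ih _ _ (by omega), dot_rowD hup sh h r]
    congr 1
    · simp
    · congr 1
      funext s c
      congr 3
      ring

theorem dot_rowC (sh : ℕ) (h : b ≤ sh) (l : List ℕ) : ∀ (κ : ℕ → R) (p : ℕ),
    dotR κ (rowC mk sh l p) =
      κ 0 * (p * 2 ^ sh) + dotR (fun c => κ c + κ (c + 1) * 2 ^ sh) l := by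
  induction l with
  | nil =>
    intro κ p
    change dotR κ (cond (Nat.beq (up mk sh p) 0) [] [up mk sh p]) = _
    rw [← hup sh p h]
    cases e : Nat.beq (up mk sh p) 0
    · simp [dotR]
    · simp [dotR, Nat.eq_of_beq_eq_true e]
  | cons v t ih =>
    intro κ p
    change dotR κ ((v + up mk sh p) :: rowC mk sh t v) = _
    simp only [dotR]
    rw [ih, Nat.cast_add, hup sh p h]
    ring

theorem dot_stC (L : List (List ℕ)) : ∀ (κ : ℕ → ℕ → R) (sh : ℕ), b ≤ sh →
    dotL κ (stC mk sw L sh) = dotL (fun s c => κ s c + κ s (c + 1) * 2 ^ (sh + s * sw)) L := by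
  induction L with
  | nil => exact fun _ _ _ => rfl
  | cons r T ih =>
    intro κ sh h
    change dotL κ (rowC mk sh r 0 :: stC mk sw T (sh + sw)) = _
    simp only [dotL]
    rw [ih _ _ (by omega), dot_rowC hup sh h r]
    congr 1
    · simp
    · congr 1
      funext s c
      congr 3
      ring

theorem dot_rowA (p : List ℕ) : ∀ (κ : ℕ → R) (r : List ℕ) (sh : ℕ), b ≤ sh →
    dotR κ (rowA mk sw p r sh) = dotR κ r + dotR (fun c => κ c * 2 ^ (sh + c * sw)) p := by
  induction p with
  | nil =>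
    intro κ r sh _
    change dotR κ r = _
    simp [dotR]
  | cons v t ih =>
    intro κ r sh h
    have e : (fun c => κ (c + 1) * 2 ^ (sh + sw + c * sw)) =
        fun c => κ (c + 1) * 2 ^ (sh + (c + 1) * sw) := by
      funext c
      congr 2
      ring
    cases r with
    | nil =>
      change dotR κ (up mk sh v :: rowA mk sw t [] (sh + sw)) = _
      simp only [dotR]
      rw [ih _ _ _ (by omega), hup sh v h, e]
      simp only [dotR, zero_mul, add_zero, zero_add]
      ring
    | cons y r =>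
      change dotR κ ((y + up mk sh v) :: rowA mk sw t r (sh + sw)) = _
      simp only [dotR]
      rw [ih _ _ _ (by omega), Nat.cast_add, hup sh v h, e]
      simp only [zero_mul, add_zero]
      ring

theorem dot_stA1 (L : List (List ℕ)) : ∀ (κ : ℕ → ℕ → R) (p : List ℕ) (sh : ℕ), b ≤ sh →
    dotL κ (stA1 mk sw L p sh) = dotR (fun c => κ 0 c * 2 ^ (sh + c * sw)) p +
      dotL (fun s c => κ s c + κ (s + 1) c * 2 ^ (sh + (s + 1) * sw + c * sw)) L := by
  induction L with
  | nil =>
    intro κ p sh h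
    change dotL κ [rowA mk sw p [] sh] = _
    simp [dotL, dot_rowA hup sw p _ _ sh h, dotR]
  | cons r T ih =>
    intro κ p sh h
    change dotL κ (rowA mk sw p r sh :: stA1 mk sw T r (sh + sw)) = _
    simp only [dotL]
    rw [ih _ _ _ (by omega), dot_rowA hup sw p _ _ sh h, dotR_add]
    have e : (fun s c => κ (s + 1) c + κ (s + 1 + 1) c * 2 ^ (sh + sw + (s + 1) * sw + c * sw)) =
        fun s c => κ (s + 1) c + κ (s + 1 + 1) c * 2 ^ (sh + (s + 1 + 1) * sw + c * sw) := by
      funext s c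
      congr 3
      ring
    rw [e]
    simp only [zero_add, one_mul]
    ring

theorem dot_stA (L : List (List ℕ)) (κ : ℕ → ℕ → R) (sh : ℕ) (h : b ≤ sh) :
    dotL κ (stA mk sw L sh) =
      dotL (fun s c => κ s c + κ (s + 1) c * 2 ^ (sh + s * sw + c * sw)) L := by
  cases L with
  | nil => rfl
  | cons r T =>
    change dotL κ (r :: stA1 mk sw T r sh) = _
    simp only [dotL]
    rw [dot_stA1 hup sw T _ r sh h, dotR_add]
    simp only [zero_add, zero_mul, add_zero]
    ring

theorem ev_vec (sZ : ℕ) (h : b ≤ sZ) (w : List (Lt × ℕ)) : ∀ κ : ℕ → ℕ → ℕ,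
    (ev w (fun s c o z x => κ s c * 2 ^ (b * o + sZ * z + sw * x)) : R) =
      dotL (fun s c => (κ s c : R)) (vec mk sw b sZ w) := by
  induction w with
  | nil =>
    intro κ
    simp [ev, vec, dotL, dotR]
  | cons p w ih =>
    intro κ
    obtain ⟨l, g⟩ := p
    cases l
    · rw [vec, dot_stA hup sw _ _ _ (Nat.le_add_right _ _), ev]
      convert ih (fun s c => κ s c + κ (s + 1) c * 2 ^ (b + sw * g + s * sw + c * sw)) using 3
      · funext s c o z x
        simp only [tr]
        ring
      · simp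
    · rw [vec, dot_stB hup sw _ _ _ (Nat.le_add_right _ _), ev]
      convert ih (fun s c => κ s c + κ s c * 2 ^ (b + sw * g + s * sw + c * sw)) using 3
      · funext s c o z x
        simp only [tr]
        ring
      · simp
    · rw [vec, dot_stC hup sw _ _ _ (h.trans (Nat.le_add_right _ _)), ev]
      convert ih (fun s c => κ s c + κ s (c + 1) * 2 ^ (sZ + sw * g + s * sw)) using 3
      · funext s c o z x
        simp only [tr]
        ring
      · simp
    · rw [vec, dot_stD hup sw _ _ _ (h.trans (Nat.le_add_right _ _)), ev]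
      convert ih (fun s c => κ s c + κ s c * 2 ^ (sZ + sw * g + s * sw)) using 3
      · funext s c o z x
        simp only [tr]
        ring
      · simp

end

theorem dotL_mul (g : R) (L : List (List ℕ)) : dotL (fun _ _ => g) L = g * sumL L := by
  have h1 : ∀ (l : List ℕ) (a : ℕ), dotR (fun _ => g) l + g * a = g * sumR l a := by
    intro l a
    induction l with
    | nil => simp [dotR, sumR]
    | cons v t ih =>
      change _ = g * ((v + sumR t a : ℕ) : R)
      rw [dotR, Nat.cast_add, mul_add, ← ih]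
      ring
  induction L with
  | nil => simp [dotL, sumL]
  | cons r T ih =>
    change _ = g * (sumR r (sumL T) : ℕ)
    rw [dotL, ih, h1]

/-- A power of `1 + 2 ^ sh`, cut to the mask. -/
noncomputable def binP (mk sh i : ℕ) : ℕ :=
  Nat.rec (motive := fun _ => ℕ) 1 (fun _ v => Nat.add v (up mk sh v)) i

theorem binP_eq {mk b : ℕ} (hup : ∀ sh v, b ≤ sh → (up mk sh v : R) = v * 2 ^ sh) (sh : ℕ)
    (h : b ≤ sh) (i : ℕ) : (binP mk sh i : R) = (1 + 2 ^ sh) ^ i := by
  induction i with
  | zero => simp [binP]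
  | succ i ih =>
    change ((binP mk sh i + up mk sh (binP mk sh i) : ℕ) : R) = _
    rw [Nat.cast_add, hup _ _ h, ih]
    ring

theorem isoZ_pow (sO sZ sw g a j : ℕ) :
    (isoZ g)^[j] (fun _ _ o z x => a * 2 ^ (sO * o + sZ * z + sw * x)) =
      fun _ _ o z x => (1 + 2 ^ (sZ + sw * g)) ^ j * a * 2 ^ (sO * o + sZ * z + sw * x) := by
  induction j with
  | zero => simp
  | succ j ih =>
    rw [Function.iterate_succ_apply', ih]
    funext s c o z x
    simp only [isoZ]
    ring

theorem isoO_pow (sO sZ sw a i : ℕ) :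
    isoO^[i] (fun _ _ o z x => a * 2 ^ (sO * o + sZ * z + sw * x)) =
      fun _ _ o z x => (1 + 2 ^ sO) ^ i * a * 2 ^ (sO * o + sZ * z + sw * x) := by
  induction i with
  | zero => simp
  | succ i ih =>
    rw [Function.iterate_succ_apply', ih]
    funext s c o z x
    simp only [isoO]
    ring

theorem pack_mod (a sO sZ sw g i j l : ℕ) (h : sO ≤ sZ) (w : List (Lt × ℕ)) :
    ev w (isoO^[i] ((isoZ 0)^[j] ((isoZ g)^[l]
      fun _ _ o z x => 1 * 2 ^ (sO * o + sZ * z + sw * x)))) ≡
      sumL (vec (2 ^ a - 1) sw sO sZ w) * (binP (2 ^ a - 1) sO i *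
        (binP (2 ^ a - 1) sZ j * binP (2 ^ a - 1) (sZ + sw * g) l)) [MOD 2 ^ (a + sO)] := by
  have hup : ∀ sh v, sO ≤ sh → (up (2 ^ a - 1) sh v : ZMod (2 ^ (a + sO))) = v * 2 ^ sh := by
    intro sh v e
    rw [(ZMod.natCast_eq_natCast_iff _ _ _).2 (up_mod a sO sh v e)]
    simp
  rw [← ZMod.natCast_eq_natCast_iff, isoZ_pow, isoZ_pow, isoO_pow, ev_vec hup sw sZ h w, dotL_mul]
  push_cast
  rw [binP_eq hup sO le_rfl, binP_eq hup sZ h, binP_eq hup _ (h.trans (Nat.le_add_right _ _))]
  ring

end Pool.Agent.Lib.MP_1024aa_co.Stat
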