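import Mathlib
import Pool.Agent.Lib.MP_1024aa_co.Pack
import Pool.Agent.Lib.MP_1024aa_co.Static2

/-!
Reading the weighted sum off the packed counts, and the static bound from a checked table.
-/

set_option autoImplicit false

open Finset

namespace Pool.Agent.Lib.MP_1024aa_co.Stat

/-- `Λ` is the sum over `2 ^ n` points with at most `A` letters `a`, `C` letters `c`, `E` edges
and tag sum `G`. -/
def Rep (Λ : TF → ℕ) (n A C E G : ℕ) : Prop :=
  ∃ μ : Multiset (ℕ × ℕ × ℕ × ℕ × ℕ), μ.card = 2 ^ n ∧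
    (∀ p ∈ μ, p.1 ≤ A ∧ p.2.1 ≤ C ∧ p.2.2.2.2 ≤ E + G ∧ p.1 ≤ p.2.2.1 ∧ p.2.1 ≤ p.2.2.2.1 ∧
      p.2.2.2.2 ≤ (p.2.2.1 + p.2.2.2.1).choose 2 + G) ∧
    ∀ Ψ : TF, Λ Ψ = (μ.map fun p => Ψ p.1 p.2.1 p.2.2.1 p.2.2.2.1 p.2.2.2.2).sum

theorem Rep.step {Λ : TF → ℕ} {n A C E G A' C' E' : ℕ} (h : Rep Λ n A C E G) (f : TF → TF)
    (ds dc dO dZ t : ℕ) (g : ℕ → ℕ → ℕ)
    (hf : ∀ Ψ s c o z x, f Ψ s c o z x =
      Ψ s c o z x + Ψ (s + ds) (c + dc) (o + dO) (z + dZ) (x + (g s c + t)))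
    (h1 : A + ds ≤ A') (h2 : C + dc ≤ C') (h3 : ∀ s c, s ≤ A → c ≤ C → E + g s c ≤ E')
    (h4 : ds ≤ dO) (h5 : dc ≤ dZ) (h6 : dO + dZ = 1) (h7 : ∀ s c, g s c ≤ s + c) :
    Rep (fun Ψ => Λ (f Ψ)) (n + 1) A' C' E' (G + t) := by
  obtain ⟨μ, a1, a2, a3⟩ := h
  refine ⟨μ + μ.map fun p => (p.1 + ds, p.2.1 + dc, p.2.2.1 + dO, p.2.2.2.1 + dZ,
    p.2.2.2.2 + (g p.1 p.2.1 + t)), by simp [a1, pow_succ, mul_two], fun p hp => ?_, fun Ψ => ?_⟩
  · rcases Multiset.mem_add.1 hp with hp | hp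
    · have := a2 p hp
      have := h3 0 0 (Nat.zero_le _) (Nat.zero_le _)
      omega
    · obtain ⟨q, hq, rfl⟩ := Multiset.mem_map.1 hp
      have b1 := a2 q hq
      have b2 := h3 q.1 q.2.1 b1.1 b1.2.1
      have b3 := h7 q.1 q.2.1
      have b4 : q.2.2.1 + dO + (q.2.2.2.1 + dZ) = q.2.2.1 + q.2.2.2.1 + 1 := by omega
      dsimp only
      rw [b4, Nat.choose_succ_succ' _ 1, Nat.choose_one_right, one_add_one_eq_two]
      omega
  · simp only [a3, hf, Multiset.map_add, Multiset.sum_add, Multiset.map_map,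
      Multiset.sum_map_add, Function.comp_def]

theorem rep_ev (w : List (Lt × ℕ)) : Rep (ev w) w.length ((w.map Prod.fst).count .a)
    ((w.map Prod.fst).count .c) (wedges (w.map Prod.fst)) (w.map Prod.snd).sum := by
  induction w with
  | nil => exact ⟨{(0, 0, 0, 0, 0)}, rfl, by simp, fun Ψ => by simp [ev]⟩
  | cons p w ih =>
    obtain ⟨l, t⟩ := p
    rw [List.map_cons, List.map_cons, List.sum_cons, add_comm]
    cases l
    · exact ih.step (tr .a t) 1 0 1 0 t (fun s c => s + c) (fun _ _ _ _ _ _ => rfl) (by simp)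
        (by simp) (fun s c _ _ => by simp only [wedges, cost]; omega) le_rfl le_rfl rfl
        fun _ _ => le_rfl
    · exact ih.step (tr .b t) 0 0 1 0 t (fun s c => s + c) (fun _ _ _ _ _ _ => rfl) (by simp)
        (by simp) (fun s c _ _ => by simp only [wedges, cost]; omega) (by simp) le_rfl rfl
        fun _ _ => le_rfl
    · exact ih.step (tr .c t) 0 1 0 1 t (fun s _ => s) (fun _ _ _ _ _ _ => rfl) (by simp)
        (by simp) (fun s c _ _ => by simp only [wedges, cost]; omega) le_rfl le_rfl rfl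
        fun _ _ => Nat.le_add_right _ _
    · exact ih.step (tr .d t) 0 0 0 1 t (fun s _ => s) (fun _ _ _ _ _ _ => rfl) (by simp)
        (by simp) (fun s c _ _ => by simp only [wedges, cost]; omega) le_rfl (by simp) rfl
        fun _ _ => Nat.le_add_right _ _

theorem Rep.iter {A C E : ℕ} (f : TF → TF) (dO dZ t : ℕ) (h6 : dO + dZ = 1)
    (hf : ∀ Ψ s c o z x, f Ψ s c o z x = Ψ s c o z x + Ψ s c (o + dO) (z + dZ) (x + t)) (i : ℕ) :
    ∀ {Λ : TF → ℕ} {n G : ℕ}, Rep Λ n A C E G →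
      Rep (fun Ψ => Λ (f^[i] Ψ)) (n + i) A C E (G + t * i) := by
  induction i with
  | zero => exact fun h => h
  | succ i ih =>
    intro Λ n G h
    rw [mul_add_one, ← add_assoc G]
    exact (ih h).step f 0 0 dO dZ t (fun _ _ => 0) (by simpa using hf) le_rfl le_rfl
      (fun _ _ _ _ => le_rfl) (Nat.zero_le _) (Nat.zero_le _) h6 fun _ _ => Nat.zero_le _

theorem tag_sum (Kx : ℕ) (w : List (Lt × ℕ)) (h : tagOk Kx w) :
    (w.map Prod.snd).sum ≤ Kx * nmk w := by
  induction w with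
  | nil => simp
  | cons p w ih =>
    have a := ih fun q hq => h q (List.mem_cons_of_mem _ hq)
    have b := h p List.mem_cons_self
    unfold nmk at a ⊢
    by_cases e : p.2 = 0
    · simpa [e] using a
    · have c : p.2 = Kx := by tauto
      rw [List.map_cons, List.sum_cons, List.countP_cons_of_pos (by simpa using e), mul_add_one]
      omega

/-- The values `F q`, `q < n`, packed with the first one on top. -/
noncomputable def horner (sw : ℕ) (F : ℕ → ℕ) (n : ℕ) : ℕ :=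
  Nat.rec (motive := fun _ => ℕ) 0 (fun q v => Nat.add (Nat.shiftLeft v sw) (F q)) n

theorem horner_eq (sw : ℕ) (F : ℕ → ℕ) (n : ℕ) :
    horner sw F n = ∑ q ∈ range n, F q * (2 ^ sw) ^ (n - 1 - q) := by
  induction n with
  | zero => rfl
  | succ n ih =>
    change horner sw F n <<< sw + F n = _
    rw [Nat.shiftLeft_eq, ih, sum_range_succ, sum_mul]
    congr 1
    · refine sum_congr rfl fun q hq => ?_
      rw [mul_assoc, ← pow_succ]
      have := mem_range.1 hq
      congr 2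
      omega
    · simp

theorem multiset_modEq {α : Type} (μ : Multiset α) (f g : α → ℕ) (M : ℕ)
    (h : ∀ p ∈ μ, f p ≡ g p [MOD M]) : (μ.map f).sum ≡ (μ.map g).sum [MOD M] := by
  induction μ using Multiset.induction_on with
  | empty => exact Nat.ModEq.refl _
  | cons a μ ih =>
    simp only [Multiset.map_cons, Multiset.sum_cons]
    exact (h a (Multiset.mem_cons_self _ _)).add
      (ih fun p hp => h p (Multiset.mem_cons_of_mem hp))

theorem extract {α : Type} (μ : Multiset α) (cd val : α → ℕ) (X t N : ℕ) (F : ℕ → ℕ) (H : ℕ)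
    (hN : 1 ≤ N) (hX : μ.card * (∑ q ∈ range N, F q + 1) < X)
    (hH : (μ.map fun p => X ^ cd p).sum ≡ H [MOD X ^ (t + N)])
    (hv : ∀ p ∈ μ, val p = 0 ∨ (t ≤ cd p ∧ cd p - t < N ∧ val p ≤ F (cd p - t))) :
    (μ.map val).sum ≤
      H % X ^ (t + N) / X ^ t * (∑ q ∈ range N, F q * X ^ (N - 1 - q)) % X ^ N / X ^ (N - 1) := by
  have X0 : 0 < X := by omega
  obtain ⟨lo, hlo⟩ : ∃ lo : α → ℕ, ∀ p, lo p = if cd p < t then X ^ cd p else 0 :=
    ⟨_, fun _ => rfl⟩
  obtain ⟨hi, hhi⟩ : ∃ hi : α → ℕ, ∀ p, hi p = if cd p < t then 0 else X ^ (cd p - t) :=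
    ⟨_, fun _ => rfl⟩
  obtain ⟨s, hs⟩ : ∃ s : α → ℕ, ∀ p, s p = if cd p < t then 0 else
      ∑ q ∈ range N, if cd p - t ≤ q then F q * X ^ (N - 1 - q + (cd p - t)) else 0 :=
    ⟨_, fun _ => rfl⟩
  have e1 : (μ.map fun p => X ^ cd p).sum = (μ.map lo).sum + X ^ t * (μ.map hi).sum := by
    rw [← Multiset.sum_map_mul_left, ← Multiset.sum_map_add]
    congr 1
    refine Multiset.map_congr rfl fun p _ => ?_
    rw [hlo, hhi]
    split_ifs with a
    · simp
    · rw [zero_add, ← pow_add, Nat.add_sub_cancel' (not_lt.1 a)]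
  have e2 : (μ.map lo).sum < X ^ t := by
    have a1 : (μ.map fun p => lo p * X).sum ≤ μ.card * X ^ t := by
      have := Multiset.sum_le_card_nsmul (μ.map fun p => lo p * X) (X ^ t) (by
        intro y hy
        obtain ⟨p, _, rfl⟩ := Multiset.mem_map.1 hy
        rw [hlo]
        split_ifs with a
        · rw [← pow_succ]
          exact Nat.pow_le_pow_right X0 a
        · simp)
      simpa using this
    rw [Multiset.sum_map_mul_right] at a1
    have a2 : μ.card < X := lt_of_le_of_lt (Nat.le_mul_of_pos_right _ (Nat.succ_pos _)) hX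
    have a3 : μ.card * X ^ t < X * X ^ t := Nat.mul_lt_mul_of_pos_right a2 (pow_pos X0 t)
    exact Nat.lt_of_mul_lt_mul_right (a := X) (by rw [mul_comm (X ^ t)]; omega)
  have e3 : H % X ^ (t + N) / X ^ t = (μ.map hi).sum % X ^ N := by
    rw [← hH, pow_add, Nat.mod_mul_right_div_self, e1, Nat.add_mul_div_left _ _ (pow_pos X0 t),
      Nat.div_eq_of_lt e2, zero_add]
  have e4 : (μ.map hi).sum * (∑ q ∈ range N, F q * X ^ (N - 1 - q)) ≡ (μ.map s).sum
      [MOD X ^ N] := by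
    rw [← Multiset.sum_map_mul_right]
    refine multiset_modEq μ _ _ _ fun p _ => ?_
    rw [hhi, hs]
    split_ifs with a
    · simp [Nat.ModEq]
    · rw [mul_sum]
      refine Nat.ModEq.sum fun q hq => ?_
      have b := mem_range.1 hq
      rw [mul_left_comm, ← pow_add, add_comm (cd p - t)]
      split_ifs with c
      · exact Nat.ModEq.refl _
      · exact (Nat.modEq_zero_iff_dvd).2 (Dvd.dvd.mul_left (pow_dvd_pow X (by omega)) _)
  have e5 : (μ.map s).sum < X ^ N := by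
    have a1 := Multiset.sum_le_card_nsmul (μ.map s) ((∑ q ∈ range N, F q) * X ^ (N - 1)) (by
      intro y hy
      obtain ⟨p, _, rfl⟩ := Multiset.mem_map.1 hy
      rw [hs]
      split_ifs with a
      · exact Nat.zero_le _
      · rw [sum_mul]
        refine sum_le_sum fun q hq => ?_
        have b := mem_range.1 hq
        split_ifs with c
        · exact Nat.mul_le_mul_left _ (Nat.pow_le_pow_right X0 (by omega))
        · exact Nat.zero_le _)
    rw [Multiset.card_map, smul_eq_mul, ← mul_assoc] at a1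
    have a2 : μ.card * ∑ q ∈ range N, F q < X :=
      lt_of_le_of_lt (Nat.mul_le_mul_left _ (Nat.le_succ _)) hX
    calc _ ≤ _ := a1
      _ < X * X ^ (N - 1) := Nat.mul_lt_mul_of_pos_right a2 (pow_pos X0 _)
      _ = X ^ N := by rw [← pow_succ', Nat.sub_add_cancel hN]
  rw [e3, Nat.mod_mul_mod, e4, Nat.mod_eq_of_lt e5, Nat.le_div_iff_mul_le (pow_pos X0 _),
    ← Multiset.sum_map_mul_right]
  refine Multiset.sum_map_le_sum_map _ _ fun p hp => ?_
  rcases hv p hp with a | ⟨a1, a2, a3⟩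
  · simp [a]
  · rw [hs, if_neg (not_lt.2 a1)]
    refine le_trans ?_ (single_le_sum (f := fun q =>
      if cd p - t ≤ q then F q * X ^ (N - 1 - q + (cd p - t)) else 0)
      (fun _ _ => Nat.zero_le _) (mem_range.2 a2))
    rw [if_pos le_rfl, Nat.sub_add_cancel (by omega)]
    exact Nat.mul_le_mul_right _ a3

/-- An entry of a table: bounds for the numbers of outer and unmarked inner vertices and for the
excess, packed weights and the bound that is claimed. -/
structure Ent : Type where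
  bO : ℕ
  bZ : ℕ
  g : ℕ
  G : ℕ
  B : ℕ

/-- Entries with the same numbers of edges, outer, inner and marked vertices. -/
structure Fam : Type where
  E : ℕ
  nO : ℕ
  m : ℕ
  nm : ℕ
  ents : List Ent

noncomputable def binQ (mk mM sO sZ sM i j l : ℕ) : ℕ :=
  Nat.land (Nat.mul (binP mk sO i) (Nat.land (Nat.mul (binP mk sZ j) (binP mk sM l)) mM)) mM

/-- Application to an evaluated argument. -/
noncomputable def frc (f : ℕ → ℕ) (n : ℕ) : ℕ :=
  Nat.rec (motive := fun _ => ℕ) (f 0) (fun p _ => f (Nat.succ p)) n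

theorem frc_eq (f : ℕ → ℕ) (n : ℕ) : frc f n = f n := by
  cases n <;> rfl

noncomputable def binF (mk mM sO sZ sM i j l : ℕ) : ℕ :=
  frc (fun i => frc (fun j => frc (fun l => binQ mk mM sO sZ sM i j l) l) j) i

theorem binF_eq (mk mM sO sZ sM i j l : ℕ) :
    binF mk mM sO sZ sM i j l = binQ mk mM sO sZ sM i j l := by
  simp only [binF, frc_eq]

noncomputable def entsOk (m2 t2 uO uZ ex h : ℕ) (l : List Ent) : Bool :=
  List.rec (motive := fun _ => Bool) true (fun t _ ih =>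
    cond (Nat.ble ex t.g && (Nat.ble uZ t.bZ && Nat.ble uO t.bO))
      (Nat.blt (Nat.shiftRight (Nat.land (Nat.mul h t.G) m2) t2) t.B) true && ih) l

noncomputable def pick (fams : List Fam) (p : ℕ) : List Fam :=
  List.rec (motive := fun _ => List Fam) []
    (fun f _ ih => cond (Nat.beq f.E (Nat.succ p)) (List.cons f ih) ih) fams

noncomputable def famsOk (mk mM m2 sO sZ sM t t2 uO uZ j ex P : ℕ) (l : List Fam) : Bool :=
  List.rec (motive := fun _ => Bool) true (fun f _ ih =>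
    cond (Nat.ble j f.nm) (entsOk m2 t2 uO uZ ex (Nat.shiftRight (Nat.land (Nat.mul P
      (binF mk mM sO sZ sM (Nat.sub f.nO uO) (Nat.sub f.m uZ) (Nat.sub f.nm j))) mM) t) f.ents)
      true && ih) l

noncomputable def leafF (mk mM m2 sO sZ sM t t2 : ℕ) (fams : List Fam) : Lf :=
  fun uO uZ j e ex P => Nat.rec (motive := fun _ => Bool) true
    (fun p _ => famsOk mk mM m2 sO sZ sM t t2 uO (Nat.sub uZ j) j ex P (pick fams p)) e

theorem mem_pick (fams : List Fam) (p : ℕ) (f : Fam) (h : f ∈ fams) (e : f.E = p + 1) :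
    f ∈ pick fams p := by
  induction fams with
  | nil => simp at h
  | cons g l ih =>
    change f ∈ cond (Nat.beq g.E (p + 1)) (g :: pick l p) (pick l p)
    rcases List.mem_cons.1 h with rfl | h
    · simp [e]
    · cases Nat.beq g.E (p + 1)
      · exact ih h
      · exact List.mem_cons_of_mem _ (ih h)

theorem leafF_sound (mk mM m2 sO sZ sM t t2 : ℕ) (fams : List Fam) (uO uZ j ex P : ℕ) (f : Fam)
    (hf : f ∈ fams) (h1 : 1 ≤ f.E) (y : Ent) (hy : y ∈ f.ents) (hO : uO ≤ y.bO)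
    (hZ : uZ - j ≤ y.bZ) (hj : j ≤ f.nm) (hg : ex ≤ y.g)
    (h : leafF mk mM m2 sO sZ sM t t2 fams uO uZ j f.E ex P = true) :
    ((((P * binQ mk mM sO sZ sM (f.nO - uO) (f.m - (uZ - j)) (f.nm - j)) &&& mM) >>> t * y.G)
      &&& m2) >>> t2 < y.B := by
  obtain ⟨p, hp⟩ := Nat.exists_eq_add_of_le' h1
  rw [hp] at h
  have a1 : ∀ l : List Fam, f ∈ l → famsOk mk mM m2 sO sZ sM t t2 uO (uZ - j) j ex P l = true →
      entsOk m2 t2 uO (uZ - j) ex (((P * binQ mk mM sO sZ sM (f.nO - uO) (f.m - (uZ - j))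
        (f.nm - j)) &&& mM) >>> t) f.ents = true := by
    intro l hl
    induction l with
    | nil => simp at hl
    | cons g l ih =>
      intro a
      obtain ⟨b1, b2⟩ := Bool.and_eq_true_iff.1 a
      rcases List.mem_cons.1 hl with rfl | hl
      · rw [Nat.ble_eq_true_of_le hj, binF_eq] at b1
        exact b1
      · exact ih hl b2
  have a2 : ∀ (H : ℕ) (l : List Ent), y ∈ l → entsOk m2 t2 uO (uZ - j) ex H l = true →
      ((H * y.G) &&& m2) >>> t2 < y.B := by
    intro H l hl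
    induction l with
    | nil => simp at hl
    | cons g l ih =>
      intro a
      obtain ⟨b1, b2⟩ := Bool.and_eq_true_iff.1 a
      rcases List.mem_cons.1 hl with rfl | hl
      · rw [Nat.ble_eq_true_of_le hO, Nat.ble_eq_true_of_le hZ, Nat.ble_eq_true_of_le hg] at b1
        exact Nat.blt_eq.mp b1
      · exact ih hl b2
  exact a2 _ _ hy (a1 _ (mem_pick fams p f hf hp) h)

/-- The weights, listed by position: first the sets with a centre, then the others. -/
def wq (Kx W1 W2 c0 c1 : ℕ) (φ : ℕ → ℕ → ℕ → ℕ) (ψ : ℕ → ℕ → ℕ → ℕ → ℕ) (q : ℕ) : ℕ :=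
  if q < W2 then c0 * ψ (q % W1 / Kx) 0 (q / W1) (q % W1 % Kx) +
    c1 * ψ (q % W1 / Kx) 1 (q / W1 + 1) (q % W1 % Kx)
  else φ ((q - W2) % W1 / Kx) ((q - W2) / W1) ((q - W2) % W1 % Kx)

/-- Part `p` of the check of a table for sets of size `k + 1`; `W1 = Kx * (nm + 1)`. -/
noncomputable def table (k Kx W1 sw nm g : ℕ) (fams : List Fam) (lim : ℕ → ℕ) (sel : Sel)
    (D n p : ℕ) : Bool :=
  part (2 ^ (sw * (W1 * (k + 2)) * (k + 1)) - 1) sw (sw * (W1 * (k + 2)))
    (sw * (W1 * (k + 2)) + sw * W1) (sw * (W1 * (k + 2)) + sw * W1 + sw * Kx) nm g lim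
    (leafF (2 ^ (sw * (W1 * (k + 2)) * (k + 1)) - 1)
      (2 ^ (sw * (W1 * (k + 2)) * (k + 1) + sw * (W1 * (k + 2))) - 1)
      (2 ^ (sw * (2 * (W1 * (k + 2)))) - 1) (sw * (W1 * (k + 2)))
      (sw * (W1 * (k + 2)) + sw * W1) (sw * (W1 * (k + 2)) + sw * W1 + sw * Kx)
      (sw * (W1 * (k + 2) * k)) (sw * (2 * (W1 * (k + 2)) - 1)) fams) sel D n p

theorem static_table (k Kx W1 sw nm g : ℕ) (fams : List Fam) (lim : ℕ → ℕ) (sel : Sel)
    (D n N : ℕ) (hN : ∀ a b c d e f g, sel a b c d e f g < N)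
    (h : ∀ p, p < N → table k Kx W1 sw nm g fams lim sel D n p = true) (f : Fam) (hf : f ∈ fams)
    (y : Ent) (hy : y ∈ f.ents) (c0 c1 : ℕ) {φ : ℕ → ℕ → ℕ → ℕ} {ψ : ℕ → ℕ → ℕ → ℕ → ℕ}
    (hW : WOkM φ ψ) (hO : y.bO = f.nO + c0) (hZ : y.bZ = f.m + c1)
    (hG : y.G = horner sw (wq Kx W1 (W1 * (k + 2)) c0 c1 φ ψ) (2 * (W1 * (k + 2))))
    (hS : 2 ^ (y.bO + y.bZ + f.nm) *
      (horner 0 (wq Kx W1 (W1 * (k + 2)) c0 c1 φ ψ) (2 * (W1 * (k + 2))) + 1) < 2 ^ sw)
    (hK : f.E < Kx ∨ (k + 1).choose 2 < Kx) (hW1 : Kx * (f.nm + 1) ≤ W1) (hnm : f.nm ≤ nm)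
    (hg : y.g ≤ g) (hlim : ∀ j, j ≤ y.bZ + f.nm → f.E ≤ lim j) (h1 : 1 ≤ f.E)
    (h2 : f.E ≤ f.nO.choose 2) {V : Type*} [DecidableEq V] [Fintype V] (Z C M : Finset V)
    (hMZ : M ⊆ Z) (hMC : Disjoint M C) (a1 : (Z ∪ C)ᶜ.card ≤ f.nO)
    (a2 : (Z \ (C ∪ M)).card ≤ f.m) (a0 : M.card ≤ f.nm) (a3 : (C \ Z).card ≤ c0)
    (a4 : (C ∩ Z).card ≤ c1) (R : Finset (Sym2 V)) (a5 : ∀ x ∈ Z, ∀ y ∈ Z, s(x, y) ∉ R)
    (a6 : R.card ≤ f.E) (a7 : ∑ x ∈ Zᶜ, (degZ Z R x - 1) ≤ y.g) :
    ∑ K : Finset V, SPhi (k + 1) Z C M φ ψ K (ein R K) < y.B := by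
  obtain ⟨w, w1, w2, w3, w7, w8, w9, w4, w5, w0, w6⟩ := static_word (k + 1) Kx f.nO f.m f.nm c0 c1
    y.g f.E Z C M hMZ hMC hW a1 a2 a0 a3 a4 R a5 a6 a7 h1 h2 hK
  have b1 := part_sound ⟨_, _, _, _, Kx, nm, g, lim, _⟩ sel D n N hN h w
    ⟨w1, w2, w7, w8.trans hnm, w0.trans hg, fun j hj => by
      rw [w3]
      exact hlim j (by omega)⟩
  rw [lfW, w3] at b1
  have b2 := leafF_sound _ _ _ _ _ _ _ _ fams _ _ _ _ _ f hf h1 y hy (by omega) (by omega) w8 w0 b1
  refine lt_of_le_of_lt (w6.trans ?_) b2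
  dsimp only
  set i := f.nO - nO' w with hi
  set j := f.m - (nZ' w - nmk w) with hj
  set l := f.nm - nmk w with hl
  set W2 := W1 * (k + 2) with hW2
  have K0 : 0 < Kx := by omega
  have W0 : 0 < W1 := lt_of_lt_of_le (by positivity) hW1
  have W3 : 0 < W2 := by positivity
  obtain ⟨μ, m1, m2, m3⟩ := Rep.iter (isoZ Kx) 0 1 Kx rfl (fun _ _ _ _ _ _ => rfl) l
    (Rep.iter (isoZ 0) 0 1 0 rfl (fun _ _ _ _ _ _ => rfl) j
      (Rep.iter isoO 1 0 0 rfl (fun _ _ _ _ _ _ => rfl) i (rep_ev w)))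
  dsimp only at m3
  have len : w.length = nO' w + nZ' w := by
    clear * -
    unfold nO' nZ'
    induction w with
    | nil => rfl
    | cons p w ih =>
      obtain ⟨l, t⟩ := p
      cases l <;> simp [ih] <;> omega
  have tg : (w.map Prod.snd).sum + 0 * i + 0 * j + Kx * l + Kx ≤ W1 := by
    have b := tag_sum Kx w w7
    have e : Kx * (f.nm + 1) = Kx * nmk w + Kx * l + Kx := by
      rw [← mul_add, ← mul_add_one]
      congr 2
      omega
    omega
  have b3 := pack_mod (sw * W2 * (k + 1)) (sw * W2) (sw * W2 + sw * W1) sw Kx i j l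
    (Nat.le_add_right _ _) w
  have e1 : (2 : ℕ) ^ (sw * W2 * (k + 1) + sw * W2) = (2 ^ sw) ^ (W2 * k + 2 * W2) := by
    rw [← pow_mul]
    congr 1
    ring
  have b4 := extract μ (fun p => W2 * (p.2.2.1 + p.2.2.2.1) + W1 * p.2.2.2.1 + p.2.2.2.2)
    (fun p => baseM (k + 1) c0 c1 Kx φ ψ p.1 p.2.1 p.2.2.1 p.2.2.2.1 p.2.2.2.2) (2 ^ sw) (W2 * k)
    (2 * W2) (wq Kx W1 W2 c0 c1 φ ψ)
    (sumL (vec (2 ^ (sw * W2 * (k + 1)) - 1) sw (sw * W2) (sw * W2 + sw * W1) w) *
      binQ (2 ^ (sw * W2 * (k + 1)) - 1) (2 ^ (sw * W2 * (k + 1) + sw * W2) - 1) (sw * W2)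
        (sw * W2 + sw * W1) (sw * W2 + sw * W1 + sw * Kx) i j l) (by omega) (by
      rw [horner_eq] at hS
      simp only [pow_zero, one_pow, mul_one] at hS
      refine lt_of_le_of_lt (Nat.mul_le_mul_right _ ?_) hS
      rw [m1]
      exact Nat.pow_le_pow_right two_pos (by omega)) (by
      rw [← e1]
      rw [m3] at b3
      refine Nat.ModEq.trans ?_ (b3.trans (Nat.ModEq.mul_left _ ?_))
      · refine multiset_modEq μ _ _ _ fun p _ => ?_
        rw [← pow_mul, one_mul]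
        congr 2
        ring
      · change _ ≡ (_ * (_ &&& _)) &&& _ [MOD _]
        rw [Nat.and_two_pow_sub_one_eq_mod, Nat.and_two_pow_sub_one_eq_mod]
        exact ((Nat.mod_modEq _ _).trans ((Nat.mod_modEq _ _).mul_left _)).symm) (by
      rintro ⟨s, c, o, z, x⟩ hp
      obtain ⟨-, -, c1', -, -, c2⟩ := m2 _ hp
      dsimp only at c1' c2 ⊢
      have c3 : o + z ≤ k + 1 → x < W1 := fun e => by
        have := Nat.choose_le_choose 2 e
        omega
      have c4 : z ≤ k + 1 → x < W1 → W1 * z + x < W2 := fun e e' => by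
        have := Nat.mul_le_mul_left W1 e
        rw [hW2]
        nlinarith
      have c5 : x < W1 → (W1 * z + x) / W1 = z ∧ (W1 * z + x) % W1 = x := fun e => by
        rw [Nat.mul_add_div W0, Nat.div_eq_of_lt e, Nat.mul_add_mod, Nat.mod_eq_of_lt e]
        simp
      unfold baseM base wq
      by_cases d1 : o + z = k + 1
      · have d2 := c3 d1.le
        have d3 := c4 (by omega) d2
        have d4 : W2 * (o + z) + W1 * z + x - W2 * k = W2 + (W1 * z + x) := by
          rw [d1, mul_add_one]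
          omega
        refine Or.inr ⟨by rw [d1, mul_add_one]; omega, by omega, ?_⟩
        rw [d4, if_pos d1, if_neg (by omega), if_neg (by omega), Nat.add_sub_cancel_left,
          (c5 d2).1, (c5 d2).2, add_zero]
      · by_cases d5 : o + z = k
        · have d2 := c3 (by omega)
          have d3 := c4 (by omega) d2
          have d4 : W2 * (o + z) + W1 * z + x - W2 * k = W1 * z + x := by
            rw [d5]
            omega
          refine Or.inr ⟨by rw [d5]; omega, by omega, ?_⟩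
          rw [d4, if_neg d1, if_pos (by omega), if_pos d3, (c5 d2).1, (c5 d2).2, zero_add]
        · left
          rw [if_neg d1, if_neg (by omega)])
  rw [m3]
  refine b4.trans (le_of_eq ?_)
  rw [Nat.and_two_pow_sub_one_eq_mod, Nat.and_two_pow_sub_one_eq_mod, Nat.shiftRight_eq_div_pow,
    Nat.shiftRight_eq_div_pow, hG, horner_eq, e1, pow_mul 2 sw (W2 * k), pow_mul 2 sw (2 * W2),
    pow_mul 2 sw (2 * W2 - 1)]

end Pool.Agent.Lib.MP_1024aa_co.Stat
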