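import Mathlib
import Pool.Agent.Lib.MP_1024aa_co.Extract

/-!
The weights of the game, and tables of static bounds for them.
-/

set_option autoImplicit false

open Finset

namespace Pool.Agent.Lib.MP_1024aa_co.Stat

/-- The static bound `B` holds for the weights `φ`, `ψ`. -/
def StatB (k nO m nm c0 c1 E g : ℕ) (φ : ℕ → ℕ → ℕ → ℕ) (ψ : ℕ → ℕ → ℕ → ℕ → ℕ) (B : ℕ) : Prop :=
  ∀ (V : Type) [DecidableEq V] [Fintype V] (Z C M : Finset V), M ⊆ Z → Disjoint M C →
    (Z ∪ C)ᶜ.card ≤ nO → (Z \ (C ∪ M)).card ≤ m → M.card ≤ nm → (C \ Z).card ≤ c0 →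
    (C ∩ Z).card ≤ c1 → ∀ R : Finset (Sym2 V), (∀ x ∈ Z, ∀ y ∈ Z, s(x, y) ∉ R) → R.card ≤ E →
    ∑ x ∈ Zᶜ, (degZ Z R x - 1) ≤ g → ∑ K : Finset V, SPhi k Z C M φ ψ K (ein R K) < B

theorem StatB.mono {k nO m nm c0 c1 E g nO' m' nm' c0' c1' E' g' B B' : ℕ}
    {φ : ℕ → ℕ → ℕ → ℕ} {ψ : ℕ → ℕ → ℕ → ℕ → ℕ} (h : StatB k nO m nm c0 c1 E g φ ψ B)
    (h1 : nO' ≤ nO) (h2 : m' ≤ m) (h3 : nm' ≤ nm) (h4 : c0' ≤ c0) (h5 : c1' ≤ c1) (h6 : E' ≤ E)
    (h7 : g' ≤ g) (h8 : B ≤ B') : StatB k nO' m' nm' c0' c1' E' g' φ ψ B' :=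
  fun V _ _ Z C M a b c d e f i R j l n => (h V Z C M a b (c.trans h1) (d.trans h2) (e.trans h3)
    (f.trans h4) (i.trans h5) R j (l.trans h6) (n.trans h7)).trans_le h8

/-- Powers of three up to `cp`, then linear. -/
def cv (cp x : ℕ) : ℕ := if x ≤ cp then 3 ^ x else 3 ^ cp + (x - cp) * (2 * 3 ^ (cp - 1))

theorem cv_of_le {cp x : ℕ} (h : x ≤ cp) : cv cp x = 3 ^ x := if_pos h

theorem cv_succ (cp x : ℕ) : cv cp (x + 1) = cv cp x + 2 * 3 ^ min x (cp - 1) := by
  unfold cv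
  rcases lt_trichotomy x cp with h | rfl | h
  · rw [if_pos (show x + 1 ≤ cp from h), if_pos h.le, min_eq_left (by omega), pow_succ]
    ring
  · rw [if_neg (by omega), if_pos le_rfl, min_eq_right (by omega)]
    simp
  · rw [if_neg (by omega), if_neg (by omega), min_eq_right (by omega),
      show x + 1 - cp = x - cp + 1 by omega]
    ring

theorem wokM_of (cp : ℕ → ℕ) (A : ℕ → ℕ → ℕ) (Bc : ℕ → ℕ → ℕ → ℕ)
    (h1 : ∀ j z, A j z ≤ A (j + 1) z) (h2 : ∀ j t z, Bc j t z ≤ A j z)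
    (h3 : ∀ j t z, Bc j t z ≤ Bc (j + 1) t z) :
    WOkM (fun j z x => A j z * cv (cp z) x) (fun j t z x => Bc j t z * cv (cp z) x) := by
  have cx : ∀ a c x, 2 * (a * cv c (x + 1)) ≤ a * cv c x + a * cv c (x + 2) := by
    intro a c x
    have e : 3 ^ min x (c - 1) ≤ 3 ^ min (x + 1) (c - 1) :=
      Nat.pow_le_pow_right (by norm_num) (by omega)
    rw [cv_succ c (x + 1), cv_succ c x]
    nlinarith [Nat.mul_le_mul_left a e]
  have ic : ∀ a b c x, a ≤ b → a * cv c (x + 1) + b * cv c x ≤ b * cv c (x + 1) + a * cv c x := by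
    intro a b c x h
    rw [cv_succ]
    nlinarith [Nat.mul_le_mul_right (3 ^ min x (c - 1)) h]
  exact ⟨fun j => ⟨fun z x => cx _ _ _, fun t z x => cx _ _ _,
    fun t z x => Nat.mul_le_mul_left _ (by rw [cv_succ]; omega),
    fun t z x => ic _ _ _ _ (h2 j t z), fun t z => Nat.mul_le_mul_right _ (h2 j t z)⟩,
    fun j z x => ic _ _ _ _ (h1 j z), fun j t z x => ic _ _ _ _ (h3 j t z)⟩

/-- The prepaid exponent of a set without a centre. -/
def f0 (t mu z : ℕ) : ℕ := min (t + min mu (z / 2)) (2 * z - 3)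

/-- The prepaid exponent of a set with a centre in `Z`; `z` counts the centre. -/
def f1 (t mu z : ℕ) : ℕ := min (min t (z - 1) + min mu ((z - 1) / 2)) (2 * z - 3)

/-- Mode 0: plain weights. Mode 1: three times the weight on sets through both marks. Mode 2:
only the sets through both marks, one of which is a centre. -/
def coefA (t mu mode j z : ℕ) : ℕ :=
  if mode = 2 then (if 2 ≤ j then 3 ^ f1 t mu z else 0)
  else (if mode = 1 ∧ 2 ≤ j then 3 else 1) * 3 ^ f0 t mu z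

def coefB (t mu mode j u z : ℕ) : ℕ :=
  if mode = 2 then 0 else (if mode = 1 ∧ 2 ≤ j then 3 else 1) *
    (if u = 0 then (if z = 0 then 1 else 0) else 3 ^ f1 t mu z)

/-- The weights of the sets without a centre. -/
def phiW (k t mu g mode : ℕ) : ℕ → ℕ → ℕ → ℕ :=
  fun j z x => coefA t mu mode j z * cv (k - max z 1 + g) x

/-- The weights of the sets with one centre. -/
def psiW (k t mu g mode : ℕ) : ℕ → ℕ → ℕ → ℕ → ℕ :=
  fun j u z x => coefB t mu mode j u z * cv (k - max z 1 + g) x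

theorem wokM_W (k t mu g mode : ℕ) : WOkM (phiW k t mu g mode) (psiW k t mu g mode) := by
  refine wokM_of (fun z => k - max z 1 + g) (coefA t mu mode) (coefB t mu mode) ?_ ?_ ?_
  · intro j z
    unfold coefA
    generalize 3 ^ f1 t mu z = p
    generalize 3 ^ f0 t mu z = q
    split_ifs <;> omega
  · intro j u z
    have a : 3 ^ f1 t mu z ≤ 3 ^ f0 t mu z :=
      Nat.pow_le_pow_right (by norm_num) (by unfold f0 f1; omega)
    have b : 1 ≤ 3 ^ f0 t mu z := Nat.one_le_pow _ _ (by norm_num)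
    unfold coefA coefB
    generalize 3 ^ f1 t mu z = p at *
    generalize 3 ^ f0 t mu z = q at *
    split_ifs <;> omega
  · intro j u z
    unfold coefB
    generalize 3 ^ f1 t mu z = p
    split_ifs <;> omega

/-- A row of a table. -/
structure Row : Type where
  c0 : ℕ
  c1 : ℕ
  t : ℕ
  mu : ℕ
  g : ℕ
  mode : ℕ
  B : ℕ

/-- Rows with the same numbers of edges, outer, unmarked inner and marked vertices. -/
structure Grp : Type where
  E : ℕ
  nO : ℕ
  m : ℕ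
  nm : ℕ
  rows : List Row

theorem horner_succ (sw : ℕ) (F : ℕ → ℕ) (n : ℕ) :
    horner sw F (n + 1) = horner sw F n * 2 ^ sw + F n := by
  rw [← Nat.shiftLeft_eq]
  rfl

theorem horner_congr (sw : ℕ) {F G : ℕ → ℕ} (n : ℕ) (h : ∀ q, q < n → F q = G q) :
    horner sw F n = horner sw G n := by
  rw [horner_eq, horner_eq]
  exact sum_congr rfl fun q hq => by rw [h q (mem_range.1 hq)]

theorem horner_mul (sw a : ℕ) (F : ℕ → ℕ) (n : ℕ) :
    horner sw (fun q => a * F q) n = a * horner sw F n := by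
  simp only [horner_eq, mul_sum, mul_assoc]

theorem horner_add (sw : ℕ) (F : ℕ → ℕ) (n m : ℕ) :
    horner sw F (n + m) = horner sw F n * 2 ^ (sw * m) + horner sw (fun q => F (n + q)) m := by
  induction m with
  | zero => simp [horner]
  | succ m ih =>
    rw [← add_assoc, horner_succ, horner_succ, ih]
    ring

theorem horner_nest (sw B : ℕ) (F : ℕ → ℕ) (A : ℕ) :
    horner sw F (B * A) = horner (sw * B) (fun a => horner sw (fun b => F (B * a + b)) B) A := by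
  induction A with
  | zero => rfl
  | succ A ih => rw [mul_add_one, horner_add, horner_succ, ih]

def mnR (a b : ℕ) : ℕ := Nat.sub a (Nat.sub a b)

theorem mnR_eq (a b : ℕ) : mnR a b = min a b := by
  change a - (a - b) = _
  omega

def cvR (cp x : ℕ) : ℕ :=
  cond (Nat.ble x cp) (Nat.pow 3 x)
    (Nat.add (Nat.pow 3 cp) (Nat.mul (Nat.sub x cp) (Nat.mul 2 (Nat.pow 3 (Nat.sub cp 1)))))

theorem cvR_eq (cp x : ℕ) : cvR cp x = cv cp x := by
  unfold cvR cv
  split_ifs with h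
  · rw [Nat.ble_eq_true_of_le h]
    rfl
  · rw [Bool.eq_false_iff.2 fun e => h (Nat.le_of_ble_eq_true e)]
    rfl

noncomputable def cvP (sw Kx cp : ℕ) : ℕ := horner sw (cvR cp) Kx

def f0R (t mu z : ℕ) : ℕ := mnR (Nat.add t (mnR mu (Nat.div z 2))) (Nat.sub (Nat.mul 2 z) 3)

def f1R (t mu z : ℕ) : ℕ :=
  mnR (Nat.add (mnR t (Nat.sub z 1)) (mnR mu (Nat.div (Nat.sub z 1) 2))) (Nat.sub (Nat.mul 2 z) 3)

theorem f0R_eq (t mu z : ℕ) : f0R t mu z = f0 t mu z := by
  simp only [f0R, mnR_eq]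
  rfl

theorem f1R_eq (t mu z : ℕ) : f1R t mu z = f1 t mu z := by
  simp only [f1R, mnR_eq]
  rfl

/-- The factor that depends on the number of marks. -/
def mj (mode j : ℕ) : ℕ := if 2 ≤ j then (if mode = 1 then 3 else 1) else if mode = 2 then 0 else 1

def b0 (c0 c1 t mu mode z : ℕ) : ℕ :=
  cond (Nat.beq mode 2) 0
    (Nat.add (cond (Nat.beq z 0) c0 0) (Nat.mul c1 (Nat.pow 3 (f1R t mu (Nat.succ z)))))

def b1 (t mu mode z : ℕ) : ℕ := Nat.pow 3 (cond (Nat.beq mode 2) (f1R t mu z) (f0R t mu z))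

/-- The packed weights of a row. -/
noncomputable def packW (k Kx J sw c0 c1 t mu g mode : ℕ) : ℕ :=
  Nat.mul (horner (sw * Kx) (mj mode) J) (Nat.add (Nat.shiftLeft
    (horner (sw * (Kx * J)) (fun z => Nat.mul (b0 c0 c1 t mu mode z)
      (frc (cvP sw Kx) (Nat.add (Nat.sub k z) g))) (k + 2)) (sw * (Kx * J * (k + 2))))
    (horner (sw * (Kx * J)) (fun z => Nat.mul (b1 t mu mode z)
      (frc (cvP sw Kx) (Nat.add (Nat.sub k (Nat.sub z 1)) g))) (k + 2)))

theorem packW_eq (k Kx J sw c0 c1 t mu g mode : ℕ) : packW k Kx J sw c0 c1 t mu g mode =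
    horner sw (wq Kx (Kx * J) (Kx * J * (k + 2)) c0 c1 (phiW (k + 1) t mu g mode)
      (psiW (k + 1) t mu g mode)) (2 * (Kx * J * (k + 2))) := by
  have key : ∀ (F : ℕ → ℕ) (a cp : ℕ → ℕ), (∀ z j x, z < k + 2 → j < J → x < Kx →
      F (Kx * J * z + (Kx * j + x)) = mj mode j * (a z * cv (cp z) x)) →
      horner sw F (Kx * J * (k + 2)) = horner (sw * Kx) (mj mode) J *
        horner (sw * (Kx * J)) (fun z => Nat.mul (a z) (frc (cvP sw Kx) (cp z))) (k + 2) := by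
    intro F a cp h
    rw [horner_nest, ← horner_mul]
    refine horner_congr _ _ fun z hz => ?_
    rw [horner_nest, mul_comm (horner _ _ J), ← horner_mul]
    refine horner_congr _ _ fun j hj => ?_
    rw [frc_eq, Nat.mul_eq, mul_comm _ (mj mode j), ← mul_assoc, cvP, ← horner_mul]
    exact horner_congr _ _ fun x hx => by rw [h z j x hz hj hx, cvR_eq, mul_assoc]
  have dm : ∀ z j x, z < k + 2 → j < J → x < Kx →
      Kx * J * z + (Kx * j + x) < Kx * J * (k + 2) ∧ (Kx * J * z + (Kx * j + x)) / (Kx * J) = z ∧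
      (Kx * J * z + (Kx * j + x)) % (Kx * J) / Kx = j ∧
      (Kx * J * z + (Kx * j + x)) % (Kx * J) % Kx = x := by
    intro z j x hz hj hx
    have a : Kx * j + x < Kx * J := by nlinarith [Nat.mul_le_mul_left Kx (Nat.succ_le_of_lt hj)]
    have b : 0 < Kx := by omega
    refine ⟨by nlinarith [Nat.mul_le_mul_left (Kx * J) (Nat.succ_le_of_lt hz)], ?_, ?_, ?_⟩
    · rw [Nat.mul_add_div (by omega), Nat.div_eq_of_lt a, add_zero]
    · rw [Nat.mul_add_mod, Nat.mod_eq_of_lt a, Nat.mul_add_div b, Nat.div_eq_of_lt hx, add_zero]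
    · rw [Nat.mul_add_mod, Nat.mod_eq_of_lt a, Nat.mul_add_mod, Nat.mod_eq_of_lt hx]
  rw [two_mul, horner_add, key _ (b0 c0 c1 t mu mode) (fun z => k - z + g),
    key _ (b1 t mu mode) (fun z => k - (z - 1) + g), mul_assoc, ← mul_add, ← Nat.shiftLeft_eq]
  · rfl
  · intro z j x hz hj hx
    obtain ⟨-, d2, d3, d4⟩ := dm z j x hz hj hx
    have e : k + 1 - max z 1 = k - (z - 1) := by omega
    simp only [wq, if_neg (not_lt.2 (Nat.le_add_right _ _)), Nat.add_sub_cancel_left, d2, d3, d4,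
      phiW, e, ← mul_assoc]
    congr 1
    by_cases m2 : mode = 2 <;> by_cases m1 : mode = 1 <;> by_cases j2 : 2 ≤ j <;>
      simp [coefA, mj, b1, f0R_eq, f1R_eq, m1, m2, j2, Bool.cond_eq_ite]
  · intro z j x hz hj hx
    obtain ⟨d1, d2, d3, d4⟩ := dm z j x hz hj hx
    have e : k + 1 - max (z + 1) 1 = k - z := by omega
    simp only [wq, if_pos d1, d2, d3, d4, psiW, e, ← mul_assoc]
    by_cases z0 : z = 0 <;> by_cases m2 : mode = 2 <;> by_cases m1 : mode = 1 <;>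
      by_cases j2 : 2 ≤ j <;>
      simp [coefB, mj, b0, f1R_eq, m1, m2, j2, z0, Bool.cond_eq_ite] <;>
      first | ring1 | exact Or.inl (by ring1)

noncomputable def mkEnt (k Kx J sw nO m : ℕ) (r : Row) : Ent :=
  ⟨nO + r.c0, m + r.c1, r.g, packW k Kx J sw r.c0 r.c1 r.t r.mu r.g r.mode, r.B⟩

noncomputable def mkFam (k Kx J sw : ℕ) (F : Grp) : Fam :=
  ⟨F.E, F.nO, F.m, F.nm, F.rows.map (mkEnt k Kx J sw F.nO F.m)⟩

/-- The bound for the number of edges, read from the bytes of a number. -/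
def limN (code j : ℕ) : ℕ := Nat.land (Nat.shiftRight code (Nat.mul 8 j)) 255

def selN (a b N : ℕ) : Sel := fun last s c _ uZ e j =>
  (last + 3 * (s + 16 * (c + 32 * (uZ + 32 * (e + 32 * j))))) * a % b % N

noncomputable def sideOk (k Kx sw nm g code : ℕ) (T : List Grp) : Bool :=
  T.all fun F => (Nat.blt F.E Kx || Nat.blt ((k + 1) * k / 2) Kx) && Nat.ble F.nm nm &&
    Nat.ble 1 F.E && Nat.ble F.E (F.nO * (F.nO - 1) / 2) && F.rows.all fun r => Nat.ble r.g g &&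
      (List.range (F.m + r.c1 + F.nm + 1)).all (fun j => Nat.ble F.E (limN code j)) &&
      Nat.blt (2 ^ (F.nO + r.c0 + (F.m + r.c1) + F.nm) *
        (packW k Kx (nm + 1) 0 r.c0 r.c1 r.t r.mu r.g r.mode + 1)) (2 ^ sw)

/-- Part `p` of the check of the table `T` for sets of size `k + 1`. -/
noncomputable def tableR (k Kx sw nm g code : ℕ) (T : List Grp) (a b D n N p : ℕ) : Bool :=
  table k Kx (Kx * (nm + 1)) sw nm g (T.map (mkFam k Kx (nm + 1) sw)) (limN code) (selN a b N)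
    D n p

theorem statB_of_table (k Kx sw nm g code : ℕ) (T : List Grp) (a b D n N : ℕ) (hN : 0 < N)
    (h : ∀ p, p < N → tableR k Kx sw nm g code T a b D n N p = true)
    (hs : sideOk k Kx sw nm g code T = true) (F : Grp) (hF : F ∈ T) (r : Row)
    (hr : r ∈ F.rows) : StatB (k + 1) F.nO F.m F.nm r.c0 r.c1 F.E r.g
      (phiW (k + 1) r.t r.mu r.g r.mode) (psiW (k + 1) r.t r.mu r.g r.mode) r.B := by
  intro V _ _ Z C M a1 a2 a3 a4 a5 a6 a7 R a8 a9 a10
  have b := List.all_eq_true.1 hs F hF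
  simp only [Bool.and_eq_true, Bool.or_eq_true, Nat.blt_eq, Nat.ble_eq, List.all_eq_true,
    List.mem_range] at b
  obtain ⟨⟨⟨⟨b1, b3⟩, b4⟩, b5⟩, b6⟩ := b
  obtain ⟨⟨b7, b8⟩, b9⟩ := b6 r hr
  rw [packW_eq] at b9
  exact static_table k Kx _ sw nm g _ _ _ D n N (fun _ _ _ _ _ _ _ => Nat.mod_lt _ hN) h
    (mkFam k Kx (nm + 1) sw F) (List.mem_map_of_mem hF) (mkEnt k Kx (nm + 1) sw F.nO F.m r)
    (List.mem_map_of_mem hr) r.c0 r.c1 (wokM_W _ _ _ _ _) rfl rfl (packW_eq _ _ _ _ _ _ _ _ _ _) b9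
    (by rw [Nat.choose_two_right]; exact b1) (Nat.mul_le_mul_left _ (Nat.succ_le_succ b3)) b3 b7
    (fun j hj => b8 j (Nat.lt_succ_of_le hj)) b4
    (by rw [Nat.choose_two_right]; exact b5) Z C M a1 a2 a3 a4 a5 a6 a7 R a8 a9 a10

end Pool.Agent.Lib.MP_1024aa_co.Stat
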