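import Pool.Agent.Lib.MP_1024aa_co.Hyb2
import Pool.Agent.Lib.MP_1024aa_co.Table

/-! From static bounds on sums of convex weights to the two ways of entering the reactive stage. -/

set_option autoImplicit false

open Finset

namespace Pool.Agent.Lib.MP_1024aa_co.Glue

open Stat

variable {V : Type} [DecidableEq V] [Fintype V]
variable {k T g t t' mu : ℕ} {s : AS} {R B : Finset (Sym2 V)} {Cd Cs Lv K : Finset V}

/-- A board with abstract state `s`, at most `T` red edges and counter `g`. -/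
structure Brd (k : ℕ) (s : AS) (T g : ℕ) (R B : Finset (Sym2 V)) (Cd Cs : Finset V) : Prop where
  nd : ∀ e ∈ R, ¬ e.IsDiag
  dis : Disjoint R B
  pos : Pos k R B Cd Cs s
  card : R.card ≤ T
  gam : Gam g R (Cd ∪ Cs)

omit [Fintype V] in
theorem ein_sdiff (R Q : Finset (Sym2 V)) (K : Finset V) :
    ein (R \ Q) K = ((R ∩ inner K) \ Q).card := by
  unfold ein
  congr 1
  ext e
  simp only [mem_inter, mem_sdiff]
  tauto

/-- The weight of a set without a blue edge is at most its static weight. -/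
theorem gx_le (h : Brd k s T g R B Cd Cs) (hmu : npair s ≤ mu) (hL : Lv ⊆ Cs)
    (hb : ∀ c ∈ Cs, c ∉ Lv → ∀ x ∈ Cd, s(c, x) ∈ B) (hk : 1 ≤ k) (hK : K.card = k)
    (hB : Disjoint (inner K) B) (ht : min t (2 * k - 3) ≤ t') :
    3 ^ gx R Cd Cs t K ≤ wsel (phiW k t' mu g 0 0) (psiW k t' mu g 0 0) (K ∩ Cs).card
      (K ∩ (Cs ∩ (Cd ∪ Lv))).card (K ∩ (Cd ∪ Lv)).card (ein (R \ inner (Cd ∪ Cs)) K) := by
  rw [ein_sdiff]
  have hdis := h.pos.disj
  have hmat := h.pos.mat h.nd h.dis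
  have hcap := h.gam.1 K
  have hz := gx_le_zone R Cd Cs t K
  have e1 : Cs ∩ (Cd ∪ Lv) = Lv := by
    ext x
    have := @hL x
    have : x ∈ Cd → x ∉ Cs := fun a => disjoint_left.1 hdis a
    simp only [mem_inter, mem_union]
    tauto
  have e2 : (K ∩ (Cd ∪ Cs)).card = (K ∩ Cd).card + (K ∩ Cs).card := by
    rw [inter_union_distrib_left, card_union_of_disjoint
      (disjoint_of_subset_left inter_subset_right (disjoint_of_subset_right inter_subset_right hdis))]
  have e3 : (K ∩ (Cd ∪ Lv)).card = (K ∩ Cd).card + (K ∩ Lv).card := by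
    rw [inter_union_distrib_left, card_union_of_disjoint
      (disjoint_of_subset_left inter_subset_right
        (disjoint_of_subset_right (inter_subset_right.trans hL) hdis))]
  have e4 := card_sdiff_add_card_inter K (Cd ∪ Cs)
  have e5 : (K ∩ Lv).card ≤ (K ∩ Cs).card := card_le_card (inter_subset_inter_left hL)
  have a1 : R ∩ inner K ⊆ ((R ∩ inner K) \ inner (Cd ∪ Cs)) ∪ R ∩ inner (K ∩ Cd) := by
    intro e
    induction e using Sym2.ind with
    | _ x y =>
      have b1 := h.pos.nored x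
      have b2 := h.pos.nored y
      have b3 := h.pos.clq x
      have b4 : s(x, y) ∈ R → s(x, y) ∉ B := fun a => disjoint_left.1 h.dis a
      simp only [mem_inter, mem_union, mem_sdiff, mk_mem_inner]
      rintro ⟨hr, hxy, hx, hy⟩
      by_cases c1 : x ∈ Cd <;> by_cases c2 : y ∈ Cd
      · tauto
      · exact Or.inl ⟨⟨hr, hxy, hx, hy⟩, fun hi => b1 c1 y (hi.2.2.resolve_left c2)
          (Sym2.eq_swap ▸ hr)⟩
      · exact Or.inl ⟨⟨hr, hxy, hx, hy⟩, fun hi => b2 c2 x (hi.2.1.resolve_left c1) hr⟩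
      · exact Or.inl ⟨⟨hr, hxy, hx, hy⟩, fun hi => b4 hr
          (b3 (hi.2.1.resolve_left c1) y (hi.2.2.resolve_left c2) hxy)⟩
  have a2 := (card_le_card a1).trans (card_union_le _ _)
  have a3 := (hmat.mono (inter_subset_right.trans subset_union_left : K ∩ Cd ⊆ _)).two_mul_card_le
  have a4 : (R ∩ inner (K ∩ Cd)).card ≤ mu := by
    rw [← h.pos.card_red h.nd h.dis] at hmu
    exact (card_le_card (inter_subset_inter_left
      (inner_sub (inter_subset_right.trans subset_union_left)))).trans hmu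
  have a5 : (K ∩ Cs).card ≤ 1 := card_le_one.2 fun a ha b hb' => by
    by_contra hne
    exact disjoint_left.1 hB (mk_mem_inner.2 ⟨hne, (mem_inter.1 ha).1, (mem_inter.1 hb').1⟩)
      (h.pos.clq a (mem_inter.1 ha).2 b (mem_inter.1 hb').2 hne)
  rw [e1, e3]
  set x := ((R ∩ inner K) \ inner (Cd ∪ Cs)).card
  have fin : ∀ a f c : ℕ, gx R Cd Cs t K ≤ f + x → a = 3 ^ f → x ≤ c →
      3 ^ gx R Cd Cs t K ≤ a * cv c x := fun a f c h1 h2 h3 => by
    rw [h2]
    exact (Nat.pow_le_pow_right (by omega) h1).trans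
      (by rw [pow_add, cv_of_le h3])
  rcases Nat.le_one_iff_eq_zero_or_eq_one.1 a5 with a6 | a6
  · have a7 : (K ∩ Lv).card = 0 := by omega
    have a8 := gx_le_tau R Cd Cs t K
    rw [a6, a7, add_zero]
    refine fin _ (f0 t' mu (K ∩ Cd).card) _ ?_ (one_mul _) ?_
    · unfold f0
      omega
    · by_cases a9 : (K ∩ Cd).card = 0
      · rw [if_pos ⟨card_pos.1 (by omega), disjoint_iff_inter_eq_empty.2 (card_eq_zero.1
          (by omega))⟩] at hcap
        omega
      · omega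
  · have a8 : ¬ Disjoint K Cs := fun hd => by
      rw [disjoint_iff_inter_eq_empty.1 hd] at a6
      simp at a6
    have a9 := gx_le_centre R Cd t a8
    have a10 := gx_le_tau R Cd Cs t K
    rw [a6]
    rcases Nat.le_one_iff_eq_zero_or_eq_one.1 (e5.trans a5) with a7 | a7
    · have a11 : (K ∩ Cd).card = 0 := by
        obtain ⟨c, hc⟩ := card_pos.1 (show 0 < (K ∩ Cs).card by omega)
        rw [mem_inter] at hc
        refine card_eq_zero.2 (eq_empty_of_forall_notMem fun y hy => ?_)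
        rw [mem_inter] at hy
        refine disjoint_left.1 hB (mk_mem_inner.2 ⟨fun e => ?_, hc.1, hy.1⟩)
          (hb c hc.2 (fun hl => ?_) y hy.2)
        · exact disjoint_left.1 hdis hy.2 (e ▸ hc.2)
        · exact notMem_empty c (card_eq_zero.1 a7 ▸ mem_inter.2 ⟨hc.1, hl⟩)
      rw [a7, a11]
      refine fin _ 0 _ ?_ rfl ?_
      · omega
      · omega
    · rw [a7]
      refine fin _ (f1 t' mu ((K ∩ Cd).card + 1)) _ ?_ (one_mul _) ?_
      · unfold f1
        omega
      · omega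

theorem deg_le (h : Brd k s T g R B Cd Cs) (hL : Lv ⊆ Cs) :
    ∑ x ∈ (Cd ∪ Lv)ᶜ, (degZ (Cd ∪ Lv) (R \ inner (Cd ∪ Cs)) x - 1) ≤ g := by
  unfold degZ
  have hZ : Cd ∪ Lv ⊆ Cd ∪ Cs := union_subset_union_right hL
  refine le_trans ?_ h.gam.2
  rw [← sum_subset (compl_subset_compl.2 hZ) fun x h1 h2 => ?_]
  · refine sum_le_sum fun x _ => Nat.sub_le_sub_right (card_le_card fun y hy => ?_) _
    rw [mem_filter] at hy ⊢
    exact ⟨hZ hy.1, (mem_sdiff.1 hy.2).1⟩
  · have h3 : x ∈ Cd ∪ Cs := by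
      by_contra h3
      exact h2 (mem_compl.2 h3)
    have h4 : ∀ y ∈ Cd ∪ Lv, s(x, y) ∉ R \ inner (Cd ∪ Cs) := fun y hy hr =>
      (mem_sdiff.1 hr).2 (mk_mem_inner.2 ⟨fun e => mem_compl.1 h1 (e ▸ hy), h3, hZ hy⟩)
    rw [filter_eq_empty_iff.2 h4]
    rfl

omit [DecidableEq V] in
theorem sum_all (k : ℕ) (f : Finset V → ℕ) :
    ∑ K ∈ (univ : Finset V).powersetCard k, f K = ∑ K : Finset V, if K.card = k then f K else 0 := by
  rw [powersetCard_eq_filter, powerset_univ, sum_filter]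

/-- The data that place a board in the range of a static bound. -/
structure Fit (n k : ℕ) (s : AS) (T nO m c0 c1 E mu : ℕ) : Prop where
  pos : 1 ≤ k
  out : n + s.1 ≤ nO + nvert s + k
  can : nvert s ≤ m
  live : ∃ d, (∀ i o, mkI i o ∈ s.2 → i ≤ d) ∧ min d (k - s.1) ≤ c1 ∧ k - s.1 ≤ c0 + d
  red : T ≤ E + npair s
  pair : npair s ≤ mu

variable {nO m c0 c1 E : ℕ}

theorem Fit.zone (f : Fit (Fintype.card V) k s T nO m c0 c1 E mu)
    (h : Brd k s T g R B Cd Cs) : ∃ Lv ⊆ Cs, (∀ c ∈ Cs, c ∉ Lv → ∀ x ∈ Cd, s(c, x) ∈ B) ∧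
      (Cd ∪ Cs)ᶜ.card ≤ nO ∧ Cd.card ≤ m ∧ (Cs \ Lv).card ≤ c0 ∧ Lv.card ≤ c1 ∧
      (∀ x ∈ Cd ∪ Lv, ∀ y ∈ Cd ∪ Lv, s(x, y) ∉ R \ inner (Cd ∪ Cs)) ∧
      (R \ inner (Cd ∪ Cs)).card ≤ E := by
  obtain ⟨d, d1, d2, d3⟩ := f.live
  obtain ⟨L0, a1, a2, a3⟩ := h.pos.live d1
  have a4 := h.pos.card_Cs
  obtain ⟨Lv, b1, b2, b3⟩ := exists_subsuperset_card_eq (n := min d Cs.card) a1
    (le_min a2 (card_le_card a1)) (min_le_right _ _)
  have a5 := h.pos.card_zone
  have a6 := f.out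
  have a7 := card_sdiff_add_card_eq_card b2
  have a8 := card_sdiff_add_card_inter R (inner (Cd ∪ Cs))
  have a9 := h.pos.card_red h.nd h.dis
  have a10 := h.card
  have a11 := f.red
  have hZ : Cd ∪ Lv ⊆ Cd ∪ Cs := union_subset_union_right b2
  refine ⟨Lv, b2, fun c hc hl => a3 c hc fun h0 => hl (b1 h0), ?_, h.pos.card_Cd ▸ f.can, by omega,
    by omega, fun x hx y hy hr => ?_, by omega⟩
  · rw [card_compl]
    omega
  · rw [mem_sdiff] at hr
    exact hr.2 (mk_mem_inner.2 ⟨fun e => h.nd _ hr.1 (Sym2.mk_isDiag_iff.2 e), hZ hx, hZ hy⟩)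

omit [Fintype V] in
theorem zone_sets (hd : Disjoint Cd Cs) (hL : Lv ⊆ Cs) : Cd ∪ Lv ∪ Cs = Cd ∪ Cs ∧
    (Cd ∪ Lv) \ Cs = Cd ∧ Cs \ (Cd ∪ Lv) = Cs \ Lv ∧ Cs ∩ (Cd ∪ Lv) = Lv := by
  refine ⟨?_, ?_, ?_, ?_⟩ <;>
  · ext x
    have := @hL x
    have : x ∈ Cd → x ∉ Cs := fun a => disjoint_left.1 hd a
    simp only [mem_inter, mem_union, mem_sdiff]
    tauto

theorem wsel_mode (k t mu g md j c u z x : ℕ) (h : md ≠ 2) :
    wsel (phiW k t mu g md j) (psiW k t mu g md j) c u z x = (if md = 1 ∧ 2 ≤ j then 3 else 1) *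
      wsel (phiW k t mu g 0 0) (psiW k t mu g 0 0) c u z x := by
  match c with
  | 0 => simp [wsel, phiW, coefA, h, mul_assoc]
  | 1 => simp [wsel, psiW, coefB, h, mul_assoc]
  | _ + 2 => rfl

/-- A bound for the potential with a factor for the sets through two marked candidates. -/
theorem phi_lt {md m' nm X : ℕ} (f : Fit (Fintype.card V) k s T nO m c0 c1 E mu) (hmd : md ≠ 2)
    (ht : min t (2 * k - 3) ≤ t')
    (hS : StatB k nO m' nm c0 c1 E g (phiW k t' mu g md) (psiW k t' mu g md) X)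
    (h : Brd k s T g R B Cd Cs) {M : Finset V} (hM : M ⊆ Cd) (hm : M.card ≤ nm)
    (hm' : m ≤ m' + M.card) :
    Phi k (fun K => (if md = 1 ∧ 2 ≤ (K ∩ M).card then 3 else 1) * 3 ^ gx R Cd Cs t K) B < X := by
  obtain ⟨Lv, a1, a2, a3, a4, a5, a6, a7, a8⟩ := f.zone h
  obtain ⟨e1, e2, e3, e4⟩ := zone_sets h.pos.disj a1
  have a9 : ((Cd ∪ Lv) \ (Cs ∪ M)).card ≤ m' := by
    have := card_sdiff_add_card_eq_card hM
    rw [show (Cd ∪ Lv) \ (Cs ∪ M) = ((Cd ∪ Lv) \ Cs) \ M from (sdiff_sdiff _ _ _).symm, e2]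
    omega
  refine lt_of_le_of_lt ?_ (hS V (Cd ∪ Lv) Cs M (hM.trans subset_union_left)
    (disjoint_of_subset_left hM h.pos.disj) (e1.symm ▸ a3) a9 hm (e3.symm ▸ a5) (e4.symm ▸ a6)
    (R \ inner (Cd ∪ Cs)) a7 a8 (deg_le h a1))
  unfold Phi
  rw [sum_all]
  refine sum_le_sum fun K _ => ?_
  unfold SPhi
  by_cases h1 : K.card = k
  · rw [if_pos h1, if_pos h1]
    by_cases h2 : Disjoint (inner K) B
    · rw [if_pos h2, wsel_mode _ _ _ _ _ _ _ _ _ _ hmd]
      exact Nat.mul_le_mul_left _ (gx_le h f.pair a1 a2 f.pos h1 h2 ht)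
    · rw [if_neg h2]
      exact Nat.zero_le _
  · rw [if_neg h1, if_neg h1]

/-- A bound for the weight of the sets through a centre and a candidate. -/
theorem phiE_lt {nm X : ℕ} (f : Fit (Fintype.card V) k s T nO m c0 c1 E mu)
    (ht : min t (2 * k - 3) ≤ t') (hnm : 2 ≤ nm)
    (hS : 1 ≤ m → 1 ≤ c1 →
      StatB k nO (m - 1) nm c0 (c1 - 1) E g (phiW k t' mu g 2) (psiW k t' mu g 2) X)
    (h : Brd k s T g R B Cd Cs) {c v : V} (hc : c ∈ Cs) (hv : v ∈ Cd) (hB : s(c, v) ∉ B) :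
    PhiE k (fun K => 3 ^ gx R Cd Cs t K) B s(c, v) < X := by
  obtain ⟨Lv, a1, a2, a3, a4, a5, a6, a7, a8⟩ := f.zone h
  have hd := h.pos.disj
  obtain ⟨e1, e2, e3, e4⟩ := zone_sets hd a1
  have hl : c ∈ Lv := by
    by_contra hl
    exact hB (a2 c hc hl v hv)
  have hcv : c ≠ v := fun e => disjoint_left.1 hd hv (e ▸ hc)
  have e5 : Cd ∪ Lv ∪ Cs.erase c = Cd ∪ Cs := by
    ext x
    have := @a1 x
    by_cases hx : x = c
    · simp [hx, hl, hc]
    · simp only [mem_union, mem_erase]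
      tauto
  have e6 : (Cd ∪ Lv) \ (Cs.erase c ∪ {c, v}) ⊆ Cd.erase v := fun x => by
    have := @a1 x
    simp only [mem_union, mem_erase, mem_sdiff, mem_insert, mem_singleton]
    tauto
  have e7 : Cs.erase c \ (Cd ∪ Lv) ⊆ Cs \ Lv := fun x => by
    simp only [mem_union, mem_erase, mem_sdiff]
    tauto
  have e8 : Cs.erase c ∩ (Cd ∪ Lv) = Lv.erase c := by
    rw [erase_inter, e4]
  have e9 : Disjoint {c, v} (Cs.erase c) := disjoint_left.2 fun x hx hy => by
    rcases mem_insert.1 hx with rfl | hx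
    · exact notMem_erase _ _ hy
    · exact disjoint_left.1 hd (mem_singleton.1 hx ▸ hv) (mem_of_mem_erase hy)
  refine lt_of_le_of_lt ?_ (hS ((card_pos.2 ⟨v, hv⟩).trans_le a4) ((card_pos.2 ⟨c, hl⟩).trans_le a6)
    V (Cd ∪ Lv) (Cs.erase c) {c, v}
    (insert_subset (mem_union_right _ hl) (singleton_subset_iff.2 (mem_union_left _ hv))) e9
    (e5.symm ▸ a3) ((card_le_card e6).trans (by rw [card_erase_of_mem hv]; omega))
    (card_le_two.trans hnm) ((card_le_card e7).trans a5)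
    (by rw [e8, card_erase_of_mem hl]; omega) (R \ inner (Cd ∪ Cs)) a7 a8 (deg_le h a1))
  unfold PhiE
  rw [sum_all]
  refine sum_le_sum fun K _ => ?_
  unfold SPhi
  split_ifs with h1 h2
  · obtain ⟨-, b1, b2⟩ := mk_mem_inner.1 h2.2
    have b3 : ∀ y ∈ K, y ∈ Cs → y = c := fun y hy hs => by
      by_contra hne
      exact disjoint_left.1 h2.1 (mk_mem_inner.2 ⟨hne, hy, b1⟩) (h.pos.clq y hs c hc hne)
    have b4 : K ∩ Cs = {c} := eq_singleton_iff_unique_mem.2
      ⟨mem_inter.2 ⟨b1, hc⟩, fun y hy => b3 y (mem_inter.1 hy).1 (mem_inter.1 hy).2⟩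
    have b5 : K ∩ Lv = {c} := eq_singleton_iff_unique_mem.2
      ⟨mem_inter.2 ⟨b1, hl⟩, fun y hy => b3 y (mem_inter.1 hy).1 (a1 (mem_inter.1 hy).2)⟩
    have b6 : K ∩ Cs.erase c = ∅ := by rw [inter_erase, b4, erase_singleton]
    have b7 : K ∩ {c, v} = {c, v} :=
      inter_eq_right.2 (insert_subset b1 (singleton_subset_iff.2 b2))
    have b8 := gx_le (t := t) h f.pair a1 a2 f.pos h1 h2.1 ht
    rw [e4, b4, b5, card_singleton] at b8
    rw [b6, b7, card_pair hcv, card_empty]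
    simpa [wsel, phiW, psiW, coefA, coefB] using b8
  · exact Nat.zero_le _
  · exact le_rfl

theorem phi_add_le {w w' : Finset V → ℕ} {e : Sym2 V}
    (hw : ∀ K, (if e ∈ inner K then 3 else 1) * w K ≤ w' K) :
    Phi k w B + 2 * PhiE k w B e ≤ Phi k w' B := by
  unfold Phi PhiE
  rw [mul_sum, ← sum_add_distrib]
  refine sum_le_sum fun K _ => ?_
  have := hw K
  by_cases h1 : Disjoint (inner K) B <;> by_cases h2 : e ∈ inner K <;>
    simp only [h1, h2, if_true, if_false, and_true, and_false] at this ⊢ <;>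
    omega

theorem phiE_le (w : Finset V → ℕ) (e : Sym2 V) : PhiE k w B e ≤ Phi k w B := by
  have := Phi_insert (k := k) (w := w) (B := B) e
  omega

omit [Fintype V] in
theorem gx_insert {e : Sym2 V} (hR : e ∉ R) (he : e ∉ inner (Cd ∪ Cs)) (t : ℕ) (K : Finset V) :
    (if e ∈ inner K then 3 else 1) * 3 ^ gx R Cd Cs t K ≤ 3 ^ gx (insert e R) Cd Cs t K := by
  split_ifs with h
  · rw [← pow_succ']
    refine Nat.pow_le_pow_right (by omega) ?_
    unfold gx
    rw [insert_inter_of_mem h, insert_sdiff_of_notMem _ he,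
      card_insert_of_notMem fun a => hR (mem_inter.1 a).1,
      card_insert_of_notMem fun a => hR (mem_inter.1 (mem_sdiff.1 a).1).1]
    omega
  · unfold gx
    rw [insert_inter_of_notMem h, one_mul]

/-- There is a static bound `X` for weights that are at least those with parameters `t`, `mu`,
`g`. -/
def Has (k nO m nm c0 c1 E g t mu md X : ℕ) : Prop :=
  ∃ g' t' mu', g ≤ g' ∧ min t (2 * k - 3) ≤ t' ∧ mu ≤ mu' ∧
    StatB k nO m nm c0 c1 E g' (phiW k t' mu' g' md) (psiW k t' mu' g' md) X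

theorem Fit.mono {n mu' : ℕ} (f : Fit n k s T nO m c0 c1 E mu) (h : mu ≤ mu') :
    Fit n k s T nO m c0 c1 E mu' :=
  ⟨f.pos, f.out, f.can, f.live, f.red, f.pair.trans h⟩

theorem Brd.mono {g' : ℕ} (h : Brd k s T g R B Cd Cs) (hg : g ≤ g') : Brd k s T g' R B Cd Cs :=
  ⟨h.nd, h.dis, h.pos, h.card, h.gam.mono hg⟩

theorem plain_lt {X : ℕ} (f : Fit (Fintype.card V) k s T nO m c0 c1 E mu)
    (hS : Has k nO m 0 c0 c1 E g t mu 0 X) (h : Brd k s T g R B Cd Cs) :
    Phi k (fun K => 3 ^ gx R Cd Cs t K) B < X := by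
  obtain ⟨g', t', mu', a1, a2, a3, a4⟩ := hS
  simpa using phi_lt (f.mono a3) (by omega) a2 a4 (h.mono a1) (empty_subset _) le_rfl
    (Nat.le_add_right _ _)

theorem sw_of_has {X : ℕ} (f : Fit (Fintype.card V) k s T nO m c0 c1 E mu)
    (hS : Has k nO m 0 c0 c1 E g t mu 0 X) (hX : X ≤ 3 ^ k.choose 2) : SwOK V k s t T g :=
  fun _ _ _ _ a b c d e => (plain_lt f hS ⟨a, b, c, d, e⟩).trans_le hX

theorem cm_of_three {X : ℕ} (f : Fit (Fintype.card V) k s T nO m c0 c1 E mu)
    (hS : Has k nO m 0 c0 c1 E g t mu 0 X) (hX : 3 * X ≤ 3 ^ k.choose 2 + 2) :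
    CmOK V k s t T g := fun R B Cd Cs a b c d e => by
  have h := plain_lt f hS ⟨a, b, c, d, e⟩
  refine ⟨by omega, fun e _ _ _ => ?_⟩
  have := phiE_le (k := k) (B := B) (fun K => 3 ^ gx R Cd Cs t K) e
  omega

theorem cm_of_marks (f : Fit (Fintype.card V) k s T nO m c0 c1 E mu)
    (hw : SwOK V k s t (T + 1) (g + 1))
    (h1 : m < 2 ∨ ∃ X, X ≤ 3 ^ k.choose 2 ∧ Has k nO (m - 2) 2 c0 c1 E g t mu 1 X)
    (h2 : m = 0 ∨ c1 = 0 ∨ ∃ X Y, X + 2 * Y ≤ 3 ^ k.choose 2 + 2 ∧
      Has k nO m 0 c0 c1 E g t mu 0 X ∧ Has k nO (m - 1) 2 c0 (c1 - 1) E g t mu 2 Y) :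
    CmOK V k s t T g := fun R B Cd Cs a b c d e => by
  have h : Brd k s T g R B Cd Cs := ⟨a, b, c, d, e⟩
  refine ⟨hw R B Cd Cs a b c (by omega) (e.mono (by omega)), fun e e1 e2 e3 => ?_⟩
  by_cases he : e ∈ inner (Cd ∪ Cs)
  swap
  · refine (phi_add_le (gx_insert e2 he t)).trans_lt (hw _ B Cd Cs (fun f hf => ?_)
      (disjoint_insert_left.2 ⟨e3, b⟩) (c.wild e1 he) ((card_insert_le _ _).trans (by omega))
      (h.gam.wild he e1))
    rcases mem_insert.1 hf with rfl | hf
    exacts [e1, a f hf]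
  have key : ∀ u ∈ Cs, ∀ v ∈ Cd, s(u, v) ∉ B → Phi k (fun K => 3 ^ gx R Cd Cs t K) B +
      2 * PhiE k (fun K => 3 ^ gx R Cd Cs t K) B s(u, v) < 3 ^ k.choose 2 := by
    intro u hu v hv hB
    rcases h2 with h2 | h2 | ⟨X, Y, a1, a2, g', t', mu', a3, a4, a5, a6⟩
    · exact absurd (phiE_lt (t := t) (X := 0) f (min_le_left _ _) le_rfl (fun _ => by omega) h hu
        hv hB) (Nat.not_lt_zero _)
    · exact absurd (phiE_lt (t := t) (X := 0) f (min_le_left _ _) le_rfl (fun _ _ => by omega) h hu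
        hv hB) (Nat.not_lt_zero _)
    · have b1 := plain_lt f a2 h
      have b2 := phiE_lt (f.mono a5) a4 le_rfl (fun _ _ => a6) (h.mono a3) hu hv hB
      omega
  obtain ⟨u, hu, v, hv, huv, rfl⟩ := mem_inner.1 he
  rcases mem_union.1 hu with hu | hu <;> rcases mem_union.1 hv with hv | hv
  · have hM : ({u, v} : Finset V) ⊆ Cd := insert_subset hu (singleton_subset_iff.2 hv)
    have a0 := card_le_card hM
    rw [card_pair huv, c.card_Cd] at a0
    have a7 : (s.2.map AI.nv).sum ≤ m := f.can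
    obtain ⟨X, a1, g', t', mu', a3, a4, a5, a6⟩ := h1.resolve_left (by omega)
    refine (phi_add_le fun K => ?_).trans_lt ((phi_lt (f.mono a5) (by omega) a4 a6 (h.mono a3) hM
      card_le_two (by rw [card_pair huv]; omega)).trans_le a1)
    refine Nat.mul_le_mul_right _ ?_
    by_cases hK : s(u, v) ∈ inner K
    · obtain ⟨-, b1, b2⟩ := mk_mem_inner.1 hK
      rw [if_pos hK, inter_eq_right.2 (insert_subset b1 (singleton_subset_iff.2 b2)),
        card_pair huv, if_pos ⟨rfl, le_rfl⟩]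
    · rw [if_neg hK]
      split_ifs <;> omega
  · rw [Sym2.eq_swap] at e3 ⊢
    exact key v hv u hu e3
  · exact key u hu v hv e3
  · exact absurd (c.clq u hu v hv huv) e3

section test

/-- some member of the list passes the test -/
noncomputable def anyL {α : Type} (l : List α) (p : α → Bool) : Bool :=
  List.rec (motive := fun _ => Bool) false (fun a _ ih => cond (p a) true ih) l

theorem anyL_sound {α : Type} {p : α → Bool} : ∀ {l : List α}, anyL l p = true →
    ∃ a ∈ l, p a = true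
  | [], h => by simp [anyL] at h
  | a :: l, h => by
    change cond (p a) true (anyL l p) = true at h
    cases e : p a
    · rw [e] at h
      obtain ⟨b, h1, h2⟩ := anyL_sound h
      exact ⟨b, List.mem_cons_of_mem _ h1, h2⟩
    · exact ⟨a, List.mem_cons_self, e⟩

/-- a weighted sum of counts -/
noncomputable def wsum (w l : List ℕ) : ℕ :=
  List.rec (motive := fun _ => List ℕ → ℕ) (fun _ => 0)
    (fun a _ ih l => List.rec (motive := fun _ => ℕ) 0
      (fun c cs _ => Nat.add (Nat.mul a c) (ih cs)) l) w l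

/-- the largest weight with a positive count -/
noncomputable def wmax (w l : List ℕ) : ℕ :=
  List.rec (motive := fun _ => List ℕ → ℕ) (fun _ => 0)
    (fun a _ ih l => List.rec (motive := fun _ => ℕ) 0
      (fun c cs _ => cond (Nat.beq c 0) (ih cs) (max a (ih cs))) l) w l

theorem wsum_eq (f : AI → ℕ) : ∀ (as : List AI) (l : List ℕ),
    ((toMs as l).map f).sum = wsum (as.map f) l
  | [], _ => by simp [toMs, wsum]
  | _ :: _, [] => by simp [toMs, wsum]
  | a :: as, c :: l => by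
    change _ = f a * c + wsum (as.map f) l
    simp [toMs, wsum_eq f as l, mul_comm]

theorem le_wmax (f : AI → ℕ) (x : AI) : ∀ (as : List AI) (l : List ℕ), x ∈ toMs as l →
    f x ≤ wmax (as.map f) l
  | [], _, h => by simp [toMs] at h
  | _ :: _, [], h => by simp [toMs] at h
  | a :: as, c :: l, h => by
    change _ ≤ cond (Nat.beq c 0) (wmax (as.map f) l) (max (f a) (wmax (as.map f) l))
    rw [toMs, Multiset.mem_add, Multiset.mem_replicate] at h
    cases e : Nat.beq c 0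
    · rcases h with h | h
      · exact h.2 ▸ le_max_left _ _
      · exact (le_wmax f x as l h).trans (le_max_right _ _)
    · exact le_wmax f x as l (h.resolve_left fun h => h.1 (Nat.eq_of_beq_eq_true e))

noncomputable def nvW (l : List ℕ) : ℕ := wsum [1, 2, 1, 2, 2, 1, 2, 2, 2, 1, 2, 2, 2, 2] l

noncomputable def npW (l : List ℕ) : ℕ := wsum [0, 1, 0, 1, 1, 0, 1, 1, 1, 0, 1, 1, 1, 1] l

noncomputable def mdW (l : List ℕ) : ℕ := wmax [0, 0, 1, 1, 1, 2, 2, 2, 2, 3, 3, 3, 3, 3] l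

theorem nvert_eq (r : ℕ) (l : List ℕ) : nvert (r, toM l) = nvW l := wsum_eq AI.nv tys l

theorem npair_eq (r : ℕ) (l : List ℕ) : npair (r, toM l) = npW l := by
  have h : ∀ M : Multiset AI, M.countP (fun a => a.2 ≠ none) =
      (M.map fun a => if a.2 = none then 0 else 1).sum := by
    intro M
    induction M using Multiset.induction_on with
    | empty => simp
    | cons a M ih =>
      rw [Multiset.countP_cons, ih, Multiset.map_cons, Multiset.sum_cons, add_comm]
      by_cases h : a.2 = none <;> simp [h]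
  exact (h _).trans (wsum_eq (fun a => if a.2 = none then 0 else 1) tys l)

theorem le_mdW (l : List ℕ) (i : ℕ) (o : Option ℕ) (h : mkI i o ∈ toM l) : i ≤ mdW l := by
  refine le_trans ?_ (le_wmax (fun a => max a.1 (a.2.getD 0)) _ tys l h)
  cases o with
  | none => exact le_max_left _ _
  | some j => exact (le_max_left i j).trans (le_max_right _ _)

/-- All rows of the table hold. -/
def TabOK (k : ℕ) (tab : List Grp) : Prop :=
  ∀ F ∈ tab, ∀ r ∈ F.rows, StatB k F.nO F.m F.nm r.c0 r.c1 F.E r.g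
    (phiW k r.t r.mu r.g r.mode) (psiW k r.t r.mu r.g r.mode) r.B

theorem TabOK.append {A A' : List Grp} (h : TabOK k A) (h' : TabOK k A') : TabOK k (A ++ A') :=
  fun F hF => (List.mem_append.1 hF).elim (h F) (h' F)

/-- The search for a row that covers the given parameters and whose bound passes the test. -/
noncomputable def find (tab : List Grp) (nO m nm c0 c1 E g t mu md : ℕ) (P : ℕ → Bool) : Bool :=
  anyL tab fun F => cond (Nat.ble m F.m) (cond (Nat.ble E F.E) (cond (Nat.ble nO F.nO)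
    (cond (Nat.ble nm F.nm) (anyL F.rows fun r => cond (Nat.ble g r.g) (cond (Nat.ble t r.t)
      (cond (Nat.ble mu r.mu) (cond (Nat.ble c1 r.c1) (cond (Nat.ble c0 r.c0)
        (cond (Nat.beq md r.mode) (P r.B) false) false) false) false) false) false)
      false) false) false) false

theorem cond_true {a b : Bool} (h : cond a b false = true) : a = true ∧ b = true := by
  cases a
  · exact absurd h (by simp)
  · exact ⟨rfl, h⟩

theorem cond_or {a b : Bool} (h : cond a true b = true) : a = true ∨ b = true := by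
  cases a
  · exact Or.inr h
  · exact Or.inl rfl

theorem cond_true' (a b : Bool) : cond true a b = a := rfl

theorem find_sound {tab : List Grp} (hT : TabOK k tab) {nm md : ℕ} {P : ℕ → Bool}
    (h : find tab nO m nm c0 c1 E g (min t (2 * k - 3)) mu md P = true) :
    ∃ X, P X = true ∧ Has k nO m nm c0 c1 E g t mu md X := by
  obtain ⟨F, hF, h⟩ := anyL_sound h
  obtain ⟨a1, h⟩ := cond_true h
  obtain ⟨a2, h⟩ := cond_true h
  obtain ⟨a3, h⟩ := cond_true h
  obtain ⟨a4, h⟩ := cond_true h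
  obtain ⟨r, hr, h⟩ := anyL_sound h
  obtain ⟨b1, h⟩ := cond_true h
  obtain ⟨b2, h⟩ := cond_true h
  obtain ⟨b3, h⟩ := cond_true h
  obtain ⟨b4, h⟩ := cond_true h
  obtain ⟨b5, h⟩ := cond_true h
  obtain ⟨b6, b7⟩ := cond_true h
  rw [Nat.eq_of_beq_eq_true b6]
  exact ⟨r.B, b7, r.g, r.t, r.mu, Nat.le_of_ble_eq_true b1, Nat.le_of_ble_eq_true b2,
    Nat.le_of_ble_eq_true b3, (hT F hF r hr).mono (Nat.le_of_ble_eq_true a3)
      (Nat.le_of_ble_eq_true a1) (Nat.le_of_ble_eq_true a4) (Nat.le_of_ble_eq_true b5)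
      (Nat.le_of_ble_eq_true b4) (Nat.le_of_ble_eq_true a2) le_rfl le_rfl⟩

/-- The parameters of a record: outer vertices, candidates, old and live centres, pairs and the
number of zone moves. -/
noncomputable def pars (k N d c : ℕ) (f : ℕ → ℕ → ℕ → ℕ → ℕ → ℕ → Bool) : Bool :=
  forceL (recL d c) fun l => force (recR c) fun r => force (nvW l) fun m => force (mdW l) fun u =>
    force (N + r - (m + k)) fun nO => force (k - r - u) fun c0 => force (min u (k - r)) fun c1 =>
      force (npW l) fun mu => force (min (recT c) (2 * k - 3)) fun t => f nO m c0 c1 mu t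

theorem pars_eq (k N d c : ℕ) (f : ℕ → ℕ → ℕ → ℕ → ℕ → ℕ → Bool) : pars k N d c f =
    f (N + recR c - (nvW (recL d c) + k)) (nvW (recL d c)) (k - recR c - mdW (recL d c))
      (min (mdW (recL d c)) (k - recR c)) (npW (recL d c)) (min (recT c) (2 * k - 3)) := by
  simp only [pars, forceL_eq, force_eq]

theorem fit_rec {n N : ℕ} (hk : 1 ≤ k) (hn : n ≤ N) (r T : ℕ) (l : List ℕ) :
    Fit n k (r, toM l) T (N + r - (nvW l + k)) (nvW l) (k - r - mdW l) (min (mdW l) (k - r))
      (T - npW l) (npW l) :=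
  ⟨hk, by rw [nvert_eq]; dsimp only; omega, (nvert_eq r l).le,
    ⟨mdW l, le_mdW l, le_rfl, by dsimp only; omega⟩, by rw [npair_eq]; omega, (npair_eq r l).le⟩

/-- The test for blocking from now on; `L` is `3 ^ k.choose 2`, and `tab m md` lists the groups
that are searched for `m` unmarked candidates and mode `md`. -/
noncomputable def swB (tab : ℕ → ℕ → List Grp) (k N d L c T g : ℕ) : Bool :=
  pars k N d c fun nO m c0 c1 mu t => force (T - mu) fun E => force g fun g =>
    find (tab m 0) nO m 0 c0 c1 E g t mu 0 fun X => Nat.ble X L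

/-- The test for the invariant of the reactive stage. -/
noncomputable def cmB (tab : ℕ → ℕ → List Grp) (k N d L c T g : ℕ) : Bool :=
  pars k N d c fun nO m c0 c1 mu t => force (T - mu) fun E => force g fun g =>
    cond (find (tab m 0) nO m 0 c0 c1 E g t mu 0 fun X => Nat.ble (3 * X) (L + 2)) true
      (cond (force (T + 1 - mu) fun E1 => force (g + 1) fun g1 =>
          find (tab m 0) nO m 0 c0 c1 E1 g1 t mu 0 fun X => Nat.ble X L)
        (cond (cond (Nat.ble 2 m) (force (m - 2) fun m2 =>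
            find (tab m2 1) nO m2 2 c0 c1 E g t mu 1 fun X => Nat.ble X L) true)
          (cond (Nat.beq (m * c1) 0) true (force (m - 1) fun m1 => force (c1 - 1) fun c2 =>
            find (tab m1 2) nO m1 2 c0 c2 E g t mu 2 fun Y =>
              find (tab m 0) nO m 0 c0 c1 E g t mu 0 fun X => Nat.ble (X + 2 * Y) (L + 2)))
          false) false)

variable {tab : ℕ → ℕ → List Grp} {N d L : ℕ}

theorem swB_sound (hT : ∀ m md, TabOK k (tab m md)) (hk : 1 ≤ k) (hN : Fintype.card V ≤ N)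
    (hL : L = 3 ^ k.choose 2) (c T g : ℕ) (h : swB tab k N d L c T g = true) :
    SwOK V k (recR c, toM (recL d c)) (recT c) T g := by
  simp only [swB, pars_eq, force_eq] at h
  obtain ⟨X, a1, a2⟩ := find_sound (hT _ _) h
  exact sw_of_has (fit_rec hk hN _ _ _) a2 (hL ▸ Nat.le_of_ble_eq_true a1)

theorem cmB_sound (hT : ∀ m md, TabOK k (tab m md)) (hk : 1 ≤ k) (hN : Fintype.card V ≤ N)
    (hL : L = 3 ^ k.choose 2) (c T g : ℕ) (h : cmB tab k N d L c T g = true) :
    CmOK V k (recR c, toM (recL d c)) (recT c) T g := by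
  simp only [cmB, pars_eq, force_eq] at h
  have f1 := fit_rec hk hN (recR c) T (recL d c)
  have f2 := fit_rec hk hN (recR c) (T + 1) (recL d c)
  generalize N + recR c - (nvW (recL d c) + k) = nO at h f1 f2
  generalize k - recR c - mdW (recL d c) = c0 at h f1 f2
  generalize min (mdW (recL d c)) (k - recR c) = c1 at h f1 f2
  generalize nvW (recL d c) = m at h f1 f2
  generalize npW (recL d c) = mu at h f1 f2
  rcases cond_or h with h | h
  · obtain ⟨X, a1, a2⟩ := find_sound (hT _ _) h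
    exact cm_of_three f1 a2 (hL ▸ Nat.le_of_ble_eq_true a1)
  obtain ⟨h1, h⟩ := cond_true h
  obtain ⟨h2, h3⟩ := cond_true h
  obtain ⟨X, a1, a2⟩ := find_sound (hT _ _) h1
  refine cm_of_marks f1 (sw_of_has f2 a2 (hL ▸ Nat.le_of_ble_eq_true a1)) ?_ ?_
  · by_cases e : m < 2
    · exact Or.inl e
    · rw [Nat.ble_eq_true_of_le (Nat.le_of_not_lt e), cond_true'] at h2
      obtain ⟨Y, b1, b2⟩ := find_sound (hT _ _) h2
      exact Or.inr ⟨Y, hL ▸ Nat.le_of_ble_eq_true b1, b2⟩
  · rcases cond_or h3 with h3 | h3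
    · exact (Nat.mul_eq_zero.1 (Nat.eq_of_beq_eq_true h3)).imp_right Or.inl
    · obtain ⟨Y, b1, b2⟩ := find_sound (hT _ _) h3
      obtain ⟨Z, b3, b4⟩ := find_sound (hT _ _) b1
      exact Or.inr (Or.inr ⟨Z, Y, hL ▸ Nat.le_of_ble_eq_true b3, b4, b2⟩)

/-- The part of a certificate that depends on the static bounds. -/
theorem ctx_ok (X : Ctx) (hT : ∀ m md, TabOK k (tab m md)) (hk : 1 ≤ k) (hN : Fintype.card V ≤ N)
    (hL : L = 3 ^ k.choose 2) (hsh : ShOk X.sh)
    (hwin : ∀ j < X.N, WinB (recT (X.tb j)) (recR (X.tb j), toM (recL X.d (X.tb j))))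
    (hsw : X.sw = swB tab k N X.d L) (hcm : X.cm = cmB tab k N X.d L) : X.Ok V k :=
  ⟨hsh, hwin, fun c T g h => swB_sound hT hk hN hL c T g (hsw ▸ h),
    fun c T g h => cmB_sound hT hk hN hL c T g (hcm ▸ h)⟩

end test

end Pool.Agent.Lib.MP_1024aa_co.Glue
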