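import Pool.Agent.Lib.MP_1024aa_co.Cap

/-! The first stage: the builder always builds, and one counter controls the red edges that are
not inside the zone. -/

set_option autoImplicit false
set_option linter.unusedSectionVars false

open Finset

namespace Pool.Agent.Lib.MP_1024aa_co

variable {V : Type*} [DecidableEq V] [Fintype V]

/-- The counter `g` bounds the excess of red edges outside the zone `Z`. -/
def Gam (g : ℕ) (R : Finset (Sym2 V)) (Z : Finset V) : Prop :=
  (∀ S : Finset V, ((R ∩ inner S) \ inner Z).card + (if S.Nonempty ∧ Disjoint S Z then 1 else 0) ≤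
    (S \ Z).card + g) ∧
  ∑ x ∈ Zᶜ, ((Z.filter fun y => s(x, y) ∈ R).card - 1) ≤ g

section gam

variable {g g' : ℕ} {R : Finset (Sym2 V)} {Z Z' : Finset V}

lemma Gam.mono (h : Gam g R Z) (hg : g ≤ g') : Gam g' R Z :=
  ⟨fun S => (h.1 S).trans (by omega), h.2.trans hg⟩

lemma Gam.empty (Z : Finset V) : Gam 0 (∅ : Finset (Sym2 V)) Z := by
  refine ⟨fun S => ?_, by simp⟩
  split_ifs with h
  · rw [sdiff_eq_self_of_disjoint h.2]
    simpa using card_pos.2 h.1
  · simp

lemma Gam.inside (h : Gam g R Z) {e : Sym2 V} (he : e ∈ inner Z) : Gam g (insert e R) Z := by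
  refine ⟨fun S => ?_, le_trans (le_of_eq (sum_congr rfl fun x hx => ?_)) h.2⟩
  · have : (insert e R ∩ inner S) \ inner Z = (R ∩ inner S) \ inner Z := by
      ext f
      simp only [mem_sdiff, mem_inter, mem_insert]
      constructor
      · rintro ⟨⟨rfl | a, b⟩, c⟩
        exacts [absurd he c, ⟨⟨a, b⟩, c⟩]
      · exact fun ⟨⟨a, b⟩, c⟩ => ⟨⟨Or.inr a, b⟩, c⟩
    rw [this]
    exact h.1 S
  · congr 2
    refine filter_congr fun y _ => ?_
    rw [mem_insert]
    refine or_iff_right ?_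
    rintro rfl
    exact mem_compl.1 hx (mk_mem_inner.1 he).2.1

lemma Gam.wild (h : Gam g R Z) {e : Sym2 V} (he : e ∉ inner Z) (hd : ¬ e.IsDiag) :
    Gam (g + 1) (insert e R) Z := by
  refine ⟨fun S => ?_, ?_⟩
  · have h1 := cap_insert (R := R) (Z := Z) e S
    have h2 := h.1 S
    split_ifs at h1 h2 ⊢ <;> omega
  · obtain ⟨u, v, rfl, huv, hu⟩ := wild_cases hd he
    have key : ∀ x ∈ Zᶜ, (Z.filter fun y => s(x, y) ∈ insert s(u, v) R).card - 1 ≤
        ((Z.filter fun y => s(x, y) ∈ R).card - 1) + if x = u then 1 else 0 := by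
      intro x hx
      split_ifs with hxu
      · subst hxu
        have : (Z.filter fun y => s(x, y) ∈ insert s(x, v) R) ⊆
            insert v (Z.filter fun y => s(x, y) ∈ R) := by
          intro y hy
          simp only [mem_filter, mem_insert, Sym2.congr_right] at hy ⊢
          tauto
        have := (card_le_card this).trans (card_insert_le _ _)
        omega
      · have : (Z.filter fun y => s(x, y) ∈ insert s(u, v) R) ⊆
            Z.filter fun y => s(x, y) ∈ R := by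
          intro y hy
          simp only [mem_filter, mem_insert, Sym2.eq_iff] at hy ⊢
          rcases hy with ⟨a, (⟨b, -⟩ | ⟨-, b⟩) | b⟩
          exacts [absurd b hxu, absurd (b ▸ a) hu, ⟨a, b⟩]
        have := card_le_card this
        omega
    refine (sum_le_sum key).trans ?_
    rw [sum_add_distrib, sum_ite_eq' Zᶜ u fun _ => 1]
    have := h.2
    split_ifs <;> omega

/-- One vertex leaves the zone. -/
lemma Gam.leave1 (h : Gam g R Z) {x : V} (hx : x ∈ Z) {j : ℕ}
    (hj : ((Z.erase x).filter fun y => s(x, y) ∈ R).card ≤ 1 + j) : Gam (g + j) R (Z.erase x) := by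
  refine ⟨fun S => ?_, ?_⟩
  · have h1 := h.1 S
    by_cases hS : x ∈ S
    · have e1 : S \ Z.erase x = insert x (S \ Z) := by
        ext y
        simp only [mem_sdiff, mem_erase, mem_insert]
        by_cases hy : y = x <;> simp [hy, hS]
      have e2 : (R ∩ inner S) \ inner (Z.erase x) ⊆ ((R ∩ inner S) \ inner Z) ∪
          ((S ∩ Z.erase x).filter fun y => s(x, y) ∈ R).image fun y => s(x, y) := by
        intro f hf
        obtain ⟨a, b⟩ := mem_sdiff.1 hf
        by_cases hz : f ∈ inner Z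
        swap
        · exact mem_union_left _ (mem_sdiff.2 ⟨a, hz⟩)
        refine mem_union_right _ ?_
        induction f using Sym2.ind with
        | _ u v =>
          simp only [mem_inter, mk_mem_inner, mem_erase] at a b hz
          by_cases hu : u = x
          · subst hu
            exact mem_image.2 ⟨v, by simp [a.1, a.2.2.2, hz.2.2, hz.1.symm], rfl⟩
          · have hv : v = x := by tauto
            subst hv
            exact mem_image.2 ⟨u, by simp [Sym2.eq_swap ▸ a.1, a.2.2.1, hz.2.1, hu], Sym2.eq_swap⟩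
      have e3 := (card_le_card e2).trans ((card_union_le _ _).trans
        (Nat.add_le_add_left card_image_le _))
      have e4 : ((S ∩ Z.erase x).filter fun y => s(x, y) ∈ R).card ≤ 1 + j :=
        (card_le_card (filter_subset_filter _ inter_subset_right)).trans hj
      rw [e1, card_insert_of_notMem fun hm => (mem_sdiff.1 hm).2 hx]
      rw [if_neg fun hc => disjoint_left.1 hc.2 hS hx] at h1
      split_ifs with hc
      · rw [disjoint_iff_inter_eq_empty.1 hc.2] at e3
        simp only [filter_empty, card_empty] at e3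
        omega
      · omega
    · have e1 : S \ Z.erase x = S \ Z := by
        ext y
        simp only [mem_sdiff, mem_erase]
        exact and_congr_right fun hy => not_congr (and_iff_right fun e => hS (e ▸ hy))
      have e2 : (R ∩ inner S) \ inner (Z.erase x) = (R ∩ inner S) \ inner Z := by
        ext f
        induction f using Sym2.ind with
        | _ u v =>
          simp only [mem_sdiff, mem_inter, mk_mem_inner, mem_erase]
          refine and_congr_right fun hy => not_congr ?_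
          have a1 : u ≠ x := fun e => hS (e ▸ hy.2.2.1)
          have a2 : v ≠ x := fun e => hS (e ▸ hy.2.2.2)
          tauto
      have e3 : Disjoint S (Z.erase x) ↔ Disjoint S Z := by
        rw [← Finset.sdiff_eq_self_iff_disjoint, ← Finset.sdiff_eq_self_iff_disjoint, e1]
      rw [e1, e2]
      simp only [e3]
      omega
  · rw [compl_erase, sum_insert (by simpa using hx)]
    have : ∑ y ∈ Zᶜ, (((Z.erase x).filter fun z => s(y, z) ∈ R).card - 1) ≤
        ∑ y ∈ Zᶜ, ((Z.filter fun z => s(y, z) ∈ R).card - 1) :=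
      sum_le_sum fun y _ =>
        Nat.sub_le_sub_right (card_le_card (filter_subset_filter _ (erase_subset _ _))) 1
    have := h.2
    omega

/-- Vertices with at most one red edge into the zone leave it. -/
lemma Gam.leave (h : Gam g R Z) (hZ : Z' ⊆ Z)
    (hd : ∀ x ∈ Z, x ∉ Z' → ∀ y ∈ Z, ∀ y' ∈ Z, s(x, y) ∈ R → s(x, y') ∈ R → y = y') :
    Gam g R Z' := by
  induction hn : (Z \ Z').card generalizing Z with
  | zero => rwa [Subset.antisymm hZ (sdiff_eq_empty_iff_subset.1 (card_eq_zero.1 hn))]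
  | succ n ih =>
    obtain ⟨x, hx⟩ : (Z \ Z').Nonempty := card_pos.1 (by omega)
    obtain ⟨a, b⟩ := mem_sdiff.1 hx
    refine ih (h.leave1 a (j := 0) (card_le_one.2 fun y hy y' hy' => ?_))
      (fun y hy => mem_erase.2 ⟨fun e => b (e ▸ hy), hZ hy⟩) (fun u hu c y hy y' hy' =>
        hd u (mem_of_mem_erase hu) c y (mem_of_mem_erase hy) y' (mem_of_mem_erase hy')) ?_
    · simp only [mem_filter, mem_erase] at hy hy'
      exact hd x a b y hy.1.2 y' hy'.1.2 hy.2 hy'.2
    · rw [erase_sdiff_comm, card_erase_of_mem hx, hn]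
      rfl

lemma Gam.leave_mat (h : Gam g R Z) (hM : Mat R Z) (hZ : Z' ⊆ Z) : Gam g R Z' :=
  h.leave hZ fun x hx _ => hM x hx

/-- A zone move whose edge stays inside the zone. -/
lemma Gam.keep (h : Gam g R Z) (hM : Mat R Z) (hZ : Z' ⊆ Z) {e : Sym2 V} (he : e ∈ inner Z') :
    Gam g (insert e R) Z' := (h.leave_mat hM hZ).inside he

/-- A zone move whose edge leaves the zone. -/
lemma Gam.drop (h : Gam g R Z) (hM : Mat R Z) (hZ : Z' ⊆ Z) {e : Sym2 V} (he : e ∈ inner Z)
    (he' : e ∉ inner Z') :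
    Gam (g + if (insert e R ∩ inner Z').card < (R ∩ inner Z).card then 1 else 0)
      (insert e R) Z' := by
  obtain ⟨x, v, rfl, hxv, hx⟩ := wild_cases (fun hd => by
    obtain ⟨u, -, w, -, huw, rfl⟩ := mem_inner.1 he
    exact huw (Sym2.mk_isDiag_iff.1 hd)) he'
  have hxZ := (mk_mem_inner.1 he).2.1
  have hs : Z' ⊆ Z.erase x := fun y hy => mem_erase.2 ⟨fun e => hx (e ▸ hy), hZ hy⟩
  refine ((h.inside he).leave1 hxZ ?_).leave_mat ?_ hs
  · have e1 : ((Z.erase x).filter fun y => s(x, y) ∈ insert s(x, v) R) ⊆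
        insert v ((Z.erase x).filter fun y => s(x, y) ∈ R) := by
      intro y hy
      simp only [mem_filter, mem_insert, Sym2.congr_right] at hy ⊢
      tauto
    have e2 := (card_le_card e1).trans (card_insert_le _ _)
    have e3 : ((Z.erase x).filter fun y => s(x, y) ∈ R).card ≤ 1 :=
      card_le_one.2 fun y hy y' hy' => by
        simp only [mem_filter, mem_erase] at hy hy'
        exact hM x hxZ y hy.1.2 y' hy'.1.2 hy.2 hy'.2
    split_ifs with hc
    · omega
    · have : ((Z.erase x).filter fun y => s(x, y) ∈ R) = ∅ := by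
        refine eq_empty_of_forall_notMem fun y hy => hc (card_lt_card ?_)
        simp only [mem_filter, mem_erase] at hy
        rw [insert_inter_of_notMem he']
        exact (ssubset_iff_of_subset (inter_subset_inter_left (inner_sub hZ))).2 ⟨s(x, y),
          mem_inter.2 ⟨hy.2, mk_mem_inner.2 ⟨hy.1.1.symm, hxZ, hy.1.2⟩⟩,
          fun hm => hx (mk_mem_inner.1 (mem_inter.1 hm).2).2.1⟩
      rw [this] at e2
      simpa using e2
  · have key : ∀ a ∈ Z.erase x, ∀ b ∈ Z.erase x, s(a, b) ∈ insert s(x, v) R → s(a, b) ∈ R := by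
      intro a ha b hb hm
      refine (mem_insert.1 hm).resolve_left fun e => ?_
      rcases Sym2.eq_iff.1 e with ⟨c, -⟩ | ⟨-, c⟩
      exacts [(mem_erase.1 ha).1 c, (mem_erase.1 hb).1 c]
    exact fun a ha b hb c hc h1 h2 => hM a (mem_of_mem_erase ha) b (mem_of_mem_erase hb) c
      (mem_of_mem_erase hc) (key a ha b hb h1) (key a ha c hc h2)

/-- A small counter excludes a red clique. -/
lemma Gam.card_le (h : Gam g R Z) (hM : Mat R Z) {K : Finset V} (hK : K.Nonempty) :
    (R ∩ inner K).card ≤ K.card - 1 + g := by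
  have h1 := h.1 K
  have h2 := (hM.mono (inter_subset_right (s₁ := K))).two_mul_card_le
  have h3 : R ∩ inner K ⊆ ((R ∩ inner K) \ inner Z) ∪ (R ∩ inner (K ∩ Z)) := by
    intro f
    simp only [mem_sdiff, mem_inter, mem_union, mem_inner_inter]
    tauto
  have h4 := (card_le_card h3).trans (card_union_le _ _)
  have h5 := card_sdiff_add_card_inter K Z
  have h6 := card_pos.2 hK
  split_ifs at h1 with hc
  · rw [disjoint_iff_inter_eq_empty.1 hc.2, card_empty] at h2 h5
    rw [disjoint_iff_inter_eq_empty.1 hc.2] at h4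
    omega
  · have := card_pos.2 (not_disjoint_iff_nonempty_inter.1 fun hd => hc ⟨hK, hd⟩)
    omega

end gam

variable (V) in
/-- In every position with abstract state `s`, at most `T` red edges and counter `g`, the
potential for the bound `t` is small. -/
def SwOK (k : ℕ) (s : AS) (t T g : ℕ) : Prop :=
  ∀ (R B : Finset (Sym2 V)) (Cd Cs : Finset V), (∀ e ∈ R, ¬ e.IsDiag) → Disjoint R B →
    Pos k R B Cd Cs s → R.card ≤ T → Gam g R (Cd ∪ Cs) →
    Phi k (fun K => 3 ^ gx R Cd Cs t K) B < 3 ^ k.choose 2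

variable (V) in
/-- In every such position the potential satisfies the invariant of the reactive stage. -/
def CmOK (k : ℕ) (s : AS) (t T g : ℕ) : Prop :=
  ∀ (R B : Finset (Sym2 V)) (Cd Cs : Finset V), (∀ e ∈ R, ¬ e.IsDiag) → Disjoint R B →
    Pos k R B Cd Cs s → R.card ≤ T → Gam g R (Cd ∪ Cs) →
    Phi k (fun K => 3 ^ gx R Cd Cs t K) B < 3 ^ k.choose 2 ∧
    ∀ e, ¬ e.IsDiag → e ∉ R → e ∉ B → Phi k (fun K => 3 ^ gx R Cd Cs t K) B +
      2 * PhiE k (fun K => 3 ^ gx R Cd Cs t K) B e < 3 ^ k.choose 2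

variable (V) in
/-- The builder to move switches to the reactive stage by two blocks, or builds and reaches a
node or the invariant of the reactive stage. -/
def After (k : ℕ) (Nd : AS → ℕ → ℕ → Prop) (s : AS) (T g : ℕ) : Prop :=
  (∃ s' t, Reply 0 s s' ∧ WinB t s' ∧ SwOK V k s' t T g) ∨
  ∃ s', Reply 2 s s' ∧ ((∃ T' g', T ≤ T' ∧ g ≤ g' ∧ Nd s' T' g') ∨
    ∃ t, WinB t s' ∧ CmOK V k s' t T g)

variable (V) in
/-- The nodes are closed under all moves of the first player. -/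
def Closed (k : ℕ) (Nd : AS → ℕ → ℕ → Prop) : Prop :=
  ∀ s T g, Nd s T g → (T < k.choose 2 ∨ k - 1 + g < k.choose 2) ∧
    After V k Nd s (T + 1) (g + 1) ∧
    Cond2 (fun s1 => After V k Nd s1 (T + 1) (g + if npair s1 < npair s then 1 else 0))
      (fun s1 => After V k Nd s1 (T + 1) g) s

/-- the invariant of the first stage -/
def Inv1 (k : ℕ) (Nd : AS → ℕ → ℕ → Prop) (R B : Finset (Sym2 V)) : Prop :=
  ∃ Cd Cs s T g, Nd s T g ∧ Pos k R B Cd Cs s ∧ R.card ≤ T ∧ Gam g R (Cd ∪ Cs)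

variable {k : ℕ} {Nd : AS → ℕ → ℕ → Prop} {R B : Finset (Sym2 V)}

lemma After.mono {s : AS} {T g g' : ℕ} (h : After V k Nd s T g') (hg : g ≤ g') :
    After V k Nd s T g := by
  rcases h with ⟨s', t, a, b, c⟩ | ⟨s', a, ⟨T', g2, b, c, d⟩ | ⟨t, b, c⟩⟩
  · exact Or.inl ⟨s', t, a, b, fun R B Cd Cs h1 h2 h3 h4 h5 => c R B Cd Cs h1 h2 h3 h4 (h5.mono hg)⟩
  · exact Or.inr ⟨s', a, Or.inl ⟨T', g2, b, hg.trans c, d⟩⟩
  · exact Or.inr ⟨s', a, Or.inr ⟨t, b, fun R B Cd Cs h1 h2 h3 h4 h5 =>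
      c R B Cd Cs h1 h2 h3 h4 (h5.mono hg)⟩⟩

theorem After.play {s : AS} {T g : ℕ} (h : After V k Nd s T g) {Cd Cs : Finset V}
    (hR : ∀ e ∈ R, ¬ e.IsDiag) (hd : Disjoint R B) (hp : Pos k R B Cd Cs s) (hT : R.card ≤ T)
    (hg : Gam g R (Cd ∪ Cs)) : ∃ F, F.card ≤ 2 ∧ (∀ f ∈ F, f ∉ R ∧ f ∉ B ∧ ¬ f.IsDiag) ∧
      (Inv1 k Nd R (B ∪ F) ∨ Inv2 k R (B ∪ F)) := by
  have key : ∀ {b s'}, Reply b s s' → ∃ F Cd' Cs', F.card ≤ b ∧
      (∀ f ∈ F, f ∉ R ∧ f ∉ B ∧ ¬ f.IsDiag) ∧ Disjoint R (B ∪ F) ∧ Pos k R (B ∪ F) Cd' Cs' s' ∧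
      Gam g R (Cd' ∪ Cs') := by
    intro b s' a
    obtain ⟨F, Cd', Cs', b1, b2, b3, -, b5, b6⟩ := hp.reply hR a
    exact ⟨F, Cd', Cs', b1, b2, disjoint_union_right.2 ⟨hd, disjoint_right.2 fun f hf => (b2 f hf).1⟩,
      b6, hg.leave_mat (hp.mat hR hd) (union_subset (b3.trans subset_union_left) b5)⟩
  rcases h with ⟨s', t, a, b, c⟩ | ⟨s', a, h⟩
  · obtain ⟨F, Cd', Cs', b1, -, b3, b4, b5⟩ := key a
    rw [card_eq_zero.1 (Nat.le_zero.1 b1), union_empty] at b3 b4
    obtain ⟨F, c1, c2, c3⟩ := b4.block b (c R B Cd' Cs' hR hd b4 hT b5)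
    exact ⟨F, c1, c2, Or.inr c3⟩
  · obtain ⟨F, Cd', Cs', b1, b2, b3, b4, b5⟩ := key a
    refine ⟨F, b1, b2, h.imp ?_ ?_⟩
    · rintro ⟨T', g', c1, c2, c3⟩
      exact ⟨Cd', Cs', s', T', g', c3, b4, hT.trans c1, b5.mono c2⟩
    · rintro ⟨t, c1, c2⟩
      exact ⟨Cd', Cs', s', t, b4, c1, c2 R _ Cd' Cs' hR b3 b4 hT b5⟩

/-- the answers to the zone moves -/
def ZoneOK (V : Type*) [DecidableEq V] [Fintype V] (k : ℕ) (Nd : AS → ℕ → ℕ → Prop) (s : AS)
    (T g : ℕ) : Prop :=
  Cond2 (fun s1 => After V k Nd s1 (T + 1) (g + if npair s1 < npair s then 1 else 0))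
    (fun s1 => After V k Nd s1 (T + 1) g) s

theorem ZoneOK.play {s : AS} {T g : ℕ} (c3 : ZoneOK V k Nd s T g) {Cd Cs : Finset V}
    (hR : ∀ e ∈ R, ¬ e.IsDiag) (hd : Disjoint R B) (h2 : Pos k R B Cd Cs s) (h3 : R.card ≤ T)
    (h4 : Gam g R (Cd ∪ Cs)) {e : Sym2 V} (hz : e ∈ inner (Cd ∪ Cs)) (he : ¬ e.IsDiag)
    (heR : e ∉ R) (heB : e ∉ B) :
    ∃ F, F.card ≤ 2 ∧ (∀ f ∈ F, f ∉ insert e R ∧ f ∉ B ∧ ¬ f.IsDiag) ∧
      (Inv1 k Nd (insert e R) (B ∪ F) ∨ Inv2 k (insert e R) (B ∪ F)) := by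
  have hR' : ∀ f ∈ insert e R, ¬ f.IsDiag := fun f hf =>
    (mem_insert.1 hf).elim (fun e => e ▸ he) (hR f)
  have hd' : Disjoint (insert e R) B := disjoint_insert_left.2 ⟨heB, hd⟩
  have hT : (insert e R).card ≤ T + 1 := (card_insert_le _ _).trans (by omega)
  obtain ⟨Cd1, s1, a1, a2, ⟨a3, a4⟩ | ⟨a3, a4⟩⟩ := h2.hit2 c3 heR heB hz
  · refine a3.play hR' hd' a2 hT ?_
    rw [← a2.card_red hR' hd', ← h2.card_red hR hd]
    exact h4.drop (h2.mat hR hd) (union_subset_union_left a1) hz a4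
  · exact a3.play hR' hd' a2 hT (h4.keep (h2.mat hR hd) (union_subset_union_left a1) a4)

theorem Inv1.step (hC : Closed V k Nd) (h : Inv1 k Nd R B) (hR : ∀ e ∈ R, ¬ e.IsDiag)
    (hd : Disjoint R B) {e : Sym2 V} (he : ¬ e.IsDiag) (heR : e ∉ R) (heB : e ∉ B) :
    ∃ F, F.card ≤ 2 ∧ (∀ f ∈ F, f ∉ insert e R ∧ f ∉ B ∧ ¬ f.IsDiag) ∧
      (Inv1 k Nd (insert e R) (B ∪ F) ∨ Inv2 k (insert e R) (B ∪ F)) := by
  obtain ⟨Cd, Cs, s, T, g, h1, h2, h3, h4⟩ := h
  obtain ⟨-, c2, c3⟩ := hC s T g h1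
  by_cases hz : e ∈ inner (Cd ∪ Cs)
  · exact ZoneOK.play c3 hR hd h2 h3 h4 hz he heR heB
  · exact c2.play (fun f hf => (mem_insert.1 hf).elim (fun e => e ▸ he) (hR f))
      (disjoint_insert_left.2 ⟨heB, hd⟩) (h2.wild he hz) ((card_insert_le _ _).trans (by omega))
      (h4.wild hz he)

theorem Inv1.win (hC : Closed V k Nd) (h : Inv1 k Nd R B) (hR : ∀ e ∈ R, ¬ e.IsDiag)
    (hd : Disjoint R B) (hall : ∀ x y : V, x ≠ y → s(x, y) ∈ R ∨ s(x, y) ∈ B) : Win R B := by
  obtain ⟨Cd, Cs, s, T, g, h1, h2, h3, h4⟩ := h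
  obtain ⟨c1, -, c3⟩ := hC s T g h1
  refine ⟨k, h2.blue c3.1 hR hall, fun K hK => ?_⟩
  have a1 : inner K ⊆ R := fun e he => by
    obtain ⟨u, hu, v, hv, huv, rfl⟩ := mem_inner.1 he
    exact ((SimpleGraph.fromEdgeSet_adj _).1 (hK.1 hu hv huv)).1
  have a2 := card_le_card a1
  rw [card_inner, hK.2] at a2
  rcases c1 with c1 | c1
  · omega
  · have hne : K.Nonempty := card_pos.1 (Nat.pos_of_ne_zero fun e => by
      rw [← hK.2, e] at c1
      simp at c1)
    have a3 := h4.card_le (h2.mat hR hd) hne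
    rw [inter_eq_right.2 a1, card_inner, hK.2] at a3
    omega

lemma Inv1.mono {B' : Finset (Sym2 V)} (h : Inv1 k Nd R B) (hB : B ⊆ B') : Inv1 k Nd R B' := by
  obtain ⟨Cd, Cs, s, T, g, h1, h2, h3⟩ := h
  exact ⟨Cd, Cs, s, T, g, h1, h2.mono hB, h3⟩

/-- The zone is chosen after the first move and contains both ends of the first edge. -/
theorem hyb_start (hC : Closed V k Nd) {m : ℕ} (h2 : 2 ≤ m) (hm : m ≤ Fintype.card V)
    (h0 : ZoneOK V k Nd (k, Multiset.replicate m (0, none)) 0 0) (E : Finset (Sym2 V))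
    (hE : ∀ e, e ∈ E ↔ ¬ e.IsDiag) : Strat E Win (∅, ∅) := by
  refine strat_of_stage E hE (fun R B => R = ∅ ∨ Inv1 k Nd R B) ?_
    (fun R B B' a _ c => c.imp_right fun c => c.mono a) ?_ ∅ ∅ (empty_subset _)
    (empty_subset _) (disjoint_empty_left _) (Or.inl (Or.inl rfl))
  · rintro R B a b (rfl | c) d
    swap
    · exact c.win hC a b d
    obtain ⟨x, y, hxy⟩ := Fintype.exists_pair_of_one_lt_card (α := V) (by omega)
    refine ⟨2, fun hf => hf {x, y} (SimpleGraph.isNClique_iff _ |>.2 ⟨?_, card_pair hxy⟩), ?_⟩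
    · rw [coe_pair, SimpleGraph.isClique_pair, SimpleGraph.fromEdgeSet_adj]
      exact fun _ => ⟨by simpa using d x y hxy, hxy⟩
    · rw [coe_empty, SimpleGraph.fromEdgeSet_empty]
      exact SimpleGraph.cliqueFree_bot le_rfl
  · rintro R B a b (rfl | c) e d1 d2 d3
    swap
    · obtain ⟨F, f1, f2, f3⟩ := c.step hC a b d1 d2 d3
      exact ⟨F, f1, f2, f3.imp Or.inr fun h => ⟨_, h⟩⟩
    induction e using Sym2.ind with
    | _ x y =>
      have hxy : x ≠ y := fun e => d1 (Sym2.mk_isDiag_iff.2 e)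
      obtain ⟨Cd, h1, -, rfl⟩ := exists_subsuperset_card_eq (n := m)
        (subset_univ ({x, y} : Finset V)) (by rwa [card_pair hxy]) hm
      have hp := Pos.init (R := ∅) (B := B) (Cd := Cd) [] List.nodup_nil (by simp) (by simp)
        (by simp) k
      rw [List.length_nil, zero_add] at hp
      obtain ⟨F, f1, f2, f3⟩ := h0.play a b hp (by simp) (Gam.empty _)
        (mk_mem_inner.2 ⟨hxy, mem_union_left _ (h1 (by simp)), mem_union_left _ (h1 (by simp))⟩)
        d1 d2 d3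
      exact ⟨F, f1, f2, f3.imp Or.inr fun h => ⟨_, h⟩⟩

end Pool.Agent.Lib.MP_1024aa_co
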