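import Pool.Agent.Lib.MP_1024aa_co.Zone1

/-! Count vectors for the building game, and a checker for tables of winning states. -/

set_option autoImplicit false

namespace Pool.Agent.Lib.MP_1024aa_co

open Multiset

/-- `M` can be reduced to `M'` without a move -/
def Le0 (M M' : Multiset AI) : Prop :=
  ∀ b r T s, Reply b (r, M' + T) s → Reply b (r, M + T) s

lemma Le0.refl (M : Multiset AI) : Le0 M M := fun _ _ _ _ h => h

lemma Le0.trans {A B C : Multiset AI} (h : Le0 A B) (h' : Le0 B C) : Le0 A C :=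
  fun _ _ _ _ g => h _ _ _ _ (h' _ _ _ _ g)

lemma Le0.add {A B C D : Multiset AI} (h : Le0 A B) (h' : Le0 C D) : Le0 (A + C) (B + D) := by
  intro b r T s g
  rw [add_assoc]
  refine h _ _ _ _ ?_
  rw [add_left_comm]
  refine h' _ _ _ _ ?_
  rwa [add_left_comm, ← add_assoc]

lemma Le0.reply {A B : Multiset AI} (h : Le0 A B) {b r : ℕ} {s : AS} (g : Reply b (r, B) s) :
    Reply b (r, A) s := by
  simpa using h b r 0 s (by simpa using g)

lemma Le0.drop (i : ℕ) (o : Option ℕ) : Le0 {mkI i o} (restI o) :=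
  fun _ _ _ _ g => by rw [singleton_add]; exact .drop g

lemma Le0.rep {a : AI} {B : Multiset AI} (h : Le0 {a} B) (n : ℕ) :
    Le0 (replicate n a) (n • B) := by
  induction n with
  | zero => simpa using Le0.refl 0
  | succ n ih =>
    rw [replicate_succ, ← singleton_add, succ_nsmul']
    exact h.add ih

lemma Le0.mk_zero (i : ℕ) (o : Option ℕ) : Le0 {mkI i o} 0 := by
  rcases o with _ | j
  · exact Le0.drop i none
  · exact (Le0.drop i (some j)).trans (Le0.drop j none)

lemma Le0.rep_zero (n i : ℕ) (o : Option ℕ) : Le0 (replicate n (mkI i o)) 0 := by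
  simpa using (Le0.mk_zero i o).rep n

lemma Le0.rep_split (n i j : ℕ) : Le0 (replicate n (mkI i (some j))) (replicate n (j, none)) := by
  simpa [restI, nsmul_singleton] using (Le0.drop i (some j)).rep n

/-- the multiset with given types and counts -/
def toMs : List AI → List ℕ → Multiset AI
  | a :: as, c :: cs => replicate c a + toMs as cs
  | _, _ => 0

def incL (n : ℕ) (l : List ℕ) : List ℕ :=
  Nat.rec (motive := fun _ => List ℕ → List ℕ)
    (fun l => List.rec [1] (fun c cs _ => (c + 1) :: cs) l)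
    (fun _ ih l => List.rec (0 :: ih []) (fun c cs _ => c :: ih cs) l) n l

def decL (n : ℕ) (l : List ℕ) : List ℕ :=
  List.rec (motive := fun _ => ℕ → List ℕ) (fun _ => [])
    (fun c cs ih n => Nat.rec ((c - 1) :: cs) (fun m _ => c :: ih m) n) l n

def getL (n : ℕ) (l : List ℕ) : ℕ :=
  List.rec (motive := fun _ => ℕ → ℕ) (fun _ => 0)
    (fun c _ ih n => Nat.rec c (fun m _ => ih m) n) l n

@[simp] lemma incL_zero_nil : incL 0 [] = [1] := rfl

@[simp] lemma incL_succ_nil (n : ℕ) : incL (n + 1) [] = 0 :: incL n [] := rfl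

@[simp] lemma incL_zero_cons (c : ℕ) (l : List ℕ) : incL 0 (c :: l) = (c + 1) :: l := rfl

@[simp] lemma incL_succ_cons (n c : ℕ) (l : List ℕ) : incL (n + 1) (c :: l) = c :: incL n l := rfl

@[simp] lemma decL_nil (n : ℕ) : decL n [] = [] := rfl

@[simp] lemma decL_zero_cons (c : ℕ) (l : List ℕ) : decL 0 (c :: l) = (c - 1) :: l := rfl

@[simp] lemma decL_succ_cons (n c : ℕ) (l : List ℕ) : decL (n + 1) (c :: l) = c :: decL n l := rfl

@[simp] lemma getL_nil (n : ℕ) : getL n [] = 0 := rfl

@[simp] lemma getL_zero_cons (c : ℕ) (l : List ℕ) : getL 0 (c :: l) = c := rfl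

@[simp] lemma getL_succ_cons (n c : ℕ) (l : List ℕ) : getL (n + 1) (c :: l) = getL n l := rfl

def leL : List ℕ → List ℕ → Bool
  | [], _ => true
  | c :: cs, [] => c == 0 && leL cs []
  | c :: cs, d :: ds => decide (c ≤ d) && leL cs ds

lemma toMs_nil (as : List AI) : toMs as [] = 0 := by cases as <;> rfl

lemma toMs_inc : ∀ (as : List AI) (n : ℕ) (l : List ℕ) (a : AI), as[n]? = some a →
    toMs as (incL n l) = a ::ₘ toMs as l
  | [], _, _, _, h => by simp at h
  | b :: as, 0, [], a, h => by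
    obtain rfl : b = a := by simpa using h
    simp [toMs, toMs_nil]
  | b :: as, n + 1, [], a, h => by
    simpa [toMs, toMs_nil] using toMs_inc as n [] a (by simpa using h)
  | b :: as, 0, c :: cs, a, h => by
    obtain rfl : b = a := by simpa using h
    simp [toMs, replicate_succ]
  | b :: as, n + 1, c :: cs, a, h => by
    simp [toMs, toMs_inc as n cs a (by simpa using h)]

lemma toMs_dec : ∀ (as : List AI) (n : ℕ) (l : List ℕ) (a : AI), as[n]? = some a →
    getL n l ≠ 0 → toMs as l = a ::ₘ toMs as (decL n l)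
  | [], _, _, _, h, _ => by simp at h
  | _ :: _, _, [], _, _, h => by simp at h
  | b :: as, 0, c :: cs, a, h, g => by
    obtain rfl : b = a := by simpa using h
    obtain ⟨c, rfl⟩ : ∃ d, c = d + 1 := ⟨c - 1, by simp at g; omega⟩
    simp [toMs, replicate_succ]
  | b :: as, n + 1, c :: cs, a, h, g => by
    simp [toMs, toMs_dec as n cs a (by simpa using h) g]

lemma mem_toMs : ∀ (as : List AI) (l : List ℕ) (a : AI), a ∈ toMs as l →
    ∃ n, as[n]? = some a ∧ getL n l ≠ 0
  | [], _, _, h => by simp [toMs] at h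
  | _ :: _, [], _, h => by simp [toMs] at h
  | b :: as, c :: cs, a, h => by
    rcases mem_add.1 h with h | h
    · exact ⟨0, by simp [(mem_replicate.1 h).2], (mem_replicate.1 h).1⟩
    · obtain ⟨n, h1, h2⟩ := mem_toMs as cs a h
      exact ⟨n + 1, by simpa using h1, h2⟩

lemma card_toMs : ∀ (as : List AI) (l : List ℕ), card (toMs as l) = (l.take as.length).sum
  | [], _ => by simp [toMs]
  | _ :: _, [] => by simp [toMs]
  | b :: as, c :: cs => by simp [toMs, card_toMs as cs]

lemma toMs_le : ∀ (as : List AI) (_ : ∀ a ∈ as, ∃ i o, a = mkI i o) (l l' : List ℕ),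
    leL l l' = true → Le0 (toMs as l') (toMs as l)
  | [], _, _, _, _ => by simpa [toMs] using Le0.refl 0
  | _ :: _, _, [], [], _ => Le0.refl _
  | b :: as, h, [], d :: ds, _ => by
    obtain ⟨i, o, rfl⟩ := h b (by simp)
    simpa [toMs, toMs_nil] using (Le0.rep_zero d i o).add
      (toMs_le as (fun a ha => h a (by simp [ha])) [] ds rfl)
  | b :: as, h, c :: cs, [], g => by
    simp only [leL, Bool.and_eq_true, beq_iff_eq] at g
    simpa [toMs, toMs_nil, g.1] using toMs_le as (fun a ha => h a (by simp [ha])) cs [] g.2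
  | b :: as, h, c :: cs, d :: ds, g => by
    simp only [leL, Bool.and_eq_true, decide_eq_true_eq] at g
    obtain ⟨i, o, rfl⟩ := h b (by simp)
    obtain ⟨e, rfl⟩ := Nat.exists_eq_add_of_le g.1
    simpa [toMs, replicate_add] using ((Le0.refl (replicate c (mkI i o))).add
      (Le0.rep_zero e i o)).add (toMs_le as (fun a ha => h a (by simp [ha])) cs ds g.2)

/-- the item types with deficiencies at most three -/
def tys : List AI := [(0, none), (0, some 0), (1, none), (0, some 1), (1, some 1), (2, none),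
  (0, some 2), (1, some 2), (2, some 2), (3, none), (0, some 3), (1, some 3), (2, some 3),
  (3, some 3)]

def toM (l : List ℕ) : Multiset AI := toMs tys l

def oOf : ℕ → Option ℕ
  | 0 => none
  | n + 1 => some n

/-- the index of the item with a vertex of deficiency `i` and partner `oOf n` -/
def ix (i n : ℕ) : ℕ := (0xdcba9c8765b7432a6310 >>> (20 * i + 4 * n)) % 16

/-- add what is left of an item -/
def addR : ℕ → List ℕ → List ℕ
  | 0, l => l
  | n + 1, l => incL (ix n 0) l

lemma tys_ix : ∀ i < 4, ∀ n < 5, tys[ix i n]? = some (mkI i (oOf n)) := by decide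

lemma tys_inj : ∀ i < 4, ∀ n < 5, ∀ m < 14, tys[m]? = some (mkI i (oOf n)) → m = ix i n :=
  fun i hi n hn _ hm h =>
    (List.getElem?_inj (l := tys) hm (by decide)).1 (h.trans (tys_ix i hi n hn).symm)

lemma toM_inc {i n : ℕ} (hi : i < 4) (hn : n < 5) (l : List ℕ) :
    toM (incL (ix i n) l) = mkI i (oOf n) ::ₘ toM l := toMs_inc _ _ _ _ (tys_ix i hi n hn)

lemma toM_dec {i n : ℕ} (hi : i < 4) (hn : n < 5) {l : List ℕ} (h : getL (ix i n) l ≠ 0) :
    toM l = mkI i (oOf n) ::ₘ toM (decL (ix i n) l) := toMs_dec _ _ _ _ (tys_ix i hi n hn) h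

lemma toM_addR {n : ℕ} (hn : n < 5) (l : List ℕ) : toM (addR n l) = restI (oOf n) + toM l := by
  rcases n with _ | n
  · simp [addR, oOf, restI]
  · rw [addR, toM_inc (by omega) (by omega)]
    simp [oOf, restI, mkI]

lemma mem_toM {l : List ℕ} {i : ℕ} {o : Option ℕ} (h : mkI i o ∈ toM l) :
    i < 4 ∧ ∃ n < 5, o = oOf n ∧ getL (ix i n) l ≠ 0 := by
  obtain ⟨m, h1, h2⟩ := mem_toMs _ _ _ h
  have hm : m < 14 := (List.getElem?_eq_some_iff.1 h1).1
  have h3 : ∀ a ∈ tys, a.1 < 4 ∧ a.2.getD 0 < 4 := by decide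
  have h4 := h3 _ (List.mem_of_getElem? h1)
  rcases o with _ | j
  · exact ⟨h4.1, 0, by omega, rfl, tys_inj i h4.1 0 (by omega) m hm h1 ▸ h2⟩
  · simp only [mkI, Option.getD_some] at h4
    exact ⟨by omega, j + 1, by omega, rfl, tys_inj i (by omega) (j + 1) (by omega) m hm h1 ▸ h2⟩

lemma toM_le {l l' : List ℕ} (h : leL l l' = true) : Le0 (toM l') (toM l) := by
  refine toMs_le _ (fun a ha => ⟨a.1, a.2, ?_⟩) _ _ h
  revert a
  decide

theorem cond_list {Nd Nk : AS → Prop} {r : ℕ} {l : List ℕ} (h0 : r ≤ (l.take 14).sum)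
    (h1 : ∀ i < 3, ∀ n < 5, getL (ix (i + 1) n) l ≠ 0 →
      Nd (r, toM (addR n (decL (ix (i + 1) n) l))))
    (h2 : ∀ n' < 5, ∀ n ≤ n', getL (ix 0 n) l ≠ 0 → getL (ix 0 n') (decL (ix 0 n) l) ≠ 0 →
      Nd (r, toM (addR n (decL (ix 0 n) l))) ∨ Nd (r, toM (addR n' (decL (ix 0 n') l))) ∨
        Nk (r, toM (incL 1 (decL (ix 0 n') (decL (ix 0 n) l))))) : Cond2 Nd Nk (r, toM l) := by
  refine ⟨h0.trans_eq (card_toMs tys l).symm, fun i o T e => ?_, ?_⟩
  · dsimp only at e ⊢
    obtain ⟨a1, n, a2, rfl, a3⟩ := mem_toM (e ▸ mem_cons_self _ _ : mkI (i + 1) o ∈ toM l)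
    have := h1 i (by omega) n a2 a3
    rw [toM_dec a1 a2 a3, cons_inj_right] at e
    rwa [toM_addR a2, e] at this
  have key : ∀ n' < 5, ∀ n ≤ n', ∀ T, toM l = mkI 0 (oOf n) ::ₘ mkI 0 (oOf n') ::ₘ T →
      Nd (r, restI (oOf n) + mkI 0 (oOf n') ::ₘ T) ∨ Nd (r, restI (oOf n') + mkI 0 (oOf n) ::ₘ T) ∨
        Nk (r, (0, some 0) ::ₘ T) := by
    intro n' hn' n hn T e
    have inj : ∀ a b, oOf a = oOf b → a = b := by
      rintro (_ | a) (_ | b) h <;> simp [oOf] at h ⊢
      exact h
    obtain ⟨-, m, -, a2, a3⟩ := mem_toM (e ▸ mem_cons_self _ _ : mkI 0 (oOf n) ∈ toM l)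
    obtain rfl := inj _ _ a2
    obtain ⟨-, m, -, b2, b3⟩ := mem_toM
      (e ▸ mem_cons_of_mem (mem_cons_self _ _) : mkI 0 (oOf n') ∈ toM l)
    obtain rfl := inj _ _ b2
    have e1 := e
    have e2 := e.trans (cons_swap _ _ _)
    rw [toM_dec (by omega) (by omega) a3, cons_inj_right] at e1
    rw [toM_dec (by omega) hn' b3, cons_inj_right] at e2
    obtain ⟨-, m, -, c2, c3⟩ := mem_toM
      (e1 ▸ mem_cons_self _ _ : mkI 0 (oOf n') ∈ toM (decL (ix 0 n) l))
    obtain rfl := inj _ _ c2
    have e3 := e1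
    rw [toM_dec (by omega) hn' c3, cons_inj_right] at e3
    have := h2 n' hn' n hn a3 c3
    have e4 := toM_inc (i := 0) (n := 1) (by omega) (by omega) (decL (ix 0 n') (decL (ix 0 n) l))
    rwa [toM_addR (by omega), toM_addR hn', e1, e2, show (1 : ℕ) = ix 0 1 from rfl, e4, e3] at this
  intro o o' T e
  dsimp only at e ⊢
  obtain ⟨-, n, a1, rfl, -⟩ := mem_toM (e ▸ mem_cons_self _ _ : mkI 0 o ∈ toM l)
  obtain ⟨-, n', b1, rfl, -⟩ := mem_toM
    (e ▸ mem_cons_of_mem (mem_cons_self _ _) : mkI 0 o' ∈ toM l)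
  rcases le_total n n' with h | h
  · exact key n' b1 n h T e
  · exact (key n a1 n' h T (e.trans (cons_swap _ _ _))).elim (fun h => Or.inr (Or.inl h))
      (Or.imp_right Or.inr)

lemma reply_build {b r i n : ℕ} {l : List ℕ} {s : AS} (hi : i < 3) (hn : n < 5)
    (h : getL (ix (i + 1) n) l ≠ 0)
    (g : Reply b (r, toM (incL (ix i n) (decL (ix (i + 1) n) l))) s) :
    Reply (b + 1) (r, toM l) s := by
  rw [toM_dec (by omega) hn h]
  rw [toM_inc (by omega) hn] at g
  exact .build g

lemma reply_drop {b r i n : ℕ} {l : List ℕ} {s : AS} (hi : i < 4) (hn : n < 5)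
    (h : getL (ix i n) l ≠ 0) (g : Reply b (r, toM (addR n (decL (ix i n) l))) s) :
    Reply b (r, toM l) s := by
  rw [toM_dec hi hn h]
  rw [toM_addR hn] at g
  exact .drop g

/-- `sh` is a sound description of the state after a promotion -/
def ShOk (sh : List ℕ → List ℕ) : Prop := ∀ l, Le0 ((toM l).map incI) (toM (sh l))

lemma reply_promote {sh : List ℕ → List ℕ} (hs : ShOk sh) {b r n : ℕ} {l : List ℕ} {s : AS}
    (hn : n < 5) (h : getL (ix 0 n) l ≠ 0) (g : Reply b (r, toM (sh (decL (ix 0 n) l))) s) :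
    Reply b (r + 1, toM l) s := by
  rw [toM_dec (by omega) hn h]
  exact .promote ((hs _).reply g)

def sh1 : List ℕ → List ℕ
  | [a0, p00, _, p01, _] => [0, 0, a0 + p01, 0, p00]
  | _ => []

def sh2 : List ℕ → List ℕ
  | [a0, p00, a1, p01, p11, _, p02, p12, _] => [0, 0, a0 + p02, 0, p00, a1 + p12, 0, p01, p11]
  | _ => []

def sh3 : List ℕ → List ℕ
  | [a0, p00, a1, p01, p11, a2, p02, p12, p22, _, p03, p13, p23, _] =>
    [0, 0, a0 + p03, 0, p00, a1 + p13, 0, p01, p11, a2 + p23, 0, p02, p12, p22]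
  | _ => []

lemma le0_map_zero (l : List ℕ) : Le0 ((toM l).map incI) (toM []) := by
  have : ∀ M : Multiset AI, (∀ a ∈ M, ∃ i o, a = mkI i o) → Le0 M 0 := by
    intro M
    induction M using Multiset.induction_on with
    | empty => exact fun _ => Le0.refl 0
    | cons a M ih =>
      intro h
      obtain ⟨i, o, rfl⟩ := h a (mem_cons_self _ _)
      simpa using (Le0.mk_zero i o).add (ih fun a ha => h a (mem_cons_of_mem ha))
  refine this _ fun a ha => ?_
  obtain ⟨b, hb, rfl⟩ := mem_map.1 ha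
  obtain ⟨n, h1, -⟩ := mem_toMs _ _ _ hb
  have h3 : ∀ a ∈ tys, incI a = mkI (incI a).1 (incI a).2 := by decide
  exact ⟨_, _, h3 _ (List.mem_of_getElem? h1)⟩

lemma sh1_ok : ShOk sh1 := by
  intro l
  unfold sh1
  split
  · rename_i a0 p00 a1 p01 p11
    have := (Le0.refl (replicate a0 (1, none))).add ((Le0.refl (replicate p00 (1, some 1))).add
      ((Le0.rep_zero a1 2 none).add ((Le0.rep_split p01 2 1).add (Le0.rep_zero p11 2 (some 2)))))
    convert this using 1
    · simp [toM, toMs, tys, incI, mkI]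
    · simp only [toM, toMs, tys, replicate_add, replicate_zero]
      abel
  · exact le0_map_zero _

lemma sh2_ok : ShOk sh2 := by
  intro l
  unfold sh2
  split
  · rename_i a0 p00 a1 p01 p11 a2 p02 p12 p22
    have := (Le0.refl (replicate a0 (1, none))).add ((Le0.refl (replicate p00 (1, some 1))).add
      ((Le0.refl (replicate a1 (2, none))).add ((Le0.refl (replicate p01 (1, some 2))).add
      ((Le0.refl (replicate p11 (2, some 2))).add ((Le0.rep_zero a2 3 none).add
      ((Le0.rep_split p02 3 1).add ((Le0.rep_split p12 3 2).add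
      (Le0.rep_zero p22 3 (some 3)))))))))
    convert this using 1
    · simp [toM, toMs, tys, incI, mkI]
    · simp only [toM, toMs, tys, replicate_add, replicate_zero]
      abel
  · exact le0_map_zero _

lemma sh3_ok : ShOk sh3 := by
  intro l
  unfold sh3
  split
  · rename_i a0 p00 a1 p01 p11 a2 p02 p12 p22 a3 p03 p13 p23 p33
    have := (Le0.refl (replicate a0 (1, none))).add ((Le0.refl (replicate p00 (1, some 1))).add
      ((Le0.refl (replicate a1 (2, none))).add ((Le0.refl (replicate p01 (1, some 2))).add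
      ((Le0.refl (replicate p11 (2, some 2))).add ((Le0.refl (replicate a2 (3, none))).add
      ((Le0.refl (replicate p02 (1, some 3))).add ((Le0.refl (replicate p12 (2, some 3))).add
      ((Le0.refl (replicate p22 (3, some 3))).add ((Le0.rep_zero a3 4 none).add
      ((Le0.rep_split p03 4 1).add ((Le0.rep_split p13 4 2).add ((Le0.rep_split p23 4 3).add
      (Le0.rep_zero p33 4 (some 4))))))))))))))
    convert this using 1
    · simp [toM, toMs, tys, incI, mkI]
    · simp only [toM, toMs, tys, replicate_add, replicate_zero]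
      abel
  · exact le0_map_zero _

/-- evaluate a number before it is used -/
def force {α : Type} (n : ℕ) (f : ℕ → α) : α := Nat.rec (f 0) (fun k _ => f k.succ) n

lemma force_eq {α : Type} (n : ℕ) (f : ℕ → α) : force n f = f n := by cases n <;> rfl

/-- evaluate a list before it is used -/
def forceL {α : Type} (l : List ℕ) (f : List ℕ → α) : α :=
  List.rec (motive := fun _ => (List ℕ → α) → α) (fun f => f [])
    (fun c _ ih f => force c fun c' => ih fun cs' => f (c' :: cs')) l f

lemma forceL_eq {α : Type} : ∀ (l : List ℕ) (f : List ℕ → α), forceL l f = f l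
  | [], _ => rfl
  | c :: cs, f => (force_eq c fun c' => forceL cs fun cs' => f (c' :: cs')).trans
    (forceL_eq cs fun cs' => f (c :: cs'))

/-- Play the operations coded in base 64 by `c`, then test `P`. -/
def runOps (sh : List ℕ → List ℕ) (P : ℕ → List ℕ → Bool) : ℕ → ℕ → ℕ → ℕ → List ℕ → Bool
  | 0, _, _, r, l => P r l
  | f + 1, c, b, r, l => force (c % 64) fun q =>
    if q = 0 then P r l
    else if q < 6 then
      r != 0 && getL (ix 0 (q - 1)) l != 0 &&
        forceL (sh (decL (ix 0 (q - 1)) l)) (runOps sh P f (c / 64) b (r - 1))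
    else if q < 21 then
      b != 0 && getL (ix ((q - 6) / 5 + 1) ((q - 6) % 5)) l != 0 &&
        forceL (incL (ix ((q - 6) / 5) ((q - 6) % 5)) (decL (ix ((q - 6) / 5 + 1) ((q - 6) % 5)) l))
          (runOps sh P f (c / 64) (b - 1) r)
    else
      decide (q < 41) && getL (ix ((q - 21) / 5) ((q - 21) % 5)) l != 0 &&
        forceL (addR ((q - 21) % 5) (decL (ix ((q - 21) / 5) ((q - 21) % 5)) l))
          (runOps sh P f (c / 64) b r)

theorem runOps_sound {sh : List ℕ → List ℕ} (hs : ShOk sh) {P : ℕ → List ℕ → Bool} :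
    ∀ (f c b r : ℕ) (l : List ℕ), runOps sh P f c b r l = true →
      ∃ r' l', P r' l' = true ∧ ∀ s, Reply 0 (r', toM l') s → Reply b (r, toM l) s
  | 0, _, b, r, l, h => ⟨r, l, h, fun _ g => (Reply.refl b _).trans_free g⟩
  | f + 1, c, b, r, l, h => by
    rw [runOps, force_eq] at h
    simp only [forceL_eq] at h
    split_ifs at h with h1 h2 h3
    · exact ⟨r, l, h, fun _ g => (Reply.refl b _).trans_free g⟩
    all_goals
      simp only [Bool.and_eq_true, bne_iff_ne, decide_eq_true_eq] at h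
      obtain ⟨r', l', a1, a2⟩ := runOps_sound hs _ _ _ _ _ h.2
      refine ⟨r', l', a1, fun s g => ?_⟩
    · obtain ⟨r, rfl⟩ : ∃ q, r = q + 1 := ⟨r - 1, by omega⟩
      exact reply_promote hs (by omega) h.1.2 (a2 s g)
    · obtain ⟨b, rfl⟩ : ∃ q, b = q + 1 := ⟨b - 1, by omega⟩
      exact reply_build (by omega) (by omega) h.1.2 (a2 s g)
    · exact reply_drop (by omega) (by omega) h.1.2 (a2 s g)

/-- The zone moves, each with the states among which the builder chooses. -/
def mvs (l : List ℕ) : List (List (List ℕ)) :=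
  ((List.range 15).filterMap fun c => if getL (ix (c / 5 + 1) (c % 5)) l = 0 then none else
    some [addR (c % 5) (decL (ix (c / 5 + 1) (c % 5)) l)]) ++
  ((List.range 25).filterMap fun c => if c / 5 < c % 5 ∨ getL (ix 0 (c % 5)) l = 0 ∨
      getL (ix 0 (c / 5)) (decL (ix 0 (c % 5)) l) = 0 then none else
    some [addR (c % 5) (decL (ix 0 (c % 5)) l), addR (c / 5) (decL (ix 0 (c / 5)) l),
      incL 1 (decL (ix 0 (c / 5)) (decL (ix 0 (c % 5)) l))])

theorem cond_mvs {N : AS → Prop} {r : ℕ} {l : List ℕ} (h0 : r ≤ (l.take 14).sum)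
    (h : ∀ m ∈ mvs l, ∃ x ∈ m, N (r, toM x)) : Cond N (r, toM l) := by
  refine cond_list h0 (fun i hi n hn g => ?_) fun n' hn' n hn g g' => ?_
  · have e1 : (5 * i + n) / 5 = i := by omega
    have e2 : (5 * i + n) % 5 = n := by omega
    obtain ⟨x, hx, a⟩ := h _ (List.mem_append_left _ (List.mem_filterMap.2 ⟨5 * i + n,
      List.mem_range.2 (by omega), by rw [e1, e2, if_neg g]⟩))
    exact List.mem_singleton.1 hx ▸ a
  · have e1 : (5 * n' + n) / 5 = n' := by omega
    have e2 : (5 * n' + n) % 5 = n := by omega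
    obtain ⟨x, hx, a⟩ := h _ (List.mem_append_right _ (List.mem_filterMap.2 ⟨5 * n' + n,
      List.mem_range.2 (by omega), by rw [e1, e2, if_neg (by omega)]⟩))
    simp only [List.mem_cons, List.not_mem_nil, or_false] at hx
    rcases hx with rfl | rfl | rfl
    exacts [Or.inl a, Or.inr (Or.inl a), Or.inr (Or.inr a)]

def digs : ℕ → ℕ → List ℕ
  | 0, _ => []
  | n + 1, c => c % 64 :: digs n (c / 64)

/-- A record codes the level, the number of zone moves and the counts. -/
def recR (c : ℕ) : ℕ := c % 16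

def recT (c : ℕ) : ℕ := c / 16 % 256

def recL (d c : ℕ) : List ℕ := digs d (c / 4096)

/-- The answers to the moves, coded in base `2 ^ 64` by `H`. -/
def chkMoves (sh : List ℕ → List ℕ) (d : ℕ) (tb : ℕ → ℕ) (N t r : ℕ) :
    List (List (List ℕ)) → ℕ → Bool
  | [], _ => true
  | m :: ms, H0 => force H0 fun H =>
    (match m[H % 4]? with
      | none => false
      | some x => decide (H / 4 % 65536 < N) && force (tb (H / 4 % 65536)) fun c =>
        decide (recT c < t) && forceL x (runOps sh (fun r' l' => r' == recR c &&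
          leL (recL d c) l') 7 (H / 262144 % 70368744177664) 2 r)) &&
      chkMoves sh d tb N t r ms (H / 18446744073709551616)

def chkEntry (sh : List ℕ → List ℕ) (d : ℕ) (tb : ℕ → ℕ) (N i H : ℕ) : Bool :=
  force (tb i) fun c => forceL (recL d c) fun l => force (recR c) fun r => force (recT c) fun t =>
    decide (r ≤ (l.take 14).sum) && chkMoves sh d tb N t r (mvs l) H

def chkFrom (sh : List ℕ → List ℕ) (d : ℕ) (tb : ℕ → ℕ) (N : ℕ) : ℕ → List ℕ → Bool
  | _, [] => true
  | i, H :: Hs => chkEntry sh d tb N i H && force (i + 1) fun j => chkFrom sh d tb N j Hs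

lemma chkMoves_sound {sh : List ℕ → List ℕ} (hs : ShOk sh) {d : ℕ} {tb : ℕ → ℕ} {N t r : ℕ} :
    ∀ (ms : List (List (List ℕ))) (H : ℕ), chkMoves sh d tb N t r ms H = true →
      ∀ m ∈ ms, ∃ x ∈ m, ∃ j < N, recT (tb j) < t ∧
        Reply 2 (r, toM x) (recR (tb j), toM (recL d (tb j)))
  | [], _, _ => by simp
  | m :: ms, H, h => by
    rw [chkMoves, force_eq, Bool.and_eq_true] at h
    intro m' hm'
    rcases List.mem_cons.1 hm' with rfl | hm'
    swap
    · exact chkMoves_sound hs ms _ h.2 m' hm'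
    have h1 := h.1
    split at h1
    · exact absurd h1 Bool.false_ne_true
    rename_i x hx
    simp only [force_eq, forceL_eq, Bool.and_eq_true, decide_eq_true_eq] at h1
    obtain ⟨r', l', a1, a2⟩ := runOps_sound hs _ _ _ _ _ h1.2.2
    simp only [Bool.and_eq_true, beq_iff_eq] at a1
    exact ⟨x, List.mem_of_getElem? hx, _, h1.1, h1.2.1,
      a2 _ (a1.1 ▸ (toM_le a1.2).reply (.refl _ _))⟩

lemma chkFrom_sound {sh : List ℕ → List ℕ} {d : ℕ} {tb : ℕ → ℕ} {N : ℕ} :
    ∀ (Hs : List ℕ) (i : ℕ), chkFrom sh d tb N i Hs = true →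
      ∀ j, i ≤ j → j < i + Hs.length → ∃ H, chkEntry sh d tb N j H = true
  | [], _, _, j, h1, h2 => by simp at h2; omega
  | H :: Hs, i, h, j, h1, h2 => by
    rw [chkFrom, force_eq, Bool.and_eq_true] at h
    rcases h1.eq_or_lt with rfl | h1
    · exact ⟨H, h.1⟩
    · exact chkFrom_sound Hs _ h.2 j h1 (by simp at h2; omega)

theorem table_sound {sh : List ℕ → List ℕ} (hs : ShOk sh) {d : ℕ} {tb : ℕ → ℕ} {N : ℕ}
    (h : ∀ j < N, ∃ H, chkEntry sh d tb N j H = true) (t : ℕ) :
    ∀ j < N, recT (tb j) ≤ t → WinB t (recR (tb j), toM (recL d (tb j))) := by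
  induction t with
  | zero =>
    intro j hj ht
    obtain ⟨H, hH⟩ := h j hj
    simp only [chkEntry, force_eq, forceL_eq, Bool.and_eq_true, decide_eq_true_eq] at hH
    refine cond_mvs hH.1 fun m hm => ?_
    obtain ⟨x, hx, i, -, a, -⟩ := chkMoves_sound hs _ _ hH.2 m hm
    omega
  | succ t ih =>
    intro j hj ht
    obtain ⟨H, hH⟩ := h j hj
    simp only [chkEntry, force_eq, forceL_eq, Bool.and_eq_true, decide_eq_true_eq] at hH
    refine cond_mvs hH.1 fun m hm => ?_
    obtain ⟨x, hx, i, a1, a2, a3⟩ := chkMoves_sound hs _ _ hH.2 m hm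
    exact ⟨x, hx, _, a3, ih i a1 (by omega)⟩

end Pool.Agent.Lib.MP_1024aa_co
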