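import Pool.Agent.Lib.MP_1024aa_co.Hyb1
import Pool.Agent.Lib.MP_1024aa_co.Zone5

/-! A checker for tables of nodes of the first stage. -/

set_option autoImplicit false

namespace Pool.Agent.Lib.MP_1024aa_co

open Multiset

/-- A node record codes the level, the number of red edges, the counter and the counts. -/
def hR (c : ℕ) : ℕ := c % 16

def hT (c : ℕ) : ℕ := c / 16 % 32

def hG (c : ℕ) : ℕ := c / 512 % 32

def hL (d c : ℕ) : List ℕ := digs d (c / 16384)

/-- The data of a certificate: `tb` with `N` records is a table of wins of the building game,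
`hb` with `M` records is the table of nodes, `sw` and `cm` test a record of `tb`, a number of
red edges and a counter. -/
structure Ctx where
  sh : List ℕ → List ℕ
  d : ℕ
  tb : ℕ → ℕ
  N : ℕ
  hb : ℕ → ℕ
  M : ℕ
  sw : ℕ → ℕ → ℕ → Bool
  cm : ℕ → ℕ → ℕ → Bool

/-- the end test for operations that lead to the record `c` of the table of wins -/
def toWin (d c r : ℕ) (l : List ℕ) : Bool := r == recR c && leL (recL d c) l

/-- An answer: `c % 4` is the kind (`0` switch, `1` node, else commit), `c / 4 % 65536` the index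
of the target and `c / 262144` codes the operations. -/
def ansH (X : Ctx) (T g r : ℕ) (x : List ℕ) (c : ℕ) : Bool :=
  force (c / 4 % 65536) fun j =>
  if c % 4 = 0 then
    decide (j < X.N) && force (X.tb j) fun e => X.sw e T g &&
      forceL x (runOps X.sh (toWin X.d e) 8 (c / 262144) 0 r)
  else if c % 4 = 1 then
    decide (j < X.M) && force (X.hb j) fun e => decide (T ≤ hT e) && decide (g ≤ hG e) &&
      forceL x (runOps X.sh (fun r' l' => r' == hR e && leL (hL X.d e) l') 8 (c / 262144) 2 r)
  else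
    decide (j < X.N) && force (X.tb j) fun e => X.cm e T g &&
      forceL x (runOps X.sh (toWin X.d e) 8 (c / 262144) 2 r)

/-- the increase of the counter when a vertex with partner code `n` is dropped -/
def incG : ℕ → ℕ
  | 0 => 0
  | _ + 1 => 1

/-- The zone moves of the first player, each with the states and increases of the counter among
which the builder chooses. -/
def mvsZ (l : List ℕ) : List (List (List ℕ × ℕ)) :=
  ((List.range 15).filterMap fun c => if getL (ix (c / 5 + 1) (c % 5)) l = 0 then none else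
    some [(addR (c % 5) (decL (ix (c / 5 + 1) (c % 5)) l), incG (c % 5))]) ++
  ((List.range 25).filterMap fun c => if c / 5 < c % 5 ∨ getL (ix 0 (c % 5)) l = 0 ∨
      getL (ix 0 (c / 5)) (decL (ix 0 (c % 5)) l) = 0 then none else
    some [(addR (c % 5) (decL (ix 0 (c % 5)) l), incG (c % 5)),
      (addR (c / 5) (decL (ix 0 (c / 5)) l), incG (c / 5)),
      (incL 1 (decL (ix 0 (c / 5)) (decL (ix 0 (c % 5)) l)), 0)])

/-- The answers to the moves, coded in base `2 ^ 72` by `H`. -/
def chkH (X : Ctx) (T g r : ℕ) : List (List (List ℕ × ℕ)) → ℕ → Bool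
  | [], _ => true
  | m :: ms, H0 => force H0 fun H =>
    (match m[H % 4]? with
      | none => false
      | some x => force (g + x.2) fun g' => force (H / 4 % 1180591620717411303424) fun c =>
        ansH X T g' r x.1 c) &&
      chkH X T g r ms (H / 4722366482869645213696)

/-- The test of a node: the first answer is the answer to a wild move. -/
def nodeH (X : Ctx) (k c0 H : ℕ) : Bool :=
  force c0 fun c => forceL (hL X.d c) fun l => force (hR c) fun r => force (hT c + 1) fun T =>
  force (hG c) fun g =>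
    (decide (T ≤ k.choose 2) || decide (k - 1 + g < k.choose 2)) &&
      decide (r ≤ (l.take 14).sum) && chkH X T g r ([(l, 1)] :: mvsZ l) H

def fromH (X : Ctx) (k : ℕ) : ℕ → List ℕ → Bool
  | _, [] => true
  | i, H :: Hs => nodeH X k (X.hb i) H && force (i + 1) fun j => fromH X k j Hs

lemma fromH_sound {X : Ctx} {k : ℕ} : ∀ (Hs : List ℕ) (i : ℕ), fromH X k i Hs = true →
    ∀ j, i ≤ j → j < i + Hs.length → ∃ H, nodeH X k (X.hb j) H = true
  | [], _, _, j, h1, h2 => by simp at h2; omega
  | H :: Hs, i, h, j, h1, h2 => by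
    rw [fromH, force_eq, Bool.and_eq_true] at h
    rcases h1.eq_or_lt with rfl | h1
    · exact ⟨H, h.1⟩
    · exact fromH_sound Hs _ h.2 j h1 (by simp at h2; omega)

/-- the nodes of the table -/
def Ctx.Nd (X : Ctx) (s : AS) (T g : ℕ) : Prop :=
  ∃ j < X.M, s = (hR (X.hb j), toM (hL X.d (X.hb j))) ∧ T = hT (X.hb j) ∧ g = hG (X.hb j)

variable (V : Type*) [DecidableEq V] [Fintype V]

/-- The parts of a certificate that are proved elsewhere. -/
structure Ctx.Ok (X : Ctx) (k : ℕ) : Prop where
  sh : ShOk X.sh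
  win : ∀ j < X.N, WinB (recT (X.tb j)) (recR (X.tb j), toM (recL X.d (X.tb j)))
  sw : ∀ c T g, X.sw c T g = true → SwOK V k (recR c, toM (recL X.d c)) (recT c) T g
  cm : ∀ c T g, X.cm c T g = true → CmOK V k (recR c, toM (recL X.d c)) (recT c) T g

variable {V} {X : Ctx} {k : ℕ}

theorem ansH_sound (hX : X.Ok V k) {T g r c : ℕ} {x : List ℕ} (h : ansH X T g r x c = true) :
    After V k X.Nd (r, toM x) T g := by
  simp only [ansH, force_eq, forceL_eq] at h
  split_ifs at h
  all_goals
    simp only [Bool.and_eq_true, decide_eq_true_eq] at h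
    obtain ⟨r', l', a1, a2⟩ := runOps_sound hX.sh _ _ _ _ _ h.2.2
    simp only [toWin, Bool.and_eq_true, beq_iff_eq] at a1
    obtain ⟨rfl, a1⟩ := a1
    have a3 := a2 _ ((toM_le a1).reply (.refl _ _))
  · exact Or.inl ⟨_, _, a3, hX.win _ h.1, hX.sw _ _ _ h.2.1⟩
  · exact Or.inr ⟨_, a3, Or.inl ⟨_, _, h.2.1.1, h.2.1.2, _, h.1, rfl, rfl, rfl⟩⟩
  · exact Or.inr ⟨_, a3, Or.inr ⟨_, hX.win _ h.1, hX.cm _ _ _ h.2.1⟩⟩

lemma chkH_sound (hX : X.Ok V k) {T g r : ℕ} : ∀ (ms : List (List (List ℕ × ℕ))) (H : ℕ),
    chkH X T g r ms H = true → ∀ m ∈ ms, ∃ x ∈ m, After V k X.Nd (r, toM x.1) T (g + x.2)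
  | [], _, _ => by simp
  | m :: ms, H, h => by
    rw [chkH, force_eq, Bool.and_eq_true] at h
    intro m' hm'
    rcases List.mem_cons.1 hm' with rfl | hm'
    swap
    · exact chkH_sound hX ms _ h.2 m' hm'
    have h1 := h.1
    split at h1
    · exact absurd h1 Bool.false_ne_true
    rename_i x hx
    rw [force_eq, force_eq] at h1
    exact ⟨x, List.mem_of_getElem? hx, ansH_sound hX h1⟩

lemma incG_le {r i n : ℕ} {l : List ℕ} (hi : i < 4) (hn : n < 5) (h : getL (ix i n) l ≠ 0) :
    (if npair (r, toM (addR n (decL (ix i n) l))) < npair (r, toM l) then 1 else 0) ≤ incG n := by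
  rcases n with _ | n
  · rw [if_neg]
    · rfl
    · rw [toM_dec hi hn h]
      simp [npair, addR, oOf, mkI]
  · split_ifs <;> simp [incG]

theorem zone_of_chk {Nd : AS → ℕ → ℕ → Prop} {T g r : ℕ} {l : List ℕ} (h0 : r ≤ (l.take 14).sum)
    (key : ∀ m ∈ mvsZ l, ∃ x ∈ m, After V k Nd (r, toM x.1) (T + 1) (g + x.2)) :
    ZoneOK V k Nd (r, toM l) T g := by
  refine cond_list h0 (fun i hi n hn g => ?_) fun n' hn' n hn g g' => ?_
  · have e1 : (5 * i + n) / 5 = i := by omega
    have e2 : (5 * i + n) % 5 = n := by omega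
    obtain ⟨x, hx, a⟩ := key _ (List.mem_append_left _
      (List.mem_filterMap.2 ⟨5 * i + n, List.mem_range.2 (by omega), by rw [e1, e2, if_neg g]⟩))
    rw [List.mem_singleton.1 hx] at a
    exact a.mono (Nat.add_le_add_left (incG_le (by omega) hn g) _)
  · have e1 : (5 * n' + n) / 5 = n' := by omega
    have e2 : (5 * n' + n) % 5 = n := by omega
    obtain ⟨x, hx, a⟩ := key _ (List.mem_append_right _
      (List.mem_filterMap.2 ⟨5 * n' + n, List.mem_range.2 (by omega),
        by rw [e1, e2, if_neg (by omega)]⟩))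
    simp only [List.mem_cons, List.not_mem_nil, or_false] at hx
    rcases hx with rfl | rfl | rfl
    · exact Or.inl (a.mono (Nat.add_le_add_left (incG_le (by omega) (by omega) g) _))
    · refine Or.inr (Or.inl (a.mono (Nat.add_le_add_left (incG_le (by omega) hn' ?_) _)))
      obtain ⟨-, m, -, a2, a3⟩ := mem_toM (l := l) (i := 0) (o := oOf n') (by
        rw [toM_dec (by omega) (by omega) g, toM_dec (by omega) hn' g']
        exact mem_cons_of_mem (mem_cons_self _ _))
      have : n' = m := by
        rcases n' with _ | a <;> rcases m with _ | b <;> simp [oOf] at a2 ⊢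
        exact a2
      exact this ▸ a3
    · exact Or.inr (Or.inr a)

theorem closed_of_chk (hX : X.Ok V k) (h : ∀ j < X.M, ∃ H, nodeH X k (X.hb j) H = true) :
    Closed V k X.Nd := by
  rintro _ _ _ ⟨j, hj, rfl, rfl, rfl⟩
  obtain ⟨H, hH⟩ := h j hj
  simp only [nodeH, force_eq, forceL_eq, Bool.and_eq_true, Bool.or_eq_true,
    decide_eq_true_eq] at hH
  have key := chkH_sound hX _ _ hH.2
  refine ⟨hH.1.1, ?_, zone_of_chk hH.1.2 fun m hm => key m (List.mem_cons_of_mem _ hm)⟩
  obtain ⟨x, hx, a⟩ := key _ List.mem_cons_self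
  rwa [List.mem_singleton.1 hx] at a

lemma toM_pad0 (m n : ℕ) : toM (m :: List.replicate n 0) = replicate m (0, none) := by
  have : ∀ (as : List AI) (n : ℕ), toMs as (List.replicate n 0) = 0 := by
    intro as
    induction as with
    | nil => exact fun _ => by simp [toMs]
    | cons a as ih => rintro (_ | n) <;> simp [toMs, List.replicate_succ, ih]
  simp [toM, toMs, tys, this]

/-- A checked table and answers to the first move give a strategy. -/
theorem strat_of_table (hX : X.Ok V k) (h : ∀ j < X.M, ∃ H, nodeH X k (X.hb j) H = true)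
    {m n H : ℕ} (h2 : 2 ≤ m) (hk : k ≤ m) (hm : m ≤ Fintype.card V)
    (h0 : chkH X 1 0 k (mvsZ (m :: List.replicate n 0)) H = true) (E : Finset (Sym2 V))
    (hE : ∀ e, e ∈ E ↔ ¬ e.IsDiag) : Strat E Win (∅, ∅) :=
  hyb_start (closed_of_chk hX h) h2 hm (toM_pad0 m n ▸ zone_of_chk
    (by simp only [List.take_succ_cons, List.sum_cons]; omega) (chkH_sound hX _ _ h0)) E hE

end Pool.Agent.Lib.MP_1024aa_co
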