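import Pool.Agent.Lib.MP_1024aa_co.Zone5

/-! A table of winning states of the building game. -/

set_option autoImplicit false
set_option maxRecDepth 100000
set_option exponentiation.threshold 100000

namespace Pool.Agent.Lib.MP_1024aa_co.Win6

def blocks : List ℕ := [
  0x10400400008800400000000000110000030000000408800000000020010120000000400000404800000000000040230000000000c0080cc0000000000000000]

def tb (j : ℕ) : ℕ := (getL (j / 64) blocks >>> (66 * (j % 64))) % 73786976294838206464

def h0 : List ℕ := [
  0x0,
  0x2c118001e0000000006180008,
  0xe04604001a,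
  0x118b040000,
  0x118b040000,
  0xb2c0010,
  0x118000000000000462c0000,
  0x381180018000000000b18001000000000062c000c]

theorem ok0 : chkFrom sh2 9 tb 8 0 h0 = true := by decide +kernel

theorem len0 : h0.length = 8 := by decide +kernel

theorem all_ok : ∀ j < 8, ∃ H, chkEntry sh2 9 tb 8 j H = true := by
  intro j hj
  exact chkFrom_sound _ _ ok0 j (by omega) (by rw [len0]; omega)

theorem win (j : ℕ) (hj : j < 8) : WinB (recT (tb j)) (recR (tb j), toM (recL 9 (tb j))) :=
  table_sound sh2_ok all_ok _ j hj le_rfl

end Pool.Agent.Lib.MP_1024aa_co.Win6
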