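import Pool.Agent.Lib.MP_1024aa_co.Zone4

/-! From an invariant set of positions to a strategy that wins every play. -/

set_option autoImplicit false

open Finset

namespace Pool.Agent.Lib.MP_1024aa_co

theorem cliqueNum_lt_of_win {V : Type} [Fintype V] [DecidableEq V] {R B : Finset (Sym2 V)}
    (h : Win R B) :
    (SimpleGraph.fromEdgeSet (R : Set (Sym2 V))).cliqueNum <
      (SimpleGraph.fromEdgeSet (B : Set (Sym2 V))).cliqueNum := by
  obtain ⟨k, hB, hR⟩ := h
  obtain ⟨s, hs⟩ := (SimpleGraph.fromEdgeSet (R : Set (Sym2 V))).exists_isNClique_cliqueNum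
  have h1 : (SimpleGraph.fromEdgeSet (R : Set (Sym2 V))).cliqueNum < k := by
    by_contra hc
    exact (hR.mono (not_lt.1 hc)) s hs
  obtain ⟨t, ht⟩ : ∃ t, (SimpleGraph.fromEdgeSet (B : Set (Sym2 V))).IsNClique k t := by
    by_contra hc
    exact hB fun t ht => hc ⟨t, ht⟩
  have h2 := ht.isClique.card_le_cliqueNum
  rw [ht.card_eq] at h2
  omega

theorem play_of_strat {α : Type} [DecidableEq α] {E : Finset α}
    {W : Finset α → Finset α → Prop} (h : Strat E W (∅, ∅)) :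
    ∃ σ : Finset α → Finset α → Finset α,
      (∀ R B, σ R B ⊆ E \ (R ∪ B) ∧ (σ R B).card = min 2 (E \ (R ∪ B)).card) ∧
      ∀ (t : ℕ) (e : ℕ → α) (R B : ℕ → Finset α), R 0 = ∅ → B 0 = ∅ →
        (∀ i < t, e i ∈ E \ (R i ∪ B i) ∧ R (i + 1) = insert (e i) (R i) ∧
          B (i + 1) = B i ∪ σ (R (i + 1)) (B i)) →
        R t ∪ B t = E → W (R t) (B t) := by
  classical
  obtain ⟨S, h0, hS⟩ := h
  have key : ∀ R B : Finset α, ∃ T : Finset α,
      (T ⊆ E \ (R ∪ B) ∧ T.card = min 2 (E \ (R ∪ B)).card) ∧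
      ((∃ T' : Finset α, (T' ⊆ E \ (R ∪ B) ∧ T'.card = min 2 (E \ (R ∪ B)).card) ∧
        (R, B ∪ T') ∈ S) → (R, B ∪ T) ∈ S) := by
    intro R B
    by_cases hex : ∃ T' : Finset α, (T' ⊆ E \ (R ∪ B) ∧ T'.card = min 2 (E \ (R ∪ B)).card) ∧
        (R, B ∪ T') ∈ S
    · obtain ⟨T, hT, hm⟩ := hex
      exact ⟨T, hT, fun _ => hm⟩
    · obtain ⟨T, hT, hc⟩ := exists_subset_card_eq (s := E \ (R ∪ B))
        (min_le_right 2 (E \ (R ∪ B)).card)
      exact ⟨T, ⟨hT, hc⟩, fun h => absurd h hex⟩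
  choose σ hσ hσS using key
  refine ⟨σ, hσ, fun t e R B hR hB hplay hend => ?_⟩
  have inv : ∀ i ≤ t, R i ∪ B i ⊆ E ∧ ((R i, B i) ∈ S ∨ (R i ∪ B i = E ∧ W (R i) (B i))) := by
    intro i
    induction i with
    | zero => intro _; rw [hR, hB]; exact ⟨by simp, Or.inl h0⟩
    | succ i ih =>
      intro hi
      obtain ⟨hsub, hin⟩ := ih (by omega)
      obtain ⟨he, hRi, hBi⟩ := hplay i (by omega)
      obtain ⟨heE, hne⟩ := mem_sdiff.1 he
      have hsub' : R (i + 1) ∪ B i ⊆ E := by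
        rw [hRi, insert_union]; exact insert_subset heE hsub
      have hs2 : R (i + 1) ∪ B (i + 1) ⊆ E := by
        rw [hBi, ← union_assoc]
        exact union_subset hsub' ((hσ _ _).1.trans sdiff_subset)
      refine ⟨hs2, ?_⟩
      rcases hin with hin | ⟨hfull, _⟩
      · obtain ⟨hw, hn⟩ := (hS _ hin).2 (e i) heE (fun h => hne (mem_union_left _ h))
          (fun h => hne (mem_union_right _ h))
        dsimp only at hw hn
        rw [← hRi] at hw hn
        by_cases hf : R (i + 1) ∪ B i = E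
        · have hz : σ (R (i + 1)) (B i) = ∅ := by
            have := (hσ (R (i + 1)) (B i)).1
            rw [hf, sdiff_self] at this
            exact subset_empty.1 this
          rw [hBi, hz, union_empty]
          exact Or.inr ⟨hf, hw hf⟩
        · obtain ⟨T, hTE, hTd, hTc, hTS⟩ := hn hf
          rw [hBi]
          refine Or.inl (hσS _ _ ⟨T, ⟨subset_sdiff.2 ⟨hTE, hTd⟩, ?_⟩, hTS⟩)
          rw [hTc, card_sdiff_of_subset hsub']
      · exact absurd (hfull ▸ heE) hne
  rcases (inv t le_rfl).2 with hin | ⟨_, hw⟩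
  · exact (hS _ hin).1 hend
  · exact hw

end Pool.Agent.Lib.MP_1024aa_co
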