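import Pool.Agent.Lib.MP_1024aa_co.Glue

/-! Tables of static bounds. -/

set_option autoImplicit false

namespace Pool.Agent.Lib.MP_1024aa_co.Rows

open Stat Glue

def t4n9m0 : List Grp := [
  ⟨5, 5, 0, 0, [⟨4, 0, 0, 0, 4, 0, 729⟩]⟩]

theorem t4n9m0_run : tableR 3 6 21 0 4 5 t4n9m0 1 1 0 12 1 0 = true := by decide +kernel

theorem t4n9m0_side : sideOk 3 6 21 0 4 5 t4n9m0 = true := by decide +kernel

theorem t4n9m0_ok : TabOK 4 t4n9m0 :=
  statB_of_table 3 6 21 0 4 5 t4n9m0 1 1 0 12 1 (by omega)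
    (fun p hp => by obtain rfl : p = 0 := by omega
                    exact t4n9m0_run) t4n9m0_side

def t5n12m0 : List Grp := [
  ⟨7, 6, 4, 0, [⟨2, 0, 2, 0, 6, 0, 59049⟩]⟩,
  ⟨8, 6, 4, 0, [⟨2, 0, 2, 0, 4, 0, 59049⟩]⟩,
  ⟨8, 7, 0, 0, [⟨5, 0, 0, 0, 6, 0, 19683⟩]⟩]

theorem t5n12m0_run : tableR 4 9 30 0 6 34494482440 t5n12m0 1 1 0 18 1 0 = true := by decide +kernel

theorem t5n12m0_side : sideOk 4 9 30 0 6 34494482440 t5n12m0 = true := by decide +kernel

theorem t5n12m0_ok : TabOK 5 t5n12m0 :=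
  statB_of_table 4 9 30 0 6 34494482440 t5n12m0 1 1 0 18 1 (by omega)
    (fun p hp => by obtain rfl : p = 0 := by omega
                    exact t5n12m0_run) t5n12m0_side

def t5n12m2 : List Grp := [
  ⟨7, 6, 2, 2, [⟨2, 0, 2, 0, 3, 1, 59049⟩]⟩]

theorem t5n12m2_run : tableR 4 8 30 2 3 30182672135 t5n12m2 1 1 0 16 1 0 = true := by decide +kernel

theorem t5n12m2_side : sideOk 4 8 30 2 3 30182672135 t5n12m2 = true := by decide +kernel

theorem t5n12m2_ok : TabOK 5 t5n12m2 :=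
  statB_of_table 4 8 30 2 3 30182672135 t5n12m2 1 1 0 16 1 (by omega)
    (fun p hp => by obtain rfl : p = 0 := by omega
                    exact t5n12m2_run) t5n12m2_side

def t5n16m0 : List Grp := [
  ⟨9, 11, 0, 0, [⟨5, 0, 0, 0, 8, 0, 59049⟩]⟩]

theorem t5n16m0_run : tableR 4 10 35 0 8 9 t5n16m0 1 1 0 20 1 0 = true := by decide +kernel

theorem t5n16m0_side : sideOk 4 10 35 0 8 9 t5n16m0 = true := by decide +kernel

theorem t5n16m0_ok : TabOK 5 t5n16m0 :=
  statB_of_table 4 10 35 0 8 9 t5n16m0 1 1 0 20 1 (by omega)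
    (fun p hp => by obtain rfl : p = 0 := by omega
                    exact t5n16m0_run) t5n16m0_side

def t8n50m0 : List Grp := [
  ⟨2, 18, 30, 0, [⟨0, 2, 255, 1, 1, 0, 22818365127033⟩]⟩,
  ⟨3, 18, 30, 0, [⟨0, 2, 255, 0, 2, 0, 22840704314865⟩, ⟨0, 2, 255, 1, 2, 0, 22876792454961⟩]⟩,
  ⟨4, 18, 30, 0, [⟨0, 2, 255, 0, 3, 0, 22876792454961⟩]⟩]

theorem t8n50m0_run : tableR 7 5 78 0 3 464984703447105035740143877054495755457837114892611519907468886369031548044292 t8n50m0 1 1 0 10 1 0 = true := by decide +kernel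

theorem t8n50m0_side : sideOk 7 5 78 0 3 464984703447105035740143877054495755457837114892611519907468886369031548044292 t8n50m0 = true := by decide +kernel

theorem t8n50m0_ok : TabOK 8 t8n50m0 :=
  statB_of_table 7 5 78 0 3 464984703447105035740143877054495755457837114892611519907468886369031548044292 t8n50m0 1 1 0 10 1 (by omega)
    (fun p hp => by obtain rfl : p = 0 := by omega
                    exact t8n50m0_run) t8n50m0_side

def t8n50m2 : List Grp := [
  ⟨2, 18, 28, 2, [⟨0, 2, 255, 1, 1, 1, 22876792454961⟩]⟩,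
  ⟨2, 18, 29, 2, [⟨0, 1, 255, 1, 1, 2, 29213663964⟩]⟩,
  ⟨3, 18, 28, 2, [⟨0, 2, 255, 0, 2, 1, 22876792454961⟩]⟩,
  ⟨3, 18, 29, 2, [⟨0, 1, 255, 0, 2, 2, 18044070048⟩]⟩]

theorem t8n50m2_run : tableR 7 4 78 2 2 348738527585328776805107907790871816593377836169458639930601664776773661033219 t8n50m2 1 1 0 8 1 0 = true := by decide +kernel

theorem t8n50m2_side : sideOk 7 4 78 2 2 348738527585328776805107907790871816593377836169458639930601664776773661033219 t8n50m2 = true := by decide +kernel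

theorem t8n50m2_ok : TabOK 8 t8n50m2 :=
  statB_of_table 7 4 78 2 2 348738527585328776805107907790871816593377836169458639930601664776773661033219 t8n50m2 1 1 0 8 1 (by omega)
    (fun p hp => by obtain rfl : p = 0 := by omega
                    exact t8n50m2_run) t8n50m2_side

end Pool.Agent.Lib.MP_1024aa_co.Rows
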