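import Pool.Agent.Lib.MP_1024aa_co.Glue

/-! Tables of static bounds. -/

set_option autoImplicit false

namespace Pool.Agent.Lib.MP_1024aa_co.Rows

open Stat Glue

def t6n22m0 : List Grp := [
  ⟨12, 15, 2, 0, [⟨3, 2, 1, 1, 7, 0, 7964355⟩]⟩,
  ⟨12, 15, 3, 0, [⟨3, 1, 1, 1, 7, 0, 7586791⟩]⟩,
  ⟨13, 14, 4, 0, [⟨2, 2, 2, 0, 9, 0, 14348907⟩]⟩,
  ⟨13, 14, 5, 0, [⟨2, 1, 3, 0, 5, 0, 14348907⟩]⟩,
  ⟨13, 15, 2, 0, [⟨3, 2, 1, 1, 4, 0, 4782969⟩, ⟨3, 2, 1, 1, 8, 0, 14348907⟩]⟩,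
  ⟨13, 15, 3, 0, [⟨3, 1, 1, 0, 6, 0, 4782969⟩, ⟨3, 1, 1, 1, 5, 0, 4782969⟩, ⟨3, 1, 1, 1, 8, 0, 14348907⟩]⟩,
  ⟨13, 15, 4, 0, [⟨3, 0, 2, 0, 5, 0, 4782969⟩, ⟨3, 0, 2, 0, 8, 0, 14348907⟩]⟩,
  ⟨13, 16, 0, 0, [⟨6, 0, 0, 0, 11, 0, 4782969⟩]⟩]

theorem t6n22m0_run : tableR 5 14 49 0 11 3673524401933581 t6n22m0 1 1 0 28 1 0 = true := by decide +kernel

theorem t6n22m0_side : sideOk 5 14 49 0 11 3673524401933581 t6n22m0 = true := by decide +kernel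

theorem t6n22m0_ok : TabOK 6 t6n22m0 :=
  statB_of_table 5 14 49 0 11 3673524401933581 t6n22m0 1 1 0 28 1 (by omega)
    (fun p hp => by obtain rfl : p = 0 := by omega
                    exact t6n22m0_run) t6n22m0_side

end Pool.Agent.Lib.MP_1024aa_co.Rows
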