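import Pool.Agent.Lib.MP_1024aa_co.Glue

/-! Tables of static bounds. -/

set_option autoImplicit false

namespace Pool.Agent.Lib.MP_1024aa_co.Rows

open Stat Glue

def t6n22m2 : List Grp := [
  ⟨12, 15, 0, 2, [⟨3, 2, 1, 1, 7, 1, 14348907⟩]⟩,
  ⟨12, 15, 1, 2, [⟨3, 1, 1, 1, 7, 2, 3192276⟩, ⟨3, 1, 1, 1, 7, 1, 14348907⟩]⟩,
  ⟨12, 15, 2, 2, [⟨3, 0, 1, 1, 7, 2, 3381058⟩]⟩]

theorem t6n22m2_run : tableR 5 13 50 2 7 51741723660 t6n22m2 1 1 0 26 1 0 = true := by decide +kernel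

theorem t6n22m2_side : sideOk 5 13 50 2 7 51741723660 t6n22m2 = true := by decide +kernel

theorem t6n22m2_ok : TabOK 6 t6n22m2 :=
  statB_of_table 5 13 50 2 7 51741723660 t6n22m2 1 1 0 26 1 (by omega)
    (fun p hp => by obtain rfl : p = 0 := by omega
                    exact t6n22m2_run) t6n22m2_side

end Pool.Agent.Lib.MP_1024aa_co.Rows
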