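import Mathlib

/-! The format of a winning strategy, and the abstract building game. -/

set_option autoImplicit false

open Finset

namespace Pool.Agent.Lib.MP_1024aa_co

section format

variable {α : Type*} [DecidableEq α]

/-- The second player wins from the position `p0`, in the format of the frozen statement. -/
def Strat (E : Finset α) (Win : Finset α → Finset α → Prop) (p0 : Finset α × Finset α) : Prop :=
  ∃ S : Set (Finset α × Finset α), p0 ∈ S ∧
    ∀ p ∈ S, (p.1 ∪ p.2 = E → Win p.1 p.2) ∧
      (∀ e ∈ E, e ∉ p.1 → e ∉ p.2 →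
        (insert e p.1 ∪ p.2 = E → Win (insert e p.1) p.2) ∧
        (insert e p.1 ∪ p.2 ≠ E →
          ∃ T : Finset α, T ⊆ E ∧ Disjoint T (insert e p.1 ∪ p.2) ∧
            T.card = min 2 (E.card - (insert e p.1 ∪ p.2).card) ∧
            (insert e p.1, p.2 ∪ T) ∈ S))

/-- An invariant that survives extra blue elements and is restored by at most two blue elements
gives a strategy. -/
theorem strat_of_inv (E : Finset α) (Win P : Finset α → Finset α → Prop)
    (hend : ∀ R B, R ⊆ E → B ⊆ E → Disjoint R B → P R B → R ∪ B = E → Win R B)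
    (hmono : ∀ R B F, R ⊆ E → B ⊆ E → Disjoint R B → F ⊆ E → Disjoint F (R ∪ B) → P R B →
      P R (B ∪ F))
    (hstep : ∀ R B, R ⊆ E → B ⊆ E → Disjoint R B → P R B → ∀ e ∈ E, e ∉ R → e ∉ B →
      ∃ F, F ⊆ E ∧ Disjoint F (insert e R ∪ B) ∧ F.card ≤ 2 ∧ P (insert e R) (B ∪ F))
    (R0 B0 : Finset α) (hR0 : R0 ⊆ E) (hB0 : B0 ⊆ E) (h0 : Disjoint R0 B0) (hP : P R0 B0) :
    Strat E Win (R0, B0) := by
  refine ⟨{p | p.1 ⊆ E ∧ p.2 ⊆ E ∧ Disjoint p.1 p.2 ∧ P p.1 p.2}, ⟨hR0, hB0, h0, hP⟩, ?_⟩
  rintro ⟨R, B⟩ ⟨hR, hB, hRB, hP⟩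
  dsimp only at hR hB hRB hP ⊢
  refine ⟨hend R B hR hB hRB hP, fun e he heR heB => ?_⟩
  obtain ⟨F, hF, hd, hc, hP'⟩ := hstep R B hR hB hRB hP e he heR heB
  have hR' : insert e R ⊆ E := insert_subset he hR
  have hd' : Disjoint (insert e R) B := disjoint_insert_left.2 ⟨heB, hRB⟩
  constructor
  · intro hE
    have : F = ∅ := by
      rw [hE] at hd
      exact eq_empty_of_forall_notMem fun x hx => disjoint_left.1 hd hx (hF hx)
    rw [this, union_empty] at hP'
    exact hend _ _ hR' hB hd' hP' hE
  · intro _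
    have hsub : F ⊆ E \ (insert e R ∪ B) := fun x hx =>
      mem_sdiff.2 ⟨hF hx, disjoint_left.1 hd hx⟩
    have hcard : (E \ (insert e R ∪ B)).card = E.card - (insert e R ∪ B).card :=
      card_sdiff_of_subset (union_subset hR' hB)
    obtain ⟨T, hFT, hT, hTc⟩ := exists_subsuperset_card_eq (n := min 2 (E.card - (insert e R ∪ B).card))
      hsub (le_min hc (hcard ▸ card_le_card hsub)) (hcard ▸ min_le_right _ _)
    have hTE : T ⊆ E := hT.trans sdiff_subset
    have hTd : Disjoint T (insert e R ∪ B) := disjoint_of_subset_left hT sdiff_disjoint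
    refine ⟨T, hTE, hTd, hTc, hR', union_subset hB hTE, ?_, ?_⟩
    · exact disjoint_union_right.2 ⟨hd', (disjoint_union_right.1 hTd).1.symm⟩
    · have e1 : B ∪ T = B ∪ F ∪ T \ F := by rw [union_assoc, union_sdiff_of_subset hFT]
      dsimp only
      rw [e1]
      refine hmono _ _ _ hR' (union_subset hB hF) ?_ (sdiff_subset.trans hTE) ?_ hP'
      · exact disjoint_union_right.2 ⟨hd', (disjoint_union_right.1 hd).1.symm⟩
      · rw [← union_assoc]
        exact disjoint_union_right.2 ⟨disjoint_of_subset_left sdiff_subset hTd, sdiff_disjoint⟩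

end format

/-- An abstract item: a deficiency, and the deficiency of the partner if there is one. -/
abbrev AI : Type := ℕ × Option ℕ

/-- normal form of an item -/
def mkI (i : ℕ) : Option ℕ → AI
  | none => (i, none)
  | some j => (min i j, some (max i j))

/-- what is left of an item when its first vertex is dropped -/
def restI : Option ℕ → Multiset AI
  | none => 0
  | some j => {(j, none)}

def incI (a : AI) : AI := (a.1 + 1, a.2.map (· + 1))

/-- number of centres still wanted, and the items -/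
abbrev AS : Type := ℕ × Multiset AI

/-- The replies of the builder with a given number of edges. -/
inductive Reply : ℕ → AS → AS → Prop
  | refl (b : ℕ) (s : AS) : Reply b s s
  | drop {b r i : ℕ} {o : Option ℕ} {T : Multiset AI} {s : AS} :
      Reply b (r, restI o + T) s → Reply b (r, mkI i o ::ₘ T) s
  | build {b r i : ℕ} {o : Option ℕ} {T : Multiset AI} {s : AS} :
      Reply b (r, mkI i o ::ₘ T) s → Reply (b + 1) (r, mkI (i + 1) o ::ₘ T) s
  | weaken {b r i : ℕ} {o : Option ℕ} {T : Multiset AI} {s : AS} :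
      Reply b (r, mkI (i + 1) o ::ₘ T) s → Reply b (r, mkI i o ::ₘ T) s
  | promote {b r : ℕ} {o : Option ℕ} {T : Multiset AI} {s : AS} :
      Reply b (r, T.map incI) s → Reply b (r + 1, mkI 0 o ::ₘ T) s

/-- every zone move of the first player leads to a state in `Nd` by dropping an end of the edge,
or to a state in `Nk` by keeping the edge as a new pair -/
def Cond2 (Nd Nk : AS → Prop) (s : AS) : Prop :=
  s.1 ≤ Multiset.card s.2 ∧
  (∀ i o T, s.2 = mkI (i + 1) o ::ₘ T → Nd (s.1, restI o + T)) ∧
  (∀ o o' T, s.2 = mkI 0 o ::ₘ mkI 0 o' ::ₘ T →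
    Nd (s.1, restI o + mkI 0 o' ::ₘ T) ∨ Nd (s.1, restI o' + mkI 0 o ::ₘ T) ∨
      Nk (s.1, (0, some 0) ::ₘ T))

/-- every zone move of the first player leads to a state in `N` -/
def Cond (N : AS → Prop) (s : AS) : Prop := Cond2 N N s

/-- The builder completes the clique, and the first player has at most `t` zone moves. -/
def WinB : ℕ → AS → Prop
  | 0 => Cond fun _ => False
  | t + 1 => Cond fun s1 => ∃ s', Reply 2 s1 s' ∧ WinB t s'

theorem Cond.mono {N N' : AS → Prop} (h : ∀ s, N s → N' s) {s : AS} (hs : Cond N s) : Cond N' s :=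
  ⟨hs.1, fun i o T e => h _ (hs.2.1 i o T e), fun o o' T e =>
    (hs.2.2 o o' T e).imp (h _) (Or.imp (h _) (h _))⟩

theorem WinB.succ : ∀ {t : ℕ} {s : AS}, WinB t s → WinB (t + 1) s
  | 0, _, h => Cond.mono (fun _ => False.elim) h
  | _ + 1, _, h => Cond.mono (fun _ ⟨s', h1, h2⟩ => ⟨s', h1, h2.succ⟩) h

theorem WinB.mono {t t' : ℕ} {s : AS} (h : WinB t s) (hle : t ≤ t') : WinB t' s := by
  induction t', hle using Nat.le_induction with
  | base => exact h
  | succ _ _ ih => exact ih.succ

theorem WinB.card_le : ∀ {t : ℕ} {s : AS}, WinB t s → s.1 ≤ Multiset.card s.2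
  | 0, _, h => h.1
  | _ + 1, _, h => h.1

theorem winB_zero : WinB 0 (0, 0) :=
  ⟨le_rfl, fun _ _ _ e => absurd e Multiset.zero_ne_cons, fun _ _ _ e =>
    absurd e Multiset.zero_ne_cons⟩

theorem Reply.trans_free {b : ℕ} {s s' s'' : AS} (h : Reply b s s') (h' : Reply 0 s' s'') :
    Reply b s s'' := by
  induction h with
  | refl b s =>
    have : ∀ {c : ℕ} {u v : AS}, Reply c u v → ∀ d, c ≤ d → Reply d u v := by
      intro c u v h
      induction h with
      | refl => exact fun d _ => .refl _ _
      | drop _ ih => exact fun d hd => .drop (ih d hd)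
      | build _ ih =>
        intro d hd
        obtain ⟨d, rfl⟩ : ∃ e, d = e + 1 := ⟨d - 1, by omega⟩
        exact .build (ih d (by omega))
      | weaken _ ih => exact fun d hd => .weaken (ih d hd)
      | promote _ ih => exact fun d hd => .promote (ih d hd)
    exact this h' b (Nat.zero_le _)
  | drop _ ih => exact .drop (ih h')
  | build _ ih => exact .build (ih h')
  | weaken _ ih => exact .weaken (ih h')
  | promote _ ih => exact .promote (ih h')

end Pool.Agent.Lib.MP_1024aa_co
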