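import Pool.Agent.Lib.MP_1024aa_co.Zone1

/-! The concrete zone: centres, candidates, and the realisation of abstract replies. -/

set_option autoImplicit false
set_option linter.unusedSectionVars false

namespace Pool.Agent.Lib.MP_1024aa_co

variable {V : Type*} [DecidableEq V]

/-- a candidate with its deficiency, and its partner if there is one -/
abbrev It (V : Type*) : Type _ := V × ℕ × Option (V × ℕ)

def It.vd (a : It V) : Multiset (V × ℕ) := (a.1, a.2.1) ::ₘ (a.2.2.toList : Multiset (V × ℕ))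

def It.vs (a : It V) : Multiset V := a.vd.map Prod.fst

def It.abs (a : It V) : AI := mkI a.2.1 (a.2.2.map Prod.snd)

def It.inc (a : It V) : It V := (a.1, a.2.1 + 1, a.2.2.map fun q => (q.1, q.2 + 1))

def restIt : Option (V × ℕ) → Multiset (It V)
  | none => 0
  | some q => {(q.1, q.2, none)}

/-- the candidates -/
def vs (L : Multiset (It V)) : Multiset V := L.bind It.vs

omit [DecidableEq V] in
@[simp] lemma vs_cons (a : It V) (L : Multiset (It V)) : vs (a ::ₘ L) = a.vs + vs L :=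
  Multiset.cons_bind _ _ _

omit [DecidableEq V] in
@[simp] lemma vs_add (L L' : Multiset (It V)) : vs (L + L') = vs L + vs L' :=
  Multiset.add_bind _ _ _

omit [DecidableEq V] in
@[simp] lemma vs_zero : vs (0 : Multiset (It V)) = 0 := rfl

omit [DecidableEq V] in
@[simp] lemma It.vs_none (v : V) (i : ℕ) : It.vs (v, i, none) = {v} := rfl

omit [DecidableEq V] in
@[simp] lemma It.vs_some (v : V) (i : ℕ) (q : V × ℕ) : It.vs (v, i, some q) = {v, q.1} := rfl

omit [DecidableEq V] in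
@[simp] lemma It.vd_none (v : V) (i : ℕ) : It.vd (v, i, none) = {(v, i)} := rfl

omit [DecidableEq V] in
@[simp] lemma It.vd_some (v : V) (i : ℕ) (q : V × ℕ) : It.vd (v, i, some q) = {(v, i), q} := rfl

omit [DecidableEq V] in
lemma mem_vs {x : V} {L : Multiset (It V)} : x ∈ vs L ↔ ∃ a ∈ L, x ∈ a.vs := Multiset.mem_bind

omit [DecidableEq V] in
lemma It.vs_inc (a : It V) : a.inc.vs = a.vs := by
  obtain ⟨v, i, _ | q⟩ := a <;> rfl

omit [DecidableEq V] in
lemma vs_map_inc (L : Multiset (It V)) : vs (L.map It.inc) = vs L := by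
  unfold vs
  rw [Multiset.bind_map]
  exact Multiset.bind_congr fun a _ => a.vs_inc

omit [DecidableEq V] in
lemma It.abs_inc (a : It V) : a.inc.abs = incI a.abs := by
  obtain ⟨v, i, _ | q⟩ := a
  · rfl
  · simp [It.inc, It.abs, mkI, incI, Nat.add_min_add_right, Nat.add_max_add_right]

omit [DecidableEq V] in
lemma vs_head (v : V) (i : ℕ) (o : Option (V × ℕ)) (T : Multiset (It V)) :
    vs ((v, i, o) ::ₘ T) = v ::ₘ vs (restIt o + T) := by
  rcases o with _ | q <;> simp [restIt, vs]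

omit [DecidableEq V] in
lemma abs_rest (o : Option (V × ℕ)) : (restIt o).map It.abs = restI (o.map Prod.snd) := by
  rcases o with _ | q <;> rfl

/-- The invariant of the zone: `C` lists the centres, the newest first. -/
structure ZGood (R B : Finset (Sym2 V)) (C : List V) (L : Multiset (It V)) : Prop where
  nd : (vs L).Nodup
  ndc : C.Nodup
  dis : ∀ x ∈ vs L, x ∉ C
  clq : ∀ c ∈ C, ∀ c' ∈ C, c ≠ c' → s(c, c') ∈ B
  nored : ∀ x ∈ vs L, ∀ c ∈ C, s(c, x) ∉ R
  defi : ∀ a ∈ L, ∀ q ∈ a.vd, ∀ c ∈ C.drop q.2, s(c, q.1) ∈ B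
  mat : ∀ x ∈ vs L, ∀ y ∈ vs L, s(x, y) ∈ R → ∃ a ∈ L, x ∈ a.vs ∧ y ∈ a.vs
  red : ∀ a ∈ L, ∀ q, a.2.2 = some q → s(a.1, q.1) ∈ R

variable {R B : Finset (Sym2 V)} {C : List V} {L T : Multiset (It V)}

lemma ZGood.mono (h : ZGood R B C L) {B' : Finset (Sym2 V)} (hB : B ⊆ B') : ZGood R B' C L :=
  ⟨h.nd, h.ndc, h.dis, fun c hc c' hc' hne => hB (h.clq c hc c' hc' hne), h.nored,
    fun a ha q hq c hc => hB (h.defi a ha q hq c hc), h.mat, h.red⟩

lemma ZGood.insert_red (h : ZGood R B C L) {e : Sym2 V}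
    (he : ∀ x ∈ vs L, ∀ y, y ∈ vs L ∨ y ∈ C → e ≠ s(x, y)) : ZGood (insert e R) B C L :=
  ⟨h.nd, h.ndc, h.dis, h.clq, fun x hx c hc hm => (Finset.mem_insert.1 hm).elim
      (fun e1 => he x hx c (Or.inr hc) (e1.symm.trans Sym2.eq_swap)) (h.nored x hx c hc),
    h.defi, fun x hx y hy hm => (Finset.mem_insert.1 hm).elim
      (fun e1 => absurd e1.symm (he x hx y (Or.inl hy))) (h.mat x hx y hy),
    fun a ha q hq => Finset.mem_insert_of_mem (h.red a ha q hq)⟩

lemma ZGood.swap {v w : V} {i j : ℕ} (h : ZGood R B C ((v, i, some (w, j)) ::ₘ T)) :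
    ZGood R B C ((w, j, some (v, i)) ::ₘ T) := by
  have e : vs ((w, j, some (v, i)) ::ₘ T) = vs ((v, i, some (w, j)) ::ₘ T) := by
    simp [Multiset.cons_swap]
  refine ⟨e ▸ h.nd, h.ndc, e ▸ h.dis, h.clq, e ▸ h.nored, fun a ha q hq => ?_,
    fun x hx y hy hm => ?_, fun a ha q hq => ?_⟩
  · rcases Multiset.mem_cons.1 ha with rfl | ha
    · exact h.defi _ (Multiset.mem_cons_self _ _) q (by simpa [or_comm] using hq)
    · exact h.defi a (Multiset.mem_cons_of_mem ha) q hq
  · obtain ⟨a, ha, h1, h2⟩ := h.mat x (e ▸ hx) y (e ▸ hy) hm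
    rcases Multiset.mem_cons.1 ha with rfl | ha
    · exact ⟨_, Multiset.mem_cons_self _ _, by simpa [or_comm] using h1,
        by simpa [or_comm] using h2⟩
    · exact ⟨a, Multiset.mem_cons_of_mem ha, h1, h2⟩
  · rcases Multiset.mem_cons.1 ha with rfl | ha
    · obtain rfl : (v, i) = q := by simpa using hq
      exact Sym2.eq_swap ▸ h.red _ (Multiset.mem_cons_self _ _) (w, j) rfl
    · exact h.red a (Multiset.mem_cons_of_mem ha) q hq

lemma ZGood.head_notMem {v : V} {i : ℕ} {o : Option (V × ℕ)} (h : ZGood R B C ((v, i, o) ::ₘ T)) :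
    v ∉ vs (restIt o + T) := by
  have := h.nd
  rw [vs_head, Multiset.nodup_cons] at this
  exact this.1

lemma ZGood.drop {v : V} {i : ℕ} {o : Option (V × ℕ)} (h : ZGood R B C ((v, i, o) ::ₘ T)) :
    ZGood R B C (restIt o + T) := by
  have hs : ∀ x ∈ vs (restIt o + T), x ∈ vs ((v, i, o) ::ₘ T) := fun x hx => by
    rw [vs_head]; exact Multiset.mem_cons_of_mem hx
  have hv := h.head_notMem
  refine ⟨?_, h.ndc, fun x hx => h.dis x (hs x hx), h.clq, fun x hx => h.nored x (hs x hx),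
    fun a ha q hq => ?_, fun x hx y hy hm => ?_, fun a ha q hq => ?_⟩
  · have := h.nd
    rw [vs_head, Multiset.nodup_cons] at this
    exact this.2
  · rcases Multiset.mem_add.1 ha with ha | ha
    · rcases o with _ | p
      · simp [restIt] at ha
      · obtain rfl : a = (p.1, p.2, none) := by simpa [restIt] using ha
        exact h.defi _ (Multiset.mem_cons_self _ _) q (by simp at hq; simp [hq])
    · exact h.defi a (Multiset.mem_cons_of_mem ha) q hq
  · obtain ⟨a, ha, h1, h2⟩ := h.mat x (hs x hx) y (hs y hy) hm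
    rcases Multiset.mem_cons.1 ha with rfl | ha
    · have hx' : x ≠ v := fun e => hv (e ▸ hx)
      have hy' : y ≠ v := fun e => hv (e ▸ hy)
      rcases o with _ | p
      · simp [hx'] at h1
      · exact ⟨(p.1, p.2, none), by simp [restIt], by simpa [hx'] using h1,
          by simpa [hy'] using h2⟩
    · exact ⟨a, Multiset.mem_add.2 (Or.inr ha), h1, h2⟩
  · rcases Multiset.mem_add.1 ha with ha | ha
    · rcases o with _ | p
      · simp [restIt] at ha
      · obtain rfl : a = (p.1, p.2, none) := by simpa [restIt] using ha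
        simp at hq
    · exact h.red a (Multiset.mem_cons_of_mem ha) q hq

lemma ZGood.setDef {v : V} {i i' : ℕ} {o : Option (V × ℕ)} (h : ZGood R B C ((v, i, o) ::ₘ T))
    (hd : ∀ c ∈ C.drop i', s(c, v) ∈ B) : ZGood R B C ((v, i', o) ::ₘ T) := by
  have e : vs ((v, i', o) ::ₘ T) = vs ((v, i, o) ::ₘ T) := by rw [vs_head, vs_head]
  have e' : It.vs (v, i', o) = It.vs (v, i, o) := by rcases o with _ | p <;> rfl
  refine ⟨e ▸ h.nd, h.ndc, e ▸ h.dis, h.clq, e ▸ h.nored, fun a ha q hq => ?_,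
    fun x hx y hy hm => ?_, fun a ha q hq => ?_⟩
  · rcases Multiset.mem_cons.1 ha with rfl | ha
    · rcases Multiset.mem_cons.1 hq with rfl | hq
      · exact hd
      · exact h.defi _ (Multiset.mem_cons_self _ _) q (Multiset.mem_cons_of_mem hq)
    · exact h.defi a (Multiset.mem_cons_of_mem ha) q hq
  · obtain ⟨a, ha, h1, h2⟩ := h.mat x (e ▸ hx) y (e ▸ hy) hm
    rcases Multiset.mem_cons.1 ha with rfl | ha
    · exact ⟨_, Multiset.mem_cons_self _ _, e' ▸ h1, e' ▸ h2⟩
    · exact ⟨a, Multiset.mem_cons_of_mem ha, h1, h2⟩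
  · rcases Multiset.mem_cons.1 ha with rfl | ha
    · exact h.red (v, i, o) (Multiset.mem_cons_self _ _) q hq
    · exact h.red a (Multiset.mem_cons_of_mem ha) q hq

lemma ZGood.headDef {v : V} {i : ℕ} {o : Option (V × ℕ)} (h : ZGood R B C ((v, i, o) ::ₘ T)) :
    ∀ c ∈ C.drop i, s(c, v) ∈ B :=
  h.defi _ (Multiset.mem_cons_self _ _) (v, i) (Multiset.mem_cons_self _ _)

lemma ZGood.solo {v : V} {i : ℕ} {o : Option (V × ℕ)} (h : ZGood R B C ((v, i, o) ::ₘ T)) :
    ZGood R B C ((v, i, none) ::ₘ T) := by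
  rcases o with _ | ⟨w, j⟩
  · exact h
  · simpa [restIt] using h.swap.drop

lemma ZGood.promote {v : V} {o : Option (V × ℕ)} (hR : ∀ e ∈ R, ¬ e.IsDiag)
    (h : ZGood R B C ((v, 0, o) ::ₘ T)) : ZGood R B (v :: C) (T.map It.inc) := by
  have h1 := h.solo
  have h2 : ZGood R B C T := by simpa [restIt] using h1.drop
  have hv : v ∉ vs T := by simpa [restIt] using h1.head_notMem
  have hvC : v ∉ C := h1.dis v (by simp)
  have hb : ∀ c ∈ C, s(c, v) ∈ B := h1.headDef
  refine ⟨(vs_map_inc T).symm ▸ h2.nd, List.nodup_cons.2 ⟨hvC, h.ndc⟩, ?_, ?_, ?_, ?_, ?_, ?_⟩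
  · rw [vs_map_inc]
    intro x hx hc
    rcases List.mem_cons.1 hc with rfl | hc
    · exact hv hx
    · exact h2.dis x hx hc
  · intro c hc c' hc' hne
    rcases List.mem_cons.1 hc with e1 | e1 <;> rcases List.mem_cons.1 hc' with e2 | e2
    · exact absurd (e1.trans e2.symm) hne
    · rw [e1, Sym2.eq_swap]
      exact hb c' e2
    · rw [e2]
      exact hb c e1
    · exact h.clq c e1 c' e2 hne
  · rw [vs_map_inc]
    intro x hx c hc hm
    rcases List.mem_cons.1 hc with rfl | hc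
    · obtain ⟨a, ha, a1, a2⟩ := h1.mat c (by simp) x (by simp [hx]) hm
      rcases Multiset.mem_cons.1 ha with rfl | ha
      · obtain rfl : x = c := by simpa using a2
        exact hR _ hm (by simp)
      · exact hv (mem_vs.2 ⟨a, ha, a1⟩)
    · exact h2.nored x hx c hc hm
  · intro a ha0 q hq c hc
    obtain ⟨a, ha, rfl⟩ := Multiset.mem_map.1 ha0
    clear ha0
    obtain ⟨p, hp, rfl⟩ : ∃ p ∈ a.vd, q = (p.1, p.2 + 1) := by
      obtain ⟨w, j, _ | p⟩ := a
      · exact ⟨(w, j), by simp, by simpa [It.inc] using hq⟩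
      · have : q = (w, j + 1) ∨ q = (p.1, p.2 + 1) := by simpa [It.inc] using hq
        exact this.elim (fun e => ⟨(w, j), by simp, e⟩) fun e => ⟨p, by simp, e⟩
    exact h2.defi a ha p hp c hc
  · rw [vs_map_inc]
    intro x hx y hy hm
    obtain ⟨a, ha, a1, a2⟩ := h2.mat x hx y hy hm
    exact ⟨a.inc, Multiset.mem_map_of_mem _ ha, a.vs_inc.symm ▸ a1, a.vs_inc.symm ▸ a2⟩
  · intro a ha0 q hq
    obtain ⟨a, ha, rfl⟩ := Multiset.mem_map.1 ha0
    clear ha0
    obtain ⟨w, j, _ | p⟩ := a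
    · simp [It.inc] at hq
    · obtain rfl : (p.1, p.2 + 1) = q := by simpa [It.inc] using hq
      exact h2.red _ ha p rfl

lemma ZGood.keep {x y : V} {i j : ℕ} (h : ZGood R B C ((x, i, none) ::ₘ (y, j, none) ::ₘ T)) :
    ZGood (insert s(x, y) R) B C ((x, i, some (y, j)) ::ₘ T) := by
  have e : vs ((x, i, some (y, j)) ::ₘ T) = vs ((x, i, none) ::ₘ (y, j, none) ::ₘ T) := by
    simp [vs, Multiset.cons_swap]
  have hx : x ∉ C := h.dis x (by simp)
  have hy : y ∉ C := h.dis y (by simp)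
  refine ⟨e ▸ h.nd, h.ndc, e ▸ h.dis, h.clq, fun u hu c hc hm => ?_, fun a ha q hq => ?_,
    fun u hu w hw hm => ?_, fun a ha q hq => ?_⟩
  · rcases Finset.mem_insert.1 hm with e1 | hm
    · rcases Sym2.eq_iff.1 e1 with ⟨rfl, -⟩ | ⟨rfl, -⟩
      · exact hx hc
      · exact hy hc
    · exact h.nored u (e ▸ hu) c hc hm
  · rcases Multiset.mem_cons.1 ha with rfl | ha
    · have : q = (x, i) ∨ q = (y, j) := by simpa using hq
      rcases this with rfl | rfl
      · exact h.defi (x, i, none) (by simp) _ (by simp)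
      · exact h.defi (y, j, none) (by simp) _ (by simp)
    · exact h.defi a (by simp [ha]) q hq
  · rcases Finset.mem_insert.1 hm with e1 | hm
    · refine ⟨_, Multiset.mem_cons_self _ _, ?_⟩
      rcases Sym2.eq_iff.1 e1 with ⟨rfl, rfl⟩ | ⟨rfl, rfl⟩ <;> simp
    · obtain ⟨a, ha, a1, a2⟩ := h.mat u (e ▸ hu) w (e ▸ hw) hm
      rcases Multiset.mem_cons.1 ha with rfl | ha
      · exact ⟨_, Multiset.mem_cons_self _ _, by simp at a1; simp [a1], by simp at a2; simp [a2]⟩
      rcases Multiset.mem_cons.1 ha with rfl | ha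
      · exact ⟨_, Multiset.mem_cons_self _ _, by simp at a1; simp [a1], by simp at a2; simp [a2]⟩
      · exact ⟨a, Multiset.mem_cons_of_mem ha, a1, a2⟩
  · rcases Multiset.mem_cons.1 ha with rfl | ha
    · obtain rfl : (y, j) = q := by simpa using hq
      exact Finset.mem_insert_self _ _
    · exact Finset.mem_insert_of_mem (h.red a (by simp [ha]) q hq)

/-- An abstract item is the image of a concrete one, read from the right end. -/
lemma ZGood.view (h : ZGood R B C L) {i : ℕ} {o : Option ℕ} {A : Multiset AI}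
    (e : L.map It.abs = mkI i o ::ₘ A) : ∃ v p T, ZGood R B C ((v, i, p) ::ₘ T) ∧
      p.map Prod.snd = o ∧ T.map It.abs = A ∧ vs ((v, i, p) ::ₘ T) = vs L := by
  obtain ⟨a, ha, h1⟩ := Multiset.mem_map.1 (e ▸ Multiset.mem_cons_self _ _ : mkI i o ∈ L.map It.abs)
  obtain ⟨T, rfl⟩ := Multiset.exists_cons_of_mem ha
  rw [Multiset.map_cons, h1, Multiset.cons_inj_right] at e
  obtain ⟨v, d, _ | ⟨w, j⟩⟩ := a <;> rcases o with _ | o <;>
    simp only [It.abs, mkI, Option.map_none, Option.map_some, Prod.mk.injEq, Option.some.injEq,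
      reduceCtorEq, and_false, and_true] at h1
  · exact ⟨v, none, T, h1 ▸ h, rfl, e, h1 ▸ rfl⟩
  · have : (d = i ∧ j = o) ∨ (j = i ∧ d = o) := by omega
    rcases this with ⟨rfl, rfl⟩ | ⟨rfl, rfl⟩
    · exact ⟨v, some (w, j), T, h, rfl, e, rfl⟩
    · exact ⟨w, some (v, d), T, h.swap, rfl, e, by simp [Multiset.cons_swap]⟩

/-- A candidate can be brought to the head of the list. -/
lemma ZGood.find (h : ZGood R B C L) {x : V} (hx : x ∈ vs L) : ∃ i p T,
    ZGood R B C ((x, i, p) ::ₘ T) ∧ L.map It.abs = mkI i (p.map Prod.snd) ::ₘ T.map It.abs ∧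
      vs ((x, i, p) ::ₘ T) = vs L ∧ T ≤ L := by
  obtain ⟨a, ha, h1⟩ := mem_vs.1 hx
  obtain ⟨T, rfl⟩ := Multiset.exists_cons_of_mem ha
  obtain ⟨v, d, _ | ⟨w, j⟩⟩ := a
  · obtain rfl : x = v := by simpa using h1
    exact ⟨d, none, T, h, by simp [It.abs], rfl, Multiset.le_cons_self _ _⟩
  · have : x = v ∨ x = w := by simpa using h1
    rcases this with rfl | rfl
    · exact ⟨d, _, T, h, by simp [It.abs], rfl, Multiset.le_cons_self _ _⟩
    · exact ⟨j, _, T, h.swap, by simp [It.abs, mkI, min_comm, max_comm],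
        by simp [Multiset.cons_swap], Multiset.le_cons_self _ _⟩

end Pool.Agent.Lib.MP_1024aa_co
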