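import Pool.Agent.Lib.MP_1024aa_co.Zone2

/-! Replies and zone moves on the concrete zone. -/

set_option autoImplicit false
set_option linter.unusedSectionVars false

namespace Pool.Agent.Lib.MP_1024aa_co

variable {V : Type*} [DecidableEq V] {R B : Finset (Sym2 V)} {C : List V} {L T : Multiset (It V)}

theorem Reply.realize {b : ℕ} {s s' : AS} (h : Reply b s s') (hR : ∀ e ∈ R, ¬ e.IsDiag) :
    ∀ (B : Finset (Sym2 V)) (C : List V) (L : Multiset (It V)), ZGood R B C L →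
      L.map It.abs = s.2 → ∃ (F : Finset (Sym2 V)) (C' : List V) (L' : Multiset (It V)),
        F.card ≤ b ∧ (∀ e ∈ F, e ∉ R ∧ e ∉ B ∧ ¬ e.IsDiag) ∧ ZGood R (B ∪ F) C' L' ∧
        L'.map It.abs = s'.2 ∧ C'.length + s'.1 = C.length + s.1 ∧ (∀ x ∈ vs L', x ∈ vs L) ∧
        C <:+ C' ∧ ∀ c ∈ C', c ∈ C ∨ c ∈ vs L := by
  induction h with
  | refl b s =>
    intro B C L hg e
    exact ⟨∅, C, L, by simp, by simp, by simpa using hg, e, rfl, fun _ h => h, List.suffix_rfl,
      fun _ h => Or.inl h⟩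
  | drop _ ih =>
    intro B C L hg e
    obtain ⟨v, p, T, h1, rfl, rfl, h4⟩ := hg.view e
    obtain ⟨F, C', L', a1, a2, a3, a4, a5, a6, a7, a8⟩ := ih B C _ h1.drop
      (by rw [Multiset.map_add, abs_rest])
    have hs : ∀ x ∈ vs (restIt p + T), x ∈ vs L := fun x hx => by
      rw [← h4, vs_head]; exact Multiset.mem_cons_of_mem hx
    exact ⟨F, C', L', a1, a2, a3, a4, a5, fun x hx => hs x (a6 x hx), a7,
      fun c hc => (a8 c hc).imp_right (hs c)⟩
  | @build b r i o A s _ ih =>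
    intro B C L hg e
    obtain ⟨v, p, T, h1, rfl, rfl, h4⟩ := hg.view e
    have h5 : vs ((v, i, p) ::ₘ T) = vs L := by rw [← h4, vs_head, vs_head]
    by_cases hc : ∀ c ∈ C.drop i, s(c, v) ∈ B
    · obtain ⟨F, C', L', a1, a2, a3, a4, a5, a6, a7, a8⟩ := ih B C _ (h1.setDef hc)
        (by simp [It.abs])
      exact ⟨F, C', L', by omega, a2, a3, a4, a5, h5 ▸ a6, a7, h5 ▸ a8⟩
    · have hi : i < C.length := by
        by_contra hi
        exact hc (by simp [List.drop_eq_nil_of_le (not_lt.1 hi)])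
      have hd : C.drop i = C[i] :: C.drop (i + 1) := List.drop_eq_getElem_cons hi
      have hnb : s(C[i], v) ∉ B := fun hb => hc fun c hc => by
        rw [hd] at hc
        rcases List.mem_cons.1 hc with rfl | hc
        · exact hb
        · exact h1.headDef c hc
      have hv : v ∈ vs ((v, i + 1, p) ::ₘ T) := by rw [vs_head]; exact Multiset.mem_cons_self _ _
      have h2 : ZGood R (insert s(C[i], v) B) C ((v, i, p) ::ₘ T) :=
        (h1.mono (Finset.subset_insert _ _)).setDef fun c hc => by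
          rw [hd] at hc
          rcases List.mem_cons.1 hc with rfl | hc
          · exact Finset.mem_insert_self _ _
          · exact Finset.mem_insert_of_mem (h1.headDef c hc)
      obtain ⟨F, C', L', a1, a2, a3, a4, a5, a6, a7, a8⟩ := ih _ C _ h2 (by simp [It.abs])
      refine ⟨insert s(C[i], v) F, C', L', (Finset.card_insert_le _ _).trans (by omega),
        fun e he => ?_, by rwa [Finset.union_insert, ← Finset.insert_union], a4, a5, h5 ▸ a6, a7,
        h5 ▸ a8⟩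
      rcases Finset.mem_insert.1 he with rfl | he
      · refine ⟨h1.nored v hv _ (List.getElem_mem hi), hnb, fun hdg => h1.dis v hv ?_⟩
        rw [← Sym2.mk_isDiag_iff.1 hdg]
        exact List.getElem_mem hi
      · exact ⟨(a2 e he).1, fun hb => (a2 e he).2.1 (Finset.mem_insert_of_mem hb), (a2 e he).2.2⟩
  | @weaken b r i o A s _ ih =>
    intro B C L hg e
    obtain ⟨v, p, T, h1, rfl, rfl, h4⟩ := hg.view e
    have h5 : vs ((v, i + 1, p) ::ₘ T) = vs L := by rw [← h4, vs_head, vs_head]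
    obtain ⟨F, C', L', a1, a2, a3, a4, a5, a6, a7, a8⟩ := ih B C _
      (h1.setDef (i' := i + 1) fun c hc => h1.headDef c
        (List.mem_of_mem_drop (i := 1) (by rwa [List.drop_drop]))) (by simp [It.abs])
    exact ⟨F, C', L', a1, a2, a3, a4, a5, h5 ▸ a6, a7, h5 ▸ a8⟩
  | promote _ ih =>
    intro B C L hg e
    obtain ⟨v, p, T, h1, rfl, rfl, h4⟩ := hg.view e
    obtain ⟨F, C', L', a1, a2, a3, a4, a5, a6, a7, a8⟩ := ih B _ _ (h1.promote hR)
      (by simp only [Multiset.map_map]; exact Multiset.map_congr rfl fun a _ => a.abs_inc)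
    have hs : ∀ x ∈ vs (T.map It.inc), x ∈ vs L := fun x hx => by
      rw [vs_map_inc] at hx
      rw [← h4, vs_cons]
      exact Multiset.mem_add.2 (Or.inr hx)
    refine ⟨F, C', L', a1, a2, a3, a4, by simp only [List.length_cons] at a5 ⊢; omega,
      fun x hx => hs x (a6 x hx), (List.suffix_cons v C).trans a7, fun c hc => ?_⟩
    rcases a8 c hc with h | h
    · rcases List.mem_cons.1 h with rfl | h
      · exact Or.inr (by rw [← h4, vs_head]; exact Multiset.mem_cons_self _ _)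
      · exact Or.inl h
    · exact Or.inr (hs c h)

lemma ZGood.drop_red {v y : V} {i : ℕ} {o : Option (V × ℕ)} (h : ZGood R B C ((v, i, o) ::ₘ T)) :
    ZGood (insert s(v, y) R) B C (restIt o + T) := by
  refine h.drop.insert_red fun u hu w hw e => ?_
  rcases Sym2.eq_iff.1 e with ⟨rfl, -⟩ | ⟨rfl, -⟩
  · exact h.head_notMem hu
  · rcases hw with hw | hw
    · exact h.head_notMem hw
    · exact h.dis v (by rw [vs_head]; exact Multiset.mem_cons_self _ _) hw

lemma ZGood.find2 {a : It V} (h : ZGood R B C (a ::ₘ L)) {x : V} (hx : x ∈ vs L) : ∃ i p T,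
    ZGood R B C ((x, i, p) ::ₘ a ::ₘ T) ∧ L.map It.abs = mkI i (p.map Prod.snd) ::ₘ T.map It.abs ∧
      vs ((x, i, p) ::ₘ T) = vs L := by
  obtain ⟨b, hb, h1⟩ := mem_vs.1 hx
  obtain ⟨T, rfl⟩ := Multiset.exists_cons_of_mem hb
  rw [Multiset.cons_swap] at h
  obtain ⟨v, d, _ | ⟨w, j⟩⟩ := b
  · obtain rfl : x = v := by simpa using h1
    exact ⟨d, none, T, h, by simp [It.abs], rfl⟩
  · have : x = v ∨ x = w := by simpa using h1
    rcases this with rfl | rfl
    · exact ⟨d, _, T, h, by simp [It.abs], rfl⟩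
    · exact ⟨j, _, T, h.swap, by simp [It.abs, mkI, min_comm, max_comm],
        by simp [Multiset.cons_swap]⟩

/-- A zone move of the first player is one of the abstract moves. -/
theorem ZGood.hit (h : ZGood R B C L) {Nd Nk : AS → Prop} {r : ℕ}
    (hN : Cond2 Nd Nk (r, L.map It.abs)) {x y : V} (hx : x ∈ vs L) (hy : y ∈ vs L ∨ y ∈ C)
    (hxy : x ≠ y) (hr : s(x, y) ∉ R) (hb : s(x, y) ∉ B) :
    ∃ L1, ZGood (insert s(x, y) R) B C L1 ∧ (∀ u ∈ vs L1, u ∈ vs L) ∧
      (Nd (r, L1.map It.abs) ∧ (x ∉ vs L1 ∨ y ∈ vs L ∧ y ∉ vs L1) ∨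
        Nk (r, L1.map It.abs) ∧ ∀ c ∈ C, s(c, x) ∈ B ∧ s(c, y) ∈ B) := by
  obtain ⟨i, p, T, h1, h2, h3, -⟩ := h.find hx
  have hs : ∀ u ∈ vs (restIt p + T), u ∈ vs L := fun u hu => by
    rw [← h3, vs_head]; exact Multiset.mem_cons_of_mem hu
  rcases i with _ | i
  swap
  · exact ⟨_, h1.drop_red, hs, Or.inl ⟨by rw [Multiset.map_add, abs_rest]; exact hN.2.1 _ _ _ h2,
      Or.inl h1.head_notMem⟩⟩
  rcases hy with hy | hy
  swap
  · exact absurd (Sym2.eq_swap ▸ h1.headDef y hy) hb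
  have hyT : y ∈ vs T := by
    rw [← h3, vs_cons, Multiset.mem_add] at hy
    refine hy.resolve_left fun hy => ?_
    rcases p with _ | q
    · exact hxy (Eq.symm (by simpa using hy))
    · have : y = x ∨ y = q.1 := by simpa using hy
      rcases this with rfl | rfl
      · exact hxy rfl
      · exact hr (h1.red _ (Multiset.mem_cons_self _ _) q rfl)
  obtain ⟨j, q, U, g1, g2, g3⟩ := h1.find2 hyT
  have e1 : vs ((y, j, q) ::ₘ (x, 0, p) ::ₘ U) = vs L := by
    rw [Multiset.cons_swap, vs_cons, g3, ← h3, vs_cons]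
  have dy : ZGood (insert s(x, y) R) B C (restIt q + (x, 0, p) ::ₘ U) :=
    Sym2.eq_swap (a := y) (b := x) ▸ g1.drop_red
  have sy : ∀ u ∈ vs (restIt q + (x, 0, p) ::ₘ U), u ∈ vs L := fun u hu => by
    rw [← e1, vs_head]; exact Multiset.mem_cons_of_mem hu
  rw [g2] at h2
  rcases j with _ | j
  swap
  · refine ⟨_, dy, sy, Or.inl ⟨?_, Or.inr ⟨hy, g1.head_notMem⟩⟩⟩
    rw [Multiset.map_add, abs_rest, Multiset.map_cons]
    exact hN.2.1 _ _ _ (h2.trans (Multiset.cons_swap _ _ _))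
  rcases hN.2.2 _ _ _ h2 with c | c | c
  · refine ⟨_, h1.drop_red, hs, Or.inl ⟨?_, Or.inl h1.head_notMem⟩⟩
    rwa [Multiset.map_add, abs_rest, g2]
  · refine ⟨_, dy, sy, Or.inl ⟨?_, Or.inr ⟨hy, g1.head_notMem⟩⟩⟩
    rwa [Multiset.map_add, abs_rest, Multiset.map_cons]
  · have k1 := g1.solo
    rw [Multiset.cons_swap] at k1
    refine ⟨_, k1.solo.keep, fun u hu => ?_, Or.inr ⟨by simpa [It.abs, mkI] using c,
      fun c hc => ⟨h1.headDef c hc, g1.headDef c hc⟩⟩⟩
    rw [← e1]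
    rcases p with _ | p <;> rcases q with _ | q <;> simp at hu ⊢ <;> tauto

/-- On a full board the centres extend to a blue clique. -/
theorem ZGood.final (hR : ∀ e ∈ R, ¬ e.IsDiag) (hall : ∀ x y : V, x ≠ y → s(x, y) ∈ R ∨ s(x, y) ∈ B)
    (r : ℕ) : ∀ (C : List V) (L : Multiset (It V)), ZGood R B C L → r ≤ Multiset.card L →
      ∃ C' : List V, C'.Nodup ∧ C'.length = C.length + r ∧
        ∀ c ∈ C', ∀ c' ∈ C', c ≠ c' → s(c, c') ∈ B := by
  induction r with
  | zero => exact fun C L h _ => ⟨C, h.ndc, rfl, h.clq⟩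
  | succ r ih =>
    intro C L h hr
    obtain ⟨⟨v, i, o⟩, ha⟩ := Multiset.card_pos_iff_exists_mem.1 (show 0 < Multiset.card L by omega)
    obtain ⟨T, rfl⟩ := Multiset.exists_cons_of_mem ha
    have hv : v ∈ vs ((v, i, o) ::ₘ T) := by rw [vs_head]; exact Multiset.mem_cons_self _ _
    have h0 := h.setDef (i' := 0) fun c hc =>
      (hall c v fun e => h.dis v hv (e ▸ hc)).resolve_left (h.nored v hv c hc)
    obtain ⟨C', a1, a2, a3⟩ := ih _ _ (h0.promote hR) (by simp at hr ⊢; omega)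
    exact ⟨C', a1, by simp at a2; omega, a3⟩

lemma ZGood.uniq (h : ZGood R B C L) {a b : It V} (ha : a ∈ L) (hb : b ∈ L) {x : V} (h1 : x ∈ a.vs)
    (h2 : x ∈ b.vs) : a = b := by
  obtain ⟨T, rfl⟩ := Multiset.exists_cons_of_mem ha
  refine ((Multiset.mem_cons.1 hb).resolve_right fun hb => ?_).symm
  have := h.nd
  rw [vs_cons, Multiset.nodup_add] at this
  exact Multiset.disjoint_left.1 this.2.2 h1 (mem_vs.2 ⟨b, hb, h2⟩)

/-- The red edges inside `Z` form a matching. -/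
def Mat (R : Finset (Sym2 V)) (Z : Finset V) : Prop :=
  ∀ x ∈ Z, ∀ y ∈ Z, ∀ y' ∈ Z, s(x, y) ∈ R → s(x, y') ∈ R → y = y'

theorem ZGood.matZ (h : ZGood R B C L) (hR : ∀ e ∈ R, ¬ e.IsDiag) (hd : Disjoint R B) {Z : Finset V}
    (hZ : ∀ x ∈ Z, x ∈ vs L ∨ x ∈ C) : Mat R Z := by
  have key : ∀ x ∈ Z, ∀ y ∈ Z, s(x, y) ∈ R → x ≠ y ∧ ∃ a ∈ L, x ∈ a.vs ∧ y ∈ a.vs := by
    intro x hx y hy hm
    have hne : x ≠ y := fun e => hR _ hm (Sym2.mk_isDiag_iff.2 e)
    refine ⟨hne, ?_⟩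
    rcases hZ x hx with a | a <;> rcases hZ y hy with b | b
    · exact h.mat x a y b hm
    · exact absurd (Sym2.eq_swap ▸ hm) (h.nored x a y b)
    · exact absurd hm (h.nored y b x a)
    · exact absurd (h.clq x a y b hne) (Finset.disjoint_left.1 hd hm)
  intro x hx y hy y' hy' h1 h2
  obtain ⟨n1, a, ha, a1, a2⟩ := key x hx y hy h1
  obtain ⟨n2, b, hb, b1, b2⟩ := key x hx y' hy' h2
  obtain rfl := h.uniq ha hb a1 b1
  obtain ⟨v, i, _ | q⟩ := a <;> simp at a1 a2 b2
  · rw [a2, b2]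
  · rcases a1 with rfl | rfl <;> rcases a2 with rfl | rfl <;> rcases b2 with rfl | rfl <;>
      first | rfl | exact absurd rfl n1 | exact absurd rfl n2

end Pool.Agent.Lib.MP_1024aa_co
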