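import Pool.Agent.Lib.MP_1024aa_co.Zone3
import Pool.Agent.Lib.MP_1024aa_co.Cliques

/-! The potential of the reactive stage. -/

set_option autoImplicit false
set_option linter.unusedSectionVars false

open Finset

namespace Pool.Agent.Lib.MP_1024aa_co

variable {V : Type*} [DecidableEq V]

lemma mk_mem_inner {T : Finset V} {x y : V} : s(x, y) ∈ inner T ↔ x ≠ y ∧ x ∈ T ∧ y ∈ T := by
  rw [mem_inner]
  constructor
  · rintro ⟨u, hu, v, hv, huv, e⟩
    rcases Sym2.eq_iff.1 e with ⟨rfl, rfl⟩ | ⟨rfl, rfl⟩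
    · exact ⟨huv, hu, hv⟩
    · exact ⟨huv.symm, hv, hu⟩
  · rintro ⟨h, hx, hy⟩
    exact ⟨x, hx, y, hy, h, rfl⟩

lemma mem_inner_inter {K Z : Finset V} {e : Sym2 V} :
    e ∈ inner (K ∩ Z) ↔ e ∈ inner K ∧ e ∈ inner Z := by
  induction e using Sym2.ind with
  | _ x y => simp only [mk_mem_inner, mem_inter]; tauto

lemma Mat.mono {R : Finset (Sym2 V)} {Z Y : Finset V} (h : Mat R Z) (hY : Y ⊆ Z) : Mat R Y :=
  fun x hx y hy y' hy' => h x (hY hx) y (hY hy) y' (hY hy')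

lemma Mat.card_le {R : Finset (Sym2 V)} {Y : Finset V} (h : Mat R Y) (Y' : Finset V) :
    ((R ∩ inner Y) \ inner Y').card ≤ (Y \ Y').card := by
  refine card_le_card_of_forall_subsingleton (fun e x => x ∈ e) (fun e he => ?_) fun x hx => ?_
  · induction e using Sym2.ind with
    | _ x y =>
      simp only [mem_sdiff, mem_inter, mk_mem_inner] at he
      by_cases hx : x ∈ Y'
      · exact ⟨y, mem_sdiff.2 ⟨he.1.2.2.2, fun hy => he.2 ⟨he.1.2.1, hx, hy⟩⟩, by simp⟩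
      · exact ⟨x, mem_sdiff.2 ⟨he.1.2.2.1, hx⟩, by simp⟩
  · rintro e ⟨he, h1⟩ e' ⟨he', h2⟩
    obtain ⟨y, rfl⟩ := Sym2.mem_iff_exists.1 h1
    obtain ⟨y', rfl⟩ := Sym2.mem_iff_exists.1 h2
    simp only [mem_sdiff, mem_inter, mk_mem_inner] at he he'
    rw [h x he.1.2.2.1 y he.1.2.2.2 y' he'.1.2.2.2 he.1.1 he'.1.1]

lemma Mat.card_insert {R : Finset (Sym2 V)} {Y : Finset V} (h : Mat R Y) (e : Sym2 V)
    {Y' : Finset V} (hY : Y' ⊆ Y) :
    ((insert e R ∩ inner Y) \ inner Y').card + (2 * Y'.card - 3) ≤ 2 * Y.card - 3 := by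
  have aux : ∀ X : Finset V, X ⊆ Y →
      ((insert e R ∩ inner Y) \ inner X).card + X.card ≤ Y.card + 1 := fun X hX => by
    have h1 := h.card_le X
    have h2 : (insert e R ∩ inner Y) \ inner X ⊆ insert e ((R ∩ inner Y) \ inner X) := by
      intro f
      simp only [mem_sdiff, mem_inter, mem_insert]
      tauto
    have h3 := (card_le_card h2).trans (card_insert_le _ _)
    have h4 := card_sdiff_add_card_eq_card hX
    omega
  have hle := card_le_card hY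
  rcases hle.eq_or_lt with h1 | h1
  · rw [eq_of_subset_of_card_le hY h1.ge, sdiff_eq_empty_iff_subset.2 inter_subset_right]
    simp
  by_cases h2 : 2 ≤ Y'.card
  · have := aux Y' hY
    omega
  have h3 : ((insert e R ∩ inner Y) \ inner Y').card ≤ Y.card.choose 2 := by
    rw [← card_inner]
    exact card_le_card (sdiff_subset.trans inter_subset_right)
  by_cases h4 : Y.card ≤ 2
  · have : Y.card = 1 ∨ Y.card = 2 := by omega
    have h6 : Y.card.choose 2 ≤ 2 * Y.card - 3 := by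
      rcases this with h5 | h5 <;> rw [h5] <;> decide
    omega
  obtain ⟨x, hx⟩ : Y.Nonempty := card_pos.1 (by omega)
  have h5 := aux {x} (singleton_subset_iff.2 hx)
  have h6 : inner ({x} : Finset V) = ∅ := by
    rw [← card_eq_zero, card_inner]
    simp
  rw [h6, sdiff_empty, card_singleton] at h5
  have h7 := card_le_card (sdiff_subset (s := insert e R ∩ inner Y) (t := inner Y'))
  omega

/-- The exponent of a vertex set `K`: `Cd` are the candidates, `Cs` the centres, and `t` bounds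
the number of zone moves. -/
def gx (R : Finset (Sym2 V)) (Cd Cs : Finset V) (t : ℕ) (K : Finset V) : ℕ :=
  min ((R ∩ inner K).card + if Disjoint K Cs then t else min t (K ∩ Cd).card)
    (((R ∩ inner K) \ inner (Cd ∪ Cs)).card + (2 * (K ∩ (Cd ∪ Cs)).card - 3))

lemma gx_le_tau (R : Finset (Sym2 V)) (Cd Cs : Finset V) (t : ℕ) (K : Finset V) :
    gx R Cd Cs t K ≤ (R ∩ inner K).card + t := by
  unfold gx
  split_ifs <;> omega

lemma gx_le_centre (R : Finset (Sym2 V)) (Cd : Finset V) {Cs K : Finset V} (t : ℕ)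
    (h : ¬ Disjoint K Cs) : gx R Cd Cs t K ≤ (R ∩ inner K).card + (K ∩ Cd).card := by
  unfold gx
  rw [if_neg h]
  omega

lemma gx_le_zone (R : Finset (Sym2 V)) (Cd Cs : Finset V) (t : ℕ) (K : Finset V) :
    gx R Cd Cs t K ≤
      ((R ∩ inner K) \ inner (Cd ∪ Cs)).card + (2 * (K ∩ (Cd ∪ Cs)).card - 3) :=
  min_le_right _ _

lemma gx_zone {R : Finset (Sym2 V)} {Cd Cs Cd' Cs' K : Finset V} (h : Mat R (Cd ∪ Cs))
    (hZ : Cd' ∪ Cs' ⊆ Cd ∪ Cs) (hd : Cd' ⊆ Cd) (hs : Cs ⊆ Cs') {e : Sym2 V}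
    (he : e ∈ inner (Cd ∪ Cs)) (t : ℕ)
    (hK : e ∈ inner K → ¬ Disjoint K Cs → ∃ x ∈ K, x ∈ Cd ∧ x ∉ Cd') :
    gx (insert e R) Cd' Cs' t K ≤ gx R Cd Cs (t + 1) K := by
  have h1 : (insert e R ∩ inner K).card ≤ (R ∩ inner K).card + 1 :=
    (card_le_card fun f => by simp only [mem_inter, mem_insert]; tauto).trans
      (card_insert_le e (R ∩ inner K))
  have h2 : (insert e R ∩ inner K) \ inner (Cd' ∪ Cs') ⊆ ((R ∩ inner K) \ inner (Cd ∪ Cs)) ∪
      ((insert e R ∩ inner (K ∩ (Cd ∪ Cs))) \ inner (K ∩ (Cd' ∪ Cs'))) := by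
    intro f
    simp only [mem_sdiff, mem_inter, mem_insert, mem_union, mem_inner_inter]
    rintro ⟨⟨rfl | h3, h4⟩, h5⟩ <;> tauto
  have h3 := (card_le_card h2).trans (card_union_le _ _)
  have h4 := (h.mono (inter_subset_right (s₁ := K))).card_insert e
    (inter_subset_inter_left (s := K) hZ)
  have h5 := gx_le_tau (insert e R) Cd' Cs' t K
  have h6 := gx_le_zone (insert e R) Cd' Cs' t K
  refine le_min ?_ (by omega)
  split_ifs with hD
  · omega
  have h7 := gx_le_centre (insert e R) Cd' t fun hc => hD (disjoint_of_subset_right hs hc)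
  have h8 := card_le_card (inter_subset_inter_left (s := K) hd)
  by_cases heK : e ∈ inner K
  · obtain ⟨x, a1, a2, a3⟩ := hK heK hD
    have h9 := card_lt_card ((ssubset_iff_of_subset (inter_subset_inter_left (s := K) hd)).2
      ⟨x, mem_inter.2 ⟨a1, a2⟩, fun hx => a3 (mem_inter.1 hx).2⟩)
    omega
  · rw [insert_inter_of_notMem heK] at h5 h7
    omega

lemma gx_wild (R : Finset (Sym2 V)) (Cd Cs : Finset V) (e : Sym2 V) (t : ℕ) (K : Finset V) :
    gx (insert e R) Cd Cs t K ≤ gx R Cd Cs t K + if e ∈ inner K then 1 else 0 := by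
  by_cases h : e ∈ inner K
  · have h1 : (insert e R ∩ inner K).card ≤ (R ∩ inner K).card + 1 :=
      (card_le_card fun f => by simp only [mem_inter, mem_insert]; tauto).trans
        (card_insert_le e (R ∩ inner K))
    have h2 : ((insert e R ∩ inner K) \ inner (Cd ∪ Cs)).card ≤
        ((R ∩ inner K) \ inner (Cd ∪ Cs)).card + 1 :=
      (card_le_card fun f => by simp only [mem_inter, mem_insert, mem_sdiff]; tauto).trans
        (card_insert_le e ((R ∩ inner K) \ inner (Cd ∪ Cs)))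
    rw [if_pos h]
    unfold gx
    omega
  · unfold gx
    rw [insert_inter_of_notMem h]
    omega

lemma gx_ge {R : Finset (Sym2 V)} {Cd Cs : Finset V} (h : Mat R (Cd ∪ Cs)) (t : ℕ)
    (K : Finset V) : (R ∩ inner K).card ≤ gx R Cd Cs t K := by
  rcases R.eq_empty_or_nonempty with rfl | ⟨e, he⟩
  · simp
  have h2 : R ∩ inner K ⊆ ((R ∩ inner K) \ inner (Cd ∪ Cs)) ∪
      ((R ∩ inner (K ∩ (Cd ∪ Cs))) \ inner ∅) := by
    intro f
    have : inner (∅ : Finset V) = ∅ := rfl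
    simp only [this, mem_sdiff, mem_inter, mem_union, mem_inner_inter, notMem_empty]
    tauto
  have h3 := (card_le_card h2).trans (card_union_le _ _)
  have h4 := (h.mono (inter_subset_right (s₁ := K))).card_insert e (empty_subset _)
  rw [insert_eq_of_mem he] at h4
  unfold gx
  omega

/-- The position has candidates `Cd`, centres `Cs` and abstract state `s`, and the target is a
blue clique of size `k`. -/
def Pos (k : ℕ) (R B : Finset (Sym2 V)) (Cd Cs : Finset V) (s : AS) : Prop :=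
  ∃ C L, ZGood R B C L ∧ L.map It.abs = s.2 ∧ C.length + s.1 = k ∧ (∀ x, x ∈ Cd ↔ x ∈ vs L) ∧
    ∀ x, x ∈ Cs ↔ x ∈ C

section pos

variable {k : ℕ} {R B B' : Finset (Sym2 V)} {Cd Cs : Finset V} {s : AS}

lemma Pos.init (C : List V) (hC : C.Nodup) (hb : ∀ c ∈ C, ∀ c' ∈ C, c ≠ c' → s(c, c') ∈ B)
    (hd : ∀ x ∈ Cd, x ∉ C) (hr : ∀ x ∈ Cd, ∀ y, y ∈ Cd ∨ y ∈ C → s(y, x) ∉ R) (r : ℕ) :
    Pos (C.length + r) R B Cd C.toFinset (r, Multiset.replicate Cd.card (C.length, none)) := by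
  have e : vs (Cd.1.map fun x => ((x, C.length, none) : It V)) = Cd.1 := by
    simp only [vs, Multiset.bind_map, It.vs_none]
    exact (Multiset.bind_singleton Cd.1 id).trans (Multiset.map_id _)
  refine ⟨C, Cd.1.map fun x => (x, C.length, none), ⟨e.symm ▸ Cd.2, hC, e.symm ▸ hd, hb,
    e.symm ▸ fun x hx c hc => hr x hx c (Or.inr hc), fun a ha q hq c hc => ?_,
    e.symm ▸ fun x hx y hy hm => absurd hm (hr y hy x (Or.inl hx)), fun a ha q hq => ?_⟩, ?_, rfl,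
    e.symm ▸ fun _ => Iff.rfl, fun _ => List.mem_toFinset⟩
  · obtain ⟨x, -, rfl⟩ := Multiset.mem_map.1 ha
    obtain rfl : q = (x, C.length) := by simpa using hq
    simp at hc
  · obtain ⟨x, -, rfl⟩ := Multiset.mem_map.1 ha
    simp at hq
  · rw [Multiset.map_map]
    exact Multiset.map_const Cd.1 ((C.length, none) : AI)

lemma Pos.mono (h : Pos k R B Cd Cs s) (hB : B ⊆ B') : Pos k R B' Cd Cs s := by
  obtain ⟨C, L, h1, h2⟩ := h
  exact ⟨C, L, h1.mono hB, h2⟩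

lemma Pos.mat (h : Pos k R B Cd Cs s) (hR : ∀ e ∈ R, ¬ e.IsDiag) (hd : Disjoint R B) :
    Mat R (Cd ∪ Cs) := by
  obtain ⟨C, L, h1, -, -, h4, h5⟩ := h
  exact h1.matZ hR hd fun x hx => (mem_union.1 hx).imp (h4 x).1 (h5 x).1

lemma Pos.disj (h : Pos k R B Cd Cs s) : Disjoint Cd Cs := by
  obtain ⟨C, L, h1, -, -, h4, h5⟩ := h
  exact disjoint_left.2 fun x hx hc => h1.dis x ((h4 x).1 hx) ((h5 x).1 hc)

lemma Pos.clq (h : Pos k R B Cd Cs s) : ∀ c ∈ Cs, ∀ c' ∈ Cs, c ≠ c' → s(c, c') ∈ B := by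
  obtain ⟨C, L, h1, -, -, -, h5⟩ := h
  exact fun c hc c' hc' => h1.clq c ((h5 c).1 hc) c' ((h5 c').1 hc')

lemma Pos.nored (h : Pos k R B Cd Cs s) : ∀ x ∈ Cd, ∀ c ∈ Cs, s(c, x) ∉ R := by
  obtain ⟨C, L, h1, -, -, h4, h5⟩ := h
  exact fun x hx c hc => h1.nored x ((h4 x).1 hx) c ((h5 c).1 hc)

lemma Pos.card_Cs (h : Pos k R B Cd Cs s) : Cs.card + s.1 = k := by
  obtain ⟨C, L, h1, -, h3, -, h5⟩ := h
  rw [← h3, ← List.toFinset_card_of_nodup h1.ndc]
  congr 2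
  ext x
  rw [h5, List.mem_toFinset]

/-- the number of vertices of an item -/
def AI.nv (a : AI) : ℕ := if a.2 = none then 1 else 2

lemma Pos.card_Cd (h : Pos k R B Cd Cs s) : Cd.card = (s.2.map AI.nv).sum := by
  obtain ⟨C, L, h1, h2, -, h4, -⟩ := h
  have e : Cd.1 = vs L := (Multiset.Nodup.ext Cd.2 h1.nd).2 h4
  rw [← h2, Finset.card, e, vs, Multiset.card_bind, Multiset.map_map]
  congr 1
  refine Multiset.map_congr rfl ?_
  rintro ⟨v, i, _ | q⟩ - <;> simp [It.abs, mkI, AI.nv]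

/-- All but `d` centres are joined in blue to all candidates. -/
lemma Pos.live (h : Pos k R B Cd Cs s) {d : ℕ} (hd : ∀ i o, mkI i o ∈ s.2 → i ≤ d) :
    ∃ Lv ⊆ Cs, Lv.card ≤ d ∧ ∀ c ∈ Cs, c ∉ Lv → ∀ x ∈ Cd, s(c, x) ∈ B := by
  obtain ⟨C, L, h1, h2, -, h4, h5⟩ := h
  refine ⟨(C.take d).toFinset, fun x hx => (h5 x).2 (List.mem_of_mem_take (List.mem_toFinset.1 hx)),
    (List.toFinset_card_le _).trans (by simp), fun c hc hl x hx => ?_⟩
  obtain ⟨i, p, T, a1, a2, -⟩ := h1.find ((h4 x).1 hx)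
  have hi := hd i _ (by rw [← h2, a2]; exact Multiset.mem_cons_self _ _)
  have hc' := (h5 c).1 hc
  rw [← List.take_append_drop d C, List.mem_append] at hc'
  refine a1.headDef c (List.mem_of_mem_drop (i := d - i) ?_)
  rw [List.drop_drop, Nat.add_sub_cancel' hi]
  exact hc'.resolve_left fun hc => hl (List.mem_toFinset.2 hc)

lemma Pos.wild (h : Pos k R B Cd Cs s) {e : Sym2 V} (hd : ¬ e.IsDiag)
    (he : e ∉ inner (Cd ∪ Cs)) : Pos k (insert e R) B Cd Cs s := by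
  obtain ⟨C, L, h1, h2, h3, h4, h5⟩ := h
  refine ⟨C, L, h1.insert_red ?_, h2, h3, h4, h5⟩
  rintro x hx y hy rfl
  exact he (mk_mem_inner.2 ⟨fun e => hd (Sym2.mk_isDiag_iff.2 e), mem_union_left _ ((h4 x).2 hx),
    mem_union.2 (hy.imp (h4 y).2 (h5 y).2)⟩)

/-- A zone move: an end of the edge is dropped, or the edge is kept as a pair. -/
lemma Pos.hit (h : Pos k R B Cd Cs s) {Nd Nk : AS → Prop} (hN : Cond2 Nd Nk s) {e : Sym2 V}
    (heR : e ∉ R) (heB : e ∉ B) (he : e ∈ inner (Cd ∪ Cs)) :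
    ∃ Cd1 s1, Cd1 ⊆ Cd ∧ Pos k (insert e R) B Cd1 Cs s1 ∧
      (Nd s1 ∧ (∃ x ∈ e, x ∈ Cd ∧ x ∉ Cd1) ∨ Nk s1 ∧ ∀ c ∈ Cs, ∀ x ∈ e, s(c, x) ∈ B) := by
  obtain ⟨C, L, h1, h2, h3, h4, h5⟩ := h
  obtain ⟨x, y, rfl, hxy, hx, hy⟩ : ∃ x y, e = s(x, y) ∧ x ≠ y ∧ x ∈ vs L ∧
      (y ∈ vs L ∨ y ∈ C) := by
    obtain ⟨u, hu, v, hv, huv, rfl⟩ := mem_inner.1 he
    have hv' := (mem_union.1 hv).imp (h4 v).1 (h5 v).1
    rcases (mem_union.1 hu).imp (h4 u).1 (h5 u).1 with a | a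
    · exact ⟨u, v, rfl, huv, a, hv'⟩
    rcases hv' with b | b
    · exact ⟨v, u, Sym2.eq_swap, huv.symm, b, Or.inr a⟩
    · exact absurd (h1.clq u a v b huv) heB
  obtain ⟨L1, a1, a2, a3⟩ := h1.hit (r := s.1) (by rw [h2]; exact hN) hx hy hxy heR heB
  refine ⟨(vs L1).toFinset, (s.1, L1.map It.abs), fun u hu => (h4 u).2 (a2 u (by simpa using hu)),
    ⟨C, L1, a1, rfl, h3, fun _ => Multiset.mem_toFinset, h5⟩, a3.imp (And.imp_right ?_)
      (And.imp_right fun b c hc u hu => ?_)⟩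
  · rintro (b | b)
    · exact ⟨x, by simp, (h4 x).2 hx, by simpa using b⟩
    · exact ⟨y, by simp, (h4 y).2 b.1, by simpa using b.2⟩
  · rcases Sym2.mem_iff.1 hu with rfl | rfl
    · exact (b c ((h5 c).1 hc)).1
    · exact (b c ((h5 c).1 hc)).2

/-- An abstract reply is played on the board. -/
lemma Pos.reply (h : Pos k R B Cd Cs s) (hR : ∀ e ∈ R, ¬ e.IsDiag) {b : ℕ} {s' : AS}
    (hr : Reply b s s') : ∃ F Cd' Cs', F.card ≤ b ∧ (∀ f ∈ F, f ∉ R ∧ f ∉ B ∧ ¬ f.IsDiag) ∧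
      Cd' ⊆ Cd ∧ Cs ⊆ Cs' ∧ Cs' ⊆ Cd ∪ Cs ∧ Pos k R (B ∪ F) Cd' Cs' s' := by
  obtain ⟨C, L, h1, h2, h3, h4, h5⟩ := h
  obtain ⟨F, C', L', b1, b2, b3, b4, b5, b6, b7, b8⟩ := hr.realize hR B C L h1 h2
  exact ⟨F, (vs L').toFinset, C'.toFinset, b1, b2, fun u hu => (h4 u).2 (b6 u (by simpa using hu)),
    fun u hu => List.mem_toFinset.2 (b7.subset ((h5 u).1 hu)),
    fun u hu => mem_union.2 ((b8 u (List.mem_toFinset.1 hu)).symm.imp (h4 u).2 (h5 u).2),
    C', L', b3, b4, b5.trans h3, fun _ => Multiset.mem_toFinset, fun _ => List.mem_toFinset⟩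

lemma Pos.blue (h : Pos k R B Cd Cs s) (hs : s.1 ≤ Multiset.card s.2) (hR : ∀ e ∈ R, ¬ e.IsDiag)
    (hall : ∀ x y : V, x ≠ y → s(x, y) ∈ R ∨ s(x, y) ∈ B) :
    ¬ (SimpleGraph.fromEdgeSet (B : Set (Sym2 V))).CliqueFree k := by
  obtain ⟨C, L, h1, h2, h3, -⟩ := h
  obtain ⟨C', a1, a2, a3⟩ := ZGood.final hR hall s.1 C L h1 (by simpa [← h2] using hs)
  refine fun hf => hf C'.toFinset ⟨fun u hu v hv huv => ?_,
    (List.toFinset_card_of_nodup a1).trans (a2.trans h3)⟩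
  rw [SimpleGraph.fromEdgeSet_adj]
  exact ⟨a3 u (by simpa using hu) v (by simpa using hv) huv, huv⟩

end pos

variable [Fintype V]

/-- total weight of the sets without a blue edge -/
def Phi (k : ℕ) (w : Finset V → ℕ) (B : Finset (Sym2 V)) : ℕ :=
  ∑ K ∈ univ.powersetCard k, if Disjoint (inner K) B then w K else 0

/-- total weight of the sets without a blue edge that contain a given edge -/
def PhiE (k : ℕ) (w : Finset V → ℕ) (B : Finset (Sym2 V)) (e : Sym2 V) : ℕ :=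
  ∑ K ∈ univ.powersetCard k, if Disjoint (inner K) B ∧ e ∈ inner K then w K else 0

variable {k : ℕ} {w w' : Finset V → ℕ} {R B B' : Finset (Sym2 V)}

lemma Phi_insert (e : Sym2 V) : Phi k w (insert e B) + PhiE k w B e = Phi k w B := by
  unfold Phi PhiE
  rw [← sum_add_distrib]
  refine sum_congr rfl fun K _ => ?_
  by_cases h1 : Disjoint (inner K) B <;> by_cases h2 : e ∈ inner K <;>
    simp [disjoint_insert_right, h1, h2]

lemma Phi_le (hw : ∀ K, Disjoint (inner K) B' → w' K ≤ w K) (hB : B ⊆ B') :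
    Phi k w' B' ≤ Phi k w B := by
  refine sum_le_sum fun K _ => ?_
  split_ifs with h1 h2
  · exact hw K h1
  · exact absurd (disjoint_of_subset_right hB h1) h2
  all_goals exact Nat.zero_le _

lemma PhiE_le (hw : ∀ K, Disjoint (inner K) B' → w' K ≤ w K) (hB : B ⊆ B') (e : Sym2 V) :
    PhiE k w' B' e ≤ PhiE k w B e := by
  refine sum_le_sum fun K _ => ?_
  split_ifs with h1 h2
  · exact hw K h1.1
  · exact absurd ⟨disjoint_of_subset_right hB h1.1, h1.2⟩ h2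
  all_goals exact Nat.zero_le _

lemma Phi_triple {e : Sym2 V} (hw : ∀ K, w' K ≤ w K * if e ∈ inner K then 3 else 1) :
    Phi k w' B ≤ Phi k w B + 2 * PhiE k w B e := by
  unfold Phi PhiE
  rw [mul_sum, ← sum_add_distrib]
  refine sum_le_sum fun K _ => ?_
  have := hw K
  by_cases h1 : Disjoint (inner K) B <;> by_cases h2 : e ∈ inner K <;>
    simp [h1, h2] at this ⊢ <;> omega

lemma block1 (k : ℕ) (w : Finset V → ℕ) (B G : Finset (Sym2 V)) : ∃ F ⊆ G, F.card ≤ 1 ∧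
    ∀ f ∈ G, Phi k w (B ∪ F) + PhiE k w B f ≤ Phi k w B := by
  rcases G.eq_empty_or_nonempty with rfl | hG
  · exact ⟨∅, Subset.rfl, by simp, by simp⟩
  obtain ⟨e, he, hm⟩ := exists_max_image G (PhiE k w B) hG
  refine ⟨{e}, singleton_subset_iff.2 he, by simp, fun f hf => ?_⟩
  have h1 := Phi_insert (k := k) (w := w) (B := B) e
  have h2 := hm f hf
  rw [union_comm, ← insert_eq]
  omega

lemma block2 (k : ℕ) (w : Finset V → ℕ) (B G : Finset (Sym2 V)) : ∃ F ⊆ G, F.card ≤ 2 ∧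
    ∀ f ∈ G, Phi k w (B ∪ F) + 2 * PhiE k w (B ∪ F) f ≤ Phi k w B := by
  obtain ⟨F1, a1, a2, a3⟩ := block1 k w B G
  obtain ⟨F2, b1, b2, b3⟩ := block1 k w (B ∪ F1) G
  refine ⟨F1 ∪ F2, union_subset a1 b1, (card_union_le _ _).trans (by omega), fun f hf => ?_⟩
  have h1 := a3 f hf
  have h2 := b3 f hf
  have h3 := PhiE_le (k := k) (fun K _ => le_refl (w K)) (subset_union_left (s₁ := B) (s₂ := F1)) f
  have h4 := PhiE_le (k := k) (fun K _ => le_refl (w K))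
    (subset_union_left (s₁ := B ∪ F1) (s₂ := F2)) f
  rw [← union_assoc]
  omega

lemma le_Phi {K : Finset V} (hK : K.card = k) (hd : Disjoint (inner K) B) : w K ≤ Phi k w B := by
  have := single_le_sum (f := fun K => if Disjoint (inner K) B then w K else 0)
    (fun _ _ => Nat.zero_le _) (mem_powersetCard.2 ⟨subset_univ K, hK⟩)
  rw [if_pos hd] at this
  exact this

/-- The second player has the larger clique number. -/
def Win (R B : Finset (Sym2 V)) : Prop :=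
  ∃ k : ℕ, ¬ (SimpleGraph.fromEdgeSet (B : Set (Sym2 V))).CliqueFree k ∧
    (SimpleGraph.fromEdgeSet (R : Set (Sym2 V))).CliqueFree k

/-- The invariant of the reactive stage, with the first player to move. -/
def Inv2 (k : ℕ) (R B : Finset (Sym2 V)) : Prop :=
  ∃ Cd Cs s t, Pos k R B Cd Cs s ∧ WinB t s ∧
    Phi k (fun K => 3 ^ gx R Cd Cs t K) B < 3 ^ k.choose 2 ∧
    ∀ e, ¬ e.IsDiag → e ∉ R → e ∉ B → Phi k (fun K => 3 ^ gx R Cd Cs t K) B +
      2 * PhiE k (fun K => 3 ^ gx R Cd Cs t K) B e < 3 ^ k.choose 2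

lemma Inv2.mono (h : Inv2 k R B) (hB : B ⊆ B') : Inv2 k R B' := by
  obtain ⟨Cd, Cs, s, t, h0, h1, h2, h3⟩ := h
  have a1 := Phi_le (k := k) (fun K _ => le_refl (3 ^ gx R Cd Cs t K)) hB
  refine ⟨Cd, Cs, s, t, h0.mono hB, h1, a1.trans_lt h2, fun e a b c => ?_⟩
  have a2 := PhiE_le (k := k) (fun K _ => le_refl (3 ^ gx R Cd Cs t K)) hB e
  have a3 := h3 e a b fun hb => c (hB hb)
  omega

/-- With the second player to move, a small potential gives the invariant after two edges. -/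
theorem Pos.block {Cd Cs : Finset V} {s : AS} {t : ℕ} (h : Pos k R B Cd Cs s) (hW : WinB t s)
    (hP : Phi k (fun K => 3 ^ gx R Cd Cs t K) B < 3 ^ k.choose 2) :
    ∃ F, F.card ≤ 2 ∧ (∀ f ∈ F, f ∉ R ∧ f ∉ B ∧ ¬ f.IsDiag) ∧ Inv2 k R (B ∪ F) := by
  obtain ⟨F, a1, a2, a3⟩ := block2 k (fun K => 3 ^ gx R Cd Cs t K) B
    (univ.filter fun f => f ∉ R ∧ f ∉ B ∧ ¬ f.IsDiag)
  refine ⟨F, a2, fun f hf => (mem_filter.1 (a1 hf)).2, Cd, Cs, s, t, h.mono subset_union_left, hW,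
    (Phi_le (fun _ _ => le_rfl) subset_union_left).trans_lt hP, fun e a b c => ?_⟩
  exact (a3 e (mem_filter.2 ⟨mem_univ _, b, fun hb => c (mem_union_left _ hb), a⟩)).trans_lt hP

theorem Inv2.step (h : Inv2 k R B) (hR : ∀ e ∈ R, ¬ e.IsDiag) (hd : Disjoint R B) {e : Sym2 V}
    (he : ¬ e.IsDiag) (heR : e ∉ R) (heB : e ∉ B) : ∃ F, F.card ≤ 2 ∧
      (∀ f ∈ F, f ∉ insert e R ∧ f ∉ B ∧ ¬ f.IsDiag) ∧ Inv2 k (insert e R) (B ∪ F) := by
  obtain ⟨Cd, Cs, s, t, h0, h1, h2, h3⟩ := h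
  by_cases hz : e ∈ inner (Cd ∪ Cs)
  · rcases t with _ | t
    · obtain ⟨_, _, -, -, a | a⟩ := h0.hit (Nd := fun _ => False) (Nk := fun _ => False) h1 heR
        heB hz <;> exact a.1.elim
    obtain ⟨Cd1, s1, a1, a2, a3⟩ := h0.hit (Nd := fun s1 => ∃ s', Reply 2 s1 s' ∧ WinB t s')
      (Nk := fun s1 => ∃ s', Reply 2 s1 s' ∧ WinB t s') h1 heR heB hz
    obtain ⟨s', a4, a5⟩ := a3.elim And.left And.left
    obtain ⟨F, Cd', Cs', b1, b2, b3, b4, b5, b6⟩ := a2.reply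
      (fun f hf => (mem_insert.1 hf).elim (fun e => e ▸ he) (hR f)) a4
    have hw : ∀ K, Disjoint (inner K) (B ∪ F) →
        3 ^ gx (insert e R) Cd' Cs' t K ≤ 3 ^ gx R Cd Cs (t + 1) K := fun K hK => by
      refine Nat.pow_le_pow_right (by norm_num) (gx_zone (h0.mat hR hd) (union_subset
        ((b3.trans a1).trans subset_union_left) (b5.trans (union_subset_union_left a1)))
        (b3.trans a1) b4 hz t fun heK hD => ?_)
      have hx : ∀ x ∈ e, x ∈ K := fun x hx => by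
        obtain ⟨y, rfl⟩ := Sym2.mem_iff_exists.1 hx
        exact (mk_mem_inner.1 heK).2.1
      rcases a3 with ⟨-, x, c1, c2, c3⟩ | ⟨-, c1⟩
      · exact ⟨x, hx x c1, c2, fun hc => c3 (b3 hc)⟩
      obtain ⟨c, c2, c3⟩ := not_disjoint_iff.1 hD
      obtain ⟨x, c4, c5⟩ : ∃ x ∈ e, c ≠ x := by
        obtain ⟨u, -, v, -, huv, rfl⟩ := mem_inner.1 heK
        by_cases hc : c = u
        · exact ⟨v, by simp, hc ▸ huv⟩
        · exact ⟨u, by simp, hc⟩
      exact absurd (mem_union_left F (c1 c c3 x c4))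
        (disjoint_left.1 hK (mk_mem_inner.2 ⟨c5, c2, hx x c4⟩))
    have d1 := Phi_le (k := k) hw subset_union_left
    refine ⟨F, b1, b2, Cd', Cs', s', t, b6, a5, d1.trans_lt h2, fun f a b c => ?_⟩
    have d2 := PhiE_le (k := k) hw subset_union_left f
    have d3 := h3 f a (fun hr => b (mem_insert_of_mem hr)) fun hb => c (mem_union_left _ hb)
    omega
  · refine (h0.wild he hz).block h1 ((Phi_triple fun K => ?_).trans_lt (h3 e he heR heB))
    refine (Nat.pow_le_pow_right (by norm_num) (gx_wild R Cd Cs e t K)).trans ?_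
    split_ifs <;> simp [pow_succ]

theorem Inv2.win (h : Inv2 k R B) (hR : ∀ e ∈ R, ¬ e.IsDiag) (hd : Disjoint R B)
    (hall : ∀ x y : V, x ≠ y → s(x, y) ∈ R ∨ s(x, y) ∈ B) : Win R B := by
  obtain ⟨Cd, Cs, s, t, h1, h0, h2, -⟩ := h
  refine ⟨k, h1.blue h0.card_le hR hall, fun K hK => ?_⟩
  have a1 : inner K ⊆ R := fun e he => by
    obtain ⟨u, hu, v, hv, huv, rfl⟩ := mem_inner.1 he
    exact ((SimpleGraph.fromEdgeSet_adj _).1 (hK.1 hu hv huv)).1
  have a2 := gx_ge (h1.mat hR hd) t K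
  rw [inter_eq_right.2 a1, card_inner, hK.2] at a2
  have a3 := le_Phi (w := fun K => 3 ^ gx R Cd Cs t K) hK.2 (disjoint_of_subset_left a1 hd)
  exact absurd ((Nat.pow_le_pow_right (by norm_num) a2).trans a3) (not_le.2 h2)

/-- An invariant `P` of a first stage that is kept or passes to the reactive stage gives a
strategy. -/
theorem strat_of_stage (E : Finset (Sym2 V)) (hE : ∀ e, e ∈ E ↔ ¬ e.IsDiag)
    (P : Finset (Sym2 V) → Finset (Sym2 V) → Prop)
    (hend : ∀ R B, (∀ e ∈ R, ¬ e.IsDiag) → Disjoint R B → P R B →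
      (∀ x y : V, x ≠ y → s(x, y) ∈ R ∨ s(x, y) ∈ B) → Win R B)
    (hmono : ∀ R B B', B ⊆ B' → Disjoint R B' → P R B → P R B')
    (hstep : ∀ R B, (∀ e ∈ R, ¬ e.IsDiag) → Disjoint R B → P R B → ∀ e, ¬ e.IsDiag → e ∉ R →
      e ∉ B → ∃ F, F.card ≤ 2 ∧ (∀ f ∈ F, f ∉ insert e R ∧ f ∉ B ∧ ¬ f.IsDiag) ∧
        (P (insert e R) (B ∪ F) ∨ ∃ k, Inv2 k (insert e R) (B ∪ F)))
    (R0 B0 : Finset (Sym2 V)) (hR0 : R0 ⊆ E) (hB0 : B0 ⊆ E) (h0 : Disjoint R0 B0)
    (hP : P R0 B0 ∨ ∃ k, Inv2 k R0 B0) : Strat E Win (R0, B0) := by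
  refine strat_of_inv E Win (fun R B => P R B ∨ ∃ k, Inv2 k R B) ?_ ?_ ?_ R0 B0 hR0 hB0 h0 hP
  · intro R B hR _ hd h hU
    have a1 : ∀ e ∈ R, ¬ e.IsDiag := fun e he => (hE e).1 (hR he)
    have a2 : ∀ x y : V, x ≠ y → s(x, y) ∈ R ∨ s(x, y) ∈ B := fun x y hxy =>
      mem_union.1 (hU ▸ (hE _).2 fun hg => hxy (Sym2.mk_isDiag_iff.1 hg))
    exact h.elim (fun h => hend R B a1 hd h a2) fun ⟨_, h⟩ => h.win a1 hd a2
  · intro R B F _ _ hd _ hF h
    exact h.imp (hmono R B _ subset_union_left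
      (disjoint_union_right.2 ⟨hd, (disjoint_union_right.1 hF).1.symm⟩))
      fun ⟨k, h⟩ => ⟨k, h.mono subset_union_left⟩
  · intro R B hR _ hd h e he heR heB
    have a1 : ∀ e ∈ R, ¬ e.IsDiag := fun e he => (hE e).1 (hR he)
    obtain ⟨F, b1, b2, b3⟩ : ∃ F : Finset (Sym2 V), F.card ≤ 2 ∧
        (∀ f ∈ F, f ∉ insert e R ∧ f ∉ B ∧ ¬ f.IsDiag) ∧
        (P (insert e R) (B ∪ F) ∨ ∃ k, Inv2 k (insert e R) (B ∪ F)) := by
      rcases h with h | ⟨k, h⟩
      · exact hstep R B a1 hd h e ((hE e).1 he) heR heB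
      · obtain ⟨F, b1, b2, b3⟩ := h.step a1 hd ((hE e).1 he) heR heB
        exact ⟨F, b1, b2, Or.inr ⟨k, b3⟩⟩
    exact ⟨F, fun f hf => (hE f).2 (b2 f hf).2.2, disjoint_left.2 fun f hf hm =>
      (mem_union.1 hm).elim (b2 f hf).1 (b2 f hf).2.1, b1, b3⟩

theorem stage2 (E : Finset (Sym2 V)) (hE : ∀ e, e ∈ E ↔ ¬ e.IsDiag) (hR : R ⊆ E) (hB : B ⊆ E)
    (hd : Disjoint R B) (h : Inv2 k R B) : Strat E Win (R, B) :=
  strat_of_stage E hE (fun _ _ => False) (fun _ _ _ _ h => h.elim) (fun _ _ _ _ _ h => h)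
    (fun _ _ _ _ h => h.elim) R B hR hB hd (Or.inr ⟨k, h⟩)

end Pool.Agent.Lib.MP_1024aa_co
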