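import Pool.Agent.Lib.MP_1024aa_co.Zone5

/-! A closed form for the building game with deficiencies at most one. -/

set_option autoImplicit false

namespace Pool.Agent.Lib.MP_1024aa_co

section ops

variable {b r a0 p0 a1 p1 p2 : ℕ} {s : AS}

lemma bA (g : Reply b (r, toM [a0 + 1, p0, a1, p1, p2]) s) :
    Reply (b + 1) (r, toM [a0, p0, a1 + 1, p1, p2]) s :=
  reply_build (i := 0) (n := 0) (by omega) (by omega) (Nat.succ_ne_zero a1) g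

lemma bP (g : Reply b (r, toM [a0, p0 + 1, a1, p1, p2]) s) :
    Reply (b + 1) (r, toM [a0, p0, a1, p1 + 1, p2]) s :=
  reply_build (i := 0) (n := 1) (by omega) (by omega) (Nat.succ_ne_zero p1) g

lemma bQ (g : Reply b (r, toM [a0, p0, a1, p1 + 1, p2]) s) :
    Reply (b + 1) (r, toM [a0, p0, a1, p1, p2 + 1]) s :=
  reply_build (i := 0) (n := 2) (by omega) (by omega) (Nat.succ_ne_zero p2) g

lemma pA (g : Reply b (r, toM [0, 0, a0 + p1, 0, p0]) s) :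
    Reply b (r + 1, toM [a0 + 1, p0, a1, p1, p2]) s :=
  reply_promote sh1_ok (n := 0) (by omega) (Nat.succ_ne_zero a0) g

lemma pP (g : Reply b (r, toM [0, 0, a0 + p1, 0, p0]) s) :
    Reply b (r + 1, toM [a0, p0 + 1, a1, p1, p2]) s :=
  reply_promote sh1_ok (n := 1) (by omega) (Nat.succ_ne_zero p0) g

lemma pQ (g : Reply b (r, toM [0, 0, a0 + p1, 0, p0]) s) :
    Reply b (r + 1, toM [a0, p0, a1, p1 + 1, p2]) s :=
  reply_promote sh1_ok (n := 2) (by omega) (Nat.succ_ne_zero p1) g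

lemma cond5 {N : AS → Prop} (h0 : r ≤ a0 + p0 + a1 + p1 + p2)
    (k1 : ∀ x, a1 = x + 1 → N (r, toM [a0, p0, x, p1, p2]))
    (k2 : ∀ x, p1 = x + 1 → N (r, toM [a0 + 1, p0, a1, x, p2]))
    (k3 : ∀ x, p2 = x + 1 → N (r, toM [a0, p0, a1 + 1, p1, x]))
    (m1 : ∀ x, a0 = x + 2 → N (r, toM [x, p0 + 1, a1, p1, p2]))
    (m2 : ∀ x, p0 = x + 1 → N (r, toM [a0 + 1, x, a1, p1, p2]))
    (m3 : ∀ x, p1 = x + 1 → N (r, toM [a0, p0, a1 + 1, x, p2])) :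
    Cond N (r, toM [a0, p0, a1, p1, p2]) := by
  have key : ∀ x : ℕ, x ≠ 0 → x = x - 1 + 1 := fun x h => by omega
  refine cond_list (by simp; omega) (fun i hi n hn g => ?_) fun n' hn' n hn g g' => ?_
  · interval_cases i <;> interval_cases n
    · exact k1 _ (key a1 g)
    · exact k2 _ (key p1 g)
    · exact k3 _ (key p2 g)
    all_goals exact absurd rfl g
  · interval_cases n' <;> interval_cases n
    · have h : a0 - 1 ≠ 0 := g'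
      exact Or.inr (Or.inr (m1 (a0 - 1 - 1) (by omega)))
    · exact Or.inr (Or.inl (m2 _ (key p0 g')))
    · exact Or.inl (m2 _ (key p0 g))
    · exact Or.inr (Or.inl (m3 _ (key p1 g')))
    · exact Or.inr (Or.inl (m3 _ (key p1 g')))
    · exact Or.inl (m3 _ (key p1 g))
    all_goals exact absurd rfl g'

end ops

/-- the condition on two consecutive thresholds -/
def Step (p q : ℕ) : Prop :=
  (p = 0 ∨ p = 5 ∨ 8 ≤ p) ∧ 5 ≤ q ∧ (q % 3 = 1 → 3 * p + 11 ≤ 2 * q) ∧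
    (q % 3 = 2 → 3 * p + 7 ≤ 2 * q) ∧ (q % 9 = 2 → 3 * p + 13 ≤ 2 * q) ∧
    (q % 3 = 0 → 3 * p + 9 ≤ 2 * q) ∧ (q % 9 = 3 → 3 * p + 15 ≤ 2 * q)

instance (p q : ℕ) : Decidable (Step p q) := by unfold Step; infer_instance

section closed

variable {W : AS → Prop} {t r q : ℕ}
  (hW : ∀ a0 p0 a1 p1 p2, q ≤ 6 * a0 + 9 * p0 + 4 * a1 + 7 * p1 + 6 * p2 →
    (a1 ≠ 0 → q < 6 * a0 + 9 * p0 + 4 * a1 + 7 * p1 + 6 * p2) →
    2 * a0 + 3 * p0 + 2 * a1 + 3 * p1 + 3 * p2 ≤ t → W (r, toM [a0, p0, a1, p1, p2]))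

include hW

lemma repA (a0 p0 a1 p1 p2 : ℕ) (h : q ≤ 6 * a0 + 9 * p0 + 4 * a1 + 7 * p1 + 6 * p2 + 3)
    (h1 : 2 ≤ a1 + p1 ∨ 1 ≤ p2) (hm : 2 * a0 + 3 * p0 + 2 * a1 + 3 * p1 + 3 * p2 ≤ t) :
    ∃ s, Reply 2 (r, toM [a0, p0, a1, p1, p2]) s ∧ W s := by
  rcases a1 with _ | _ | a1
  · rcases p1 with _ | _ | p1
    · obtain ⟨p2, rfl⟩ : ∃ x, p2 = x + 1 := ⟨p2 - 1, by omega⟩
      exact ⟨_, bQ (bP (.refl _ _)), hW _ _ _ _ _ (by omega) (by omega) (by omega)⟩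
    · obtain ⟨p2, rfl⟩ : ∃ x, p2 = x + 1 := ⟨p2 - 1, by omega⟩
      exact ⟨_, bQ (bP (.refl _ _)), hW _ _ _ _ _ (by omega) (by omega) (by omega)⟩
    · exact ⟨_, bP (bP (.refl _ _)), hW _ _ _ _ _ (by omega) (by omega) (by omega)⟩
  · rcases p1 with _ | p1
    · obtain ⟨p2, rfl⟩ : ∃ x, p2 = x + 1 := ⟨p2 - 1, by omega⟩
      exact ⟨_, bQ (bA (.refl _ _)), hW _ _ _ _ _ (by omega) (by omega) (by omega)⟩
    · exact ⟨_, bP (bA (.refl _ _)), hW _ _ _ _ _ (by omega) (by omega) (by omega)⟩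
  · exact ⟨_, bA (bA (.refl _ _)), hW _ _ _ _ _ (by omega) (by omega) (by omega)⟩

lemma repB (hq : q = 0 ∨ q = 5 ∨ 8 ≤ q) (a p : ℕ) (h : q ≤ 4 * a + 6 * p + 3)
    (hm : 2 * a + 3 * p ≤ t) : ∃ s, Reply 2 (r, toM [0, 0, a, 0, p]) s ∧ W s := by
  by_cases h1 : 2 ≤ a + 0 ∨ 1 ≤ p
  · exact repA hW 0 0 a 0 p (by omega) h1 (by omega)
  rcases a with _ | a
  · exact ⟨_, .refl _ _, hW _ _ _ _ _ (by omega) (by omega) (by omega)⟩
  · exact ⟨_, bA (.refl _ _), hW _ _ _ _ _ (by omega) (by omega) (by omega)⟩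

lemma repC (hq : q = 0 ∨ q = 5 ∨ 8 ≤ q) (a p : ℕ) (h : q ≤ 4 * a + 6 * p + 1)
    (hm : 2 * a + 3 * p ≤ t) : ∃ s, Reply 1 (r, toM [0, 0, a, 0, p]) s ∧ W s := by
  rcases a with _ | a
  · rcases p with _ | p
    · exact ⟨_, .refl _ _, hW _ _ _ _ _ (by omega) (by omega) (by omega)⟩
    · exact ⟨_, bQ (.refl _ _), hW _ _ _ _ _ (by omega) (by omega) (by omega)⟩
  · exact ⟨_, bA (.refl _ _), hW _ _ _ _ _ (by omega) (by omega) (by omega)⟩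

lemma repD {q' : ℕ} (hs : Step q q')
    (hW' : ∀ a0 p0 a1 p1 p2, q' ≤ 6 * a0 + 9 * p0 + 4 * a1 + 7 * p1 + 6 * p2 →
      (a1 ≠ 0 → q' < 6 * a0 + 9 * p0 + 4 * a1 + 7 * p1 + 6 * p2) →
      2 * a0 + 3 * p0 + 2 * a1 + 3 * p1 + 3 * p2 ≤ t → W (r + 1, toM [a0, p0, a1, p1, p2]))
    (a0 p0 a1 p1 p2 : ℕ) (h : q' ≤ 6 * a0 + 9 * p0 + 4 * a1 + 7 * p1 + 6 * p2 + 3)
    (hm : 2 * a0 + 3 * p0 + 2 * a1 + 3 * p1 + 3 * p2 ≤ t) :
    ∃ s, Reply 2 (r + 1, toM [a0, p0, a1, p1, p2]) s ∧ W s := by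
  obtain ⟨s0, s1, s2, s3, s4, s5, s6⟩ := hs
  by_cases h1 : 2 ≤ a1 + p1 ∨ 1 ≤ p2
  · exact repA hW' a0 p0 a1 p1 p2 h h1 hm
  obtain rfl : p2 = 0 := by omega
  rcases a1 with _ | a1
  · rcases p1 with _ | p1
    · by_cases h2 : q' ≤ 6 * a0 + 9 * p0
      · exact ⟨_, .refl _ _, hW' _ _ _ _ _ (by omega) (by omega) (by omega)⟩
      rcases a0 with _ | a0
      · obtain ⟨p0, rfl⟩ : ∃ x, p0 = x + 1 := ⟨p0 - 1, by omega⟩
        obtain ⟨s, a, b⟩ := repB hW s0 (0 + 0) p0 (by omega) (by omega)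
        exact ⟨s, pP a, b⟩
      · obtain ⟨s, a, b⟩ := repB hW s0 (a0 + 0) p0 (by omega) (by omega)
        exact ⟨s, pA a, b⟩
    · by_cases h2 : q' ≤ 6 * a0 + 9 * p0 + 9
      · exact ⟨_, bP (.refl _ _), hW' _ _ _ _ _ (by omega) (by omega) (by omega)⟩
      · obtain ⟨s, a, b⟩ := repB hW s0 (a0 + p1) p0 (by omega) (by omega)
        exact ⟨s, pQ a, b⟩
  · by_cases h2 : q' ≤ 6 * a0 + 9 * p0 + 6
    · exact ⟨_, bA (.refl _ _), hW' _ _ _ _ _ (by omega) (by omega) (by omega)⟩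
    · obtain ⟨s, a, b⟩ := repC hW s0 (a0 + p1) p0 (by omega) (by omega)
      exact ⟨s, bA (pA a), b⟩

end closed

theorem closed_form (Th : ℕ → ℕ) (K : ℕ) (h0 : Th 0 = 0)
    (hs : ∀ r < K, Step (Th r) (Th (r + 1)) ∧ 9 * r < Th (r + 1)) (t : ℕ) :
    ∀ r ≤ K, ∀ a0 p0 a1 p1 p2, Th r ≤ 6 * a0 + 9 * p0 + 4 * a1 + 7 * p1 + 6 * p2 →
      (a1 ≠ 0 → Th r < 6 * a0 + 9 * p0 + 4 * a1 + 7 * p1 + 6 * p2) →
      2 * a0 + 3 * p0 + 2 * a1 + 3 * p1 + 3 * p2 ≤ t → WinB t (r, toM [a0, p0, a1, p1, p2]) := by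
  have hc : ∀ r ≤ K, ∀ a0 p0 a1 p1 p2, Th r ≤ 6 * a0 + 9 * p0 + 4 * a1 + 7 * p1 + 6 * p2 →
      r ≤ a0 + p0 + a1 + p1 + p2 := by
    rintro (_ | r) hr a0 p0 a1 p1 p2 h
    · omega
    · have := (hs r hr).2
      omega
  induction t with
  | zero =>
    intro r hr a0 p0 a1 p1 p2 h1 h2 h3
    refine cond5 (hc r hr _ _ _ _ _ h1) ?_ ?_ ?_ ?_ ?_ ?_ <;> intro x hx <;> omega
  | succ t ih =>
    have key : ∀ r ≤ K, ∀ a0 p0 a1 p1 p2,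
        Th r ≤ 6 * a0 + 9 * p0 + 4 * a1 + 7 * p1 + 6 * p2 + 3 →
        2 * a0 + 3 * p0 + 2 * a1 + 3 * p1 + 3 * p2 ≤ t →
        ∃ s, Reply 2 (r, toM [a0, p0, a1, p1, p2]) s ∧ WinB t s := by
      rintro (_ | r) hr a0 p0 a1 p1 p2 h1 h2
      · exact ⟨_, .refl _ _, ih 0 hr _ _ _ _ _ (by omega) (by omega) h2⟩
      · exact repD (ih r (by omega)) (hs r hr).1 (ih (r + 1) hr) _ _ _ _ _ h1 h2
    intro r hr a0 p0 a1 p1 p2 h1 h2 h3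
    refine cond5 (hc r hr _ _ _ _ _ h1) ?_ ?_ ?_ ?_ ?_ ?_ <;> intro x hx <;>
      exact key r hr _ _ _ _ _ (by omega) (by omega)

/-- the thresholds -/
def Th (r : ℕ) : ℕ := getL r [0, 5, 13, 23, 40, 67, 104, 161, 247, 374, 566, 854, 1286, 1934, 2906,
  4364, 6551, 9832, 14755, 22136, 33209, 49819, 74732, 112103, 168160]

theorem winB_Th {k m : ℕ} (hk : k ≤ 24) (hm : Th k ≤ 6 * m) :
    ∃ t, WinB t (k, Multiset.replicate m (0, none)) := by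
  have h := closed_form Th 24 rfl (by decide) (2 * m) k hk m 0 0 0 0 (by omega) (by omega)
    (by omega)
  exact ⟨_, by simpa only [toM, tys, toMs, Multiset.replicate_zero, add_zero] using h⟩

end Pool.Agent.Lib.MP_1024aa_co
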